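import Pool.Agent.Lib.MP_0a3b9a_nt.Defs

/-!
Basic API for `In`, `Cg`, `Rd`.
-/

namespace SCong
open Finset

variable {p : ℕ} [Fact p.Prime] {x y z x' y' c : ℚ_[p]} {n m k : ℕ} {a b : ZMod p}

theorem pne : (p : ℚ_[p]) ≠ 0 := by exact_mod_cast (Fact.out : p.Prime).ne_zero

/-! ### `In` -/

theorem in_iff : In p x ↔ ‖x‖ ≤ 1 := by
  constructor
  · rintro ⟨w, rfl⟩; exact w.2
  · intro h; exact ⟨⟨x, h⟩, rfl⟩

theorem In.coe (w : ℤ_[p]) : In p (w : ℚ_[p]) := ⟨w, rfl⟩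
theorem In.nat (n : ℕ) : In p (n : ℚ_[p]) := ⟨n, by simp⟩
theorem In.int (n : ℤ) : In p (n : ℚ_[p]) := ⟨n, by simp⟩
theorem In.zero : In p (0 : ℚ_[p]) := ⟨0, by simp⟩
theorem In.one : In p (1 : ℚ_[p]) := ⟨1, by simp⟩
theorem In.add (h : In p x) (h' : In p y) : In p (x + y) := by
  obtain ⟨w, rfl⟩ := h; obtain ⟨w', rfl⟩ := h'; exact ⟨w + w', by simp⟩
theorem In.sub (h : In p x) (h' : In p y) : In p (x - y) := by
  obtain ⟨w, rfl⟩ := h; obtain ⟨w', rfl⟩ := h'; exact ⟨w - w', by simp⟩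
theorem In.neg (h : In p x) : In p (-x) := by
  obtain ⟨w, rfl⟩ := h; exact ⟨-w, by simp⟩
theorem In.mul (h : In p x) (h' : In p y) : In p (x * y) := by
  obtain ⟨w, rfl⟩ := h; obtain ⟨w', rfl⟩ := h'; exact ⟨w * w', by simp⟩
theorem In.pow (h : In p x) (n : ℕ) : In p (x ^ n) := by
  obtain ⟨w, rfl⟩ := h; exact ⟨w ^ n, by simp⟩
theorem In.sum {ι : Type*} {s : Finset ι} {f : ι → ℚ_[p]} (h : ∀ i ∈ s, In p (f i)) :
    In p (∑ i ∈ s, f i) := by
  classical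
  induction s using Finset.induction_on with
  | empty => simpa using In.zero
  | insert i s hi ih =>
    rw [sum_insert hi]
    exact (h i (mem_insert_self _ _)).add (ih fun j hj => h j (mem_insert_of_mem hj))
theorem In.prod {ι : Type*} {s : Finset ι} {f : ι → ℚ_[p]} (h : ∀ i ∈ s, In p (f i)) :
    In p (∏ i ∈ s, f i) := by
  classical
  induction s using Finset.induction_on with
  | empty => simpa using In.one
  | insert i s hi ih =>
    rw [prod_insert hi]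
    exact (h i (mem_insert_self _ _)).mul (ih fun j hj => h j (mem_insert_of_mem hj))

/-! ### `Cg` -/

theorem Cg.refl (n : ℕ) (x : ℚ_[p]) : Cg p n x x := ⟨0, by simp⟩
theorem Cg.of_eq (h : x = y) : Cg p n x y := h ▸ Cg.refl n x
theorem Cg.symm (h : Cg p n x y) : Cg p n y x := by
  obtain ⟨w, hw⟩ := h; exact ⟨-w, by push_cast; linear_combination -hw⟩
theorem Cg.trans (h : Cg p n x y) (h' : Cg p n y z) : Cg p n x z := by
  obtain ⟨w, hw⟩ := h; obtain ⟨w', hw'⟩ := h'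
  exact ⟨w + w', by push_cast; linear_combination hw + hw'⟩
theorem Cg.add (h : Cg p n x y) (h' : Cg p n x' y') : Cg p n (x + x') (y + y') := by
  obtain ⟨w, hw⟩ := h; obtain ⟨w', hw'⟩ := h'
  exact ⟨w + w', by push_cast; linear_combination hw + hw'⟩
theorem Cg.sub (h : Cg p n x y) (h' : Cg p n x' y') : Cg p n (x - x') (y - y') := by
  obtain ⟨w, hw⟩ := h; obtain ⟨w', hw'⟩ := h'
  exact ⟨w - w', by push_cast; linear_combination hw - hw'⟩
theorem Cg.neg (h : Cg p n x y) : Cg p n (-x) (-y) := by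
  obtain ⟨w, hw⟩ := h; exact ⟨-w, by push_cast; linear_combination -hw⟩
theorem Cg.mul_left (hc : In p c) (h : Cg p n x y) : Cg p n (c * x) (c * y) := by
  obtain ⟨w, hw⟩ := h; obtain ⟨v, rfl⟩ := hc
  exact ⟨v * w, by push_cast; linear_combination (v : ℚ_[p]) * hw⟩
theorem Cg.mul_right (hc : In p c) (h : Cg p n x y) : Cg p n (x * c) (y * c) := by
  rw [mul_comm x, mul_comm y]; exact h.mul_left hc
theorem Cg.mul (h : Cg p n x y) (h' : Cg p n x' y') (hx' : In p x') (hy : In p y) :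
    Cg p n (x * x') (y * y') := (h.mul_right hx').trans (h'.mul_left hy)
theorem Cg.in (h : Cg p n x y) (hy : In p y) : In p x := by
  obtain ⟨w, hw⟩ := h
  have : x = y + (p : ℚ_[p]) ^ n * w := by linear_combination hw
  rw [this]; exact hy.add (((In.nat p).pow n).mul (In.coe w))
theorem Cg.in' (h : Cg p n x y) (hx : In p x) : In p y := h.symm.in hx
theorem Cg.pow (h : Cg p n x y) (hx : In p x) (k : ℕ) : Cg p n (x ^ k) (y ^ k) := by
  induction k with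
  | zero => simpa using Cg.refl n 1
  | succ k ih => rw [pow_succ, pow_succ]; exact ih.mul h hx ((h.in' hx).pow k)
theorem Cg.sum {ι : Type*} {s : Finset ι} {f g : ι → ℚ_[p]} (h : ∀ i ∈ s, Cg p n (f i) (g i)) :
    Cg p n (∑ i ∈ s, f i) (∑ i ∈ s, g i) := by
  classical
  induction s using Finset.induction_on with
  | empty => simpa using Cg.refl n 0
  | insert i s hi ih =>
    rw [sum_insert hi, sum_insert hi]
    exact (h i (mem_insert_self _ _)).add (ih fun j hj => h j (mem_insert_of_mem hj))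
theorem Cg.prod {ι : Type*} {s : Finset ι} {f g : ι → ℚ_[p]} (hf : ∀ i ∈ s, In p (f i))
    (h : ∀ i ∈ s, Cg p n (f i) (g i)) : Cg p n (∏ i ∈ s, f i) (∏ i ∈ s, g i) := by
  classical
  induction s using Finset.induction_on with
  | empty => simpa using Cg.refl n 1
  | insert i s hi ih =>
    rw [prod_insert hi, prod_insert hi]
    exact (h i (mem_insert_self _ _)).mul
      (ih (fun j hj => hf j (mem_insert_of_mem hj)) fun j hj => h j (mem_insert_of_mem hj))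
      (In.prod fun j hj => hf j (mem_insert_of_mem hj))
      ((h i (mem_insert_self _ _)).in' (hf i (mem_insert_self _ _)))
theorem Cg.mono (hmn : m ≤ n) (h : Cg p n x y) : Cg p m x y := by
  obtain ⟨w, hw⟩ := h
  refine ⟨(p : ℤ_[p]) ^ (n - m) * w, ?_⟩
  rw [hw]
  push_cast
  rw [← mul_assoc, ← pow_add, Nat.add_sub_cancel' hmn]
/-- `x ≡ y mod p^n -> p x ≡ p y mod p^(n+1)`. -/
theorem Cg.pmul (h : Cg p n x y) : Cg p (n + 1) (p * x) (p * y) := by
  obtain ⟨w, hw⟩ := h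
  exact ⟨w, by rw [pow_succ]; linear_combination (p : ℚ_[p]) * hw⟩
theorem Cg.of_pmul (h : Cg p (n + 1) (p * x) (p * y)) : Cg p n x y := by
  obtain ⟨w, hw⟩ := h
  refine ⟨w, mul_left_cancel₀ (pne (p := p)) ?_⟩
  rw [pow_succ] at hw
  linear_combination hw
theorem Cg.pow_mul_zero (h : In p x) (n : ℕ) : Cg p n ((p : ℚ_[p]) ^ n * x) 0 := by
  obtain ⟨w, rfl⟩ := h; exact ⟨w, by ring⟩
theorem cg_zero_iff : Cg p 0 x y ↔ In p (x - y) := by
  constructor
  · rintro ⟨w, hw⟩; rw [hw]; simpa using In.coe w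
  · rintro ⟨w, hw⟩; exact ⟨w, by simp [hw]⟩
theorem cg_iff_sub : Cg p n x y ↔ Cg p n (x - y) 0 := by
  constructor <;> rintro ⟨w, hw⟩ <;> exact ⟨w, by linear_combination hw⟩

/-! ### `Rd` -/

theorem Rd.coe (w : ℤ_[p]) : Rd p (w : ℚ_[p]) (PadicInt.toZMod w) := ⟨w, rfl, rfl⟩
theorem Rd.nat (n : ℕ) : Rd p (n : ℚ_[p]) (n : ZMod p) := ⟨n, by simp, by simp⟩
theorem Rd.int (n : ℤ) : Rd p (n : ℚ_[p]) (n : ZMod p) := ⟨n, by simp, by simp⟩
theorem Rd.zero : Rd p (0 : ℚ_[p]) 0 := ⟨0, by simp, by simp⟩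
theorem Rd.one : Rd p (1 : ℚ_[p]) 1 := ⟨1, by simp, by simp⟩
theorem Rd.add (h : Rd p x a) (h' : Rd p y b) : Rd p (x + y) (a + b) := by
  obtain ⟨w, rfl, rfl⟩ := h; obtain ⟨w', rfl, rfl⟩ := h'; exact ⟨w + w', by simp, by simp⟩
theorem Rd.sub (h : Rd p x a) (h' : Rd p y b) : Rd p (x - y) (a - b) := by
  obtain ⟨w, rfl, rfl⟩ := h; obtain ⟨w', rfl, rfl⟩ := h'; exact ⟨w - w', by simp, by simp⟩
theorem Rd.neg (h : Rd p x a) : Rd p (-x) (-a) := by
  obtain ⟨w, rfl, rfl⟩ := h; exact ⟨-w, by simp, by simp⟩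
theorem Rd.mul (h : Rd p x a) (h' : Rd p y b) : Rd p (x * y) (a * b) := by
  obtain ⟨w, rfl, rfl⟩ := h; obtain ⟨w', rfl, rfl⟩ := h'; exact ⟨w * w', by simp, by simp⟩
theorem Rd.pow (h : Rd p x a) (n : ℕ) : Rd p (x ^ n) (a ^ n) := by
  obtain ⟨w, rfl, rfl⟩ := h; exact ⟨w ^ n, by simp, by simp⟩
theorem Rd.sum {ι : Type*} {s : Finset ι} {f : ι → ℚ_[p]} {g : ι → ZMod p}
    (h : ∀ i ∈ s, Rd p (f i) (g i)) : Rd p (∑ i ∈ s, f i) (∑ i ∈ s, g i) := by
  classical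
  induction s using Finset.induction_on with
  | empty => simpa using Rd.zero
  | insert i s hi ih =>
    rw [sum_insert hi, sum_insert hi]
    exact (h i (mem_insert_self _ _)).add (ih fun j hj => h j (mem_insert_of_mem hj))
theorem Rd.prod {ι : Type*} {s : Finset ι} {f : ι → ℚ_[p]} {g : ι → ZMod p}
    (h : ∀ i ∈ s, Rd p (f i) (g i)) : Rd p (∏ i ∈ s, f i) (∏ i ∈ s, g i) := by
  classical
  induction s using Finset.induction_on with
  | empty => simpa using Rd.one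
  | insert i s hi ih =>
    rw [prod_insert hi, prod_insert hi]
    exact (h i (mem_insert_self _ _)).mul (ih fun j hj => h j (mem_insert_of_mem hj))
theorem Rd.in (h : Rd p x a) : In p x := by obtain ⟨w, h, -⟩ := h; exact ⟨w, h⟩
theorem In.rd (h : In p x) : ∃ a, Rd p x a := by
  obtain ⟨w, rfl⟩ := h; exact ⟨_, Rd.coe w⟩

theorem toZMod_eq_zero (w : ℤ_[p]) : PadicInt.toZMod w = 0 ↔ ∃ v : ℤ_[p], w = p * v := by
  rw [← RingHom.mem_ker, PadicInt.ker_toZMod, PadicInt.maximalIdeal_eq_span_p,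
    Ideal.mem_span_singleton]
  exact Iff.rfl

theorem Rd.unique (h : Rd p x a) (h' : Rd p x b) : a = b := by
  obtain ⟨w, hw, rfl⟩ := h; obtain ⟨w', hw', rfl⟩ := h'
  have : w = w' := by apply Subtype.ext; exact hw.trans hw'.symm
  rw [this]
theorem rd_zero_iff : Rd p x 0 ↔ Cg p 1 x 0 := by
  constructor
  · rintro ⟨w, rfl, hw⟩
    obtain ⟨v, rfl⟩ := (toZMod_eq_zero w).1 hw
    exact ⟨v, by push_cast; ring⟩
  · rintro ⟨w, hw⟩
    refine ⟨p * w, by push_cast; linear_combination -hw, ?_⟩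
    exact (toZMod_eq_zero _).2 ⟨w, rfl⟩
theorem Rd.cg (h : Rd p x a) (h' : Rd p y a) : Cg p 1 x y := by
  rw [cg_iff_sub, ← rd_zero_iff]; simpa using h.sub h'
theorem Rd.of_cg (h : Rd p y a) (h' : Cg p 1 x y) : Rd p x a := by
  have h1 : Rd p (x - y) 0 := rd_zero_iff.2 (cg_iff_sub.1 h')
  simpa using h1.add h
theorem Rd.cg_iff (h : Rd p x a) (h' : Rd p y b) : Cg p 1 x y ↔ a = b := by
  constructor
  · intro h1; exact (h'.of_cg h1).unique h |>.symm
  · rintro rfl; exact h.cg h'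
theorem Rd.norm (h : Rd p x a) (ha : a ≠ 0) : ‖x‖ = 1 := by
  obtain ⟨w, rfl, rfl⟩ := h
  have h1 : w ∉ IsLocalRing.maximalIdeal ℤ_[p] := by
    rw [← PadicInt.ker_toZMod, RingHom.mem_ker]; exact ha
  have h2 : IsUnit w := by
    by_contra h; exact h1 h
  exact PadicInt.isUnit_iff.1 h2
theorem Rd.ne_zero (h : Rd p x a) (ha : a ≠ 0) : x ≠ 0 := by
  intro h0; have := h.norm ha; rw [h0, norm_zero] at this; exact one_ne_zero this.symm
theorem Rd.inv (h : Rd p x a) (ha : a ≠ 0) : Rd p x⁻¹ a⁻¹ := by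
  have h1 := h.norm ha
  have h0 := h.ne_zero ha
  have h2 : In p x⁻¹ := by rw [in_iff, norm_inv, h1, inv_one]
  obtain ⟨b, hb⟩ := h2.rd
  have h3 : Rd p (x * x⁻¹) (a * b) := h.mul hb
  rw [mul_inv_cancel₀ h0] at h3
  have h4 := h3.unique Rd.one
  rwa [eq_inv_of_mul_eq_one_right h4] at hb
theorem Rd.div (h : Rd p x a) (h' : Rd p y b) (hb : b ≠ 0) : Rd p (x / y) (a / b) := by
  rw [div_eq_mul_inv, div_eq_mul_inv]; exact h.mul (h'.inv hb)

theorem nat_ne_zero {n : ℕ} (h : ¬ p ∣ n) : (n : ZMod p) ≠ 0 := by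
  rw [Ne, ZMod.natCast_eq_zero_iff]; exact h
theorem In.inv_nat {n : ℕ} (h : ¬ p ∣ n) : In p ((n : ℚ_[p])⁻¹) :=
  ((Rd.nat n).inv (nat_ne_zero h)).in
theorem In.div_nat {n : ℕ} (hx : In p x) (h : ¬ p ∣ n) : In p (x / n) := by
  rw [div_eq_mul_inv]; exact hx.mul (In.inv_nat h)
theorem In.inv_of_rd (h : Rd p x a) (ha : a ≠ 0) : In p x⁻¹ := (h.inv ha).in
theorem Cg.inv (h : Cg p n x y) (hn : 1 ≤ n) (hx : Rd p x a) (ha : a ≠ 0) : Cg p n x⁻¹ y⁻¹ := by
  have hy : Rd p y a := hx.of_cg (h.symm.mono hn)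
  have h0 := hx.ne_zero ha
  have h1 := hy.ne_zero ha
  obtain ⟨w, hw⟩ := h
  obtain ⟨u, hu⟩ := (hx.inv ha).in
  obtain ⟨v, hv⟩ := (hy.inv ha).in
  refine ⟨-(w * u * v), ?_⟩
  push_cast
  rw [hu, hv]
  field_simp
  linear_combination -hw
/-- cancel a unit factor. -/
theorem Cg.cancel (h : Cg p n (c * x) (c * y)) (hc : Rd p c a) (ha : a ≠ 0) : Cg p n x y := by
  have h1 := h.mul_left (In.inv_of_rd hc ha)
  rwa [inv_mul_cancel_left₀ (hc.ne_zero ha), inv_mul_cancel_left₀ (hc.ne_zero ha)] at h1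

theorem small_not_dvd {i : ℕ} (hi : i + 1 < p) : ¬ p ∣ i + 1 :=
  fun h => absurd (Nat.le_of_dvd (Nat.succ_pos i) h) (by omega)
theorem succ_ne {i : ℕ} (hi : i + 1 < p) : (i : ZMod p) + 1 ≠ 0 := by
  have := nat_ne_zero (p := p) (small_not_dvd hi); push_cast at this; exact this
theorem Rd.succ (i : ℕ) : Rd p ((i : ℚ_[p]) + 1) ((i : ZMod p) + 1) := (Rd.nat i).add Rd.one

theorem ne_of_five (hp : 5 ≤ p) : (2 : ZMod p) ≠ 0 ∧ (3 : ZMod p) ≠ 0 := by
  constructor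
  · have := nat_ne_zero (p := p) (n := 2) (fun h => absurd (Nat.le_of_dvd (by norm_num) h) (by omega))
    exact_mod_cast this
  · have := nat_ne_zero (p := p) (n := 3) (fun h => absurd (Nat.le_of_dvd (by norm_num) h) (by omega))
    exact_mod_cast this

/-! ### Fermat -/

theorem Rd.fermat (h : Rd p x a) (ha : a ≠ 0) : Cg p 1 (x ^ (p - 1)) 1 := by
  refine (h.pow (p - 1)).cg ?_
  rw [ZMod.pow_card_sub_one_eq_one ha]; exact Rd.one
theorem Rd.frob (h : Rd p x a) : Cg p 1 (x ^ p) x := by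
  refine (h.pow p).cg ?_
  rw [ZMod.pow_card]; exact h
/-- `x ≡ y mod p -> x^p ≡ y^p mod p^2`. -/
theorem Cg.frob2 (h : Cg p 1 x y) (hy : In p y) : Cg p 2 (x ^ p) (y ^ p) := by
  obtain ⟨w, hw⟩ := h
  obtain ⟨v, rfl⟩ := hy
  have hx : x = ((v + p * w : ℤ_[p]) : ℚ_[p]) := by push_cast; linear_combination hw
  have h1 : ((p : ℤ_[p]) ^ 2) ∣ (v + p * w) ^ p - v ^ p := by
    have := dvd_sub_pow_of_dvd_sub (R := ℤ_[p]) (p := p) (a := v + p * w) (b := v)
      (by simp) 1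
    simpa using this
  obtain ⟨u, hu⟩ := h1
  refine ⟨u, ?_⟩
  rw [hx]
  have := congrArg (fun t : ℤ_[p] => (t : ℚ_[p])) hu
  push_cast at this ⊢
  exact this

theorem fq_spec (hp : 5 ≤ p) {a : ℕ} (ha : ¬ p ∣ a) : a ^ (p - 1) = 1 + p * fq p a := by
  have h1 : a ^ (p - 1) ≡ 1 [MOD p] := by
    have := ZMod.pow_card_sub_one_eq_one (nat_ne_zero (p := p) ha)
    rw [← ZMod.natCast_eq_natCast_iff]; push_cast; exact this
  have h0 : 1 ≤ a ^ (p - 1) := Nat.one_le_pow _ _ (Nat.pos_of_ne_zero (by rintro rfl; simp at ha))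
  have h2 : p ∣ a ^ (p - 1) - 1 := (Nat.modEq_iff_dvd' h0).1 h1.symm
  unfold fq
  rw [Nat.mul_div_cancel' h2]; omega

end SCong
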