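import Mathlib

/-!
Definitions for the complete (corrected) solution of MP_0a3b9a_nt.
Paper proof: /team-store/SC_PROOF.md.
-/

namespace SCong
open Finset Polynomial

section p
variable (p : ℕ) [Fact p.Prime]

/-- `x ≡ y` modulo `p^n` (with `p`-integral quotient). -/
def Cg (n : ℕ) (x y : ℚ_[p]) : Prop := ∃ w : ℤ_[p], x - y = (p : ℚ_[p]) ^ n * (w : ℚ_[p])

/-- `x` is `p`-integral. -/
def In (x : ℚ_[p]) : Prop := ∃ w : ℤ_[p], (w : ℚ_[p]) = x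

/-- `x` is `p`-integral with residue `a`. -/
def Rd (x : ℚ_[p]) (a : ZMod p) : Prop := ∃ w : ℤ_[p], (w : ℚ_[p]) = x ∧ PadicInt.toZMod w = a

end p

section field
variable (K : Type*) [Field K]

/-- `(1/3)_k (2/3)_k / k!^2`. -/
noncomputable def cc (k : ℕ) : K :=
  ∏ i ∈ range k, (((i : K) + 1 / 3) * ((i : K) + 2 / 3) / ((i : K) + 1) ^ 2)

/-- derivative of `cc` under the shift `i -> i + ε`. -/
noncomputable def gg : ℕ → K
  | 0 => 0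
  | k + 1 => gg k * (((k : K) + 1 / 3) * ((k : K) + 2 / 3) / ((k : K) + 1) ^ 2) +
      cc K k * ((2 * (k : K) + 1) / ((k : K) + 1) ^ 2 -
        2 * (((k : K) + 1 / 3) * ((k : K) + 2 / 3)) / ((k : K) + 1) ^ 3)

/-- `(1/3)_k (1/6)_k / k!^2`. -/
noncomputable def s1 (k : ℕ) : K :=
  ∏ i ∈ range k, (((i : K) + 1 / 3) * ((i : K) + 1 / 6) / ((i : K) + 1) ^ 2)

/-- `(2/3)_k (5/6)_k / k!^2`. -/
noncomputable def s2 (k : ℕ) : K :=
  ∏ i ∈ range k, (((i : K) + 2 / 3) * ((i : K) + 5 / 6) / ((i : K) + 1) ^ 2)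

variable {K}

/-- coefficients with parameter `s = n(n+1)`: `(-n)_k (n+1)_k / k!^2`. -/
noncomputable def aa (s : K) (k : ℕ) : K :=
  ∏ i ∈ range k, (((i : K) * ((i : K) + 1) - s) / ((i : K) + 1) ^ 2)

/-- `(-n/2)_k ((n+1)/2)_k / k!^2`. -/
noncomputable def bb (s : K) (k : ℕ) : K :=
  ∏ i ∈ range k, (((i : K) ^ 2 + (i : K) / 2 - s / 4) / ((i : K) + 1) ^ 2)

/-- `((1-n)/2)_k (1+n/2)_k / k!^2`. -/
noncomputable def ee (s : K) (k : ℕ) : K :=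
  ∏ i ∈ range k, (((i : K) ^ 2 + 3 * (i : K) / 2 + (2 - s) / 4) / ((i : K) + 1) ^ 2)

/-- harmonic numbers. -/
noncomputable def har (K : Type*) [Field K] (a : ℕ) : K := ∑ i ∈ range a, ((i : K) + 1)⁻¹

end field

/-- Fermat quotient of a natural number. -/
def fq (p a : ℕ) : ℕ := (a ^ (p - 1) - 1) / p

section p2
variable (p : ℕ) [Fact p.Prime]

noncomputable def HH (z : ℚ_[p]) : ℚ_[p] := ∑ k ∈ range p, cc ℚ_[p] k * z ^ k
noncomputable def GG (z : ℚ_[p]) : ℚ_[p] := ∑ k ∈ range p, gg ℚ_[p] k * z ^ k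
/-- `θ G`. -/
noncomputable def TG (z : ℚ_[p]) : ℚ_[p] := ∑ k ∈ range p, (k : ℚ_[p]) * gg ℚ_[p] k * z ^ k
/-- `θ H`. -/
noncomputable def TH (z : ℚ_[p]) : ℚ_[p] := ∑ k ∈ range p, (k : ℚ_[p]) * cc ℚ_[p] k * z ^ k
noncomputable def SS1 (x : ℚ_[p]) : ℚ_[p] := ∑ k ∈ range p, s1 ℚ_[p] k * x ^ k
noncomputable def SS2 (x : ℚ_[p]) : ℚ_[p] := ∑ k ∈ range p, s2 ℚ_[p] k * x ^ k

/-- the polynomials modulo `p`. -/
noncomputable def Hp : (ZMod p)[X] := ∑ k ∈ range p, C (cc (ZMod p) k) * X ^ k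
noncomputable def Gp : (ZMod p)[X] := ∑ k ∈ range p, C (gg (ZMod p) k) * X ^ k

/-- `H(y^3)`, `G(y^3)`. -/
noncomputable def vv : (ZMod p)[X] := (Hp p).comp (X ^ 3)
noncomputable def Gb : (ZMod p)[X] := (Gp p).comp (X ^ 3)

/-- `Q = 9y(1+y+y^2)`, `L = 1 + 2y`; `α = Q / L^3`. -/
noncomputable def QQ : (ZMod p)[X] := 9 * X * (1 + X + X ^ 2)
noncomputable def LL : (ZMod p)[X] := 1 + 2 * X

/-- `L^(p-1) H(α)`, `L^(p-1) (θH)(α)`. -/
noncomputable def H0 : (ZMod p)[X] :=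
  ∑ k ∈ range (p / 3 + 1), C (cc (ZMod p) k) * QQ p ^ k * LL p ^ (p - 1 - 3 * k)
noncomputable def H1 : (ZMod p)[X] :=
  ∑ k ∈ range (p / 3 + 1), C ((k : ZMod p) * cc (ZMod p) k) * QQ p ^ k * LL p ^ (p - 1 - 3 * k)
/-- `L^(2p-1) G(α)`, `L^(2p-1) (θG)(α)`. -/
noncomputable def G0 : (ZMod p)[X] :=
  ∑ k ∈ range (2 * p / 3 + 1), C (gg (ZMod p) k) * QQ p ^ k * LL p ^ (2 * p - 1 - 3 * k)
noncomputable def G1 : (ZMod p)[X] :=
  ∑ k ∈ range (2 * p / 3 + 1), C ((k : ZMod p) * gg (ZMod p) k) * QQ p ^ k * LL p ^ (2 * p - 1 - 3 * k)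

/-- the polynomial `E` attached to `Cz`, `Bz` (which are `((1+y+y^2)^p-1-y^p-y^(2p))/p` and
`((1+2y)^p-1-2y^p)/p`). -/
noncomputable def EE (Cz Bz : ℤ[X]) : (ZMod p)[X] :=
  3 * (1 + 2 * X ^ p) * Cz.map (Int.castRingHom (ZMod p))
    - 9 * (1 + X ^ p + X ^ (2 * p)) * Bz.map (Int.castRingHom (ZMod p))
    - 3 * C (fq p 3 : ZMod p) * (1 + X ^ p + X ^ (2 * p)) * (1 + 2 * X ^ p)
    + C (fq p 27 : ZMod p) * (1 - X ^ p) ^ 2

/-- the polynomial `X` of the text. -/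
noncomputable def XX (Cz Bz : ℤ[X]) : (ZMod p)[X] :=
  3 * (1 + X ^ p + X ^ (2 * p)) * G0 p + EE p Cz Bz * vv p - (1 - X ^ p) ^ 2 * Gb p

/-- hypothesis on `Cz`, `Bz`. -/
def CB (Cz Bz : ℤ[X]) : Prop :=
  C (p : ℤ) * Cz = (1 + X + X ^ 2) ^ p - 1 - X ^ p - X ^ (2 * p) ∧
  C (p : ℤ) * Bz = (1 + 2 * X) ^ p - 1 - 2 * X ^ p

/-- nonzero residues. -/
noncomputable def FF : Finset (ZMod p) := univ.filter (fun u => u ≠ 0)

/-- `U + V + α (UV)^(p-2) - 1` with `U = u^p`, `V = v^p`. -/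
noncomputable def yy (α : ℚ_[p]) (u v : ZMod p) : ℚ_[p] :=
  (u.val : ℚ_[p]) ^ p + (v.val : ℚ_[p]) ^ p +
    α * ((u.val : ℚ_[p]) ^ p) ^ (p - 2) * ((v.val : ℚ_[p]) ^ p) ^ (p - 2) - 1

/-- the part of the multinomial expansion of `(u + v + w - 1)^M` with `i ≡ j ≡ k mod (p-1)`. -/
noncomputable def TM (M : ℕ) (α : ℚ_[p]) : ℚ_[p] :=
  ∑ i ∈ range (M + 1), ∑ j ∈ range (M + 1), ∑ k ∈ range (M + 1),
    if i + j + k ≤ M ∧ i ≡ k [MOD (p - 1)] ∧ j ≡ k [MOD (p - 1)] then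
      (-1) ^ (M - i - j - k) * ((M.factorial : ℚ_[p]) /
        (i.factorial * j.factorial * k.factorial * (M - i - j - k).factorial)) * α ^ k else 0

/-- the multinomial coefficients which occur for `M = p - 1` and `M = 2(p-1)`. -/
noncomputable def mA (k : ℕ) : ℚ_[p] :=
  (-1) ^ k * (((p - 1).factorial : ℚ_[p]) / (k.factorial ^ 3 * (p - 1 - 3 * k).factorial))
noncomputable def mB (k : ℕ) : ℚ_[p] :=
  (-1) ^ k * (((2 * p - 2).factorial : ℚ_[p]) / (k.factorial ^ 3 * (2 * p - 2 - 3 * k).factorial))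
noncomputable def mC (k : ℕ) : ℚ_[p] :=
  (-1) ^ k * (((2 * p - 2).factorial : ℚ_[p]) /
    ((k + p - 1).factorial * k.factorial ^ 2 * (p - 1 - 3 * k).factorial))
noncomputable def mD : ℚ_[p] := ((2 * p - 2).factorial : ℚ_[p]) / ((p - 1).factorial : ℚ_[p]) ^ 2

/-- number of points of `u + v + a/(uv) = 1`. -/
noncomputable def NN (a : ZMod p) : ℕ :=
  ((univ : Finset (ZMod p × ZMod p)).filter
    (fun w => w.1 ≠ 0 ∧ w.2 ≠ 0 ∧ w.1 + w.2 + a / (w.1 * w.2) = 1)).card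

/-- `sum over x of φ(x(x^2+4x+2))`. -/
noncomputable def SW : ℤ := ∑ x : ZMod p, quadraticChar (ZMod p) (x * (x ^ 2 + 4 * x + 2))

end p2

/-- index of a nonzero element of a field, for a homomorphism to the integers mod 8. -/
noncomputable def ind {F : Type*} [Field F] (f : Fˣ →* Multiplicative (ZMod 8)) (x : F) : ZMod 8 :=
  open Classical in if h : x = 0 then 0 else Multiplicative.toAdd (f (Units.mk0 x h))

/-- `exp(2 π i k / 8)`. -/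
noncomputable def ze (k : ZMod 8) : ℂ := Complex.exp (2 * Real.pi * Complex.I * (k.val : ℂ) / 8)

end SCong
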