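import Pool.Agent.Lib.MP_0a3b9a_nt.N1

/-!
Module N3.  Multinomial expansion: yy^M = sum over i+j+k <= M of M!/(i!j!k!(M-i-j-k)!) (-1)^(M-i-j-k) α^k U^(i+(p-2)k) V^(j+(p-2)k) (three times add_pow; the coefficient is C(M,i)C(M-i,j)C(M-i-j,k)),
then tau_sum in u and v: p-1 | i + (p-2)k iff i ≡ k mod p-1.  The multinomial coefficients are integers.
-/

namespace SCong
open Finset Polynomial
variable {p : ℕ} [Fact p.Prime]

theorem N3_add_pow {K : Type*} [Field K] [CharZero K] (x y : K) (N M : ℕ) (h : N ≤ M) :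
    (x + y) ^ N * ((N.factorial : K))⁻¹ = ∑ i ∈ range (M + 1),
      if i ≤ N then (x ^ i * ((i.factorial : K))⁻¹) * (y ^ (N - i) * (((N - i).factorial : K))⁻¹) else 0 := by
  rw [← Finset.sum_filter]
  have hf : (range (M + 1)).filter (fun i => i ≤ N) = range (N + 1) := by
    ext i
    simp only [Finset.mem_filter, Finset.mem_range]
    omega
  rw [hf, add_pow, Finset.sum_mul]
  refine Finset.sum_congr rfl fun i hi => ?_
  have hi' : i ≤ N := by
    rw [Finset.mem_range] at hi; omega
  rw [Nat.cast_choose K hi']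
  have h1 : (N.factorial : K) ≠ 0 := by exact_mod_cast N.factorial_ne_zero
  have h2 : (i.factorial : K) ≠ 0 := by exact_mod_cast i.factorial_ne_zero
  have h3 : ((N - i).factorial : K) ≠ 0 := by exact_mod_cast (N - i).factorial_ne_zero
  field_simp

/-- the multinomial formula in a commutative ring (a field of characteristic zero). -/
theorem multinom {K : Type*} [Field K] [CharZero K] (a b c d : K) (M : ℕ) : (a + b + c + d) ^ M =
    ∑ i ∈ range (M + 1), ∑ j ∈ range (M + 1), ∑ k ∈ range (M + 1),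
      if i + j + k ≤ M then ((M.factorial : K) /
        (i.factorial * j.factorial * k.factorial * (M - i - j - k).factorial)) *
          (a ^ i * b ^ j * c ^ k * d ^ (M - i - j - k)) else 0 := by
  have hM : (M.factorial : K) ≠ 0 := by exact_mod_cast M.factorial_ne_zero
  have key : (a + b + c + d) ^ M * ((M.factorial : K))⁻¹ =
      ∑ i ∈ range (M + 1), ∑ j ∈ range (M + 1), ∑ k ∈ range (M + 1),
      if i + j + k ≤ M then ((i.factorial * j.factorial * k.factorial *
        (M - i - j - k).factorial : K)⁻¹) *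
          (a ^ i * b ^ j * c ^ k * d ^ (M - i - j - k)) else 0 := by
    have e : a + b + c + d = a + (b + (c + d)) := by ring
    rw [e, N3_add_pow a (b + (c + d)) M M le_rfl]
    refine Finset.sum_congr rfl fun i hi => ?_
    have hi' : i ≤ M := by
      rw [Finset.mem_range] at hi; omega
    rw [if_pos hi', N3_add_pow b (c + d) (M - i) M (Nat.sub_le _ _), Finset.mul_sum]
    refine Finset.sum_congr rfl fun j hj => ?_
    by_cases hij : j ≤ M - i
    · rw [if_pos hij, N3_add_pow c d (M - i - j) M (by omega), Finset.mul_sum, Finset.mul_sum]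
      refine Finset.sum_congr rfl fun k hk => ?_
      by_cases hijk : k ≤ M - i - j
      · rw [if_pos hijk, if_pos (by omega)]
        simp only [mul_inv]
        ring
      · rw [if_neg hijk, if_neg (by omega), mul_zero, mul_zero]
    · rw [if_neg hij, mul_zero]
      symm
      refine Finset.sum_eq_zero fun k hk => ?_
      rw [if_neg (by omega)]
  have h2 : (a + b + c + d) ^ M = (M.factorial : K) * ((a + b + c + d) ^ M * ((M.factorial : K))⁻¹) := by
    field_simp
  rw [h2, key, Finset.mul_sum]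
  refine Finset.sum_congr rfl fun i hi => ?_
  rw [Finset.mul_sum]
  refine Finset.sum_congr rfl fun j hj => ?_
  rw [Finset.mul_sum]
  refine Finset.sum_congr rfl fun k hk => ?_
  rw [mul_ite, mul_zero]
  by_cases h : i + j + k ≤ M
  · simp only [if_pos h]
    ring
  · simp only [if_neg h]

theorem N3_int (M i j k : ℕ) (h : i + j + k ≤ M) : In p ((M.factorial : ℚ_[p]) /
    (i.factorial * j.factorial * k.factorial * (M - i - j - k).factorial)) := by
  have e : ((M.factorial : ℚ_[p]) /
    (i.factorial * j.factorial * k.factorial * (M - i - j - k).factorial)) =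
      (M.choose i : ℚ_[p]) * ((M - i).choose j : ℚ_[p]) * ((M - i - j).choose k : ℚ_[p]) := by
    rw [Nat.cast_choose ℚ_[p] (by omega : i ≤ M), Nat.cast_choose ℚ_[p] (by omega : j ≤ M - i),
      Nat.cast_choose ℚ_[p] (by omega : k ≤ M - i - j)]
    have h1 : ∀ n : ℕ, (n.factorial : ℚ_[p]) ≠ 0 := fun n => by exact_mod_cast n.factorial_ne_zero
    have h2 := h1 i
    have h3 := h1 j
    have h4 := h1 k
    have h5 := h1 (M - i)
    have h6 := h1 (M - i - j)
    have h7 := h1 (M - i - j - k)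
    field_simp
  rw [e]
  exact ((In.nat _).mul (In.nat _)).mul (In.nat _)

theorem N3_dvd (hp : 5 ≤ p) (i k : ℕ) : (p - 1) ∣ i + (p - 2) * k ↔ i ≡ k [MOD (p - 1)] := by
  have h1 : (p - 1) * k = k + (p - 2) * k := by
    obtain ⟨q, rfl⟩ : ∃ q, p = q + 2 := ⟨p - 2, by omega⟩
    have e1 : q + 2 - 1 = q + 1 := by omega
    have e2 : q + 2 - 2 = q := by omega
    rw [e1, e2]; ring
  constructor
  · intro h
    have h2 : i + (p - 2) * k ≡ k + (p - 2) * k [MOD (p - 1)] := by
      rw [← h1]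
      exact ((Nat.modEq_zero_iff_dvd).2 h).trans ((Nat.modEq_zero_iff_dvd).2 (dvd_mul_right _ _)).symm
    exact Nat.ModEq.add_right_cancel' _ h2
  · intro h
    have h2 : i + (p - 2) * k ≡ k + (p - 2) * k [MOD (p - 1)] := h.add_right _
    rw [← h1] at h2
    exact (Nat.modEq_zero_iff_dvd).1 (h2.trans ((Nat.modEq_zero_iff_dvd).2 (dvd_mul_right _ _)))

theorem sum_yy (hp : 5 ≤ p) (M : ℕ) {α : ℚ_[p]} (hα : In p α) :
    Cg p 2 (∑ u ∈ FF p, ∑ v ∈ FF p, yy p α u v ^ M) (((p : ℚ_[p]) - 1) ^ 2 * TM p M α) := by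
  have e1 : ∀ u v : ZMod p, yy p α u v ^ M = ∑ i ∈ range (M + 1), ∑ j ∈ range (M + 1),
      ∑ k ∈ range (M + 1), if i + j + k ≤ M then ((M.factorial : ℚ_[p]) /
        (i.factorial * j.factorial * k.factorial * (M - i - j - k).factorial)) *
          (((u.val : ℚ_[p]) ^ p) ^ i * ((v.val : ℚ_[p]) ^ p) ^ j *
            (α * ((u.val : ℚ_[p]) ^ p) ^ (p - 2) * ((v.val : ℚ_[p]) ^ p) ^ (p - 2)) ^ k *
              (-1) ^ (M - i - j - k)) else 0 := by
    intro u v
    rw [← multinom]
    unfold yy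
    rw [sub_eq_add_neg]
  have e2 : (∑ u ∈ FF p, ∑ v ∈ FF p, yy p α u v ^ M) = ∑ i ∈ range (M + 1), ∑ j ∈ range (M + 1),
      ∑ k ∈ range (M + 1), if i + j + k ≤ M then ((M.factorial : ℚ_[p]) /
        (i.factorial * j.factorial * k.factorial * (M - i - j - k).factorial)) *
          (-1) ^ (M - i - j - k) * α ^ k *
          ((∑ u ∈ FF p, ((u.val : ℚ_[p]) ^ p) ^ (i + (p - 2) * k)) *
            (∑ v ∈ FF p, ((v.val : ℚ_[p]) ^ p) ^ (j + (p - 2) * k))) else 0 := by
    simp_rw [e1]
    have s1 : ∀ u : ZMod p, (∑ v ∈ FF p, ∑ i ∈ range (M + 1), ∑ j ∈ range (M + 1),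
      ∑ k ∈ range (M + 1), if i + j + k ≤ M then ((M.factorial : ℚ_[p]) /
        (i.factorial * j.factorial * k.factorial * (M - i - j - k).factorial)) *
          (((u.val : ℚ_[p]) ^ p) ^ i * ((v.val : ℚ_[p]) ^ p) ^ j *
            (α * ((u.val : ℚ_[p]) ^ p) ^ (p - 2) * ((v.val : ℚ_[p]) ^ p) ^ (p - 2)) ^ k *
              (-1) ^ (M - i - j - k)) else 0) = ∑ i ∈ range (M + 1), ∑ j ∈ range (M + 1),
      ∑ k ∈ range (M + 1), ∑ v ∈ FF p, if i + j + k ≤ M then ((M.factorial : ℚ_[p]) /
        (i.factorial * j.factorial * k.factorial * (M - i - j - k).factorial)) *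
          (((u.val : ℚ_[p]) ^ p) ^ i * ((v.val : ℚ_[p]) ^ p) ^ j *
            (α * ((u.val : ℚ_[p]) ^ p) ^ (p - 2) * ((v.val : ℚ_[p]) ^ p) ^ (p - 2)) ^ k *
              (-1) ^ (M - i - j - k)) else 0 := by
      intro u
      rw [Finset.sum_comm]
      refine Finset.sum_congr rfl fun i _ => ?_
      rw [Finset.sum_comm]
      refine Finset.sum_congr rfl fun j _ => ?_
      rw [Finset.sum_comm]
    simp_rw [s1]
    rw [Finset.sum_comm]
    refine Finset.sum_congr rfl fun i _ => ?_
    rw [Finset.sum_comm]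
    refine Finset.sum_congr rfl fun j _ => ?_
    rw [Finset.sum_comm]
    refine Finset.sum_congr rfl fun k _ => ?_
    by_cases h : i + j + k ≤ M
    · simp only [if_pos h]
      rw [Finset.sum_mul_sum, Finset.mul_sum]
      refine Finset.sum_congr rfl fun u _ => ?_
      rw [Finset.mul_sum]
      refine Finset.sum_congr rfl fun v _ => ?_
      rw [pow_add _ i, pow_add _ j, pow_mul, pow_mul _ (p - 2) k, mul_pow, mul_pow]
      ring
    · simp only [if_neg h, Finset.sum_const_zero]
  rw [e2]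
  unfold TM
  rw [Finset.mul_sum]
  refine Cg.sum fun i _ => ?_
  rw [Finset.mul_sum]
  refine Cg.sum fun j _ => ?_
  rw [Finset.mul_sum]
  refine Cg.sum fun k _ => ?_
  by_cases h : i + j + k ≤ M
  · rw [if_pos h]
    have hu := tau_sum hp (i + (p - 2) * k)
    have hv := tau_sum hp (j + (p - 2) * k)
    have hin : In p ((M.factorial : ℚ_[p]) /
        (i.factorial * j.factorial * k.factorial * (M - i - j - k).factorial) *
          (-1) ^ (M - i - j - k) * α ^ k) :=
      ((N3_int M i j k h).mul (In.one.neg.pow _)).mul (hα.pow k)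
    have hs : ∀ e : ℕ, In p (∑ u ∈ FF p, ((u.val : ℚ_[p]) ^ p) ^ e) :=
      fun e => In.sum fun u _ => (N1_in u).pow e
    have hI : In p (if (p - 1) ∣ i + (p - 2) * k then ((p : ℚ_[p]) - 1) else 0) := by
      split_ifs
      · exact (In.nat p).sub In.one
      · exact In.zero
    have hc := (hu.mul hv (hs _) hI).mul_left hin
    refine hc.trans (Cg.of_eq ?_)
    simp only [N3_dvd hp]
    by_cases h1 : i ≡ k [MOD (p - 1)]
    · by_cases h2 : j ≡ k [MOD (p - 1)]
      · rw [if_pos h1, if_pos h2, if_pos ⟨h, h1, h2⟩]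
        ring
      · have h4 : ¬ (i + j + k ≤ M ∧ i ≡ k [MOD (p - 1)] ∧ j ≡ k [MOD (p - 1)]) := fun h3 => h2 h3.2.2
        rw [if_neg h2, if_neg h4]
        ring
    · have h4 : ¬ (i + j + k ≤ M ∧ i ≡ k [MOD (p - 1)] ∧ j ≡ k [MOD (p - 1)]) := fun h3 => h1 h3.2.1
      rw [if_neg h1, if_neg h4]
      ring
  · rw [if_neg h, if_neg (fun h3 => h h3.1), mul_zero]
    exact Cg.refl _ _

end SCong
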