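import Pool.Agent.Lib.MP_0a3b9a_nt.Basic

/-!
Module N4: enumeration of the triples.  i ≡ j ≡ k mod (p-1) with i+j+k <= p-1: (κ,κ,κ) with 3κ <= p-1, (p-1,0,0), (0,p-1,0), (0,0,p-1).
p >= 5 is odd and not divisible by 3 (not even needed), (-1)^(p-1-3κ) = (-1)^κ.
-/

namespace SCong
open Finset Polynomial
variable {p : ℕ} [Fact p.Prime]

theorem N4_split {K : Type*} [AddCommMonoid K] (q : ℕ) (g : ℕ → K) :
    ∑ i ∈ range (3 * q), g i = ∑ r ∈ range q, ∑ a ∈ range 3, g (r + q * a) := by
  have h : 3 * q = q + (q + q) := by ring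
  rw [h, sum_range_add, sum_range_add]
  simp only [sum_range_succ, sum_range_zero, zero_add, mul_zero, add_zero, mul_one, sum_add_distrib]
  rw [add_assoc]
  congr 1
  congr 1
  · exact sum_congr rfl fun x _ => by rw [add_comm]
  · exact sum_congr rfl fun x _ => by congr 1; ring

theorem N4_inner {K : Type*} [AddCommMonoid K] {q r k : ℕ} (hr : r < q) (hk : k ≡ r [MOD q])
    (g : ℕ → K) :
    ∑ i ∈ range (3 * q), (if i ≡ k [MOD q] then g i else 0) = ∑ a ∈ range 3, g (r + q * a) := by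
  rw [N4_split, sum_comm]
  refine sum_congr rfl fun a _ => ?_
  rw [sum_eq_single r]
  · rw [if_pos]
    have h1 : r + q * a ≡ r [MOD q] := by
      have : r + q * a ≡ r + 0 [MOD q] :=
        Nat.ModEq.add_left r ((Nat.modEq_zero_iff_dvd).2 (Dvd.intro _ rfl))
      simpa using this
    exact h1.trans hk.symm
  · intro b hb hbr
    rw [if_neg]
    intro h
    have h1 : b + q * a ≡ b + 0 [MOD q] :=
      Nat.ModEq.add_left b ((Nat.modEq_zero_iff_dvd).2 (Dvd.intro _ rfl))
    rw [add_zero] at h1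
    have h2 : b ≡ r [MOD q] := h1.symm.trans (h.trans hk)
    apply hbr
    have := Nat.ModEq.eq_of_lt_of_lt h2 (mem_range.1 hb) hr
    exact this
  · intro h; exact absurd (mem_range.2 hr) h

/-- the summand. -/
noncomputable def N4_F (p : ℕ) [Fact p.Prime] (M : ℕ) (α : ℚ_[p]) (i j k : ℕ) : ℚ_[p] :=
  if i + j + k ≤ M then (-1) ^ (M - i - j - k) * ((M.factorial : ℚ_[p]) /
        (i.factorial * j.factorial * k.factorial * (M - i - j - k).factorial)) * α ^ k else 0

theorem N4_zero {M : ℕ} (α : ℚ_[p]) {i j k : ℕ} (h : M < i + j + k) : N4_F p M α i j k = 0 := by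
  unfold N4_F; rw [if_neg (by omega)]

theorem N4_main {M : ℕ} (hM : M < 3 * (p - 1)) (α : ℚ_[p]) :
    TM p M α = ∑ r ∈ range (p - 1), ∑ c ∈ range 3, ∑ a ∈ range 3, ∑ b ∈ range 3,
      N4_F p M α (r + (p - 1) * a) (r + (p - 1) * b) (r + (p - 1) * c) := by
  have h1 : TM p M α = ∑ i ∈ range (M + 1), ∑ j ∈ range (M + 1), ∑ k ∈ range (M + 1),
      (if i ≡ k [MOD (p - 1)] then (if j ≡ k [MOD (p - 1)] then N4_F p M α i j k else 0) else 0) := by
    unfold TM N4_F
    refine sum_congr rfl fun i _ => sum_congr rfl fun j _ => sum_congr rfl fun k _ => ?_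
    by_cases h1 : i + j + k ≤ M <;> by_cases h2 : i ≡ k [MOD (p - 1)] <;>
      by_cases h3 : j ≡ k [MOD (p - 1)] <;> simp [h1, h2, h3]
  have hsub : range (M + 1) ⊆ range (3 * (p - 1)) := range_subset_range.2 (by omega)
  have h2 : TM p M α = ∑ i ∈ range (3 * (p - 1)), ∑ j ∈ range (3 * (p - 1)),
      ∑ k ∈ range (3 * (p - 1)),
      (if i ≡ k [MOD (p - 1)] then (if j ≡ k [MOD (p - 1)] then N4_F p M α i j k else 0) else 0) := by
    rw [h1]
    rw [← sum_subset hsub]
    · refine sum_congr rfl fun i _ => ?_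
      rw [← sum_subset hsub]
      · refine sum_congr rfl fun j _ => ?_
        rw [← sum_subset hsub]
        intro k _ hk
        rw [mem_range] at hk
        rw [N4_zero α (by omega)]
        simp
      · intro j _ hj
        rw [mem_range] at hj
        refine sum_eq_zero fun k _ => ?_
        rw [N4_zero α (by omega)]
        simp
    · intro i _ hi
      rw [mem_range] at hi
      refine sum_eq_zero fun j _ => sum_eq_zero fun k _ => ?_
      rw [N4_zero α (by omega)]
      simp
  have h3 : TM p M α = ∑ k ∈ range (3 * (p - 1)), ∑ i ∈ range (3 * (p - 1)),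
      (if i ≡ k [MOD (p - 1)] then (∑ j ∈ range (3 * (p - 1)),
        (if j ≡ k [MOD (p - 1)] then N4_F p M α i j k else 0)) else 0) := by
    rw [h2]
    have e1 : ∀ i ∈ range (3 * (p - 1)), ∑ j ∈ range (3 * (p - 1)), ∑ k ∈ range (3 * (p - 1)),
        (if i ≡ k [MOD (p - 1)] then (if j ≡ k [MOD (p - 1)] then N4_F p M α i j k else 0) else 0) =
        ∑ k ∈ range (3 * (p - 1)), (if i ≡ k [MOD (p - 1)] then (∑ j ∈ range (3 * (p - 1)),
          (if j ≡ k [MOD (p - 1)] then N4_F p M α i j k else 0)) else 0) := by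
      intro i _
      rw [sum_comm]
      refine sum_congr rfl fun k _ => ?_
      by_cases h : i ≡ k [MOD (p - 1)] <;> simp [h]
    rw [sum_congr rfl e1, sum_comm]
  rw [h3, N4_split]
  refine sum_congr rfl fun r hr => sum_congr rfl fun c _ => ?_
  have hk : r + (p - 1) * c ≡ r [MOD (p - 1)] := by
    have : r + (p - 1) * c ≡ r + 0 [MOD (p - 1)] :=
      Nat.ModEq.add_left r ((Nat.modEq_zero_iff_dvd).2 (Dvd.intro _ rfl))
    simpa using this
  rw [N4_inner (mem_range.1 hr) hk]
  refine sum_congr rfl fun a _ => ?_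
  rw [N4_inner (mem_range.1 hr) hk]

/-- the values of the summand. -/
theorem N4_sum {M : ℕ} (hM : M < 3 * (p - 1)) (α : ℚ_[p]) (r : ℕ) :
    ∑ c ∈ range 3, ∑ a ∈ range 3, ∑ b ∈ range 3,
      N4_F p M α (r + (p - 1) * a) (r + (p - 1) * b) (r + (p - 1) * c) =
    N4_F p M α r r r + (N4_F p M α (r + (p - 1)) r r + N4_F p M α r (r + (p - 1)) r +
      N4_F p M α r r (r + (p - 1))) +
    (N4_F p M α (r + (p - 1) * 2) r r + N4_F p M α r (r + (p - 1) * 2) r +
      N4_F p M α r r (r + (p - 1) * 2) + N4_F p M α (r + (p - 1)) (r + (p - 1)) r +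
      N4_F p M α (r + (p - 1)) r (r + (p - 1)) + N4_F p M α r (r + (p - 1)) (r + (p - 1))) := by
  simp only [sum_range_succ, sum_range_zero, zero_add, mul_zero, add_zero, mul_one]
  rw [N4_zero α (i := r + (p - 1)) (j := r + (p - 1)) (k := r + (p - 1)) (by omega),
    N4_zero α (i := r + (p - 1)) (j := r + (p - 1) * 2) (k := r) (by omega),
    N4_zero α (i := r + (p - 1) * 2) (j := r + (p - 1)) (k := r) (by omega),
    N4_zero α (i := r + (p - 1) * 2) (j := r + (p - 1) * 2) (k := r) (by omega),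
    N4_zero α (i := r) (j := r + (p - 1) * 2) (k := r + (p - 1)) (by omega),
    N4_zero α (i := r + (p - 1)) (j := r + (p - 1) * 2) (k := r + (p - 1)) (by omega),
    N4_zero α (i := r + (p - 1) * 2) (j := r) (k := r + (p - 1)) (by omega),
    N4_zero α (i := r + (p - 1) * 2) (j := r + (p - 1)) (k := r + (p - 1)) (by omega),
    N4_zero α (i := r + (p - 1) * 2) (j := r + (p - 1) * 2) (k := r + (p - 1)) (by omega),
    N4_zero α (i := r) (j := r + (p - 1)) (k := r + (p - 1) * 2) (by omega),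
    N4_zero α (i := r) (j := r + (p - 1) * 2) (k := r + (p - 1) * 2) (by omega),
    N4_zero α (i := r + (p - 1)) (j := r) (k := r + (p - 1) * 2) (by omega),
    N4_zero α (i := r + (p - 1)) (j := r + (p - 1)) (k := r + (p - 1) * 2) (by omega),
    N4_zero α (i := r + (p - 1)) (j := r + (p - 1) * 2) (k := r + (p - 1) * 2) (by omega),
    N4_zero α (i := r + (p - 1) * 2) (j := r) (k := r + (p - 1) * 2) (by omega),
    N4_zero α (i := r + (p - 1) * 2) (j := r + (p - 1)) (k := r + (p - 1) * 2) (by omega),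
    N4_zero α (i := r + (p - 1) * 2) (j := r + (p - 1) * 2) (k := r + (p - 1) * 2) (by omega)]
  ring

theorem N4_even (hp : 5 ≤ p) : Even (p - 1) :=
  (Fact.out : p.Prime).even_sub_one (by omega)

theorem N4_sign {M r : ℕ} (hM : Even M) (h : 3 * r ≤ M) :
    ((-1 : ℚ_[p])) ^ (M - 3 * r) = (-1) ^ r := by
  rcases Nat.even_or_odd r with hr | hr
  · rw [hr.neg_one_pow]
    apply Even.neg_one_pow
    rw [Nat.even_sub h]
    exact ⟨fun _ => hr.mul_left 3, fun _ => hM⟩
  · rw [hr.neg_one_pow]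
    apply Odd.neg_one_pow
    rw [Nat.odd_sub h]
    constructor
    · intro h2; exact absurd h2 (Nat.not_odd_iff_even.2 hM)
    · intro h2
      exfalso
      rw [Nat.even_mul] at h2
      rcases h2 with h2 | h2
      · exact absurd h2 (by decide)
      · exact (Nat.not_even_iff_odd.2 hr) h2

theorem N4_diag {M : ℕ} (hM : Even M) (α : ℚ_[p]) {r : ℕ} (h : 3 * r ≤ M) : N4_F p M α r r r =
    (-1) ^ r * ((M.factorial : ℚ_[p]) / (r.factorial ^ 3 * (M - 3 * r).factorial)) * α ^ r := by
  unfold N4_F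
  rw [if_pos (by omega), show M - r - r - r = M - 3 * r by omega, N4_sign hM h]
  congr 3
  ring

theorem N4_diagsum {M : ℕ} (hM : Even M) (hM2 : M / 3 + 1 ≤ p - 1) (α : ℚ_[p]) :
    ∑ r ∈ range (p - 1), N4_F p M α r r r = ∑ r ∈ range (M / 3 + 1),
    (-1) ^ r * ((M.factorial : ℚ_[p]) / (r.factorial ^ 3 * (M - 3 * r).factorial)) * α ^ r := by
  rw [← sum_subset (range_subset_range.2 hM2)]
  · refine sum_congr rfl fun r hr => N4_diag hM α ?_
    rw [mem_range] at hr; omega
  · intro r _ hr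
    rw [mem_range] at hr
    exact N4_zero α (by omega)

theorem TM_one (hp : 5 ≤ p) (α : ℚ_[p]) :
    TM p (p - 1) α = ∑ k ∈ range ((p - 1) / 3 + 1), mA p k * α ^ k + 2 + α ^ (p - 1) := by
  rw [N4_main (by omega) α]
  simp only [N4_sum (p := p) (M := p - 1) (by omega) α]
  rw [sum_add_distrib, sum_add_distrib, N4_diagsum (N4_even hp) (by omega)]
  have h1 : ∑ r ∈ range (p - 1), (N4_F p (p - 1) α (r + (p - 1)) r r +
      N4_F p (p - 1) α r (r + (p - 1)) r + N4_F p (p - 1) α r r (r + (p - 1))) =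
      2 + α ^ (p - 1) := by
    rw [sum_eq_single 0]
    · unfold N4_F
      have hf : ((p - 1).factorial : ℚ_[p]) ≠ 0 := by exact_mod_cast Nat.factorial_ne_zero _
      simp [hf]
      ring
    · intro r _ hr
      rw [N4_zero α (by omega), N4_zero α (by omega), N4_zero α (by omega)]
      ring
    · intro h; exfalso; apply h; rw [mem_range]; omega
  have h2 : ∑ r ∈ range (p - 1), (N4_F p (p - 1) α (r + (p - 1) * 2) r r +
      N4_F p (p - 1) α r (r + (p - 1) * 2) r +
      N4_F p (p - 1) α r r (r + (p - 1) * 2) + N4_F p (p - 1) α (r + (p - 1)) (r + (p - 1)) r +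
      N4_F p (p - 1) α (r + (p - 1)) r (r + (p - 1)) +
      N4_F p (p - 1) α r (r + (p - 1)) (r + (p - 1))) = 0 := by
    refine sum_eq_zero fun r _ => ?_
    rw [N4_zero α (by omega), N4_zero α (by omega), N4_zero α (by omega), N4_zero α (by omega),
      N4_zero α (by omega), N4_zero α (by omega)]
    ring
  rw [h1, h2]
  unfold mA
  ring

end SCong
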