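import Pool.Agent.Lib.MP_0a3b9a_nt.N4

/-!
Module N4B: enumeration of the triples.  i ≡ j ≡ k mod (p-1) with i+j+k <= 2(p-1): write i = ρ + (p-1)i', j = ρ + (p-1)j', k = ρ + (p-1)k', ρ < p-1:
i'+j'+k' = 0: (κ,κ,κ), 3κ <= 2p-2 (then κ < p-1); = 1: (κ+p-1,κ,κ) and permutations, 3κ <= p-1; = 2: κ = 0: (2(p-1),0,0), (p-1,p-1,0) and permutations.
Signs: (-1)^(2p-2-3κ) = (-1)^κ, (-1)^(p-1-3κ) = (-1)^κ.
-/

namespace SCong
open Finset Polynomial
variable {p : ℕ} [Fact p.Prime]

theorem N4B_one (hp : 5 ≤ p) (α : ℚ_[p]) {r : ℕ} (h : 3 * r ≤ p - 1) :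
    N4_F p (2 * (p - 1)) α (r + (p - 1)) r r + N4_F p (2 * (p - 1)) α r (r + (p - 1)) r +
      N4_F p (2 * (p - 1)) α r r (r + (p - 1)) = (2 + α ^ (p - 1)) * (mC p r * α ^ r) := by
  unfold N4_F mC
  rw [if_pos (by omega), if_pos (by omega), if_pos (by omega),
    show 2 * (p - 1) - (r + (p - 1)) - r - r = p - 1 - 3 * r by omega,
    show 2 * (p - 1) - r - (r + (p - 1)) - r = p - 1 - 3 * r by omega,
    show 2 * (p - 1) - r - r - (r + (p - 1)) = p - 1 - 3 * r by omega,
    N4_sign (N4_even hp) h, show 2 * (p - 1) = 2 * p - 2 by omega,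
    show r + (p - 1) = r + p - 1 by omega, show α ^ (r + p - 1) = α ^ r * α ^ (p - 1) by
      rw [← pow_add]; congr 1; omega]
  have e1 : ((r + p - 1).factorial : ℚ_[p]) * r.factorial * r.factorial * (p - 1 - 3 * r).factorial =
    (r + p - 1).factorial * r.factorial ^ 2 * (p - 1 - 3 * r).factorial := by ring
  have e2 : (r.factorial : ℚ_[p]) * (r + p - 1).factorial * r.factorial * (p - 1 - 3 * r).factorial =
    (r + p - 1).factorial * r.factorial ^ 2 * (p - 1 - 3 * r).factorial := by ring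
  have e3 : (r.factorial : ℚ_[p]) * r.factorial * (r + p - 1).factorial * (p - 1 - 3 * r).factorial =
    (r + p - 1).factorial * r.factorial ^ 2 * (p - 1 - 3 * r).factorial := by ring
  rw [e1, e2, e3]
  ring

theorem TM_two (hp : 5 ≤ p) (α : ℚ_[p]) :
    TM p (2 * (p - 1)) α = ∑ k ∈ range ((2 * p - 2) / 3 + 1), mB p k * α ^ k +
      (2 + α ^ (p - 1)) * ∑ k ∈ range ((p - 1) / 3 + 1), mC p k * α ^ k +
      (2 + α ^ (2 * (p - 1))) + (1 + 2 * α ^ (p - 1)) * mD p := by
  rw [N4_main (by omega) α]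
  simp only [N4_sum (p := p) (M := 2 * (p - 1)) (by omega) α]
  rw [sum_add_distrib, sum_add_distrib, N4_diagsum (even_two_mul _) (by omega)]
  have h1 : ∑ r ∈ range (p - 1), (N4_F p (2 * (p - 1)) α (r + (p - 1)) r r +
      N4_F p (2 * (p - 1)) α r (r + (p - 1)) r + N4_F p (2 * (p - 1)) α r r (r + (p - 1))) =
      (2 + α ^ (p - 1)) * ∑ k ∈ range ((p - 1) / 3 + 1), mC p k * α ^ k := by
    have hsub : range ((p - 1) / 3 + 1) ⊆ range (p - 1) := range_subset_range.2 (by omega)
    rw [← sum_subset hsub, mul_sum]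
    · refine sum_congr rfl fun r hr => N4B_one hp α ?_
      rw [mem_range] at hr; omega
    · intro r _ hr
      rw [mem_range] at hr
      rw [N4_zero α (by omega), N4_zero α (by omega), N4_zero α (by omega)]
      ring
  have h2 : ∑ r ∈ range (p - 1), (N4_F p (2 * (p - 1)) α (r + (p - 1) * 2) r r +
      N4_F p (2 * (p - 1)) α r (r + (p - 1) * 2) r +
      N4_F p (2 * (p - 1)) α r r (r + (p - 1) * 2) +
      N4_F p (2 * (p - 1)) α (r + (p - 1)) (r + (p - 1)) r +
      N4_F p (2 * (p - 1)) α (r + (p - 1)) r (r + (p - 1)) +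
      N4_F p (2 * (p - 1)) α r (r + (p - 1)) (r + (p - 1))) =
      (2 + α ^ (2 * (p - 1))) + (1 + 2 * α ^ (p - 1)) * mD p := by
    rw [sum_eq_single 0]
    · unfold N4_F mD
      have hf : ((2 * (p - 1)).factorial : ℚ_[p]) ≠ 0 := by exact_mod_cast Nat.factorial_ne_zero _
      rw [if_pos (by omega), if_pos (by omega), if_pos (by omega), if_pos (by omega),
        if_pos (by omega), if_pos (by omega)]
      rw [show 0 + (p - 1) * 2 = 2 * (p - 1) by ring, show 0 + (p - 1) = p - 1 by ring,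
        show 2 * (p - 1) - 2 * (p - 1) - 0 - 0 = 0 by omega,
        show 2 * (p - 1) - 0 - 2 * (p - 1) - 0 = 0 by omega,
        show 2 * (p - 1) - 0 - 0 - 2 * (p - 1) = 0 by omega,
        show 2 * (p - 1) - (p - 1) - (p - 1) - 0 = 0 by omega,
        show 2 * (p - 1) - (p - 1) - 0 - (p - 1) = 0 by omega,
        show 2 * (p - 1) - 0 - (p - 1) - (p - 1) = 0 by omega,
        show 2 * p - 2 = 2 * (p - 1) by omega]
      simp only [Nat.factorial_zero, Nat.cast_one, pow_zero, mul_one, one_mul, div_self hf]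
      ring
    · intro r _ hr
      rw [N4_zero α (by omega), N4_zero α (by omega), N4_zero α (by omega), N4_zero α (by omega),
        N4_zero α (by omega), N4_zero α (by omega)]
      ring
    · intro h; exfalso; apply h; rw [mem_range]; omega
  rw [h1, h2]
  unfold mB
  rw [show 2 * (p - 1) = 2 * p - 2 by omega]
  ring

end SCong
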