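import Pool.Agent.Lib.MP_0a3b9a_nt.S1B

/-!
Module N5: the multinomial coefficients modulo p^2.  27^k cc k = (3k)!/k!^3 (cc_fact).  All harmonic numbers have index <= 3k < p, so they are integral.
mA: (p-1)!/(p-1-3k)! = prod_{j=1}^{3k} (p-j) = (-1)^(3k) (3k)! prod (1 - p/j).
mB, 3k < p: (2p-2)!/(2p-2-3k)! = prod_{j=2}^{3k+1} (2p-j) = (-1)^(3k) prod_{j=2}^{3k+1} (j-2p); for 3k+1 < p it is (3k+1)! (1 - 2p (har(3k+1) - 1)); if 3k+1 = p the factor j = p is -p.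
  In both cases k!^-3 times it is 27^k cc k ((3k+1)(1 - 2p(har(3k)-1)) - 2p).
mB, p <= 3k <= 2p-2: exactly one factor j = p: (p - 2p) = -p, the others ≡ j mod p: ≡ -(3k+1)! mod p^2.
mC: (2p-2)!/(k+p-1)! = prod_{i=k}^{p-2} (p+i); k = 0: ≡ -p mod p^2; k >= 1: (p-2)!/(k-1)! (1 + p(har(p-2) - har(k-1))), with (p-1)!/(p-1-3k)! as in mA, 1/(p-1) ≡ -(1+p), har(p-2) ≡ 1 mod p:
  (2p-2)!/((k+p-1)!(p-1-3k)!) (-1)^k ≡ -k (3k)!/k! (1 + 2p - p(har(k-1) + har(3k))), and k har(k-1) = k har k - 1.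
mD = C(2p-2,p-1) ≡ -p: C(2p-2,p-1) (2p)(2p-1) = C(2p,p) p^2, C(2p,p) ≡ 2 mod p.
-/

namespace SCong
open Finset Polynomial
variable {p : ℕ} [Fact p.Prime]

theorem N5_cg {n : ℕ} {x y w : ℚ_[p]} (hw : In p w) (h : x = y + (p : ℚ_[p]) ^ n * w) : Cg p n x y := by
  obtain ⟨u, rfl⟩ := hw
  exact ⟨u, by rw [h]; ring⟩

/-- `∏ (1 + c p / (j+1))`. -/
noncomputable def N5_P (p : ℕ) [Fact p.Prime] (c : ℚ_[p]) (n : ℕ) : ℚ_[p] :=
  ∏ j ∈ range n, (1 + c * p * ((j : ℚ_[p]) + 1)⁻¹)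

theorem N5_prod (c : ℚ_[p]) (n : ℕ) :
    ∏ j ∈ range n, ((j : ℚ_[p]) + 1 + c * p) = n.factorial * N5_P p c n := by
  unfold N5_P
  induction n with
  | zero => simp
  | succ n ih =>
    rw [prod_range_succ, prod_range_succ, ih, Nat.factorial_succ]
    have h : (n : ℚ_[p]) + 1 ≠ 0 := by exact_mod_cast Nat.succ_ne_zero n
    push_cast
    field_simp

theorem N5_inv {j : ℕ} (hj : j + 1 < p) : In p (((j : ℚ_[p]) + 1)⁻¹) := by
  have := In.inv_nat (small_not_dvd hj)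
  push_cast at this; exact this

theorem N5_har_in {n : ℕ} (hn : n < p) : In p (har ℚ_[p] n) := by
  refine In.sum fun i hi => N5_inv ?_
  rw [mem_range] at hi; omega

theorem N5_P_cg {c : ℚ_[p]} (hc : In p c) {n : ℕ} (hn : n < p) :
    Cg p 2 (N5_P p c n) (1 + c * p * har ℚ_[p] n) := by
  induction n with
  | zero => unfold N5_P har; simp; exact Cg.refl _ _
  | succ n ih =>
    have h1 := ih (by omega)
    have hi : In p (((n : ℚ_[p]) + 1)⁻¹) := N5_inv (by omega)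
    have hh : In p (har ℚ_[p] n) := N5_har_in (by omega)
    have h2 : N5_P p c (n + 1) = N5_P p c n * (1 + c * p * ((n : ℚ_[p]) + 1)⁻¹) := by
      unfold N5_P; rw [prod_range_succ]
    have h3 : har ℚ_[p] (n + 1) = har ℚ_[p] n + ((n : ℚ_[p]) + 1)⁻¹ := by
      unfold har; rw [sum_range_succ]
    rw [h2, h3]
    have hin : In p (1 + c * p * ((n : ℚ_[p]) + 1)⁻¹) := In.one.add ((hc.mul (In.nat p)).mul hi)
    refine (h1.mul_right hin).trans ?_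
    refine N5_cg (w := c ^ 2 * har ℚ_[p] n * ((n : ℚ_[p]) + 1)⁻¹) (((hc.pow 2).mul hh).mul hi) ?_
    ring

theorem N5_P_in {c : ℚ_[p]} (hc : In p c) {n : ℕ} (hn : n < p) : In p (N5_P p c n) := by
  refine In.prod fun i hi => In.one.add ((hc.mul (In.nat p)).mul (N5_inv ?_))
  rw [mem_range] at hi; omega

theorem N5_P_one {c : ℚ_[p]} (hc : In p c) {n : ℕ} (hn : n < p) : Cg p 1 (N5_P p c n) 1 := by
  refine ((N5_P_cg hc hn).mono (by norm_num)).trans ?_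
  refine N5_cg (w := c * har ℚ_[p] n) (hc.mul (N5_har_in hn)) ?_
  ring

theorem N5_desc (m n : ℕ) (h : n ≤ m) : (m.factorial : ℚ_[p]) =
    (m - n).factorial * ((-1) ^ n * ∏ j ∈ range n, ((j : ℚ_[p]) + 1 - (m + 1))) := by
  induction n with
  | zero => simp
  | succ n ih =>
    rw [ih (by omega), prod_range_succ]
    have h1 : m - n = (m - (n + 1)) + 1 := by omega
    rw [h1, Nat.factorial_succ]
    have h2 : ((m - (n + 1) : ℕ) : ℚ_[p]) = (m : ℚ_[p]) - (n + 1) := by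
      rw [Nat.cast_sub h]; push_cast; ring
    push_cast
    rw [h2]
    ring

theorem N5_cc (k : ℕ) : 27 ^ k * cc ℚ_[p] k = ((3 * k).factorial : ℚ_[p]) / (k.factorial : ℚ_[p]) ^ 3 := by
  have h := cc_fact ℚ_[p] k
  have hf : (k.factorial : ℚ_[p]) ≠ 0 := by exact_mod_cast Nat.factorial_ne_zero _
  rw [← h]; field_simp

theorem N5_fact_inv {k : ℕ} (hk : k < p) : In p ((k.factorial : ℚ_[p])⁻¹) := by
  refine In.inv_nat ?_
  rw [(Fact.out : p.Prime).dvd_factorial]; omega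

theorem N5_cc_in {k : ℕ} (hk : k < p) : In p (27 ^ k * cc ℚ_[p] k) := by
  rw [N5_cc, div_eq_mul_inv, ← inv_pow]
  exact (In.nat _).mul ((N5_fact_inv hk).pow 3)

theorem N5_neg3 (k : ℕ) : ((-1 : ℚ_[p])) ^ (3 * k) = (-1) ^ k := by
  rw [pow_mul]; norm_num

theorem N5_negsq (k : ℕ) : ((-1 : ℚ_[p])) ^ k * (-1) ^ k = 1 := by
  rw [← mul_pow]; norm_num

theorem N5_mA (hp : 5 ≤ p) {k : ℕ} (hk : 3 * k < p) :
    mA p k = 27 ^ k * cc ℚ_[p] k * N5_P p (-1) (3 * k) := by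
  unfold mA
  rw [N5_cc, N5_desc (p := p) (p - 1) (3 * k) (by omega)]
  have h1 : ∏ j ∈ range (3 * k), ((j : ℚ_[p]) + 1 - (((p - 1 : ℕ) : ℚ_[p]) + 1)) =
      (3 * k).factorial * N5_P p (-1) (3 * k) := by
    rw [← N5_prod]
    refine prod_congr rfl fun j _ => ?_
    rw [Nat.cast_sub (by omega)]; push_cast; ring
  rw [h1, N5_neg3]
  have hf : (k.factorial : ℚ_[p]) ≠ 0 := by exact_mod_cast Nat.factorial_ne_zero _
  have hg : ((p - 1 - 3 * k).factorial : ℚ_[p]) ≠ 0 := by exact_mod_cast Nat.factorial_ne_zero _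
  field_simp
  linear_combination ((3 * k).factorial : ℚ_[p]) * N5_P p (-1) (3 * k) * N5_negsq (p := p) k

theorem mA_cg (hp : 5 ≤ p) {k : ℕ} (hk : 3 * k < p) :
    Cg p 2 (mA p k) (27 ^ k * cc ℚ_[p] k * (1 - p * har ℚ_[p] (3 * k))) := by
  rw [N5_mA hp hk]
  refine ((N5_P_cg (c := -1) In.one.neg hk).mul_left (N5_cc_in (by omega))).trans (Cg.of_eq ?_)
  ring

theorem N5_mB (hp : 5 ≤ p) {k : ℕ} (hk : 3 * k ≤ 2 * p - 2) :
    (1 - 2 * (p : ℚ_[p])) * mB p k =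
      (∏ j ∈ range (3 * k + 1), ((j : ℚ_[p]) + 1 + (-2) * p)) / (k.factorial : ℚ_[p]) ^ 3 := by
  have h0 : ((2 * p - 1).factorial : ℚ_[p]) = (2 * p - 1) * (2 * p - 2).factorial := by
    rw [show 2 * p - 1 = (2 * p - 2) + 1 by omega, Nat.factorial_succ]
    push_cast
    rw [Nat.cast_sub (by omega)]; push_cast; ring
  have h1 := N5_desc (p := p) (2 * p - 1) (3 * k + 1) (by omega)
  rw [show 2 * p - 1 - (3 * k + 1) = 2 * p - 2 - 3 * k by omega] at h1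
  have h2 : ∏ j ∈ range (3 * k + 1), ((j : ℚ_[p]) + 1 - (((2 * p - 1 : ℕ) : ℚ_[p]) + 1)) =
      ∏ j ∈ range (3 * k + 1), ((j : ℚ_[p]) + 1 + (-2) * p) := by
    refine prod_congr rfl fun j _ => ?_
    rw [Nat.cast_sub (by omega)]; push_cast; ring
  rw [h2, h0, pow_succ, N5_neg3] at h1
  unfold mB
  have hf : (k.factorial : ℚ_[p]) ≠ 0 := by exact_mod_cast Nat.factorial_ne_zero _
  have hg : ((2 * p - 2 - 3 * k).factorial : ℚ_[p]) ≠ 0 := by exact_mod_cast Nat.factorial_ne_zero _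
  have h3 : (1 - 2 * (p : ℚ_[p])) * ((-1) ^ k * ((2 * p - 2).factorial : ℚ_[p])) =
    (2 * p - 2 - 3 * k).factorial * ∏ j ∈ range (3 * k + 1), ((j : ℚ_[p]) + 1 + (-2) * p) := by
    linear_combination (-(-1 : ℚ_[p]) ^ k) * h1 + ((2 * p - 2 - 3 * k).factorial : ℚ_[p]) *
      (∏ j ∈ range (3 * k + 1), ((j : ℚ_[p]) + 1 + (-2) * p)) * N5_negsq (p := p) k
  rw [div_eq_mul_inv, div_eq_mul_inv, mul_inv]
  have h4 : ((2 * p - 2).factorial : ℚ_[p]) * (1 - 2 * (p : ℚ_[p])) * (-1) ^ k *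
      ((2 * p - 2 - 3 * k).factorial : ℚ_[p])⁻¹ =
      ∏ j ∈ range (3 * k + 1), ((j : ℚ_[p]) + 1 + (-2) * p) := by
    rw [show ((2 * p - 2).factorial : ℚ_[p]) * (1 - 2 * (p : ℚ_[p])) * (-1) ^ k =
      (2 * p - 2 - 3 * k).factorial * ∏ j ∈ range (3 * k + 1), ((j : ℚ_[p]) + 1 + (-2) * p) by
        linear_combination h3]
    rw [mul_comm, inv_mul_cancel_left₀ hg]
  rw [← h4]
  ring

theorem N5_unit : Rd p (1 - 2 * (p : ℚ_[p])) 1 := by
  have h := (Rd.one (p := p)).sub (((Rd.nat (p := p) 2)).mul (Rd.nat p))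
  simpa using h

theorem mB_cg (hp : 5 ≤ p) {k : ℕ} (hk : 3 * k < p) :
    Cg p 2 (mB p k) (27 ^ k * cc ℚ_[p] k *
      ((3 * k + 1) * (1 - 2 * p * (har ℚ_[p] (3 * k) - 1)) - 2 * p)) := by
  refine Cg.cancel (c := 1 - 2 * (p : ℚ_[p])) (a := 1) ?_ N5_unit one_ne_zero
  rw [N5_mB hp (by omega), prod_range_succ, N5_prod]
  have e1 : ((3 * k).factorial : ℚ_[p]) * N5_P p (-2) (3 * k) * (((3 * k : ℕ) : ℚ_[p]) + 1 + (-2) * p) /
      (k.factorial : ℚ_[p]) ^ 3 = 27 ^ k * cc ℚ_[p] k * (((3 * k : ℕ) : ℚ_[p]) + 1 + (-2) * p) *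
        N5_P p (-2) (3 * k) := by
    rw [N5_cc]; ring
  rw [e1]
  have hm2 : In p (-2 : ℚ_[p]) := by simpa using In.int (p := p) (-2)
  have hin : In p (27 ^ k * cc ℚ_[p] k * (((3 * k : ℕ) : ℚ_[p]) + 1 + (-2) * p)) :=
    (N5_cc_in (by omega)).mul (((In.nat _).add In.one).add (hm2.mul (In.nat p)))
  refine ((N5_P_cg (c := -2) hm2 hk).mul_left hin).trans ?_
  have hh := N5_har_in hk
  refine N5_cg (w := 27 ^ k * cc ℚ_[p] k * (4 * har ℚ_[p] (3 * k) -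
    4 * (3 * k + 1) * (har ℚ_[p] (3 * k) - 1) - 4)) ?_ ?_
  · refine (N5_cc_in (by omega)).mul ?_
    have h4 : In p (4 : ℚ_[p]) := by simpa using In.nat (p := p) 4
    have h3k : In p ((3 : ℚ_[p]) * k + 1) := by
      have := In.nat (p := p) (3 * k + 1); push_cast at this; exact this
    exact ((h4.mul hh).sub ((h4.mul h3k).mul (hh.sub In.one))).sub h4
  · push_cast
    ring

theorem mB_cg2 (hp : 5 ≤ p) {k : ℕ} (hk : p ≤ 3 * k) (hk2 : 3 * k ≤ 2 * p - 2) :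
    Cg p 2 (mB p k) (-(3 * k + 1) * (27 ^ k * cc ℚ_[p] k)) := by
  have hkp : k < p := by omega
  refine Cg.cancel (c := 1 - 2 * (p : ℚ_[p])) (a := 1) ?_ N5_unit one_ne_zero
  rw [N5_mB hp hk2]
  have hm : p - 1 ∈ range (3 * k + 1) := by rw [mem_range]; omega
  have hpc : (((p - 1 : ℕ) : ℚ_[p]) + 1) = p := by
    rw [Nat.cast_sub (by omega)]; push_cast; ring
  have hA : ∏ j ∈ range (3 * k + 1), ((j : ℚ_[p]) + 1 + (-2) * p) =
      -(p * ∏ j ∈ (range (3 * k + 1)).erase (p - 1), ((j : ℚ_[p]) + 1 + (-2) * p)) := by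
    rw [← mul_prod_erase _ _ hm, hpc]; ring
  have hB : (3 * (k : ℚ_[p]) + 1) * (3 * k).factorial =
      p * ∏ j ∈ (range (3 * k + 1)).erase (p - 1), ((j : ℚ_[p]) + 1) := by
    have h1 : ((3 * k + 1).factorial : ℚ_[p]) = ∏ j ∈ range (3 * k + 1), ((j : ℚ_[p]) + 1) := by
      rw [← Finset.prod_range_add_one_eq_factorial]; push_cast; rfl
    rw [← mul_prod_erase _ _ hm, hpc] at h1
    rw [← h1, Nat.factorial_succ]; push_cast; ring
  have hm2 : In p (-2 : ℚ_[p]) := by simpa using In.int (p := p) (-2)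
  have hcg : Cg p 1 (∏ j ∈ (range (3 * k + 1)).erase (p - 1), ((j : ℚ_[p]) + 1 + (-2) * p))
      (∏ j ∈ (range (3 * k + 1)).erase (p - 1), ((j : ℚ_[p]) + 1)) := by
    refine Cg.prod (fun j _ => ((In.nat _).add In.one).add (hm2.mul (In.nat p))) fun j _ => ?_
    exact N5_cg (w := -2) hm2 (by ring)
  have hinv : In p (((k.factorial : ℚ_[p]) ^ 3)⁻¹) := by
    rw [← inv_pow]; exact (N5_fact_inv hkp).pow 3
  have h2 := (hcg.pmul.neg).mul_right hinv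
  rw [← hA, ← hB] at h2
  rw [div_eq_mul_inv]
  refine h2.trans ?_
  have hZ : In p (∏ j ∈ (range (3 * k + 1)).erase (p - 1), ((j : ℚ_[p]) + 1)) :=
    In.prod fun j _ => (In.nat _).add In.one
  refine N5_cg (w := -2 * ((∏ j ∈ (range (3 * k + 1)).erase (p - 1), ((j : ℚ_[p]) + 1)) *
    ((k.factorial : ℚ_[p]) ^ 3)⁻¹)) (hm2.mul (hZ.mul hinv)) ?_
  rw [N5_cc, div_eq_mul_inv]
  linear_combination (-2 * p * ((k.factorial : ℚ_[p]) ^ 3)⁻¹) * hB

end SCong
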