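import Pool.Agent.Lib.MP_0a3b9a_nt.N5

/-!
Module N5B: see the head comment of N5.
-/

namespace SCong
open Finset Polynomial
variable {p : ℕ} [Fact p.Prime]

/-- `har (p-1) ≡ 0 mod p`. -/
theorem N5B_har (hp : 5 ≤ p) : Cg p 1 (har ℚ_[p] (p - 1)) 0 := by
  have h1 : (2 : ℚ_[p]) * har ℚ_[p] (p - 1) = ∑ i ∈ range (p - 1),
      (((i : ℚ_[p]) + 1)⁻¹ + (((p - 1 - 1 - i : ℕ) : ℚ_[p]) + 1)⁻¹) := by
    rw [sum_add_distrib, sum_range_reflect (fun i : ℕ => ((i : ℚ_[p]) + 1)⁻¹) (p - 1)]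
    unfold har; ring
  have h2 : Cg p 1 ((2 : ℚ_[p]) * har ℚ_[p] (p - 1)) (2 * 0) := by
    rw [h1, mul_zero]
    have : Cg p 1 (∑ i ∈ range (p - 1),
      (((i : ℚ_[p]) + 1)⁻¹ + (((p - 1 - 1 - i : ℕ) : ℚ_[p]) + 1)⁻¹)) (∑ i ∈ range (p - 1), 0) := by
      refine Cg.sum fun i hi => ?_
      rw [mem_range] at hi
      have hi1 : In p (((i : ℚ_[p]) + 1)⁻¹) := N5_inv (by omega)
      have hi2 : In p ((((p - 1 - 1 - i : ℕ) : ℚ_[p]) + 1)⁻¹) := N5_inv (by omega)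
      refine N5_cg (w := ((i : ℚ_[p]) + 1)⁻¹ * (((p - 1 - 1 - i : ℕ) : ℚ_[p]) + 1)⁻¹)
        (hi1.mul hi2) ?_
      have ha : (i : ℚ_[p]) + 1 ≠ 0 := by exact_mod_cast Nat.succ_ne_zero i
      have hb : ((p - 1 - 1 - i : ℕ) : ℚ_[p]) + 1 ≠ 0 := by
        exact_mod_cast Nat.succ_ne_zero (p - 1 - 1 - i)
      have hc : ((p - 1 - 1 - i : ℕ) : ℚ_[p]) = p - (i + 2) := by
        rw [show p - 1 - 1 - i = p - (i + 2) by omega, Nat.cast_sub (by omega)]; push_cast; ring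
      rw [hc] at hb ⊢
      field_simp
      ring
    simpa using this
  refine Cg.cancel (c := 2) (a := 2) h2 ?_ (ne_of_five hp).1
  simpa using Rd.nat (p := p) 2

theorem N5B_Pp (hp : 5 ≤ p) : Cg p 2 (N5_P p 1 (p - 1)) 1 := by
  refine (N5_P_cg In.one (by omega)).trans ?_
  have h := (N5B_har hp).pmul
  rw [mul_zero] at h
  have h2 := (Cg.refl 2 (1 : ℚ_[p])).add h
  rw [add_zero] at h2
  simpa using h2

/-- `(p + n)! = p! n! P(1,n)`. -/
theorem N5B_fact (n : ℕ) : ((n + p).factorial : ℚ_[p]) =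
    p.factorial * (n.factorial * N5_P p 1 n) := by
  rw [← N5_prod]
  induction n with
  | zero => simp
  | succ n ih =>
    rw [show n + 1 + p = (n + p) + 1 by ring, Nat.factorial_succ, prod_range_succ]
    push_cast
    rw [ih]; ring

theorem N5B_two (hp : 5 ≤ p) : (2 * (p : ℚ_[p]) - 1) * ((2 * p - 2).factorial : ℚ_[p]) =
    p.factorial * ((p - 1).factorial * N5_P p 1 (p - 1)) := by
  rw [← N5B_fact, show p - 1 + p = (2 * p - 2) + 1 by omega, Nat.factorial_succ]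
  push_cast
  rw [Nat.cast_sub (by omega)]; push_cast; ring

theorem N5B_unit : Rd p (2 * (p : ℚ_[p]) - 1) (-1) := by
  have h := (((Rd.nat (p := p) 2)).mul (Rd.nat p)).sub (Rd.one (p := p))
  simpa using h

theorem mD_cg (hp : 5 ≤ p) : Cg p 2 (mD p) (-p) := by
  refine Cg.cancel (c := 2 * (p : ℚ_[p]) - 1) (a := -1) ?_ N5B_unit (by simp)
  have hf : ((p - 1).factorial : ℚ_[p]) ≠ 0 := by exact_mod_cast Nat.factorial_ne_zero _
  have h1 : (2 * (p : ℚ_[p]) - 1) * mD p = p * N5_P p 1 (p - 1) := by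
    unfold mD
    rw [mul_div_assoc', N5B_two hp]
    have : (p.factorial : ℚ_[p]) = p * (p - 1).factorial := by
      have := Nat.mul_factorial_pred (show p ≠ 0 by omega)
      exact_mod_cast this.symm
    rw [this]
    field_simp
  rw [h1]
  refine ((N5B_Pp hp).mul_left (In.nat p)).trans ?_
  refine N5_cg (w := 2) (by simpa using In.nat (p := p) 2) ?_
  ring

theorem N5B_mC (hp : 5 ≤ p) {k : ℕ} (hk : 3 * k < p) :
    (2 * (p : ℚ_[p]) - 1) * N5_P p 1 k * mC p k =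
      27 ^ k * cc ℚ_[p] k * (k + p) * N5_P p 1 (p - 1) * N5_P p (-1) (3 * k) := by
  have hA := N5_mA (p := p) hp hk
  unfold mA at hA
  have hf : (k.factorial : ℚ_[p]) ≠ 0 := by exact_mod_cast Nat.factorial_ne_zero _
  have hg : ((p - 1 - 3 * k).factorial : ℚ_[p]) ≠ 0 := by exact_mod_cast Nat.factorial_ne_zero _
  have hh : ((k + p - 1).factorial : ℚ_[p]) ≠ 0 := by exact_mod_cast Nat.factorial_ne_zero _
  have hkp : ((k + p).factorial : ℚ_[p]) = (k + p) * (k + p - 1).factorial := by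
    have := Nat.mul_factorial_pred (show k + p ≠ 0 by omega)
    exact_mod_cast this.symm
  have h1 := N5B_fact (p := p) k
  rw [hkp] at h1
  have h2 := N5B_two hp
  have hpf : (p.factorial : ℚ_[p]) ≠ 0 := by exact_mod_cast Nat.factorial_ne_zero _
  have hP : N5_P p 1 k ≠ 0 := by
    intro h0
    rw [h0] at h1
    have h3 : ((k : ℚ_[p]) + p) ≠ 0 := by
      have : ((k + p : ℕ) : ℚ_[p]) ≠ 0 := by exact_mod_cast (show k + p ≠ 0 by omega)
      push_cast at this; exact this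
    have := mul_ne_zero h3 hh
    apply this; rw [h1]; ring
  unfold mC
  have h4 : 27 ^ k * cc ℚ_[p] k * ((k : ℚ_[p]) + p) * N5_P p 1 (p - 1) * N5_P p (-1) (3 * k) =
      ((-1) ^ k * (((p - 1).factorial : ℚ_[p]) / (k.factorial ^ 3 * (p - 1 - 3 * k).factorial))) *
      ((k + p) * N5_P p 1 (p - 1)) := by
    rw [hA]; ring
  rw [h4]
  have key : (2 * (p : ℚ_[p]) - 1) * ((2 * p - 2).factorial : ℚ_[p]) * (N5_P p 1 k * k.factorial) =
      (p - 1).factorial * (k + p) * N5_P p 1 (p - 1) * (k + p - 1).factorial := by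
    rw [h2]; linear_combination (-((p - 1).factorial * N5_P p 1 (p - 1))) * h1
  have e1 : (2 * (p : ℚ_[p]) - 1) * N5_P p 1 k * (((2 * p - 2).factorial : ℚ_[p]) /
      ((k + p - 1).factorial * k.factorial ^ 2 * (p - 1 - 3 * k).factorial)) =
      ((p - 1).factorial : ℚ_[p]) / (k.factorial ^ 3 * (p - 1 - 3 * k).factorial) *
      ((k + p) * N5_P p 1 (p - 1)) := by
    rw [mul_div_assoc', div_mul_eq_mul_div, div_eq_div_iff
      (mul_ne_zero (mul_ne_zero hh (pow_ne_zero 2 hf)) hg) (mul_ne_zero (pow_ne_zero 3 hf) hg)]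
    linear_combination ((k.factorial : ℚ_[p]) ^ 2 * (p - 1 - 3 * k).factorial) * key
  linear_combination ((-1 : ℚ_[p]) ^ k) * e1

theorem mC_cg (hp : 5 ≤ p) {k : ℕ} (hk : 3 * k < p) :
    Cg p 2 (mC p k) (-(27 ^ k * cc ℚ_[p] k) *
      (k * (1 + 2 * p) - p * k * (har ℚ_[p] (3 * k) + har ℚ_[p] k) + p)) := by
  have hkp : k < p := by omega
  have hu : Rd p ((2 * (p : ℚ_[p]) - 1) * N5_P p 1 k) (-1 * 1) :=
    N5B_unit.mul (Rd.one.of_cg (N5_P_one In.one hkp))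
  refine Cg.cancel (c := (2 * (p : ℚ_[p]) - 1) * N5_P p 1 k) (a := -1 * 1) ?_ hu (by simp)
  rw [N5B_mC hp hk]
  have hC := N5_cc_in (p := p) hkp
  have hk1 : In p ((k : ℚ_[p]) + p) := (In.nat _).add (In.nat _)
  have hP3 := N5_P_cg (p := p) (c := -1) In.one.neg hk
  have hPk := N5_P_cg (p := p) (c := 1) In.one hkp
  have hh := N5_har_in (p := p) hk
  have hh1 := N5_har_in (p := p) hkp
  have h2 : In p (2 : ℚ_[p]) := by simpa using In.nat (p := p) 2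
  have s1 : Cg p 2 (27 ^ k * cc ℚ_[p] k * (k + p) * N5_P p 1 (p - 1) * N5_P p (-1) (3 * k))
      (27 ^ k * cc ℚ_[p] k * (k + p) * 1 * (1 + (-1) * p * har ℚ_[p] (3 * k))) := by
    refine Cg.mul ((N5B_Pp hp).mul_left (hC.mul hk1)) hP3 (N5_P_in In.one.neg hk) ?_
    exact (hC.mul hk1).mul In.one
  have hY : In p (-(27 ^ k * cc ℚ_[p] k) *
      (k * (1 + 2 * p) - p * k * (har ℚ_[p] (3 * k) + har ℚ_[p] k) + p)) := by
    refine hC.neg.mul ?_
    exact (((In.nat k).mul (In.one.add (h2.mul (In.nat p)))).sub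
      (((In.nat p).mul (In.nat k)).mul (hh.add hh1))).add (In.nat p)
  have h2p : In p (2 * (p : ℚ_[p]) - 1) := (h2.mul (In.nat p)).sub In.one
  have s2 : Cg p 2 ((2 * (p : ℚ_[p]) - 1) * N5_P p 1 k * (-(27 ^ k * cc ℚ_[p] k) *
      (k * (1 + 2 * p) - p * k * (har ℚ_[p] (3 * k) + har ℚ_[p] k) + p)))
      ((2 * (p : ℚ_[p]) - 1) * (1 + 1 * p * har ℚ_[p] k) * (-(27 ^ k * cc ℚ_[p] k) *
      (k * (1 + 2 * p) - p * k * (har ℚ_[p] (3 * k) + har ℚ_[p] k) + p))) :=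
    (hPk.mul_left h2p).mul_right hY
  refine s1.trans (Cg.trans ?_ s2.symm)
  have hβ : In p (2 * (k : ℚ_[p]) - k * (har ℚ_[p] (3 * k) + har ℚ_[p] k) + 1) :=
    ((h2.mul (In.nat k)).sub ((In.nat k).mul (hh.add hh1))).add In.one
  refine N5_cg (w := 27 ^ k * cc ℚ_[p] k * (-har ℚ_[p] (3 * k) - (har ℚ_[p] k - 2) *
    (2 * (k : ℚ_[p]) - k * (har ℚ_[p] (3 * k) + har ℚ_[p] k) + 1) + 2 * har ℚ_[p] k * k +
    2 * p * har ℚ_[p] k * (2 * (k : ℚ_[p]) - k * (har ℚ_[p] (3 * k) + har ℚ_[p] k) + 1))) ?_ ?_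
  · refine hC.mul ?_
    exact ((hh.neg.sub ((hh1.sub h2).mul hβ)).add ((h2.mul hh1).mul (In.nat k))).add
      (((h2.mul (In.nat p)).mul hh1).mul hβ)
  · ring

end SCong
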