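import Pool.Agent.Lib.MP_0a3b9a_nt.N2
import Pool.Agent.Lib.MP_0a3b9a_nt.N3
import Pool.Agent.Lib.MP_0a3b9a_nt.N4
import Pool.Agent.Lib.MP_0a3b9a_nt.N4B
import Pool.Agent.Lib.MP_0a3b9a_nt.N5
import Pool.Agent.Lib.MP_0a3b9a_nt.N5B

/-!
Module N6.  α = t^p, α^(p-1) ≡ 1 mod p^2.  N ≡ (p-1)^2 (1 - 2 TM(p-1) + TM(2p-2)), (p-1)^2 ≡ 1 - 2p, and with C_k = 27^k cc k, h_k = 3(har(3k) - har k):
 1 - 2 TM(p-1) + TM(2p-2) ≡ 1 - 2(Σ mA α^k + 3) + Σ mB α^k + 3 Σ mC α^k + 3 - 3p
   = -2 - 3p - Σ_{3k<p} C_k (1 + 3p + p k h_k) α^k - Σ_{p<=3k<=2p-2} C_k (3k+1) α^k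
 (bracket for 3k < p: -2(1 - p H) + (3k+1)(1 - 2p(H-1)) - 2p - 3[k(1+2p) - pk(H+h) + p] = -1 - p(3k(H - h) + 3), H = har(3k), h = har k).
 So N ≡ p - 2 - Σ_k C_k (1 + p + p k h_k) α^k.  For p <= 3k: p cc k har-terms: p gg k k = k cc k p h_k, p h_k ≡ 3 mod p for p <= 3k <= 2p-1 (only 1/p in har(3k), cc k ≡ 0 mod p), so C_k(1+p+p k h_k) ≡ C_k (3k+1);
 for 3k = 2p-1 (p % 3 = 2) C_k(3k+1) ≡ 0 mod p^2; for k > 2p/3: cc_two and gg_zero (gg_red).
-/

namespace SCong
open Finset Polynomial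
variable {p : ℕ} [Fact p.Prime]

theorem n6_mk {n : ℕ} {x y w : ℚ_[p]} (h : x - y = (p : ℚ_[p]) ^ n * w) (hw : In p w) :
    Cg p n x y := by
  obtain ⟨v, rfl⟩ := hw
  exact ⟨v, h⟩

theorem n6_zero_mul {x y : ℚ_[p]} (hx : Cg p 1 x 0) (hy : Cg p 1 y 0) : Cg p 2 (x * y) 0 := by
  obtain ⟨w, hw⟩ := hx
  obtain ⟨v, hv⟩ := hy
  refine ⟨w * v, ?_⟩
  rw [sub_zero] at hw hv ⊢
  push_cast
  rw [hw, hv]
  ring

theorem n6_three (hp : 5 ≤ p) : ¬ 3 ∣ p := by
  intro h
  have := (Nat.prime_dvd_prime_iff_eq Nat.prime_three (Fact.out : p.Prime)).1 h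
  omega

theorem n6_har_in {n : ℕ} (hn : n < p) : In p (har ℚ_[p] n) := by
  unfold har
  refine In.sum fun i hi => ?_
  have hi' : i < n := mem_range.1 hi
  have h1 : ¬ p ∣ i + 1 := small_not_dvd (by omega)
  have h := In.inv_nat (p := p) h1
  push_cast at h
  exact h

theorem n6_har_big {n : ℕ} (h1 : p ≤ n) (h2 : n < 2 * p) : Cg p 1 (p * har ℚ_[p] n) 1 := by
  unfold har
  rw [mul_sum]
  have hp1 : 1 ≤ p := (Fact.out : p.Prime).one_lt.le
  have h3 : ∑ i ∈ range n, (if i = p - 1 then (1 : ℚ_[p]) else 0) = 1 := by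
    rw [sum_ite_eq', if_pos (mem_range.2 (by omega))]
  refine Cg.trans ?_ (Cg.of_eq h3)
  refine Cg.sum fun i hi => ?_
  have hi' : i < n := mem_range.1 hi
  split_ifs with h
  · refine Cg.of_eq ?_
    have h4 : (i : ℚ_[p]) + 1 = p := by
      rw [h, Nat.cast_sub hp1]; simp
    rw [h4, mul_inv_cancel₀ pne]
  · have h4 : ¬ p ∣ i + 1 := by
      rintro ⟨q, hq⟩
      have h5 : q = 1 := by
        rcases Nat.lt_or_ge q 1 with h5 | h5
        · exfalso
          have : q = 0 := by omega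
          rw [this, mul_zero] at hq
          omega
        · rcases Nat.lt_or_ge q 2 with h6 | h6
          · omega
          · exfalso
            have : p * 2 ≤ p * q := Nat.mul_le_mul_left p h6
            omega
      rw [h5, mul_one] at hq
      omega
    have h5 := In.inv_nat (p := p) h4
    push_cast at h5
    have h6 := Cg.pow_mul_zero h5 1
    rwa [pow_one] at h6

theorem n6_cc_zero (hp : 5 ≤ p) {k : ℕ} (hk : p ≤ 3 * k) (hk2 : k < p) :
    Cg p 1 (cc ℚ_[p] k) 0 := by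
  have h3 := n6_three hp
  have h := cc_red hp hk2
  rw [cc_zero hp (by omega) hk2] at h
  exact rd_zero_iff.1 h

theorem n6_pgg (hp : 5 ≤ p) {k : ℕ} (hk : p ≤ 3 * k) (hk2 : 3 * k < 2 * p) :
    Cg p 2 (p * (k * gg ℚ_[p] k)) (3 * k * cc ℚ_[p] k) := by
  have hkp : k < p := by omega
  have h1 := n6_cc_zero hp hk hkp
  have h2 := n6_har_big (p := p) hk hk2
  have h3 : Cg p 1 (p * har ℚ_[p] k) 0 := by
    have := Cg.pow_mul_zero (n6_har_in hkp) 1
    rwa [pow_one] at this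
  have h4 : Cg p 1 (3 * (p * har ℚ_[p] (3 * k) - p * har ℚ_[p] k) - 3) 0 := by
    have h5 := ((h2.sub h3).mul_left (In.nat 3)).sub (Cg.refl 1 3)
    refine Cg.trans (Cg.of_eq (by push_cast; ring)) (Cg.trans h5 (Cg.of_eq (by push_cast; ring)))
  have h5 := (n6_zero_mul h1 h4).mul_left (In.nat k)
  rw [mul_zero] at h5
  rw [cg_iff_sub]
  refine Cg.trans (Cg.of_eq ?_) h5
  rw [gg_har]
  ring

/-- the terms with `p <= 3k`. -/
theorem big_terms (hp : 5 ≤ p) {k : ℕ} (hk : p ≤ 3 * k) (hk2 : k < p) :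
    Cg p 2 (cc ℚ_[p] k + p * (cc ℚ_[p] k + k * gg ℚ_[p] k))
      (if 3 * k ≤ 2 * p - 2 then (3 * k + 1) * cc ℚ_[p] k else 0) := by
  have h3 := n6_three hp
  have hc := n6_cc_zero hp hk hk2
  rcases Nat.lt_or_ge (3 * k) (2 * p) with h | h
  · have h1 := n6_pgg hp hk h
    have h2 : Cg p 2 (cc ℚ_[p] k + p * (cc ℚ_[p] k + k * gg ℚ_[p] k))
        ((3 * k + 1) * cc ℚ_[p] k) := by
      have h4 := ((Cg.refl 2 (cc ℚ_[p] k)).add hc.pmul).add h1
      refine Cg.trans (Cg.of_eq (by ring)) (Cg.trans h4 (Cg.of_eq (by ring)))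
    split_ifs with hif
    · exact h2
    · refine h2.trans ?_
      have h5 : 3 * k + 1 = 2 * p := by omega
      have h6 : (3 : ℚ_[p]) * k + 1 = 2 * p := by exact_mod_cast h5
      rw [h6]
      have h7 := hc.pmul.mul_left (In.nat 2)
      refine Cg.trans (Cg.of_eq (by push_cast; ring)) (Cg.trans h7 (Cg.of_eq (by ring)))
  · rw [if_neg (by omega)]
    have h1 := cc_two hp (k := k) (by omega) hk2
    have h2 := gg_red hp hk2
    rw [gg_zero hp (by omega) hk2] at h2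
    have h4 := (rd_zero_iff.1 h2).mul_left (In.nat k)
    have h5 := (h1.mono (m := 1) (by norm_num)).add h4
    have h6 := h1.add h5.pmul
    exact Cg.trans h6 (Cg.of_eq (by ring))

theorem n6_range (f : ℕ → ℚ_[p]) {q : ℕ} (hq : q ≤ p) :
    ∑ k ∈ range q, f k = ∑ k ∈ range p, if k < q then f k else 0 := by
  rw [← sum_filter]
  congr 1
  ext k
  simp only [mem_range, mem_filter]
  omega

theorem n6_27 (k : ℕ) : In p ((27 : ℚ_[p]) ^ k) := by
  have h := (In.nat (p := p) 27).pow k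
  push_cast at h
  exact h

theorem n6_mA_in (hp : 5 ≤ p) {k : ℕ} (hk : 3 * k < p) : In p (mA p k) := by
  refine (mA_cg hp hk).in ?_
  exact ((n6_27 k).mul (cc_red hp (by omega)).in).mul
    (In.one.sub ((In.nat p).mul (n6_har_in hk)))

theorem n6_mC_in (hp : 5 ≤ p) {k : ℕ} (hk : 3 * k < p) : In p (mC p k) := by
  refine (mC_cg hp hk).in ?_
  have h1 : In p ((k : ℚ_[p]) * (1 + 2 * p) - p * k * (har ℚ_[p] (3 * k) + har ℚ_[p] k) + p) := by
    have h2 : In p ((2 : ℚ_[p]) * p) := by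
      have := (In.nat (p := p) 2).mul (In.nat p)
      push_cast at this
      exact this
    exact (((In.nat k).mul (In.one.add h2)).sub (((In.nat p).mul (In.nat k)).mul
      ((n6_har_in hk).add (n6_har_in (by omega))))).add (In.nat p)
  exact ((n6_27 k).mul (cc_red hp (by omega)).in).neg.mul h1

theorem n6_mB_in (hp : 5 ≤ p) {k : ℕ} (hk : 3 * k ≤ 2 * p - 2) : In p (mB p k) := by
  have h31 : In p ((3 : ℚ_[p]) * k + 1) := by
    have := ((In.nat (p := p) 3).mul (In.nat k)).add In.one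
    push_cast at this
    exact this
  have h2 : In p ((2 : ℚ_[p]) * p) := by
    have := (In.nat (p := p) 2).mul (In.nat p)
    push_cast at this
    exact this
  have hC := (n6_27 k).mul (cc_red hp (k := k) (by omega)).in
  rcases Nat.lt_or_ge (3 * k) p with h | h
  · refine (mB_cg hp h).in ?_
    exact hC.mul ((h31.mul (In.one.sub (h2.mul ((n6_har_in h).sub In.one)))).sub h2)
  · refine (mB_cg2 hp h hk).in ?_
    exact h31.neg.mul hC

/-- the coefficients. -/
theorem n6_term (hp : 5 ≤ p) {k : ℕ} (hk : k < p) :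
    Cg p 2 ((1 - 2 * p) * (-2 * (if k < (p - 1) / 3 + 1 then mA p k else 0) +
      (if k < (2 * p - 2) / 3 + 1 then mB p k else 0) +
      3 * (if k < (p - 1) / 3 + 1 then mC p k else 0)))
      (-(27 ^ k * (cc ℚ_[p] k + p * (cc ℚ_[p] k + k * gg ℚ_[p] k)))) := by
  have hcc := (cc_red hp hk).in
  have h12 : In p (1 - 2 * (p : ℚ_[p])) := by
    have := (In.one (p := p)).sub ((In.nat (p := p) 2).mul (In.nat p))
    push_cast at this
    exact this
  rcases Nat.lt_or_ge (3 * k) p with h | h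
  · rw [if_pos (by omega), if_pos (by omega), if_pos (by omega)]
    have hA := mA_cg hp h
    have hB := mB_cg hp h
    have hC := mC_cg hp h
    have hH := n6_har_in h
    have hh := n6_har_in hk
    have h1 := (((hA.mul_left (In.int (-2))).add hB).add (hC.mul_left (In.nat 3))).mul_left h12
    refine Cg.trans (Cg.trans (Cg.of_eq (by push_cast; ring)) h1) ?_
    refine n6_mk (w := 27 ^ k * cc ℚ_[p] k *
      (6 + 2 * k * (3 * (har ℚ_[p] (3 * k) - har ℚ_[p] k)))) ?_ ?_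
    · rw [gg_har]
      push_cast
      ring
    · refine ((n6_27 k).mul hcc).mul ?_
      have h5 := (In.nat (p := p) 6).add (((In.nat 2).mul (In.nat k)).mul
        ((In.nat 3).mul (hH.sub hh)))
      push_cast at h5
      exact h5
  · have hc := n6_cc_zero hp h hk
    have hbig := ((big_terms hp h hk).mul_left (n6_27 k)).neg
    refine Cg.trans ?_ hbig.symm
    have h30 := n6_three hp
    have hn1 : ¬ k < (p - 1) / 3 + 1 := by omega
    rw [if_neg hn1, if_neg hn1]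
    by_cases h2 : 3 * k ≤ 2 * p - 2
    · have hn2 : k < (2 * p - 2) / 3 + 1 := by omega
      rw [if_pos h2, if_pos hn2]
      have h3 := (mB_cg2 hp h h2).mul_left h12
      refine Cg.trans (Cg.trans (Cg.of_eq (by ring)) h3) ?_
      have h31 : In p ((2 : ℚ_[p]) * (3 * k + 1) * 27 ^ k) := by
        have := ((In.nat (p := p) 2).mul (((In.nat (p := p) 3).mul (In.nat k)).add In.one)).mul
          (n6_27 k)
        push_cast at this
        exact this
      have h4 := hc.pmul.mul_left h31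
      rw [cg_iff_sub]
      exact Cg.trans (Cg.of_eq (by ring)) (Cg.trans h4 (Cg.of_eq (by ring)))
    · have hn2 : ¬ k < (2 * p - 2) / 3 + 1 := by omega
      rw [if_neg h2, if_neg hn2]
      exact Cg.of_eq (by ring)

theorem n6_card : ((FF p).card : ℚ_[p]) = p - 1 := by
  have h1 : (FF p).card = p - 1 := by
    unfold FF
    rw [filter_ne', card_erase_of_mem (mem_univ _), card_univ, ZMod.card]
  rw [h1, Nat.cast_sub (Fact.out : p.Prime).one_lt.le, Nat.cast_one]

theorem count (hp : 5 ≤ p) {a : ZMod p} (ha : a ≠ 0) {t : ℚ_[p]} (ht : Rd p t a) :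
    Cg p 2 ((p : ℚ_[p]) - 2 - NN p a)
      (HH p (27 * t ^ p) + p * (HH p (27 * t ^ p) + TG p (27 * t ^ p))) := by
  obtain ⟨α, hα⟩ : ∃ α, α = t ^ p := ⟨_, rfl⟩
  rw [← hα]
  have hαa : Rd p α a := by
    have h := ht.pow p
    rw [ZMod.pow_card] at h
    rw [hα]
    exact h
  have hαin := hαa.in
  have hα1 : Cg p 2 (α ^ (p - 1)) 1 := by
    have h1 := (ht.fermat ha).frob2 In.one
    rw [one_pow, ← pow_mul, mul_comm, pow_mul, ← hα] at h1
    exact h1
  have hα2 : Cg p 2 (α ^ (2 * (p - 1))) 1 := by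
    have h1 := hα1.pow (hαin.pow _) 2
    rw [one_pow, ← pow_mul, mul_comm] at h1
    exact h1
  have hc := count1 hp ha hαa
  have hM1 := sum_yy hp (p - 1) hαin
  have hM2 := sum_yy hp (2 * (p - 1)) hαin
  have hsplit : ∑ u ∈ FF p, ∑ v ∈ FF p,
      (1 - 2 * yy p α u v ^ (p - 1) + yy p α u v ^ (2 * (p - 1))) =
      ((p : ℚ_[p]) - 1) ^ 2 - 2 * (∑ u ∈ FF p, ∑ v ∈ FF p, yy p α u v ^ (p - 1)) +
        ∑ u ∈ FF p, ∑ v ∈ FF p, yy p α u v ^ (2 * (p - 1)) := by
    simp only [sum_add_distrib, sum_sub_distrib, ← mul_sum, sum_const, nsmul_eq_mul, mul_one]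
    rw [n6_card]
    ring
  rw [hsplit] at hc
  have hc2 := hc.trans (((Cg.refl 2 (((p : ℚ_[p]) - 1) ^ 2)).sub (hM1.mul_left (In.nat 2))).add hM2)
  -- the sums
  obtain ⟨A, hA⟩ : ∃ A, A = ∑ k ∈ range p, (if k < (p - 1) / 3 + 1 then mA p k * α ^ k else 0) :=
    ⟨_, rfl⟩
  obtain ⟨B, hB⟩ : ∃ B, B = ∑ k ∈ range p,
      (if k < (2 * p - 2) / 3 + 1 then mB p k * α ^ k else 0) := ⟨_, rfl⟩
  obtain ⟨C', hC⟩ : ∃ C', C' = ∑ k ∈ range p,
      (if k < (p - 1) / 3 + 1 then mC p k * α ^ k else 0) := ⟨_, rfl⟩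
  have hAin : In p A := by
    rw [hA]
    refine In.sum fun k hk => ?_
    split_ifs with h
    · exact (n6_mA_in hp (by omega)).mul (hαin.pow k)
    · exact In.zero
  have hBin : In p B := by
    rw [hB]
    refine In.sum fun k hk => ?_
    split_ifs with h
    · exact (n6_mB_in hp (by omega)).mul (hαin.pow k)
    · exact In.zero
  have hCin : In p C' := by
    rw [hC]
    refine In.sum fun k hk => ?_
    split_ifs with h
    · exact (n6_mC_in hp (by omega)).mul (hαin.pow k)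
    · exact In.zero
  have hT1 : TM p (p - 1) α = A + 2 + α ^ (p - 1) := by
    rw [TM_one hp, n6_range _ (by omega), ← hA]
  have hT2 : TM p (2 * (p - 1)) α = B + (2 + α ^ (p - 1)) * C' + (2 + α ^ (2 * (p - 1))) +
      (1 + 2 * α ^ (p - 1)) * mD p := by
    rw [TM_two hp, n6_range _ (by omega : (2 * p - 2) / 3 + 1 ≤ p),
      n6_range _ (by omega : (p - 1) / 3 + 1 ≤ p), ← hB, ← hC]
  have hT1' : Cg p 2 (TM p (p - 1) α) (A + 3) := by
    rw [hT1]
    refine Cg.trans ((Cg.refl 2 (A + 2)).add hα1) (Cg.of_eq (by ring))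
  have hmD := mD_cg (p := p) hp
  have hT2' : Cg p 2 (TM p (2 * (p - 1)) α) (B + 3 * C' + 3 - 3 * p) := by
    rw [hT2]
    have h1 := ((Cg.refl 2 (2 : ℚ_[p])).add hα1).mul_right hCin
    have h2 := (Cg.refl 2 (2 : ℚ_[p])).add hα2
    have h3 : Cg p 2 ((1 + 2 * α ^ (p - 1)) * mD p) ((1 + 2 * 1) * -p) := by
      refine Cg.mul ((Cg.refl 2 1).add ((hα1.mul_left (In.nat 2)))) hmD
        (hmD.in (In.nat p).neg) ?_
      have := (In.one (p := p)).add ((In.nat (p := p) 2).mul In.one)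
      push_cast at this
      exact this
    refine Cg.trans ((((Cg.refl 2 B).add h1).add h2).add h3) (Cg.of_eq (by ring))
  have hp12 : In p (((p : ℚ_[p]) - 1) ^ 2) := ((In.nat p).sub In.one).pow 2
  have hc3 := hc2.trans (((Cg.refl 2 (((p : ℚ_[p]) - 1) ^ 2)).sub
    ((hT1'.mul_left hp12).mul_left (In.nat 2))).add (hT2'.mul_left hp12))
  -- the main sum
  have hmain : Cg p 2 ((1 - 2 * p) * (-2 * A + B + 3 * C'))
      (-(HH p (27 * α) + p * (HH p (27 * α) + TG p (27 * α)))) := by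
    have h1 : (1 - 2 * (p : ℚ_[p])) * (-2 * A + B + 3 * C') = ∑ k ∈ range p,
        ((1 - 2 * p) * (-2 * (if k < (p - 1) / 3 + 1 then mA p k else 0) +
        (if k < (2 * p - 2) / 3 + 1 then mB p k else 0) +
        3 * (if k < (p - 1) / 3 + 1 then mC p k else 0))) * α ^ k := by
      rw [hA, hB, hC, mul_sum, mul_sum, ← sum_add_distrib, ← sum_add_distrib, mul_sum]
      refine sum_congr rfl fun k _ => ?_
      split_ifs <;> ring
    have h2 : -(HH p (27 * α) + p * (HH p (27 * α) + TG p (27 * α))) = ∑ k ∈ range p,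
        (-(27 ^ k * (cc ℚ_[p] k + p * (cc ℚ_[p] k + k * gg ℚ_[p] k)))) * α ^ k := by
      unfold HH TG
      rw [← sum_add_distrib, mul_sum, ← sum_add_distrib, ← sum_neg_distrib]
      refine sum_congr rfl fun k _ => ?_
      rw [mul_pow]
      ring
    rw [h1, h2]
    exact Cg.sum fun k hk => (n6_term hp (mem_range.1 hk)).mul_right (hαin.pow k)
  have hlast : Cg p 2 ((p : ℚ_[p]) - 2 - (((p : ℚ_[p]) - 1) ^ 2 - 2 * ((((p : ℚ_[p]) - 1) ^ 2) * (A + 3)) +
      ((p : ℚ_[p]) - 1) ^ 2 * (B + 3 * C' + 3 - 3 * p)))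
      (-((1 - 2 * p) * (-2 * A + B + 3 * C'))) := by
    refine n6_mk (w := 3 * p - 4 + 2 * A - B - 3 * C') ?_ ?_
    · ring
    · have h5 := (((((In.nat (p := p) 3).mul (In.nat p)).sub (In.nat 4)).add
        ((In.nat 2).mul hAin)).sub hBin).sub ((In.nat 3).mul hCin)
      push_cast at h5
      exact h5
  have hfin := (Cg.refl 2 ((p : ℚ_[p]) - 2)).sub hc3
  push_cast at hfin
  refine Cg.trans hfin (Cg.trans hlast ?_)
  have := hmain.neg
  rw [neg_neg] at this
  exact this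

end SCong
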