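import Pool.Agent.Lib.MP_0a3b9a_nt.Basic

/-!
Module T1.  For u ≠ 0 the number of v ≠ 0 with u + v + a/(uv) = 1, i.e. u v² + (u²-u) v + a = 0 (v = 0 is never a root), is 1 + φ(u²(u-1)² - 4au) (quadraticChar_card_sqrts-like count of roots of a quadratic).
So NN = (p-1) + Σ_{u≠0} φ(u²(u-1)² - 4au); u = 1/s: φ(u²(u-1)²-4au) = φ((1-s)² - 4as³) (multiply by s⁴); the term s = 0 is φ(1) = 1.
-/

namespace SCong
open Finset Polynomial
variable {p : ℕ} [Fact p.Prime]

theorem T1_char (hp : 5 ≤ p) : ringChar (ZMod p) ≠ 2 := by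
  rw [ZMod.ringChar_zmod_n]; omega

theorem T1_fibre (hp : 5 ≤ p) {a u : ZMod p} (ha : a ≠ 0) (hu : u ≠ 0) :
    ((univ.filter (fun v : ZMod p => u ≠ 0 ∧ v ≠ 0 ∧ u + v + a / (u * v) = 1)).card : ℤ) =
      quadraticChar (ZMod p) (u ^ 2 * (u - 1) ^ 2 - 4 * a * u) + 1 := by
  obtain ⟨h2, h3⟩ := ne_of_five hp
  rw [← quadraticChar_card_sqrts (T1_char hp)]
  congr 1
  have h2u : 2 * u ≠ 0 := mul_ne_zero h2 hu
  have keyeq : ∀ v : ZMod p, v ≠ 0 → (u + v + a / (u * v) = 1 ↔
      u * v ^ 2 + (u ^ 2 - u) * v + a = 0) := by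
    intro v hv
    have huv : u * v ≠ 0 := mul_ne_zero hu hv
    constructor
    · intro h
      have : (u + v + a / (u * v)) * (u * v) = 1 * (u * v) := by rw [h]
      rw [add_mul, div_mul_cancel₀ _ huv] at this
      linear_combination this
    · intro h
      apply mul_right_cancel₀ huv
      rw [add_mul, div_mul_cancel₀ _ huv]
      linear_combination h
  refine Finset.card_nbij' (fun v => 2 * u * v + (u ^ 2 - u)) (fun w => (w - (u ^ 2 - u)) / (2 * u))
    ?_ ?_ ?_ ?_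
  · intro v hv
    simp only [coe_filter, mem_univ, true_and, Set.mem_ofPred_eq] at hv
    obtain ⟨_, hv0, hv⟩ := hv
    rw [keyeq v hv0] at hv
    simp only [Set.coe_toFinset, Set.mem_ofPred_eq]
    linear_combination (4 * u) * hv
  · intro w hw
    simp only [Set.coe_toFinset, Set.mem_ofPred_eq] at hw
    simp only [coe_filter, mem_univ, true_and, Set.mem_ofPred_eq]
    obtain ⟨v, hv⟩ : ∃ v, w = 2 * u * v + (u ^ 2 - u) :=
      ⟨(w - (u ^ 2 - u)) / (2 * u), by rw [mul_div_cancel₀ _ h2u]; ring⟩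
    have hv' : (w - (u ^ 2 - u)) / (2 * u) = v := by
      rw [hv, add_sub_cancel_right, mul_div_cancel_left₀ _ h2u]
    rw [hv']
    rw [hv] at hw
    have h4 : (2 * (2 * u)) * (u * v ^ 2 + (u ^ 2 - u) * v + a) = 0 := by
      linear_combination hw
    have h5 := (mul_eq_zero.1 h4).resolve_left (mul_ne_zero h2 h2u)
    have hv0 : v ≠ 0 := by
      rintro rfl
      apply ha; linear_combination h5
    exact ⟨hu, hv0, (keyeq v hv0).2 h5⟩
  · intro v _
    simp only
    rw [add_sub_cancel_right, mul_div_cancel_left₀ _ h2u]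
  · intro w _
    simp only
    rw [mul_div_cancel₀ _ h2u]; ring

theorem trace_phi (hp : 5 ≤ p) {a : ZMod p} (ha : a ≠ 0) :
    (p : ℤ) - 2 - NN p a = -∑ s : ZMod p, quadraticChar (ZMod p) ((1 - s) ^ 2 - 4 * a * s ^ 3) := by
  have hN : (NN p a : ℤ) = ∑ u ∈ univ.filter (fun u : ZMod p => u ≠ 0),
      (quadraticChar (ZMod p) (u ^ 2 * (u - 1) ^ 2 - 4 * a * u) + 1) := by
    unfold NN
    rw [Finset.card_filter]
    push_cast
    rw [← Finset.univ_product_univ, Finset.sum_product, Finset.sum_filter]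
    refine sum_congr rfl fun u _ => ?_
    by_cases hu : u = 0
    · simp [hu]
    · rw [if_pos hu, ← T1_fibre hp ha hu, Finset.card_filter]
      push_cast
      rfl
  have hc : ((univ.filter (fun u : ZMod p => u ≠ 0)).card : ℤ) = p - 1 := by
    rw [Finset.filter_ne', Finset.card_erase_of_mem (mem_univ _), Finset.card_univ, ZMod.card]
    have : 1 ≤ p := by omega
    push_cast [this]; ring
  have hs : ∑ s : ZMod p, quadraticChar (ZMod p) ((1 - s) ^ 2 - 4 * a * s ^ 3) =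
      1 + ∑ s ∈ univ.filter (fun u : ZMod p => u ≠ 0),
        quadraticChar (ZMod p) ((1 - s) ^ 2 - 4 * a * s ^ 3) := by
    rw [← Finset.add_sum_erase _ _ (mem_univ (0 : ZMod p)), Finset.filter_ne']
    congr 1
    simp
  have hinv : ∑ u ∈ univ.filter (fun u : ZMod p => u ≠ 0),
      quadraticChar (ZMod p) (u ^ 2 * (u - 1) ^ 2 - 4 * a * u) =
      ∑ s ∈ univ.filter (fun u : ZMod p => u ≠ 0),
        quadraticChar (ZMod p) ((1 - s) ^ 2 - 4 * a * s ^ 3) := by
    refine Finset.sum_nbij' (fun u => u⁻¹) (fun s => s⁻¹) ?_ ?_ ?_ ?_ ?_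
    · intro u hu; simpa using hu
    · intro u hu; simpa using hu
    · intro u _; exact inv_inv u
    · intro u _; exact inv_inv u
    · intro u hu
      have hu0 : u ≠ 0 := (mem_filter.1 hu).2
      have e : (1 - u⁻¹) ^ 2 - 4 * a * u⁻¹ ^ 3 =
          (u⁻¹ ^ 2) ^ 2 * (u ^ 2 * (u - 1) ^ 2 - 4 * a * u) := by
        field_simp
      rw [e, map_mul, quadraticChar_sq_one' (pow_ne_zero 2 (inv_ne_zero hu0)), one_mul]
  rw [hN, Finset.sum_add_distrib, hs, hinv, Finset.sum_const, nsmul_eq_mul, mul_one, hc]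
  ring

end SCong
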