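import Pool.Agent.Lib.MP_0a3b9a_nt.Basic

/-!
Module T2.  r² = -2.  a = (2-5r)/108.  Substitute s = (r-2)(X - 1/2), X = (r-2)/4 · x, i.e. s = (r-2)((r-2)x/4 - 1/2) (affine bijection, r ≠ 2 since (r-2)(r+2) = -6 ≠ 0):
 (1-s)² - 4as³ = -4X(X² - (2-r)X + (1-2r)/4) = -4 κ³ x (x² + 4x + 2), κ = (r-2)/4  (polynomial identity modulo r² = -2),
 and φ(-4κ³) = φ(-κ) = φ(2-r).
-/

namespace SCong
open Finset Polynomial
variable {p : ℕ} [Fact p.Prime]

theorem T2_ident (h3 : (3 : ZMod p) ≠ 0) {k a : ZMod p}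
    (hk : 8 * k ^ 2 + 8 * k + 3 = 0) (ha : 27 * a = -(2 + 5 * k)) (x : ZMod p) :
    (1 - 2 * k * (2 * k * x - 1)) ^ 2 - 4 * a * (2 * k * (2 * k * x - 1)) ^ 3 =
      (-k) * ((2 * k) ^ 2 * (x * (x ^ 2 + 4 * x + 2))) := by
  have h27 : (27 : ZMod p) ≠ 0 := by
    have : (27 : ZMod p) = 3 * (3 * 3) := by norm_num
    rw [this]; exact mul_ne_zero h3 (mul_ne_zero h3 h3)
  apply mul_left_cancel₀ h27
  linear_combination (160 * k ^ 5 * x ^ 3 - 96 * k ^ 4 * x ^ 3 - 240 * k ^ 4 * x ^ 2 +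
    36 * k ^ 3 * x ^ 3 + 144 * k ^ 3 * x ^ 2 + 120 * k ^ 3 * x - 72 * k ^ 2 * x - 20 * k ^ 2 +
    12 * k + 9) * hk - 4 * (2 * k * (2 * k * x - 1)) ^ 3 * ha

theorem trace_S (hp : 5 ≤ p) {r : ZMod p} (hr : r ^ 2 = -2) :
    ∑ s : ZMod p, quadraticChar (ZMod p) ((1 - s) ^ 2 - 4 * ((2 - 5 * r) / 108) * s ^ 3) =
      quadraticChar (ZMod p) (2 - r) * SW p := by
  obtain ⟨h2, h3⟩ := ne_of_five hp
  have h4 : (4 : ZMod p) ≠ 0 := by
    have : (4 : ZMod p) = 2 * 2 := by norm_num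
    rw [this]; exact mul_ne_zero h2 h2
  have h108 : (108 : ZMod p) ≠ 0 := by
    have : (108 : ZMod p) = 2 * 2 * (3 * (3 * 3)) := by norm_num
    rw [this]; exact mul_ne_zero (mul_ne_zero h2 h2) (mul_ne_zero h3 (mul_ne_zero h3 h3))
  obtain ⟨k, hk⟩ : ∃ k : ZMod p, 4 * k = r - 2 := ⟨(r - 2) / 4, by field_simp⟩
  have hr' : r = 4 * k + 2 := by linear_combination -hk
  have hk8 : 8 * k ^ 2 + 8 * k + 3 = 0 := by
    apply mul_left_cancel₀ h2
    rw [hr'] at hr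
    linear_combination hr
  have hk0 : k ≠ 0 := by
    rintro rfl
    apply h3; linear_combination hk8
  set a : ZMod p := (2 - 5 * r) / 108 with ha
  have ha27 : 27 * a = -(2 + 5 * k) := by
    apply mul_left_cancel₀ h4
    have : 108 * a = 2 - 5 * r := by rw [ha]; field_simp
    rw [hr'] at this
    linear_combination this
  have h2k : 2 * k ≠ 0 := mul_ne_zero h2 hk0
  have h22 : 2 * k * (2 * k) ≠ 0 := mul_ne_zero h2k h2k
  have bij : Function.Bijective (fun x : ZMod p => 2 * k * (2 * k * x - 1)) := by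
    refine (Finite.injective_iff_bijective).1 ?_
    intro x y hxy
    have h1 : 2 * k * x - 1 = 2 * k * y - 1 := mul_left_cancel₀ h2k hxy
    exact mul_left_cancel₀ h2k (sub_left_injective h1)
  rw [← Function.Bijective.sum_comp bij, SW, Finset.mul_sum]
  refine Finset.sum_congr rfl fun x _ => ?_
  rw [T2_ident h3 hk8 ha27 x, map_mul, map_mul, quadraticChar_sq_one' h2k, one_mul]
  congr 1
  have e : 2 - r = 2 ^ 2 * (-k) := by rw [hr']; ring
  rw [e, map_mul, quadraticChar_sq_one' h2, one_mul]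

end SCong
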