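import Pool.Agent.Lib.MP_0a3b9a_nt.T5

/-!
Module T6A.  χ(x) = ze(ind f x) (0 at 0) is a multiplicative character of ZMod p of order 8; the sum is the Jacobi sum J(χ, χ³) = Σ χ(x) χ³(1-x), χ, χ³, χ⁴ nontrivial, so |J|² = p
(jacobiSum_mul_jacobiSum_inv; the inverse characters are the complex conjugates).  A direct proof (double sum over x/(1-x) ...) is also fine.
-/

namespace SCong
open Finset Polynomial
variable {p : ℕ} [Fact p.Prime]

theorem ze_zero : ze 0 = 1 := by
  unfold ze; simp

theorem ze_eq_one {a : ZMod 8} (h : ze a = 1) : a = 0 := by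
  unfold ze at h
  rw [Complex.exp_eq_one_iff] at h
  obtain ⟨n, hn⟩ := h
  have hpi : (Real.pi : ℂ) ≠ 0 := by exact_mod_cast Real.pi_ne_zero
  have hI := Complex.I_ne_zero
  have h1 : (a.val : ℂ) = ((8 * n : ℤ) : ℂ) := by
    have h2 : (2 * (Real.pi : ℂ) * Complex.I) * (a.val : ℂ) =
        (2 * (Real.pi : ℂ) * Complex.I) * ((8 * n : ℤ) : ℂ) := by
      push_cast
      linear_combination 8 * hn
    exact mul_left_cancel₀ (by simp [hpi]) h2
  have h2 : (a.val : ℤ) = 8 * n := by exact_mod_cast h1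
  have h3 := a.val_lt
  have h4 : a.val = 0 := by omega
  exact (ZMod.val_eq_zero a).1 h4

theorem ze_nsmul (n : ℕ) (a : ZMod 8) : ze (n * a) = ze a ^ n := by
  induction n with
  | zero => simp [ze_zero]
  | succ n ih =>
    rw [pow_succ, ← ih, ← ze_add]
    congr 1
    push_cast
    ring

/-- the character `x ↦ ze (ind f x)`. -/
noncomputable def chi {F : Type*} [Field F] [Fintype F] (f : Fˣ →* Multiplicative (ZMod 8)) :
    MulChar F ℂ where
  toFun := fun x => open Classical in if x = 0 then 0 else ze (ind f x)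
  map_one' := by simp [ind_one, ze_zero]
  map_mul' := by
    intro x y
    by_cases hx : x = 0
    · simp [hx]
    by_cases hy : y = 0
    · simp [hy]
    simp only [hx, hy, mul_eq_zero, or_self, if_false]
    rw [ind_mul f hx hy, ze_add]
  map_nonunit' := by
    intro a ha
    have : a = 0 := by
      by_contra h
      exact ha (isUnit_iff_ne_zero.2 h)
    simp [this]

theorem chi_apply {F : Type*} [Field F] [Fintype F] (f : Fˣ →* Multiplicative (ZMod 8)) {x : F}
    (hx : x ≠ 0) : chi f x = ze (ind f x) := by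
  show (open Classical in if x = 0 then 0 else ze (ind f x)) = _
  rw [if_neg hx]

theorem chi_pow_ne {F : Type*} [Field F] [Fintype F] (f : Fˣ →* Multiplicative (ZMod 8))
    (hf : Function.Surjective f) {n : ℕ} (hn : n ≠ 0) (h : ¬ 8 ∣ n) : chi f ^ n ≠ 1 := by
  intro h1
  obtain ⟨u, hu⟩ := hf (Multiplicative.ofAdd 1)
  have h2 : (chi f ^ n) (u : F) = 1 := by
    rw [h1, MulChar.one_apply_coe]
  rw [MulChar.pow_apply' _ hn, chi_apply f u.ne_zero, ind_units, hu, ← ze_nsmul] at h2
  have h3 := ze_eq_one h2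
  rw [toAdd_ofAdd, mul_one, ZMod.natCast_eq_zero_iff] at h3
  exact h h3

theorem norm_one (h : p % 8 = 1) (f : (ZMod p)ˣ →* Multiplicative (ZMod 8)) (hf : Function.Surjective f) :
    Complex.normSq (∑ x ∈ (univ : Finset (ZMod p)).filter (fun x => x ≠ 0 ∧ x ≠ 1),
      ze (ind f x + 3 * ind f (1 - x))) = p := by
  have hJ : ∑ x ∈ (univ : Finset (ZMod p)).filter (fun x => x ≠ 0 ∧ x ≠ 1),
      ze (ind f x + 3 * ind f (1 - x)) = jacobiSum (chi f) (chi f ^ 3) := by
    rw [jacobiSum_eq_sum_sdiff]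
    refine Finset.sum_congr ?_ ?_
    · ext x; simp
    · intro x hx
      simp only [mem_sdiff, mem_univ, true_and, mem_insert, mem_singleton, not_or] at hx
      have h1 : (1 : ZMod p) - x ≠ 0 := sub_ne_zero.2 (Ne.symm hx.2)
      rw [MulChar.pow_apply' _ (by norm_num), chi_apply f hx.1, chi_apply f h1, ← ze_nsmul, ← ze_add]
      push_cast
      rfl
  have h1 : chi f ≠ 1 := by
    have := chi_pow_ne f hf (n := 1) (by norm_num) (by norm_num)
    rwa [pow_one] at this
  have h3 : chi f ^ 3 ≠ 1 := chi_pow_ne f hf (by norm_num) (by norm_num)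
  have h4 : chi f * chi f ^ 3 ≠ 1 := by
    have := chi_pow_ne f hf (n := 4) (by norm_num) (by norm_num)
    rwa [pow_succ'] at this
  have hchar : ringChar ℂ ≠ ringChar (ZMod p) := by
    rw [ringChar.eq_zero, ZMod.ringChar_zmod_n]
    exact (Fact.out : p.Prime).ne_zero.symm
  have hm := jacobiSum_mul_jacobiSum_inv hchar h1 h3 h4
  have hs : jacobiSum (chi f)⁻¹ (chi f ^ 3)⁻¹ = (starRingEnd ℂ) (jacobiSum (chi f) (chi f ^ 3)) := by
    unfold jacobiSum
    rw [map_sum]
    refine Finset.sum_congr rfl fun x _ => ?_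
    rw [map_mul, ← MulChar.star_apply', ← MulChar.star_apply']
    rfl
  rw [hs, ZMod.card] at hm
  rw [hJ]
  have h5 : ((Complex.normSq (jacobiSum (chi f) (chi f ^ 3)) : ℝ) : ℂ) = ((p : ℝ) : ℂ) := by
    rw [← Complex.mul_conj, hm]
    simp
  exact_mod_cast h5

end SCong
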