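import Pool.Agent.Lib.MP_0a3b9a_nt.T5

/-!
Module T6B (p ≡ 1 mod 8).  e(x) = ind x + 3 ind(1-x).  x = θ/(1+θ), 1-x = 1/(1+θ), θ = x/(1-x), is a bijection between x ≠ 0, 1 and θ ≠ 0, -1, and
e = ind θ - 4 ind(1+θ) (8 = 0).  e ∈ {0,4} iff ind θ ∈ {0,4} iff θ = y⁴; then e = 4 (ind y + ind(1+y⁴)), which is 0 iff y(1+y⁴) is a square.  Each fourth power θ ≠ 0 has exactly four y (p ≡ 1 mod 4);
-1 is a fourth power (p ≡ 1 mod 8), and the four y with y⁴ = -1 contribute 0 to Σφ(y(y⁴+1)).  So #{e = 0} + #{e = 4} = (p-1)/4 - 1 and 4(#{e=0} - #{e=4}) = Σφ(y(y⁴+1)).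
-/

namespace SCong
open Finset Polynomial
variable {p : ℕ} [Fact p.Prime]

theorem four_card {i a : ZMod p} (hi : i ^ 2 = -1) (h2 : (2 : ZMod p) ≠ 0) (ha : a ≠ 0) :
    (univ.filter (fun y : ZMod p => y ^ 4 = a ^ 4)).card = 4 := by
  have hi1 : i ≠ 1 := by
    rintro rfl
    exact h2 (by linear_combination hi)
  have hi2 : i ≠ -1 := by
    rintro rfl
    exact h2 (by linear_combination hi)
  have hi0 : i ≠ 0 := by
    rintro rfl
    have : (1 : ZMod p) = 0 := by linear_combination hi
    exact one_ne_zero this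
  have hset : univ.filter (fun y : ZMod p => y ^ 4 = a ^ 4) = {a, -a, i * a, -(i * a)} := by
    ext y
    simp only [mem_filter, mem_univ, true_and, mem_insert, mem_singleton]
    constructor
    · intro h
      have h1 : (y - a) * ((y + a) * ((y - i * a) * (y + i * a))) = 0 := by
        linear_combination h - a ^ 2 * (y ^ 2 - a ^ 2) * hi
      rcases mul_eq_zero.1 h1 with h | h
      · left; linear_combination h
      rcases mul_eq_zero.1 h with h | h
      · right; left; linear_combination h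
      rcases mul_eq_zero.1 h with h | h
      · right; right; left; linear_combination h
      · right; right; right; linear_combination h
    · have h4 : i ^ 4 = 1 := by linear_combination (i ^ 2 - 1) * hi
      rintro (rfl | rfl | rfl | rfl)
      · rfl
      · ring
      · linear_combination a ^ 4 * h4
      · linear_combination a ^ 4 * h4
  rw [hset, card_insert_of_notMem, card_insert_of_notMem, card_insert_of_notMem, card_singleton]
  · rw [mem_singleton]
    intro h
    have : 2 * (i * a) = 0 := by linear_combination h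
    simp [h2, hi0, ha] at this
  · simp only [mem_insert, mem_singleton, not_or]
    constructor
    · intro h
      have : (i + 1) * a = 0 := by linear_combination -h
      rcases mul_eq_zero.1 this with h | h
      · exact hi2 (by linear_combination h)
      · exact ha h
    · intro h
      have : (i - 1) * a = 0 := by linear_combination h
      rcases mul_eq_zero.1 this with h | h
      · exact hi1 (by linear_combination h)
      · exact ha h
  · simp only [mem_insert, mem_singleton, not_or]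
    refine ⟨?_, ?_, ?_⟩
    · intro h
      have : 2 * a = 0 := by linear_combination h
      simp [h2, ha] at this
    · intro h
      have : (i - 1) * a = 0 := by linear_combination -h
      rcases mul_eq_zero.1 this with h | h
      · exact hi1 (by linear_combination h)
      · exact ha h
    · intro h
      have : (i + 1) * a = 0 := by linear_combination h
      rcases mul_eq_zero.1 this with h | h
      · exact hi2 (by linear_combination h)
      · exact ha h

theorem exists_zeta (h : p % 8 = 1) (f : (ZMod p)ˣ →* Multiplicative (ZMod 8))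
    (hf : Function.Surjective f) : ∃ z : ZMod p, z ^ 4 = -1 := by
  have h0 : (-1 : ZMod p) ≠ 0 := by simp
  have h1 : 2 * ind f (-1 : ZMod p) = 0 := by
    have h2 := ind_pow f h0 2
    rw [neg_one_sq, ind_one] at h2
    push_cast at h2
    exact h2.symm
  have key : ∀ a : ZMod 8, 2 * a = 0 → (a = 0 ∨ a = 4) := by decide
  obtain ⟨y, hy⟩ := (ind_fourth f hf h0).1 (key _ h1)
  exact ⟨y, hy.symm⟩

/-- index of `y⁴/(1+y⁴)`. -/
theorem e_quot (f : (ZMod p)ˣ →* Multiplicative (ZMod 8)) {y : ZMod p} (hy : y ≠ 0)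
    (hy4 : y ^ 4 ≠ -1) :
    ind f (y ^ 4 / (1 + y ^ 4)) + 3 * ind f (1 - y ^ 4 / (1 + y ^ 4)) =
      4 * ind f (y * (y ^ 4 + 1)) := by
  have h1 : (1 + y ^ 4) ≠ 0 := fun h => hy4 (by linear_combination h)
  have h1' : (y ^ 4 + 1) ≠ 0 := fun h => hy4 (by linear_combination h)
  have h4 : y ^ 4 ≠ 0 := pow_ne_zero 4 hy
  have ha : ind f (y ^ 4 / (1 + y ^ 4)) = 4 * ind f y - ind f (y ^ 4 + 1) := by
    have h2 := ind_mul f (div_ne_zero h4 h1) h1'
    have h3 : y ^ 4 / (1 + y ^ 4) * (y ^ 4 + 1) = y ^ 4 := by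
      rw [add_comm (1 : ZMod p)]
      field_simp
    rw [h3, ind_pow f hy] at h2
    push_cast at h2
    linear_combination -h2
  have hb : ind f (1 - y ^ 4 / (1 + y ^ 4)) = - ind f (y ^ 4 + 1) := by
    have h3 : 1 - y ^ 4 / (1 + y ^ 4) = (1 + y ^ 4)⁻¹ := by
      field_simp
      ring
    have h2 := ind_mul f (inv_ne_zero h1) h1'
    have h5 : (1 + y ^ 4)⁻¹ * (y ^ 4 + 1) = 1 := by
      rw [add_comm (1 : ZMod p)]
      field_simp
    rw [h5, ind_one] at h2
    rw [h3]
    linear_combination -h2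
  rw [ha, hb, ind_mul f hy h1']
  have h8 : (8 : ZMod 8) = 0 := by decide
  linear_combination -(ind f (y ^ 4 + 1)) * h8

theorem fib_sum (h : p % 8 = 1) (f : (ZMod p)ˣ →* Multiplicative (ZMod 8))
    (hf : Function.Surjective f) (g : ZMod p → ℤ) :
    ∑ y ∈ (univ : Finset (ZMod p)).filter (fun y => y ≠ 0 ∧ y ^ 4 ≠ -1), g (y ^ 4 / (1 + y ^ 4)) =
    4 * ∑ x ∈ ((univ : Finset (ZMod p)).filter (fun x => x ≠ 0 ∧ x ≠ 1)).filter
      (fun x => ind f x + 3 * ind f (1 - x) = 0 ∨ ind f x + 3 * ind f (1 - x) = 4), g x := by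
  obtain ⟨z, hz⟩ := exists_zeta h f hf
  have h2 : (2 : ZMod p) ≠ 0 := by
    intro h0
    have h3 : ((2 : ℕ) : ZMod p) = 0 := by exact_mod_cast h0
    rw [ZMod.natCast_eq_zero_iff] at h3
    have := Nat.le_of_dvd (by norm_num) h3
    have := (Fact.out : p.Prime).two_le
    omega
  have hi : (z ^ 2) ^ 2 = -1 := by rw [← pow_mul]; exact hz
  have key : ∀ a : ZMod 8, 4 * a = 0 ∨ 4 * a = 4 := by decide
  have hmaps : ∀ y ∈ (univ : Finset (ZMod p)).filter (fun y => y ≠ 0 ∧ y ^ 4 ≠ -1),
      y ^ 4 / (1 + y ^ 4) ∈ ((univ : Finset (ZMod p)).filter (fun x => x ≠ 0 ∧ x ≠ 1)).filter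
      (fun x => ind f x + 3 * ind f (1 - x) = 0 ∨ ind f x + 3 * ind f (1 - x) = 4) := by
    intro y hy
    simp only [mem_filter, mem_univ, true_and] at hy ⊢
    have h1 : (1 + y ^ 4) ≠ 0 := fun h => hy.2 (by linear_combination h)
    refine ⟨⟨div_ne_zero (pow_ne_zero 4 hy.1) h1, ?_⟩, ?_⟩
    · intro h3
      rw [div_eq_one_iff_eq h1] at h3
      exact one_ne_zero (by linear_combination -h3 : (1 : ZMod p) = 0)
    · rw [e_quot f hy.1 hy.2]
      exact key _
  rw [← Finset.sum_fiberwise_of_maps_to hmaps, Finset.mul_sum]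
  refine Finset.sum_congr rfl fun x hx => ?_
  simp only [mem_filter, mem_univ, true_and] at hx
  obtain ⟨⟨hx0, hx1⟩, hx2⟩ := hx
  have hx1' : 1 - x ≠ 0 := sub_ne_zero.2 (Ne.symm hx1)
  have hth : x / (1 - x) ≠ 0 := div_ne_zero hx0 hx1'
  have hind : ind f x = ind f (x / (1 - x)) + ind f (1 - x) := by
    rw [← ind_mul f hth hx1']
    congr 1
    field_simp
  have key2 : ∀ a : ZMod 8, (a = 0 ∨ a = 4) ↔ 2 * a = 0 := by decide
  have h8 : (8 : ZMod 8) = 0 := by decide
  have hfo : ∃ y : ZMod p, x / (1 - x) = y ^ 4 := by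
    rw [← ind_fourth f hf hth, key2]
    rw [key2] at hx2
    rw [hind] at hx2
    linear_combination hx2 - ind f (1 - x) * h8
  obtain ⟨y0, hy0⟩ := hfo
  have hy00 : y0 ≠ 0 := by
    rintro rfl
    rw [hy0] at hth
    simp at hth
  have hfib : ((univ : Finset (ZMod p)).filter (fun y => y ≠ 0 ∧ y ^ 4 ≠ -1)).filter
      (fun y => y ^ 4 / (1 + y ^ 4) = x) = univ.filter (fun y : ZMod p => y ^ 4 = y0 ^ 4) := by
    ext y
    simp only [mem_filter, mem_univ, true_and]
    rw [← hy0]
    constructor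
    · rintro ⟨⟨ha, hb⟩, hc⟩
      have h1 : (1 + y ^ 4) ≠ 0 := fun h => hb (by linear_combination h)
      rw [eq_div_iff hx1']
      rw [div_eq_iff h1] at hc
      linear_combination hc
    · intro hy
      rw [eq_div_iff hx1'] at hy
      have hb : y ^ 4 ≠ -1 := by
        intro h1
        rw [h1] at hy
        exact one_ne_zero (by linear_combination -hy : (1 : ZMod p) = 0)
      have h1 : (1 + y ^ 4) ≠ 0 := fun h => hb (by linear_combination h)
      refine ⟨⟨?_, hb⟩, ?_⟩
      · rintro rfl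
        apply hx0
        linear_combination -hy
      · rw [div_eq_iff h1]
        linear_combination hy
  rw [Finset.sum_congr rfl (g := fun _ => g x), Finset.sum_const, hfib, four_card hi h2 hy00]
  · simp
  · intro y hy
    rw [(mem_filter.1 hy).2]

theorem cnt_one (h : p % 8 = 1) (f : (ZMod p)ˣ →* Multiplicative (ZMod 8)) (hf : Function.Surjective f) :
    4 * (((((univ : Finset (ZMod p)).filter (fun x => x ≠ 0 ∧ x ≠ 1)).filter
        (fun x => ind f x + 3 * ind f (1 - x) = 0)).card : ℤ) -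
      ((((univ : Finset (ZMod p)).filter (fun x => x ≠ 0 ∧ x ≠ 1)).filter
        (fun x => ind f x + 3 * ind f (1 - x) = 4)).card : ℤ)) =
      ∑ x : ZMod p, quadraticChar (ZMod p) (x * (x ^ 4 + 1)) := by
  have hS := fib_sum h f hf (fun x => (if ind f x + 3 * ind f (1 - x) = 0 then 1 else 0) -
    (if ind f x + 3 * ind f (1 - x) = 4 then 1 else 0))
  have hR : ∑ x ∈ ((univ : Finset (ZMod p)).filter (fun x => x ≠ 0 ∧ x ≠ 1)).filter
      (fun x => ind f x + 3 * ind f (1 - x) = 0 ∨ ind f x + 3 * ind f (1 - x) = 4),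
      ((if ind f x + 3 * ind f (1 - x) = 0 then (1 : ℤ) else 0) -
      (if ind f x + 3 * ind f (1 - x) = 4 then 1 else 0)) =
      (((((univ : Finset (ZMod p)).filter (fun x => x ≠ 0 ∧ x ≠ 1)).filter
        (fun x => ind f x + 3 * ind f (1 - x) = 0)).card : ℤ) -
      ((((univ : Finset (ZMod p)).filter (fun x => x ≠ 0 ∧ x ≠ 1)).filter
        (fun x => ind f x + 3 * ind f (1 - x) = 4)).card : ℤ)) := by
    rw [Finset.sum_sub_distrib, Finset.sum_boole, Finset.sum_boole]
    congr 3
    · ext x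
      simp only [mem_filter, mem_univ, true_and]
      tauto
    · ext x
      simp only [mem_filter, mem_univ, true_and]
      tauto
  rw [hR] at hS
  rw [← hS]
  have hsub : ∑ y ∈ (univ : Finset (ZMod p)).filter (fun y => y ≠ 0 ∧ y ^ 4 ≠ -1),
      quadraticChar (ZMod p) (y * (y ^ 4 + 1)) =
      ∑ x : ZMod p, quadraticChar (ZMod p) (x * (x ^ 4 + 1)) := by
    refine Finset.sum_subset (Finset.filter_subset _ _) ?_
    intro y _ hy
    simp only [mem_filter, mem_univ, true_and, not_and_or, not_not] at hy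
    have : y * (y ^ 4 + 1) = 0 := by
      rcases hy with h0 | h0
      · rw [h0]; ring
      · rw [h0]; ring
    rw [this]
    simp
  rw [← hsub]
  refine Finset.sum_congr rfl fun y hy => ?_
  simp only [mem_filter, mem_univ, true_and] at hy
  have h1' : (y ^ 4 + 1) ≠ 0 := fun h => hy.2 (by linear_combination h)
  have hne : y * (y ^ 4 + 1) ≠ 0 := mul_ne_zero hy.1 h1'
  rw [e_quot f hy.1 hy.2]
  by_cases hsq : IsSquare (y * (y ^ 4 + 1))
  · have h3 := (ind_square f hf hne).2 hsq
    rw [h3, if_pos rfl, if_neg (by decide), (quadraticChar_one_iff_isSquare hne).2 hsq]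
    norm_num
  · have h3 : 4 * ind f (y * (y ^ 4 + 1)) ≠ 0 := fun h4 => hsq ((ind_square f hf hne).1 h4)
    have key : ∀ a : ZMod 8, 4 * a = 0 ∨ 4 * a = 4 := by decide
    have h5 := (key (ind f (y * (y ^ 4 + 1)))).resolve_left h3
    rw [h5, if_neg (by decide), if_pos rfl, (quadraticChar_neg_one_iff_not_isSquare).2 hsq]
    norm_num

theorem cnt_one' (h : p % 8 = 1) (f : (ZMod p)ˣ →* Multiplicative (ZMod 8)) (hf : Function.Surjective f) :
    4 * (((((univ : Finset (ZMod p)).filter (fun x => x ≠ 0 ∧ x ≠ 1)).filter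
        (fun x => ind f x + 3 * ind f (1 - x) = 0)).card : ℤ) +
      ((((univ : Finset (ZMod p)).filter (fun x => x ≠ 0 ∧ x ≠ 1)).filter
        (fun x => ind f x + 3 * ind f (1 - x) = 4)).card : ℤ)) = p - 5 := by
  have hS := fib_sum h f hf (fun x => 1)
  obtain ⟨z, hz⟩ := exists_zeta h f hf
  have h2 : (2 : ZMod p) ≠ 0 := by
    intro h0
    have h3 : ((2 : ℕ) : ZMod p) = 0 := by exact_mod_cast h0
    rw [ZMod.natCast_eq_zero_iff] at h3
    have := Nat.le_of_dvd (by norm_num) h3
    have := (Fact.out : p.Prime).two_le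
    omega
  have hi : (z ^ 2) ^ 2 = -1 := by rw [← pow_mul]; exact hz
  have hz0 : z ≠ 0 := by
    rintro rfl
    have : (1 : ZMod p) = 0 := by linear_combination hz
    exact one_ne_zero this
  have h4 := four_card hi h2 hz0
  rw [hz] at h4
  have hc1 : (((univ : Finset (ZMod p)).filter (fun x => x ≠ 0 ∧ x ≠ 1)).filter
      (fun x => ind f x + 3 * ind f (1 - x) = 0 ∨ ind f x + 3 * ind f (1 - x) = 4)).card =
      (((univ : Finset (ZMod p)).filter (fun x => x ≠ 0 ∧ x ≠ 1)).filter
        (fun x => ind f x + 3 * ind f (1 - x) = 0)).card +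
      (((univ : Finset (ZMod p)).filter (fun x => x ≠ 0 ∧ x ≠ 1)).filter
        (fun x => ind f x + 3 * ind f (1 - x) = 4)).card := by
    rw [Finset.filter_or, Finset.card_union_of_disjoint]
    rw [Finset.disjoint_filter]
    intro x _ h1 h2
    rw [h1] at h2
    exact absurd h2 (by decide)
  rw [Finset.sum_const, Finset.sum_const, nsmul_eq_mul, nsmul_eq_mul, mul_one, mul_one, hc1] at hS
  have hc2 : ((univ : Finset (ZMod p)).filter (fun y => y ≠ 0 ∧ y ^ 4 ≠ -1)).card + 5 = p := by
    have e1 : (univ : Finset (ZMod p)).filter (fun y => ¬ (y ≠ 0 ∧ y ^ 4 ≠ -1)) =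
        insert 0 (univ.filter (fun y : ZMod p => y ^ 4 = -1)) := by
      ext y
      simp only [mem_filter, mem_univ, true_and, mem_insert]
      tauto
    have e2 := Finset.card_filter_add_card_filter_not (s := (univ : Finset (ZMod p)))
      (p := fun y => y ≠ 0 ∧ y ^ 4 ≠ -1)
    rw [e1, Finset.card_insert_of_notMem, h4, Finset.card_univ, ZMod.card] at e2
    · omega
    · simp
  push_cast at hS
  rw [← hS]
  have : (p : ℤ) = ((univ : Finset (ZMod p)).filter (fun y => y ≠ 0 ∧ y ^ 4 ≠ -1)).card + 5 := by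
    exact_mod_cast hc2.symm
  linarith

end SCong
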