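import Pool.Agent.Lib.MP_0a3b9a_nt.T7A

/-!
Module T7B (p ≡ 3 mod 8).  For γ = x + yi ≠ 0: γ⁴ = R + I i, R = x⁴-6x²y²+y⁴, I = 4x³y-4xy³; if R ≠ 0 and b = I/R then γ⁴ = R(1+bi), so (ind_prime, ind 4γ = 4 ind γ = 0 iff γ is a square in L iff N(γ) = x²+y² = γ^(p+1) is a square in ZMod p)
 ind(1+bi) = 4 ind γ - ind R: it is 0 iff φ((x²+y²)R) = 1, and 4 iff it is -1.  Conversely 1+bi with index 0 or 4 is a fourth power γ⁴ and the solutions γ' of γ'⁴ ∈ (ZMod p)ˣ (1+bi) are t γ κ, κ ∈ {1, 1+i, i, 1-i}, t ∈ (ZMod p)ˣ: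
 exactly four points of the projective line (x : y).  (R = 0 never happens with y ≠ 0 rational: t⁴-6t²+1 = 0 means t² = 3 ± 2√2, 2 is not a square; R(1,0) = 1.)
 So 4(#{0} - #{4}) = Σ over (x:y) of φ((x²+y²)R) = 1 [point (1:0)] + Σ_t φ((t²+1)(t⁴-6t²+1)) and 4(#{0} + #{4}) = p + 1 (all terms are ±1).
-/

namespace SCong
open Finset Polynomial
variable {p : ℕ} [Fact p.Prime]

/-- real part of the fourth power -/
def T7B_R (w : ZMod p × ZMod p) : ZMod p := w.1 ^ 4 - 6 * w.1 ^ 2 * w.2 ^ 2 + w.2 ^ 4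
/-- imaginary part of the fourth power -/
def T7B_I (w : ZMod p × ZMod p) : ZMod p := 4 * w.1 ^ 3 * w.2 - 4 * w.1 * w.2 ^ 3
/-- norm -/
def T7B_N (w : ZMod p × ZMod p) : ZMod p := w.1 ^ 2 + w.2 ^ 2

theorem T7B_neg_one (h : p % 8 = 3) : ¬ IsSquare (-1 : ZMod p) := by
  rintro ⟨r, hr⟩
  have hr2 : r ^ 2 = -1 := by rw [pow_two]; exact hr.symm
  have := ZMod.mod_four_ne_three_of_sq_eq_neg_one (p := p) (y := r) hr2
  omega

theorem T7B_two (h : p % 8 = 3) : ¬ IsSquare (2 : ZMod p) := by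
  have hp2 : p ≠ 2 := by omega
  rw [ZMod.exists_sq_eq_two_iff hp2]
  omega

theorem T7B_N_ne (h : p % 8 = 3) {w : ZMod p × ZMod p} (hw : w ≠ 0) : T7B_N w ≠ 0 := by
  intro h0
  unfold T7B_N at h0
  by_cases hy : w.2 = 0
  · rw [hy] at h0
    have : w.1 = 0 := by
      have : w.1 ^ 2 = 0 := by linear_combination h0
      exact pow_eq_zero_iff (two_ne_zero) |>.1 this
    exact hw (Prod.ext this hy)
  · apply T7B_neg_one h
    refine ⟨w.1 / w.2, ?_⟩
    field_simp
    linear_combination -h0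

theorem T7B_R_ne (h : p % 8 = 3) {w : ZMod p × ZMod p} (hw : w ≠ 0) : T7B_R w ≠ 0 := by
  intro h0
  unfold T7B_R at h0
  have h20 : (2 : ZMod p) ≠ 0 := fun h2 => T7B_two h (by rw [h2]; exact ⟨0, by ring⟩)
  by_cases hy : w.2 = 0
  · rw [hy] at h0
    have : w.1 = 0 := by
      have : w.1 ^ 4 = 0 := by linear_combination h0
      exact pow_eq_zero_iff (four_ne_zero) |>.1 this
    exact hw (Prod.ext this hy)
  · apply T7B_two h
    refine ⟨(w.1 ^ 2 - 3 * w.2 ^ 2) / (2 * w.2 ^ 2), ?_⟩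
    field_simp
    linear_combination -h0

theorem T7B_pow_p {L : Type*} [Field L] [Fintype L] [Algebra (ZMod p) L] (h : p % 8 = 3)
    {i : L} (hi : i ^ 2 = -1) (w : ZMod p × ZMod p) :
    (algebraMap (ZMod p) L w.1 + algebraMap (ZMod p) L w.2 * i) ^ (p + 1) =
      algebraMap (ZMod p) L (T7B_N w) := by
  have hc : CharP L p := charP_of_injective_algebraMap (algebraMap (ZMod p) L).injective p
  have hip : i ^ p = - i := by
    obtain ⟨m, hm⟩ : ∃ m, p = 2 * (2 * m + 1) + 1 := ⟨p / 4, by omega⟩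
    rw [hm, pow_succ, pow_mul, hi, Odd.neg_one_pow ⟨m, rfl⟩]
    ring
  rw [pow_succ, add_pow_char, mul_pow, ← map_pow, ← map_pow, ZMod.pow_card, ZMod.pow_card, hip]
  unfold T7B_N
  rw [map_add, map_pow, map_pow]
  linear_combination (-(algebraMap (ZMod p) L w.2) ^ 2) * hi

theorem T7B_pow_four {L : Type*} [Field L] [Fintype L] [Algebra (ZMod p) L]
    {i : L} (hi : i ^ 2 = -1) (w : ZMod p × ZMod p) :
    (algebraMap (ZMod p) L w.1 + algebraMap (ZMod p) L w.2 * i) ^ 4 =
      algebraMap (ZMod p) L (T7B_R w) + algebraMap (ZMod p) L (T7B_I w) * i := by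
  unfold T7B_R T7B_I
  simp only [map_add, map_sub, map_mul, map_pow, map_ofNat]
  have h3 : i ^ 3 = - i := by rw [pow_succ, hi]; ring
  have h4 : i ^ 4 = 1 := by
    have : i ^ 4 = (i ^ 2) ^ 2 := by ring
    rw [this, hi]; ring
  linear_combination (6 * (algebraMap (ZMod p) L w.1) ^ 2 * (algebraMap (ZMod p) L w.2) ^ 2) * hi +
    (4 * (algebraMap (ZMod p) L w.1) * (algebraMap (ZMod p) L w.2) ^ 3) * h3 +
    ((algebraMap (ZMod p) L w.2) ^ 4) * h4

theorem T7B_gam_ne {L : Type*} [Field L] [Fintype L] [Algebra (ZMod p) L] (h : p % 8 = 3)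
    {i : L} (hi : i ^ 2 = -1) {w : ZMod p × ZMod p} (hw : w ≠ 0) :
    algebraMap (ZMod p) L w.1 + algebraMap (ZMod p) L w.2 * i ≠ 0 := by
  intro h0
  have h1 : algebraMap (ZMod p) L w.1 + algebraMap (ZMod p) L w.2 * i =
      algebraMap (ZMod p) L 0 + algebraMap (ZMod p) L 0 * i := by
    rw [map_zero, h0]; ring
  obtain ⟨h2, h3⟩ := T7A_inj h hi h1
  exact hw (Prod.ext h2 h3)

theorem T7B_four_ind {L : Type*} [Field L] [Fintype L] [Algebra (ZMod p) L] (h : p % 8 = 3)
    (hL : Fintype.card L = p ^ 2) (f : Lˣ →* Multiplicative (ZMod 8)) (hf : Function.Surjective f)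
    {i : L} (hi : i ^ 2 = -1) {w : ZMod p × ZMod p} (hw : w ≠ 0) :
    4 * ind f (algebraMap (ZMod p) L w.1 + algebraMap (ZMod p) L w.2 * i) =
      if IsSquare (T7B_N w) then 0 else 4 := by
  have hinj := (algebraMap (ZMod p) L).injective
  have hg := T7B_gam_ne h hi hw
  have hsq : IsSquare (algebraMap (ZMod p) L w.1 + algebraMap (ZMod p) L w.2 * i) ↔
      IsSquare (T7B_N w) := by
    have hr := T7A_ringChar (L := L) h
    have hr' : ringChar (ZMod p) ≠ 2 := by rw [ZMod.ringChar_zmod_n]; omega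
    rw [FiniteField.isSquare_iff hr hg, FiniteField.isSquare_iff hr' (T7B_N_ne h hw), hL, ZMod.card]
    obtain ⟨m, hm⟩ : ∃ m, p = 2 * m + 1 := ⟨p / 2, by omega⟩
    have e1 : p ^ 2 / 2 = (p + 1) * (p / 2) := by
      have e2 : p / 2 = m := by omega
      rw [e2, hm]
      have : (2 * m + 1) ^ 2 = 2 * ((2 * m + 1 + 1) * m) + 1 := by ring
      omega
    rw [e1, pow_mul, T7B_pow_p h hi, ← map_pow]
    constructor
    · intro h1; exact hinj (by rw [h1, map_one])
    · intro h1; rw [h1, map_one]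
  have h4 : ∀ a : ZMod 8, 4 * a = 0 ∨ 4 * a = 4 := by decide
  split_ifs with hs
  · exact (ind_square f hf hg).2 (hsq.2 hs)
  · rcases h4 (ind f (algebraMap (ZMod p) L w.1 + algebraMap (ZMod p) L w.2 * i)) with h5 | h5
    · exact absurd (hsq.1 ((ind_square f hf hg).1 h5)) hs
    · exact h5

theorem T7B_ind {L : Type*} [Field L] [Fintype L] [Algebra (ZMod p) L] (h : p % 8 = 3)
    (hL : Fintype.card L = p ^ 2) (f : Lˣ →* Multiplicative (ZMod 8)) (hf : Function.Surjective f)
    {i : L} (hi : i ^ 2 = -1) {w : ZMod p × ZMod p} (hw : w ≠ 0) :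
    ind f (1 + algebraMap (ZMod p) L (T7B_I w / T7B_R w) * i) =
      (if IsSquare (T7B_N w) then 0 else 4) - (if IsSquare (T7B_R w) then 0 else 4) := by
  have hinj := (algebraMap (ZMod p) L).injective
  have hg := T7B_gam_ne h hi hw
  have hR := T7B_R_ne h hw
  have hAR : algebraMap (ZMod p) L (T7B_R w) ≠ 0 := fun h0 => hR (hinj (by rw [h0, map_zero]))
  have hb := T7A_ne_zero h hi (T7B_I w / T7B_R w)
  have e1 : (algebraMap (ZMod p) L w.1 + algebraMap (ZMod p) L w.2 * i) ^ 4 =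
      algebraMap (ZMod p) L (T7B_R w) * (1 + algebraMap (ZMod p) L (T7B_I w / T7B_R w) * i) := by
    rw [T7B_pow_four hi, map_div₀]
    field_simp
  have e2 := ind_pow f hg 4
  rw [e1, ind_mul f hAR hb, ind_prime h hL f hf hR] at e2
  rw [Nat.cast_ofNat, T7B_four_ind h hL f hf hi hw] at e2
  rw [← e2, add_sub_cancel_left]

theorem T7B_key {L : Type*} [Field L] [Fintype L] [Algebra (ZMod p) L] (h : p % 8 = 3)
    (hL : Fintype.card L = p ^ 2) (f : Lˣ →* Multiplicative (ZMod 8)) (hf : Function.Surjective f)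
    {i : L} (hi : i ^ 2 = -1) {w : ZMod p × ZMod p} (hw : w ≠ 0) :
    (ind f (1 + algebraMap (ZMod p) L (T7B_I w / T7B_R w) * i) = 0 ∧
      quadraticChar (ZMod p) (T7B_N w * T7B_R w) = 1) ∨
    (ind f (1 + algebraMap (ZMod p) L (T7B_I w / T7B_R w) * i) = 4 ∧
      quadraticChar (ZMod p) (T7B_N w * T7B_R w) = -1) := by
  have h1 := T7B_ind h hL f hf hi hw
  have hN := T7B_N_ne h hw
  have hR := T7B_R_ne h hw
  have h48 : (4 : ZMod 8) - 4 = 0 := by decide
  have h04 : (0 : ZMod 8) - 4 = 4 := by decide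
  by_cases a : IsSquare (T7B_N w) <;> by_cases b : IsSquare (T7B_R w)
  · left
    refine ⟨by rw [h1, if_pos a, if_pos b, sub_zero], ?_⟩
    rw [map_mul, (quadraticChar_one_iff_isSquare hN).2 a, (quadraticChar_one_iff_isSquare hR).2 b]
    norm_num
  · right
    refine ⟨by rw [h1, if_pos a, if_neg b, h04], ?_⟩
    rw [map_mul, (quadraticChar_one_iff_isSquare hN).2 a, quadraticChar_neg_one_iff_not_isSquare.2 b]
    norm_num
  · right
    refine ⟨by rw [h1, if_neg a, if_pos b, sub_zero], ?_⟩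
    rw [map_mul, quadraticChar_neg_one_iff_not_isSquare.2 a, (quadraticChar_one_iff_isSquare hR).2 b]
    norm_num
  · left
    refine ⟨by rw [h1, if_neg a, if_neg b, h48], ?_⟩
    rw [map_mul, quadraticChar_neg_one_iff_not_isSquare.2 a,
      quadraticChar_neg_one_iff_not_isSquare.2 b]
    norm_num

theorem T7B_card_lines (h : p % 8 = 3) :
    ((univ : Finset (ZMod p × ZMod p)).filter (fun w => w ≠ 0 ∧ T7B_I w = 0)).card = 4 * (p - 1) := by
  classical
  have h20 : (2 : ZMod p) ≠ 0 := fun h2 => T7B_two h (by rw [h2]; exact ⟨0, by ring⟩)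
  have h40 : (4 : ZMod p) ≠ 0 := by
    have : (4 : ZMod p) = 2 * 2 := by norm_num
    rw [this]; exact mul_ne_zero h20 h20
  have hfac : ∀ u v : ZMod p, T7B_I (u, v) = 0 ↔ u = 0 ∨ v = 0 ∨ u = v ∨ u = -v := by
    intro u v
    have e : T7B_I (u, v) = 4 * (u * (v * ((u - v) * (u + v)))) := by
      show 4 * u ^ 3 * v - 4 * u * v ^ 3 = _
      ring
    rw [e, mul_eq_zero, mul_eq_zero, mul_eq_zero, mul_eq_zero, sub_eq_zero, add_eq_zero_iff_eq_neg]
    simp only [h40, false_or]
  rw [Finset.card_filter, ← Finset.univ_product_univ, Finset.sum_product_right]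
  have hv : ∀ v : ZMod p, (∑ u : ZMod p, if ((u, v) : ZMod p × ZMod p) ≠ 0 ∧ T7B_I (u, v) = 0 then 1 else 0) =
      if v = 0 then p - 1 else 3 := by
    intro v
    rw [← Finset.card_filter]
    split_ifs with hv0
    · subst hv0
      have : (univ.filter (fun u : ZMod p => ((u, 0) : ZMod p × ZMod p) ≠ 0 ∧ T7B_I (u, 0) = 0)) =
          univ.erase 0 := by
        ext u
        simp only [mem_filter, mem_univ, true_and, mem_erase, and_true]
        rw [hfac]
        constructor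
        · rintro ⟨h1, _⟩ rfl
          exact h1 rfl
        · intro h1
          refine ⟨fun h2 => h1 (congrArg Prod.fst h2), Or.inr (Or.inl rfl)⟩
      rw [this, Finset.card_erase_of_mem (mem_univ _), Finset.card_univ, ZMod.card]
    · have : (univ.filter (fun u : ZMod p => ((u, v) : ZMod p × ZMod p) ≠ 0 ∧ T7B_I (u, v) = 0)) =
          {0, v, -v} := by
        ext u
        simp only [mem_filter, mem_univ, true_and, mem_insert, mem_singleton]
        rw [hfac]
        constructor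
        · rintro ⟨_, h1 | h1 | h1 | h1⟩
          · exact Or.inl h1
          · exact absurd h1 hv0
          · exact Or.inr (Or.inl h1)
          · exact Or.inr (Or.inr h1)
        · intro h1
          refine ⟨fun h2 => hv0 (congrArg Prod.snd h2), ?_⟩
          rcases h1 with h1 | h1 | h1
          · exact Or.inl h1
          · exact Or.inr (Or.inr (Or.inl h1))
          · exact Or.inr (Or.inr (Or.inr h1))
      rw [this, Finset.card_eq_three]
      refine ⟨0, v, -v, fun h1 => hv0 h1.symm, fun h1 => hv0 (neg_eq_zero.1 h1.symm), ?_, rfl⟩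
      intro h1
      apply hv0
      have h2 : 2 * v = 0 := by linear_combination h1
      exact (mul_eq_zero.1 h2).resolve_left h20
  rw [Finset.sum_congr rfl (fun v _ => hv v), Finset.sum_ite, Finset.sum_const, Finset.sum_const]
  have c1 : (univ.filter (fun v : ZMod p => v = 0)).card = 1 := by
    rw [Finset.filter_eq' univ (0 : ZMod p), if_pos (mem_univ _), Finset.card_singleton]
  have c2 : (univ.filter (fun v : ZMod p => ¬ v = 0)).card = p - 1 := by
    have := Finset.card_filter_add_card_filter_not (s := (univ : Finset (ZMod p))) (fun v => v = 0)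
    rw [c1, Finset.card_univ, ZMod.card] at this
    omega
  rw [c1, c2, smul_eq_mul, smul_eq_mul]
  omega

theorem T7B_fiber {L : Type*} [Field L] [Fintype L] [Algebra (ZMod p) L] (h : p % 8 = 3)
    (hL : Fintype.card L = p ^ 2) (f : Lˣ →* Multiplicative (ZMod 8)) (hf : Function.Surjective f)
    {i : L} (hi : i ^ 2 = -1) {b : ZMod p}
    (hb : ind f (1 + algebraMap (ZMod p) L b * i) = 0 ∨ ind f (1 + algebraMap (ZMod p) L b * i) = 4) :
    ((univ : Finset (ZMod p × ZMod p)).filter (fun w => w ≠ 0 ∧ T7B_I w / T7B_R w = b)).card =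
      4 * (p - 1) := by
  classical
  rw [← T7B_card_lines h]
  have hb0 := T7A_ne_zero h hi b
  obtain ⟨γ, hγ⟩ := (ind_fourth f hf hb0).1 hb
  obtain ⟨w0, hw0⟩ := (T7A_bij h hL hi).2 γ
  simp only at hw0
  have hw00 : w0 ≠ 0 := by
    rintro rfl
    apply hb0
    rw [hγ, ← hw0]
    simp
  have hN0 := T7B_N_ne h hw00
  have h4 : algebraMap (ZMod p) L 1 + algebraMap (ZMod p) L b * i =
      algebraMap (ZMod p) L (T7B_R w0) + algebraMap (ZMod p) L (T7B_I w0) * i := by
    rw [map_one, hγ, ← hw0, T7B_pow_four hi]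
  obtain ⟨hR1, hI1⟩ := T7A_inj h hi h4
  obtain ⟨x0, y0⟩ := w0
  have hN0' : x0 ^ 2 + y0 ^ 2 ≠ 0 := hN0
  have hR1' : x0 ^ 4 - 6 * x0 ^ 2 * y0 ^ 2 + y0 ^ 4 = 1 := hR1.symm
  have hI1' : 4 * x0 ^ 3 * y0 - 4 * x0 * y0 ^ 3 = b := hI1.symm
  have hcond : ∀ u v : ZMod p, ((u, v) : ZMod p × ZMod p) ≠ 0 →
      (T7B_I (u * x0 - v * y0, u * y0 + v * x0) / T7B_R (u * x0 - v * y0, u * y0 + v * x0) = b ↔
        T7B_I (u, v) = 0) := by
    intro u v huv
    have hne : ((u * x0 - v * y0, u * y0 + v * x0) : ZMod p × ZMod p) ≠ 0 := by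
      intro h0
      have e1 : u * x0 - v * y0 = 0 := congrArg Prod.fst h0
      have e2 : u * y0 + v * x0 = 0 := congrArg Prod.snd h0
      have e3 : u * (x0 ^ 2 + y0 ^ 2) = 0 := by linear_combination x0 * e1 + y0 * e2
      have e4 : v * (x0 ^ 2 + y0 ^ 2) = 0 := by linear_combination x0 * e2 - y0 * e1
      exact huv (Prod.ext ((mul_eq_zero.1 e3).resolve_right hN0')
        ((mul_eq_zero.1 e4).resolve_right hN0'))
    have hRne := T7B_R_ne h hne
    rw [div_eq_iff hRne]
    have e1 : T7B_R (u * x0 - v * y0, u * y0 + v * x0) =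
        T7B_R (u, v) * 1 - b * T7B_I (u, v) := by
      rw [← hR1', ← hI1']
      show (u * x0 - v * y0) ^ 4 - 6 * (u * x0 - v * y0) ^ 2 * (u * y0 + v * x0) ^ 2 +
        (u * y0 + v * x0) ^ 4 = (u ^ 4 - 6 * u ^ 2 * v ^ 2 + v ^ 4) * _ -
          _ * (4 * u ^ 3 * v - 4 * u * v ^ 3)
      ring
    have e2 : T7B_I (u * x0 - v * y0, u * y0 + v * x0) =
        T7B_I (u, v) * 1 + b * T7B_R (u, v) := by
      rw [← hR1', ← hI1']
      show 4 * (u * x0 - v * y0) ^ 3 * (u * y0 + v * x0) - 4 * (u * x0 - v * y0) *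
        (u * y0 + v * x0) ^ 3 = (4 * u ^ 3 * v - 4 * u * v ^ 3) * _ +
          _ * (u ^ 4 - 6 * u ^ 2 * v ^ 2 + v ^ 4)
      ring
    rw [e1, e2]
    constructor
    · intro h1
      have h2 : (1 + b ^ 2) * T7B_I (u, v) = 0 := by linear_combination h1
      exact (mul_eq_zero.1 h2).resolve_left (T7A_den h b)
    · intro h1
      rw [h1]; ring
  refine Finset.card_bij' (fun w _ => (((w.1 * x0 + w.2 * y0) / (x0 ^ 2 + y0 ^ 2),
      (w.2 * x0 - w.1 * y0) / (x0 ^ 2 + y0 ^ 2)) : ZMod p × ZMod p))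
    (fun w _ => ((w.1 * x0 - w.2 * y0, w.1 * y0 + w.2 * x0) : ZMod p × ZMod p)) ?_ ?_ ?_ ?_
  · rintro ⟨x, y⟩ hw
    simp only [mem_filter, mem_univ, true_and] at hw ⊢
    obtain ⟨hw1, hw2⟩ := hw
    have hx : (x * x0 + y * y0) / (x0 ^ 2 + y0 ^ 2) * x0 -
        (y * x0 - x * y0) / (x0 ^ 2 + y0 ^ 2) * y0 = x := by
      field_simp; ring
    have hy : (x * x0 + y * y0) / (x0 ^ 2 + y0 ^ 2) * y0 +
        (y * x0 - x * y0) / (x0 ^ 2 + y0 ^ 2) * x0 = y := by
      field_simp; ring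
    have hne : (((x * x0 + y * y0) / (x0 ^ 2 + y0 ^ 2),
        (y * x0 - x * y0) / (x0 ^ 2 + y0 ^ 2)) : ZMod p × ZMod p) ≠ 0 := by
      intro h0
      have e1 : (x * x0 + y * y0) / (x0 ^ 2 + y0 ^ 2) = 0 := congrArg Prod.fst h0
      have e2 : (y * x0 - x * y0) / (x0 ^ 2 + y0 ^ 2) = 0 := congrArg Prod.snd h0
      rw [e1, e2] at hx hy
      apply hw1
      refine Prod.ext ?_ ?_
      · show x = 0
        rw [← hx]; ring
      · show y = 0
        rw [← hy]; ring
    refine ⟨hne, ?_⟩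
    rw [← hcond _ _ hne, hx, hy]
    exact hw2
  · rintro ⟨u, v⟩ hw
    simp only [mem_filter, mem_univ, true_and] at hw ⊢
    obtain ⟨hw1, hw2⟩ := hw
    refine ⟨?_, (hcond u v hw1).2 hw2⟩
    intro h0
    have e1 : u * x0 - v * y0 = 0 := congrArg Prod.fst h0
    have e2 : u * y0 + v * x0 = 0 := congrArg Prod.snd h0
    have e3 : u * (x0 ^ 2 + y0 ^ 2) = 0 := by linear_combination x0 * e1 + y0 * e2
    have e4 : v * (x0 ^ 2 + y0 ^ 2) = 0 := by linear_combination x0 * e2 - y0 * e1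
    exact hw1 (Prod.ext ((mul_eq_zero.1 e3).resolve_right hN0')
      ((mul_eq_zero.1 e4).resolve_right hN0'))
  · rintro ⟨x, y⟩ hw
    refine Prod.ext ?_ ?_
    · show (x * x0 + y * y0) / (x0 ^ 2 + y0 ^ 2) * x0 -
        (y * x0 - x * y0) / (x0 ^ 2 + y0 ^ 2) * y0 = x
      field_simp; ring
    · show (x * x0 + y * y0) / (x0 ^ 2 + y0 ^ 2) * y0 +
        (y * x0 - x * y0) / (x0 ^ 2 + y0 ^ 2) * x0 = y
      field_simp; ring
  · rintro ⟨u, v⟩ hw
    refine Prod.ext ?_ ?_
    · show ((u * x0 - v * y0) * x0 + (u * y0 + v * x0) * y0) / (x0 ^ 2 + y0 ^ 2) = u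
      field_simp; ring
    · show ((u * y0 + v * x0) * x0 - (u * x0 - v * y0) * y0) / (x0 ^ 2 + y0 ^ 2) = v
      field_simp; ring

/-- general weighted count -/
theorem T7B_sum {L : Type*} [Field L] [Fintype L] [Algebra (ZMod p) L] (h : p % 8 = 3)
    (hL : Fintype.card L = p ^ 2) (f : Lˣ →* Multiplicative (ZMod 8)) (hf : Function.Surjective f)
    {i : L} (hi : i ^ 2 = -1) (g : ZMod p → ℤ)
    (hg : ∀ b, ¬ (ind f (1 + algebraMap (ZMod p) L b * i) = 0 ∨
      ind f (1 + algebraMap (ZMod p) L b * i) = 4) → g b = 0) :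
    ∑ w ∈ (univ : Finset (ZMod p × ZMod p)).filter (fun w => w ≠ 0), g (T7B_I w / T7B_R w) =
      4 * (p - 1) * ∑ b : ZMod p, g b := by
  classical
  rw [← Finset.sum_fiberwise_of_maps_to (s := (univ : Finset (ZMod p × ZMod p)).filter (fun w => w ≠ 0))
    (t := univ) (g := fun w => T7B_I w / T7B_R w) (fun w _ => mem_univ _), Finset.mul_sum]
  refine Finset.sum_congr rfl (fun b _ => ?_)
  have e1 : ∑ w ∈ ((univ : Finset (ZMod p × ZMod p)).filter (fun w => w ≠ 0)).filter
      (fun w => T7B_I w / T7B_R w = b), g (T7B_I w / T7B_R w) =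
      ∑ w ∈ ((univ : Finset (ZMod p × ZMod p)).filter (fun w => w ≠ 0)).filter
      (fun w => T7B_I w / T7B_R w = b), g b := by
    refine Finset.sum_congr rfl (fun w hw => ?_)
    rw [(mem_filter.1 hw).2]
  rw [e1, Finset.sum_const, Finset.filter_filter]
  by_cases hb : ind f (1 + algebraMap (ZMod p) L b * i) = 0 ∨
      ind f (1 + algebraMap (ZMod p) L b * i) = 4
  · rw [T7B_fiber h hL f hf hi hb, nsmul_eq_mul]
    have hp1 : 1 ≤ p := by omega
    push_cast [Nat.cast_sub hp1]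
    ring
  · rw [hg b hb, smul_zero, mul_zero]

theorem T7B_hom (h : p % 8 = 3) :
    ∑ w ∈ (univ : Finset (ZMod p × ZMod p)).filter (fun w => w ≠ 0),
      quadraticChar (ZMod p) (T7B_N w * T7B_R w) =
    ((p : ℤ) - 1) * (1 + ∑ t : ZMod p, quadraticChar (ZMod p) ((t ^ 2 + 1) * (t ^ 4 - 6 * t ^ 2 + 1))) := by
  classical
  rw [Finset.sum_filter, ← Finset.univ_product_univ, Finset.sum_product_right]
  have hv : ∀ v : ZMod p, (∑ u : ZMod p, if ((u, v) : ZMod p × ZMod p) ≠ 0 then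
      quadraticChar (ZMod p) (T7B_N (u, v) * T7B_R (u, v)) else 0) =
      if v = 0 then ((p : ℤ) - 1) else
        ∑ t : ZMod p, quadraticChar (ZMod p) ((t ^ 2 + 1) * (t ^ 4 - 6 * t ^ 2 + 1)) := by
    intro v
    split_ifs with hv0
    · subst hv0
      have e1 : ∀ u : ZMod p, (if ((u, 0) : ZMod p × ZMod p) ≠ 0 then
          quadraticChar (ZMod p) (T7B_N (u, 0) * T7B_R (u, 0)) else 0) =
          if u = 0 then 0 else (1 : ℤ) := by
        intro u
        by_cases hu : u = 0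
        · rw [if_pos hu, if_neg]
          rw [hu]; simp
        · rw [if_neg hu, if_pos]
          · have e2 : T7B_N (u, 0) * T7B_R (u, 0) = (u ^ 3) ^ 2 := by
              show (u ^ 2 + 0 ^ 2) * (u ^ 4 - 6 * u ^ 2 * 0 ^ 2 + 0 ^ 4) = _
              ring
            rw [e2]
            exact quadraticChar_sq_one' (pow_ne_zero 3 hu)
          · intro h0
            exact hu (congrArg Prod.fst h0)
      rw [Finset.sum_congr rfl (fun u _ => e1 u), Finset.sum_ite, Finset.sum_const_zero, zero_add,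
        Finset.sum_const, nsmul_eq_mul, mul_one]
      have c1 : (univ.filter (fun v : ZMod p => v = 0)).card = 1 := by
        rw [Finset.filter_eq' univ (0 : ZMod p), if_pos (mem_univ _), Finset.card_singleton]
      have c2 : (univ.filter (fun v : ZMod p => ¬ v = 0)).card + 1 = p := by
        have := Finset.card_filter_add_card_filter_not (s := (univ : Finset (ZMod p))) (fun v => v = 0)
        rw [c1, Finset.card_univ, ZMod.card] at this
        omega
      have c3 : (((univ.filter (fun v : ZMod p => ¬ v = 0)).card + 1 : ℕ) : ℤ) = p := by rw [c2]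
      push_cast at c3
      linarith
    · rw [← Equiv.sum_comp (Equiv.mulRight₀ v hv0)]
      refine Finset.sum_congr rfl (fun t _ => ?_)
      rw [if_pos]
      · have e2 : T7B_N ((Equiv.mulRight₀ v hv0) t, v) * T7B_R ((Equiv.mulRight₀ v hv0) t, v) =
            (v ^ 3) ^ 2 * ((t ^ 2 + 1) * (t ^ 4 - 6 * t ^ 2 + 1)) := by
          show ((t * v) ^ 2 + v ^ 2) * ((t * v) ^ 4 - 6 * (t * v) ^ 2 * v ^ 2 + v ^ 4) = _
          ring
        rw [e2, map_mul, quadraticChar_sq_one' (pow_ne_zero 3 hv0), one_mul]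
      · intro h0
        exact hv0 (congrArg Prod.snd h0)
  rw [Finset.sum_congr rfl (fun v _ => hv v), Finset.sum_ite, Finset.sum_const, Finset.sum_const]
  have c1 : (univ.filter (fun v : ZMod p => v = 0)).card = 1 := by
    rw [Finset.filter_eq' univ (0 : ZMod p), if_pos (mem_univ _), Finset.card_singleton]
  have c2 : (univ.filter (fun v : ZMod p => ¬ v = 0)).card + 1 = p := by
    have := Finset.card_filter_add_card_filter_not (s := (univ : Finset (ZMod p))) (fun v => v = 0)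
    rw [c1, Finset.card_univ, ZMod.card] at this
    omega
  have c3 : (((univ.filter (fun v : ZMod p => ¬ v = 0)).card + 1 : ℕ) : ℤ) = p := by rw [c2]
  push_cast at c3
  have c4 : ((univ.filter (fun v : ZMod p => ¬ v = 0)).card : ℤ) = p - 1 := by linarith
  rw [c1, nsmul_eq_mul, nsmul_eq_mul, c4]
  push_cast
  ring

theorem T7B_card_W : (((univ : Finset (ZMod p × ZMod p)).filter (fun w => w ≠ 0)).card : ℤ) =
    (p : ℤ) ^ 2 - 1 := by
  classical
  have c1 : ((univ : Finset (ZMod p × ZMod p)).filter (fun w => w = 0)).card = 1 := by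
    rw [Finset.filter_eq' univ (0 : ZMod p × ZMod p), if_pos (mem_univ _), Finset.card_singleton]
  have c2 := Finset.card_filter_add_card_filter_not (s := (univ : Finset (ZMod p × ZMod p))) (fun v => v = 0)
  rw [c1, Finset.card_univ, Fintype.card_prod, ZMod.card] at c2
  have c3 : ((1 + ((univ : Finset (ZMod p × ZMod p)).filter (fun w => ¬ w = 0)).card : ℕ) : ℤ) =
      ((p * p : ℕ) : ℤ) := by rw [c2]
  push_cast at c3
  simp only [ne_eq]
  linarith [c3, sq (p : ℤ)]

theorem cnt_three {L : Type*} [Field L] [Fintype L] [Algebra (ZMod p) L] (h : p % 8 = 3)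
    (hL : Fintype.card L = p ^ 2) (f : Lˣ →* Multiplicative (ZMod 8)) (hf : Function.Surjective f)
    {i : L} (hi : i ^ 2 = -1) :
    4 * ((((univ : Finset (ZMod p)).filter
        (fun b => ind f (1 + algebraMap (ZMod p) L b * i) = 0)).card : ℤ) -
      (((univ : Finset (ZMod p)).filter
        (fun b => ind f (1 + algebraMap (ZMod p) L b * i) = 4)).card : ℤ)) =
      1 + ∑ t : ZMod p, quadraticChar (ZMod p) ((t ^ 2 + 1) * (t ^ 4 - 6 * t ^ 2 + 1)) := by
  classical
  have h04 : (0 : ZMod 8) ≠ 4 := by decide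
  set g : ZMod p → ℤ := fun b => (if ind f (1 + algebraMap (ZMod p) L b * i) = 0 then 1 else 0) -
    (if ind f (1 + algebraMap (ZMod p) L b * i) = 4 then 1 else 0) with hgdef
  have h1 := T7B_sum h hL f hf hi g (by
    intro b hb
    rw [not_or] at hb
    rw [hgdef]
    simp only [if_neg hb.1, if_neg hb.2, sub_zero])
  have h2 : ∑ w ∈ (univ : Finset (ZMod p × ZMod p)).filter (fun w => w ≠ 0), g (T7B_I w / T7B_R w) =
      ∑ w ∈ (univ : Finset (ZMod p × ZMod p)).filter (fun w => w ≠ 0),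
      quadraticChar (ZMod p) (T7B_N w * T7B_R w) := by
    refine Finset.sum_congr rfl (fun w hw => ?_)
    have hw0 := (mem_filter.1 hw).2
    rw [hgdef]
    rcases T7B_key h hL f hf hi hw0 with ⟨k1, k2⟩ | ⟨k1, k2⟩
    · simp only [k1, k2, if_true, if_neg h04, sub_zero]
    · simp only [k1, k2, if_true, if_neg h04.symm, zero_sub]
  have h3 : ∑ b : ZMod p, g b = (((univ : Finset (ZMod p)).filter
        (fun b => ind f (1 + algebraMap (ZMod p) L b * i) = 0)).card : ℤ) -
      (((univ : Finset (ZMod p)).filter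
        (fun b => ind f (1 + algebraMap (ZMod p) L b * i) = 4)).card : ℤ) := by
    rw [hgdef]
    simp only
    rw [Finset.sum_sub_distrib, Finset.sum_boole, Finset.sum_boole]
  rw [h2, T7B_hom h, h3] at h1
  have hp : ((p : ℤ) - 1) ≠ 0 := by
    have : 3 ≤ p := by omega
    omega
  apply mul_left_cancel₀ hp
  rw [h1]
  ring

theorem cnt_three' {L : Type*} [Field L] [Fintype L] [Algebra (ZMod p) L] (h : p % 8 = 3)
    (hL : Fintype.card L = p ^ 2) (f : Lˣ →* Multiplicative (ZMod 8)) (hf : Function.Surjective f)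
    {i : L} (hi : i ^ 2 = -1) :
    4 * ((((univ : Finset (ZMod p)).filter
        (fun b => ind f (1 + algebraMap (ZMod p) L b * i) = 0)).card : ℤ) +
      (((univ : Finset (ZMod p)).filter
        (fun b => ind f (1 + algebraMap (ZMod p) L b * i) = 4)).card : ℤ)) = p + 1 := by
  classical
  have h04 : (0 : ZMod 8) ≠ 4 := by decide
  set g : ZMod p → ℤ := fun b => (if ind f (1 + algebraMap (ZMod p) L b * i) = 0 then 1 else 0) +
    (if ind f (1 + algebraMap (ZMod p) L b * i) = 4 then 1 else 0) with hgdef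
  have h1 := T7B_sum h hL f hf hi g (by
    intro b hb
    rw [not_or] at hb
    rw [hgdef]
    simp only [if_neg hb.1, if_neg hb.2, add_zero])
  have h2 : ∑ w ∈ (univ : Finset (ZMod p × ZMod p)).filter (fun w => w ≠ 0), g (T7B_I w / T7B_R w) =
      ∑ w ∈ (univ : Finset (ZMod p × ZMod p)).filter (fun w => w ≠ 0), 1 := by
    refine Finset.sum_congr rfl (fun w hw => ?_)
    have hw0 := (mem_filter.1 hw).2
    rw [hgdef]
    rcases T7B_key h hL f hf hi hw0 with ⟨k1, k2⟩ | ⟨k1, k2⟩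
    · simp only [k1, if_true, if_neg h04, add_zero]
    · simp only [k1, if_true, if_neg h04.symm, zero_add]
  have h3 : ∑ b : ZMod p, g b = (((univ : Finset (ZMod p)).filter
        (fun b => ind f (1 + algebraMap (ZMod p) L b * i) = 0)).card : ℤ) +
      (((univ : Finset (ZMod p)).filter
        (fun b => ind f (1 + algebraMap (ZMod p) L b * i) = 4)).card : ℤ) := by
    rw [hgdef]
    simp only
    rw [Finset.sum_add_distrib, Finset.sum_boole, Finset.sum_boole]
  rw [h2, Finset.sum_const, nsmul_eq_mul, mul_one, T7B_card_W, h3] at h1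
  have hp : ((p : ℤ) - 1) ≠ 0 := by
    have : 3 ≤ p := by omega
    omega
  apply mul_left_cancel₀ hp
  linear_combination -h1

end SCong
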