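import Pool.Agent.Lib.MP_0a3b9a_nt.T4
import Pool.Agent.Lib.MP_0a3b9a_nt.T6A
import Pool.Agent.Lib.MP_0a3b9a_nt.T6B
import Pool.Agent.Lib.MP_0a3b9a_nt.T7B

/-!
Module T8.  p ≡ 1 mod 8: T4 with s = {x ≠ 0,1}, e(x) = ind x + 3 ind(1-x), σ x = 1 - x (e(1-x) = ind(1-x) + 3 ind x = 3 e(x), 9 = 1); fixed point x = 1/2 (e = 4 ind(1/2) = 0: 1/2 is a square).
p ≡ 3 mod 8: L = GaloisField p 2 (i exists: -1 is a square in L, card = p² ≡ 1 mod 4), e(b) = ind(1+bi), σ b = -b (1-bi = (1+bi)^p, index p e = 3e); fixed point b = 0, e = 0.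
c = #{0} - #{4}, d = #{1} - #{5} (T4, norm_one / norm_three), 4c = 4(#0+#4) - 8 #4 and #4 is even.
-/

namespace SCong
open Finset Polynomial
variable {p : ℕ} [Fact p.Prime]

theorem T8_fin {a b c d : ℕ} {q r S : ℤ} (hr : (q : ℝ) = ((a : ℝ) - b) ^ 2 + 2 * ((c : ℝ) - d) ^ 2)
    (h1 : 4 * ((a : ℤ) - b) = S) (h2 : 4 * ((a : ℤ) + b) = r) (hb : Even b) :
    ∃ c d : ℤ, q = c ^ 2 + 2 * d ^ 2 ∧ 4 * c = S ∧ (16 : ℤ) ∣ 4 * c - r := by
  refine ⟨(a : ℤ) - b, (c : ℤ) - d, ?_, h1, ?_⟩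
  · have : ((q : ℤ) : ℝ) = ((((a : ℤ) - b) ^ 2 + 2 * ((c : ℤ) - d) ^ 2 : ℤ) : ℝ) := by
      rw [hr]; push_cast; ring
    exact_mod_cast this
  · obtain ⟨k, hk⟩ := hb
    refine ⟨-(k : ℤ), ?_⟩
    rw [← h2, hk]; push_cast; ring

theorem rep_one (h : p % 8 = 1) : ∃ c d : ℤ, (p : ℤ) = c ^ 2 + 2 * d ^ 2 ∧
    4 * c = ∑ x : ZMod p, quadraticChar (ZMod p) (x * (x ^ 4 + 1)) ∧ (16 : ℤ) ∣ 4 * c - (p - 5) := by
  have hp2 : 2 ≤ p := (Fact.out : p.Prime).two_le
  obtain ⟨f, hf⟩ := exists_ind (F := ZMod p) (by rw [ZMod.card]; omega)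
  set s := (univ : Finset (ZMod p)).filter (fun x => x ≠ 0 ∧ x ≠ 1) with hs
  set e : ZMod p → ZMod 8 := fun x => ind f x + 3 * ind f (1 - x) with he
  have h9 : (9 : ZMod 8) = 1 := by decide
  have hm : ∀ x ∈ s, x ≠ 0 ∧ 1 - x ≠ 0 := by
    intro x hx
    have := (mem_filter.1 hx).2
    exact ⟨this.1, fun h => this.2 (by linear_combination -h)⟩
  have h1 : ∀ x ∈ s, 1 - x ∈ s := by
    intro x hx
    obtain ⟨a, b⟩ := hm x hx
    rw [hs, mem_filter]
    exact ⟨mem_univ _, b, fun h => a (by linear_combination -h)⟩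
  have h2 : ∀ x ∈ s, 1 - (1 - x) = x := fun x _ => by ring
  have h3 : ∀ x ∈ s, e (1 - x) = 3 * e x := by
    intro x _
    simp only [he]
    rw [sub_sub_cancel]
    linear_combination (-(ind f (1 - x))) * h9
  have h4 : ∀ x ∈ s, 1 - x = x → e x ≠ 4 := by
    intro x hx hxx
    obtain ⟨a, b⟩ := hm x hx
    have h20 : IsSquare (2 : ZMod p) := by
      rw [ZMod.exists_sq_eq_two_iff (by omega)]
      exact Or.inl h
    have hx2 : 2 * x = 1 := by linear_combination -hxx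
    have hsq : IsSquare x := by
      have : x = (2 : ZMod p)⁻¹ := eq_inv_of_mul_eq_one_right hx2
      rw [this]; exact h20.inv
    have h40 := (ind_square f hf a).2 hsq
    simp only [he]
    rw [hxx]
    have : ind f x + 3 * ind f x = 0 := by linear_combination h40
    rw [this]; decide
  have hz := zeta8 s e (fun x => 1 - x) h1 h2 h3
  have hev := even_four s e (fun x => 1 - x) h1 h2 h3 h4
  have hn := norm_one h f hf
  have hz' := hn.symm.trans hz
  have c1 := cnt_one h f hf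
  have c2 := cnt_one' h f hf
  exact T8_fin (by exact_mod_cast hz') c1 c2 hev

theorem T8_three {L : Type*} [Field L] [Fintype L] [Algebra (ZMod p) L] (h : p % 8 = 3)
    (hL : Fintype.card L = p ^ 2) {i : L} (hi : i ^ 2 = -1) : ∃ c d : ℤ, (p : ℤ) = c ^ 2 + 2 * d ^ 2 ∧
    4 * c = 1 + ∑ t : ZMod p, quadraticChar (ZMod p) ((t ^ 2 + 1) * (t ^ 4 - 6 * t ^ 2 + 1)) ∧
    (16 : ℤ) ∣ 4 * c - (p + 1) := by
  have h8 : 8 ∣ Fintype.card L - 1 := by
    rw [hL]
    obtain ⟨k, hk⟩ : ∃ k, p = 8 * k + 3 := ⟨p / 8, by omega⟩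
    rw [hk]
    refine ⟨8 * k ^ 2 + 6 * k + 1, ?_⟩
    have : (8 * k + 3) ^ 2 = 8 * (8 * k ^ 2 + 6 * k + 1) + 1 := by ring
    rw [this]; omega
  obtain ⟨f, hf⟩ := exists_ind (F := L) h8
  set e : ZMod p → ZMod 8 := fun b => ind f (1 + algebraMap (ZMod p) L b * i) with he
  have : CharP L p := charP_of_injective_algebraMap (algebraMap (ZMod p) L).injective p
  have hip : i ^ p = -i := by
    obtain ⟨k, hk⟩ : ∃ k, p = 2 * (4 * k + 1) + 1 := ⟨p / 8, by omega⟩
    rw [hk, pow_succ, pow_mul, hi, pow_succ, pow_mul]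
    norm_num
  have hfrob : ∀ b : ZMod p, (1 + algebraMap (ZMod p) L b * i) ^ p =
      1 + algebraMap (ZMod p) L (-b) * i := by
    intro b
    rw [add_pow_char, one_pow, mul_pow, hip, ← map_pow, ZMod.pow_card, map_neg]
    ring
  have h3 : ∀ b ∈ (univ : Finset (ZMod p)), e (-b) = 3 * e b := by
    intro b _
    simp only [he]
    rw [← hfrob b]
    by_cases h0 : 1 + algebraMap (ZMod p) L b * i = 0
    · rw [h0, zero_pow (Fact.out : p.Prime).ne_zero]
      have : ind f (0 : L) = 0 := by unfold ind; simp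
      rw [this]; simp
    · rw [ind_pow f h0]
      congr 1
      have : ((p % 8 : ℕ) : ZMod 8) = (p : ZMod 8) := by
        rw [ZMod.natCast_mod]
      rw [← this, h]; rfl
  have h4 : ∀ b ∈ (univ : Finset (ZMod p)), -b = b → e b ≠ 4 := by
    intro b _ hb
    have h20 : (2 : ZMod p) ≠ 0 := by
      have : ((2 : ℕ) : ZMod p) ≠ 0 := by
        rw [Ne, ZMod.natCast_eq_zero_iff]
        intro hd
        have := Nat.le_of_dvd (by norm_num) hd
        omega
      exact_mod_cast this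
    have hb0 : b = 0 := by
      apply (mul_eq_zero.1 (show 2 * b = 0 by linear_combination -hb)).resolve_left h20
    simp only [he]
    rw [hb0, map_zero, zero_mul, add_zero, ind_one]
    decide
  have hz := zeta8 univ e (fun x => -x) (fun _ _ => mem_univ _) (fun x _ => neg_neg x) h3
  have hev := even_four univ e (fun x => -x) (fun _ _ => mem_univ _) (fun x _ => neg_neg x) h3 h4
  have hn := norm_three h hL f hf hi
  have hz' := hn.symm.trans hz
  have c1 := cnt_three h hL f hf hi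
  have c2 := cnt_three' h hL f hf hi
  exact T8_fin (by exact_mod_cast hz') c1 c2 hev

theorem rep_three (h : p % 8 = 3) : ∃ c d : ℤ, (p : ℤ) = c ^ 2 + 2 * d ^ 2 ∧
    4 * c = 1 + ∑ t : ZMod p, quadraticChar (ZMod p) ((t ^ 2 + 1) * (t ^ 4 - 6 * t ^ 2 + 1)) ∧
    (16 : ℤ) ∣ 4 * c - (p + 1) := by
  have : Finite (GaloisField p 2) := inferInstance
  let : Fintype (GaloisField p 2) := Fintype.ofFinite _
  have hL : Fintype.card (GaloisField p 2) = p ^ 2 := by
    rw [← Nat.card_eq_fintype_card]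
    exact GaloisField.card p 2 (by norm_num)
  have hi : IsSquare (-1 : GaloisField p 2) := by
    rw [FiniteField.isSquare_neg_one_iff, hL]
    obtain ⟨k, hk⟩ : ∃ k, p = 8 * k + 3 := ⟨p / 8, by omega⟩
    rw [hk]
    have : (8 * k + 3) ^ 2 = 4 * (16 * k ^ 2 + 12 * k + 2) + 1 := by ring
    rw [this]; omega
  obtain ⟨i, hi⟩ := hi
  exact T8_three (L := GaloisField p 2) h hL (i := i) (by rw [hi]; ring)

end SCong
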