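import Pool.Agent.Lib.MP_0a3b9a_nt.T3
import Pool.Agent.Lib.MP_0a3b9a_nt.T8

/-!
Module T9.  2 SW = 4c', so SW = 2c'.  Uniqueness of p = c² + 2d²: c' = ± c (c²d'² - c'²d² ≡ 0 mod p, ...: if p = c²+2d² = c'²+2d'² then p | (cd'-c'd)(cd'+c'd), and (cc' ± 2dd')² + 2(cd' ∓ c'd)² = p², so cd' ∓ c'd = 0 for the sign with p | .. (else |..| >= p > p/√2), and gcd(c,d) = gcd(c',d') = 1 gives |c| = |c'|).
p ≡ 1 mod 8: 4c' ≡ p - 5 mod 16, c ≡ 1 mod 4: p ≡ 9 mod 16 gives c' ≡ 1, c' = c; p ≡ 1 mod 16 gives c' ≡ 3, c' = -c.  So c' = -(-1)^(p/8) c.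
p ≡ 3 mod 8: 4c' ≡ p+1: p ≡ 3 mod 16: c' = c, p ≡ 11 mod 16: c' = -c: c' = (-1)^(p/8) c; φ(-1) = -1.
-/

namespace SCong
open Finset Polynomial
variable {p : ℕ} [Fact p.Prime]

theorem T9_cross {c d c' d' : ℤ} (h : (p : ℤ) = c ^ 2 + 2 * d ^ 2)
    (h' : (p : ℤ) = c' ^ 2 + 2 * d' ^ 2) (hd : (p : ℤ) ∣ c * d' - c' * d) : c * d' = c' * d := by
  have hpp : p.Prime := Fact.out
  have hp0 : (0 : ℤ) < p := by exact_mod_cast hpp.pos
  have e : (p : ℤ) ^ 2 = (c * c' + 2 * d * d') ^ 2 + 2 * (c * d' - c' * d) ^ 2 := by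
    have : (p : ℤ) ^ 2 = (c ^ 2 + 2 * d ^ 2) * (c' ^ 2 + 2 * d' ^ 2) := by
      rw [← h, ← h']; ring
    rw [this]; ring
  obtain ⟨k, hk⟩ := hd
  have hk0 : k = 0 := by
    by_contra hne
    have h1 : 1 ≤ k ^ 2 := by
      have : 0 < k ^ 2 := by positivity
      omega
    rw [hk] at e
    nlinarith [sq_nonneg (c * c' + 2 * d * d'), mul_le_mul_of_nonneg_left h1 (sq_nonneg (p : ℤ)), pow_pos hp0 2]
  rw [hk0, mul_zero] at hk
  linarith

theorem T9_unique {c d c' d' : ℤ} (h : (p : ℤ) = c ^ 2 + 2 * d ^ 2)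
    (h' : (p : ℤ) = c' ^ 2 + 2 * d' ^ 2) : c' = c ∨ c' = -c := by
  have hpp : p.Prime := Fact.out
  have hp0 : (p : ℤ) ≠ 0 := by exact_mod_cast hpp.ne_zero
  have hP : Prime (p : ℤ) := Nat.prime_iff_prime_int.1 hpp
  have h1 : (c * d' - c' * d) * (c * d' + c' * d) = p * (d' ^ 2 - d ^ 2) := by
    linear_combination (-d' ^ 2) * h + d ^ 2 * h'
  have h2 : (c * d') ^ 2 = (c' * d) ^ 2 := by
    rcases hP.dvd_or_dvd (Dvd.intro _ h1.symm) with h3 | h3
    · rw [T9_cross h h' h3]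
    · have h4 : (p : ℤ) = (-c') ^ 2 + 2 * d' ^ 2 := by rw [h']; ring
      have h5 := T9_cross (p := p) h h4 (by
        have : c * d' - -c' * d = c * d' + c' * d := by ring
        rw [this]; exact h3)
      rw [h5]; ring
  have h3 : (p : ℤ) * (d' ^ 2 - d ^ 2) = 0 := by rw [← h1]; linear_combination h2
  have h4 : d' ^ 2 = d ^ 2 := by
    rcases mul_eq_zero.1 h3 with h | h
    · exact absurd h hp0
    · linarith
  have h5 : c' ^ 2 = c ^ 2 := by linarith
  exact sq_eq_sq_iff_eq_or_eq_neg.1 h5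

theorem SW_eval (h : p % 8 = 1 ∨ p % 8 = 3) {c d : ℤ} (hcd : (p : ℤ) = c ^ 2 + 2 * d ^ 2)
    (hc : c % 4 = 1) :
    SW p = -2 * (-1) ^ (p / 8) * quadraticChar (ZMod p) (-1) * c := by
  have hp2 : p ≠ 2 := by rintro rfl; omega
  have hchi : quadraticChar (ZMod p) (-1) = ZMod.χ₄ p := by
    have := legendreSym.at_neg_one (p := p) hp2
    unfold legendreSym at this
    push_cast at this
    exact this
  rcases h with h | h
  · obtain ⟨c', d', e1, e2, e3⟩ := rep_one (p := p) h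
    have e4 := SW_one (p := p) h
    rw [← e2] at e4
    have hx : quadraticChar (ZMod p) (-1) = 1 := by
      rw [hchi]; exact ZMod.χ₄_nat_one_mod_four (by omega)
    rw [hx]
    have hcase := T9_unique hcd e1
    rcases Nat.even_or_odd (p / 8) with he | ho
    · rw [he.neg_one_pow]
      obtain ⟨m, hm⟩ := he
      have : (p : ℤ) % 16 = 1 := by omega
      rcases hcase with h1 | h1
      · omega
      · omega
    · rw [ho.neg_one_pow]
      obtain ⟨m, hm⟩ := ho
      have : (p : ℤ) % 16 = 9 := by omega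
      rcases hcase with h1 | h1
      · omega
      · omega
  · obtain ⟨c', d', e1, e2, e3⟩ := rep_three (p := p) h
    have e4 := SW_three (p := p) h
    rw [← e2] at e4
    have hx : quadraticChar (ZMod p) (-1) = -1 := by
      rw [hchi]; exact ZMod.χ₄_nat_three_mod_four (by omega)
    rw [hx]
    have hcase := T9_unique hcd e1
    rcases Nat.even_or_odd (p / 8) with he | ho
    · rw [he.neg_one_pow]
      obtain ⟨m, hm⟩ := he
      have : (p : ℤ) % 16 = 3 := by omega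
      rcases hcase with h1 | h1
      · omega
      · omega
    · rw [ho.neg_one_pow]
      obtain ⟨m, hm⟩ := ho
      have : (p : ℤ) % 16 = 11 := by omega
      rcases hcase with h1 | h1
      · omega
      · omega

end SCong
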