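import Pool.Agent.Lib.MP_0a3b9a_nt.M2
import Pool.Agent.Lib.MP_0a3b9a_nt.N6
import Pool.Agent.Lib.MP_0a3b9a_nt.T1
import Pool.Agent.Lib.MP_0a3b9a_nt.T2
import Pool.Agent.Lib.MP_0a3b9a_nt.T9

/-!
Module F1: HH(z0) ≡ A - p/A mod p², A = 2 (-1)^[p/8] φ(r-2) c.
r² = -2 in Q_p, y = -(2+r)/2, z0 = y³ = (2-5r)/4, z0 (1+2y)³ = -27r/4 = 9y(1+y+y²) (use r² = -2).  Units (p >= 5): norms of y, 1+2y = -(1+r), 1+y+y² = (1+r)/2, z0, 1-z0 = (2+5r)/4, 3(1+y+y²)(1+2y)-(1-y)² are 3/2, 3, 3/4, 27/8, 27/8, 2·27..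
(x conj(x) is a nonzero number with prime factors 2, 3).  w: (z0/27)^(p-1) = 1 + p w.  M_zero: G + ω H = 0 at z̄0.
count with t = z0/27: 27 t^p = z0 (z0/27)^(p-1) = z0(1+pw), HH(z0(1+pw)) ≡ HH(z0) + p w TH(z0) mod p²; so with a_p := p - 2 - NN(z̄0/27): a_p ≡ HH + p (w TH + HH + TG) at z0.
wronskian at z̄0 ≠ 1: H TG - G TH + H² = 1 (z̄0^p = z̄0), so H (TG + ω TH + H) = 1 and h a_p ≡ h² + p mod p², h = HH(z0).
a_p = -φ(2-r) SW = 2(-1)^[p/8] φ(-1)φ(2-r) c = A (trace_phi, trace_S with z̄0/27 = (2-5r̄)/108, SW_eval).  A is a unit (p does not divide 2c), h ≡ A mod p, so A - h ≡ p/h ≡ p/A.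
-/

namespace SCong
open Finset Polynomial
variable {p : ℕ} [Fact p.Prime]

theorem F2_five (h : p % 8 = 1 ∨ p % 8 = 3) (hp3 : p ≠ 3) : 5 < p := by
  have hp : Nat.Prime p := Fact.out
  by_contra hlt
  push Not at hlt
  interval_cases p <;> first | omega | (exact absurd hp (by norm_num))

theorem F2_r (hp : 5 ≤ p) {r : ℚ_[p]} (hr : r ^ 2 = -2) : ∃ ρ : ZMod p, Rd p r ρ ∧ ρ ^ 2 = -2 := by
  have h1 : In p r := by
    rw [in_iff]
    by_contra hlt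
    push Not at hlt
    have h2 : ‖r ^ 2‖ ≤ 1 := by
      rw [hr]; exact in_iff.1 (by exact_mod_cast In.int (-2))
    rw [norm_pow] at h2
    nlinarith
  obtain ⟨ρ, hρ⟩ := h1.rd
  refine ⟨ρ, hρ, ?_⟩
  have h2 := hρ.pow 2
  rw [hr] at h2
  have h3 : Rd p (-2 : ℚ_[p]) (-2) := by exact_mod_cast Rd.int (p := p) (-2)
  exact h2.unique h3

theorem F2_z (hp : 5 ≤ p) {r : ℚ_[p]} {ρ : ZMod p} (hρ : Rd p r ρ) (h2 : ρ ^ 2 = -2) :
    Rd p ((2 - 5 * r) / 4) ((2 - 5 * ρ) / 4) ∧ (2 - 5 * ρ) / 4 ≠ 0 ∧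
      Rd p ((2 - 5 * r) / 4 / 27) ((2 - 5 * ρ) / 4 / 27) ∧ (2 - 5 * ρ) / 4 / 27 ≠ 0 := by
  obtain ⟨e2, e3⟩ := ne_of_five hp
  have e4 : (4 : ZMod p) ≠ 0 := by
    have : (4 : ZMod p) = 2 * 2 := by norm_num
    rw [this]; exact mul_ne_zero e2 e2
  have e27 : (27 : ZMod p) ≠ 0 := by
    have : (27 : ZMod p) = 3 * 3 * 3 := by norm_num
    rw [this]; exact mul_ne_zero (mul_ne_zero e3 e3) e3
  have r1 : Rd p ((2 - 5 * r) / 4) ((2 - 5 * ρ) / 4) := by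
    have := ((Rd.nat (p := p) 2).sub ((Rd.nat (p := p) 5).mul hρ)).div (Rd.nat (p := p) 4) (by exact_mod_cast e4)
    exact_mod_cast this
  have n1 : (2 - 5 * ρ) / 4 ≠ 0 := by
    rw [div_ne_zero_iff]
    refine ⟨fun h => ?_, e4⟩
    have h5 : (2 : ZMod p) * 27 = 0 := by
      linear_combination (2 + 5 * ρ) * h + 25 * h2
    rcases mul_eq_zero.1 h5 with h | h
    · exact e2 h
    · exact e27 h
  refine ⟨r1, n1, ?_, div_ne_zero n1 e27⟩
  have := r1.div (Rd.nat (p := p) 27) (by exact_mod_cast e27)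
  exact_mod_cast this


/-- `M(z0) = 0` in the residue field. -/
theorem F1_M (hp : 5 ≤ p) {r : ℚ_[p]} (hr : r ^ 2 = -2) {ρ : ZMod p} (hρ : Rd p r ρ) (h2 : ρ ^ 2 = -2)
    {w : ℚ_[p]} {ω : ZMod p} (hw : Rd p w ω) (hq : ((2 - 5 * r) / 4 / 27) ^ (p - 1) = 1 + p * w) :
    (Gp p).eval ((2 - 5 * ρ) / 4) + ω * (Hp p).eval ((2 - 5 * ρ) / 4) = 0 := by
  obtain ⟨e2, e3⟩ := ne_of_five hp
  have e4 : (4 : ZMod p) ≠ 0 := by
    have : (4 : ZMod p) = 2 * 2 := by norm_num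
    rw [this]; exact mul_ne_zero e2 e2
  have hy : Rd p (-(2 + r) / 2) (-(2 + ρ) / 2) := by
    have := (((Rd.nat (p := p) 2).add hρ).neg).div (Rd.nat (p := p) 2) (by exact_mod_cast e2)
    exact_mod_cast this
  have hz : (2 - 5 * r) / 4 = (-(2 + r) / 2) ^ 3 := by
    linear_combination (6 / 8 + r / 8 : ℚ_[p]) * hr
  have hb2 : 2 * (-(2 + ρ) / 2) = -(2 + ρ) := by field_simp
  obtain ⟨b, hbd⟩ : ∃ b : ZMod p, b = -(2 + ρ) / 2 := ⟨_, rfl⟩
  rw [← hbd] at hb2 hy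
  have hρb : ρ = -2 * b - 2 := by linear_combination hb2
  have hbq : 2 * b ^ 2 + 4 * b + 3 = 0 := by
    have h3 : 2 * (2 * b ^ 2 + 4 * b + 3) = 0 := by
      rw [hρb] at h2
      linear_combination h2
    exact (mul_eq_zero.1 h3).resolve_left e2
  have hb3 : (2 - 5 * ρ) / 4 = b ^ 3 := by
    rw [div_eq_iff e4, hρb]
    linear_combination (4 - 2 * b) * hbq
  have hrel : (2 - 5 * r) / 4 * (1 + 2 * (-(2 + r) / 2)) ^ 3 =
      9 * (-(2 + r) / 2) * (1 + -(2 + r) / 2 + (-(2 + r) / 2) ^ 2) := by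
    linear_combination ((10 * r ^ 2 + 35 * r + 34) / 8 : ℚ_[p]) * hr
  have h0 : b ≠ 0 := by
    intro h0
    rw [h0] at hbq
    apply e3
    linear_combination hbq
  have hL : 1 + 2 * b ≠ 0 := by
    intro h0
    apply e3
    linear_combination 2 * hbq - (2 * b + 3) * h0
  have hQ : 1 + b + b ^ 2 ≠ 0 := by
    intro h0
    apply e3
    linear_combination (4 + 2 * (2 * b + 1)) * h0 - (2 * b + 1) * hbq
  have hD : 3 * (1 + b + b ^ 2) * (1 + 2 * b) - (1 - b) ^ 2 ≠ 0 := by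
    intro h0
    have h5 : (2 : ZMod p) * (3 * 3 * 3) = 0 := by
      linear_combination (50 + (10 * b + 12) * (3 * b - 2)) * hbq - (10 * b + 12) * h0
    exact mul_ne_zero e2 (mul_ne_zero (mul_ne_zero e3 e3) e3) h5
  rw [hb3]
  exact M_zero hp hy hz hrel h0 hL hQ hD hw hq

theorem F1_pow {w : ℚ_[p]} (hw : In p w) (k : ℕ) : Cg p 2 ((1 + p * w) ^ k) (1 + p * (k * w)) := by
  obtain ⟨w, rfl⟩ := hw
  induction k with
  | zero => exact Cg.of_eq (by simp)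
  | succ k ih =>
    have h1 : In p (1 + p * (w : ℚ_[p])) := In.one.add ((In.nat p).mul (In.coe w))
    have h2 := ih.mul_right h1
    rw [← pow_succ] at h2
    refine h2.trans ⟨k * w * w, ?_⟩
    push_cast
    ring

theorem F1_taylor (hp : 5 ≤ p) {z w : ℚ_[p]} (hz : In p z) (hw : In p w) :
    Cg p 2 (HH p (z * (1 + p * w))) (HH p z + p * (w * TH p z)) := by
  have e : HH p z + p * (w * TH p z) =
      ∑ k ∈ range p, cc ℚ_[p] k * z ^ k * (1 + p * (k * w)) := by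
    unfold HH TH
    rw [mul_sum, mul_sum, ← sum_add_distrib]
    exact sum_congr rfl fun k _ => by ring
  rw [e]
  unfold HH
  refine Cg.sum fun k hk => ?_
  rw [mul_pow, ← mul_assoc]
  exact (F1_pow hw k).mul_left (((cc_red hp (mem_range.1 hk)).in).mul (hz.pow k))

theorem F1_count (hp : 5 ≤ p) {z w : ℚ_[p]} {ζ : ZMod p} (hz : Rd p z ζ) (hζ : ζ ≠ 0)
    (hz27 : Rd p (z / 27) (ζ / 27)) (hw : In p w) (hq : (z / 27) ^ (p - 1) = 1 + p * w) :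
    Cg p 2 ((p : ℚ_[p]) - 2 - NN p (ζ / 27)) (HH p z + p * (w * TH p z + HH p z + TG p z)) := by
  obtain ⟨e2, e3⟩ := ne_of_five hp
  have e27 : (27 : ZMod p) ≠ 0 := by
    have : (27 : ZMod p) = 3 * 3 * 3 := by norm_num
    rw [this]; exact mul_ne_zero (mul_ne_zero e3 e3) e3
  have h1 := count hp (div_ne_zero hζ e27) hz27
  have e1 : 27 * (z / 27) ^ p = z * (1 + p * w) := by
    rw [← hq]
    have : (z / 27) ^ p = (z / 27) * (z / 27) ^ (p - 1) := by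
      rw [← pow_succ', Nat.sub_add_cancel (by omega)]
    rw [this]; ring
  rw [e1] at h1
  have h2 : Rd p (z * (1 + p * w)) ζ := by
    refine hz.of_cg ?_
    have := (Cg.pow_mul_zero (hz.in.mul hw) 1)
    rw [pow_one] at this
    have h3 := (Cg.refl (p := p) 1 z).add this
    rw [add_zero] at h3
    have e : z * (1 + p * w) = z + p * (z * w) := by ring
    rw [e]; exact h3
  have h3 : Cg p 1 (HH p (z * (1 + p * w)) + TG p (z * (1 + p * w))) (HH p z + TG p z) :=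
    ((HH_red hp h2).cg (HH_red hp hz)).add ((TG_red hp h2).cg (TG_red hp hz))
  have h4 := (F1_taylor hp hz.in hw).add h3.pmul
  refine h1.trans (h4.trans (Cg.of_eq (by ring)))

theorem F1_unit {c d : ℤ} (hp : 5 ≤ p) (hcd : (p : ℤ) = c ^ 2 + 2 * d ^ 2) (hc : c % 4 = 1) :
    ((c : ℤ) : ZMod p) ≠ 0 := by
  intro h0
  rw [ZMod.intCast_zmod_eq_zero_iff_dvd] at h0
  have hc0 : c ≠ 0 := by rintro rfl; simp at hc
  have h1 : (p : ℤ) ≤ |c| := Int.le_of_dvd (abs_pos.2 hc0) ((dvd_abs _ _).2 h0)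
  have h2 : c ^ 2 = |c| ^ 2 := (sq_abs c).symm
  have h3 : (5 : ℤ) ≤ p := by exact_mod_cast hp
  nlinarith [sq_nonneg d]

theorem F1_alg {h A : ℚ_[p]} {a : ZMod p} (hA : Rd p A a) (ha : a ≠ 0) (hh : In p h)
    (h1 : Cg p 2 (h * A) (h ^ 2 + p)) (h2 : ∃ b : ZMod p, Rd p h b ∧ b ≠ 0) :
    Cg p 2 h (A - p / A) := by
  obtain ⟨b, hb, hb0⟩ := h2
  have hAh : Cg p 1 A h := by
    have h3 : Cg p 1 (h * A) (h * h) := by
      refine (h1.mono (by norm_num)).trans ?_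
      have := (Cg.refl (p := p) 1 (h ^ 2)).add (Cg.pow_mul_zero In.one 1)
      simp only [pow_one, mul_one, add_zero] at this
      refine this.trans (Cg.of_eq (by ring))
    exact h3.cancel hb hb0
  have h4 : Cg p 2 (h * (A - h)) (h * (p / h)) := by
    have h0 := hb.ne_zero hb0
    have := h1.sub (Cg.refl (p := p) 2 (h ^ 2))
    refine (Cg.of_eq (by ring)).trans (this.trans (Cg.of_eq ?_))
    field_simp
    ring
  have h5 : Cg p 2 (A - h) (p / h) := h4.cancel hb hb0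
  have h6 : Cg p 2 ((p : ℚ_[p]) / h) (p / A) := by
    have := ((hAh.symm).inv le_rfl hb hb0).pmul
    simpa [div_eq_mul_inv] using this
  have h7 := (Cg.refl (p := p) 2 A).sub (h5.trans h6)
  refine (Cg.of_eq (by ring)).trans h7

theorem HH_z0 (h : p % 8 = 1 ∨ p % 8 = 3) (hp3 : p ≠ 3) {c d : ℤ} (hcd : (p : ℤ) = c ^ 2 + 2 * d ^ 2)
    (hc : c % 4 = 1) {r : ℚ_[p]} (hr : r ^ 2 = -2) {ρ : ZMod p} (hρ : Rd p r ρ) :
    Cg p 2 (HH p ((2 - 5 * r) / 4))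
      ((-1) ^ (p / 8) * (quadraticChar (ZMod p) (ρ - 2) : ℚ_[p]) * (2 * c - p / (2 * c))) := by
  have hp : 5 ≤ p := (F2_five h hp3).le
  obtain ⟨ρ', hρ', hρ2⟩ := F2_r hp hr
  obtain rfl := hρ.unique hρ'
  obtain ⟨r1, n1, r2, n2⟩ := F2_z hp hρ hρ2
  obtain ⟨e2, e3⟩ := ne_of_five hp
  obtain ⟨w, hw⟩ := r2.fermat n2
  rw [pow_one] at hw
  have hw' : ((2 - 5 * r) / 4 / 27) ^ (p - 1) = 1 + p * (w : ℚ_[p]) := by linear_combination hw
  obtain ⟨ω, hω⟩ := (In.coe w).rd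
  have hM := F1_M hp hr hρ hρ2 hω hw'
  have hcount := F1_count hp r1 n1 r2 (In.coe w) hw'
  have hW := congrArg (Polynomial.eval ((2 - 5 * ρ) / 4)) (wronskian (p := p) hp)
  have e4 : (4 : ZMod p) ≠ 0 := by
    have : (4 : ZMod p) = 2 * 2 := by norm_num
    rw [this]; exact mul_ne_zero e2 e2
  have hζ1 : 1 - (2 - 5 * ρ) / 4 ≠ 0 := by
    intro h0
    rw [sub_eq_zero, eq_comm, div_eq_iff e4] at h0
    have h5 : (2 : ZMod p) * (3 * 3 * 3) = 0 := by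
      linear_combination (-(2 - 5 * ρ)) * h0 + 25 * hρ2
    exact mul_ne_zero e2 (mul_ne_zero (mul_ne_zero e3 e3) e3) h5
  have rH := HH_red hp r1
  have rG := GG_red hp r1
  have rTH := TH_red hp r1
  have rTG := TG_red hp r1
  -- the value of the trace
  have hNN : ((p : ℤ) - 2 - NN p ((2 - 5 * ρ) / 4 / 27) : ℤ) =
      (-1) ^ (p / 8) * quadraticChar (ZMod p) (ρ - 2) * (2 * c) := by
    rw [trace_phi hp n2]
    have e1 : (2 - 5 * ρ) / 4 / 27 = (2 - 5 * ρ) / 108 := by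
      rw [div_div]; norm_num
    rw [e1, trace_S hp hρ2, SW_eval h hcd hc]
    have e5 : quadraticChar (ZMod p) (ρ - 2) = quadraticChar (ZMod p) (-1) * quadraticChar (ZMod p) (2 - ρ) := by
      rw [← map_mul]; congr 1; ring
    rw [e5]; ring
  have hρ2' : ρ - 2 ≠ 0 := by
    intro h0
    have h5 : (2 : ZMod p) * 3 = 0 := by
      linear_combination (-(ρ + 2)) * h0 + hρ2
    exact mul_ne_zero e2 e3 h5
  have hχ : quadraticChar (ZMod p) (ρ - 2) ^ 2 = 1 := quadraticChar_sq_one hρ2'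
  obtain ⟨e, he⟩ : ∃ e : ℤ, e = (-1) ^ (p / 8) * quadraticChar (ZMod p) (ρ - 2) := ⟨_, rfl⟩
  have he2 : e ^ 2 = 1 := by
    rw [he, mul_pow, hχ, mul_one, ← pow_mul, mul_comm, pow_mul]; norm_num
  have hee : ((-1) ^ (p / 8) * (quadraticChar (ZMod p) (ρ - 2) : ℚ_[p])) = (e : ℚ_[p]) := by
    rw [he]; push_cast; ring
  rw [hee]
  rw [← he] at hNN
  have hNN' : (p : ℚ_[p]) - 2 - NN p ((2 - 5 * ρ) / 4 / 27) = ((e * (2 * c) : ℤ) : ℚ_[p]) := by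
    rw [← hNN]; push_cast; ring
  rw [hNN'] at hcount
  have hcp := F1_unit hp hcd hc
  have heZ : ((e : ℤ) : ZMod p) ≠ 0 := by
    intro h0
    have := congrArg (fun t : ℤ => (t : ZMod p)) he2
    simp [h0] at this
  have hAne : (((e * (2 * c) : ℤ)) : ZMod p) ≠ 0 := by
    push_cast
    exact mul_ne_zero heZ (mul_ne_zero e2 hcp)
  simp only [eval_mul, eval_sub, eval_add, eval_pow, eval_X, eval_one, ZMod.pow_card] at hW rTH rTG
  have hW' := mul_left_cancel₀ hζ1 (hW.trans (mul_one _).symm)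
  have hG : (Gp p).eval ((2 - 5 * ρ) / 4) = -(ω * (Hp p).eval ((2 - 5 * ρ) / 4)) := by
    linear_combination hM
  have hU : (Hp p).eval ((2 - 5 * ρ) / 4) * (ω * ((2 - 5 * ρ) / 4 * (derivative (Hp p)).eval ((2 - 5 * ρ) / 4)) +
      (Hp p).eval ((2 - 5 * ρ) / 4) + (2 - 5 * ρ) / 4 * (derivative (Gp p)).eval ((2 - 5 * ρ) / 4)) = 1 := by
    rw [hG] at hW'
    linear_combination hW'
  have hH0 : (Hp p).eval ((2 - 5 * ρ) / 4) ≠ 0 := by
    intro h0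
    rw [h0, zero_mul] at hU
    exact zero_ne_one hU
  have hUU : Cg p 1 (HH p ((2 - 5 * r) / 4) * ((w : ℚ_[p]) * TH p ((2 - 5 * r) / 4) + HH p ((2 - 5 * r) / 4) +
      TG p ((2 - 5 * r) / 4))) 1 := by
    have h5 := rH.mul (((hω.mul rTH).add rH).add rTG)
    rw [hU] at h5
    exact h5.cg Rd.one
  have h6 := hUU.pmul
  have h7 : Cg p 2 (HH p ((2 - 5 * r) / 4) * ((e * (2 * c) : ℤ) : ℚ_[p])) (HH p ((2 - 5 * r) / 4) ^ 2 + p) := by
    have h8 := hcount.mul_left rH.in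
    refine h8.trans ?_
    have h9 := (Cg.refl (p := p) 2 (HH p ((2 - 5 * r) / 4) ^ 2)).add h6
    refine (Cg.of_eq (by ring)).trans (h9.trans (Cg.of_eq (by ring)))
  have h10 := F1_alg (Rd.int (e * (2 * c))) hAne rH.in h7 ⟨_, rH, hH0⟩
  refine h10.trans (Cg.of_eq ?_)
  have he2' : (e : ℚ_[p]) ^ 2 = 1 := by exact_mod_cast he2
  have he0 : (e : ℚ_[p]) ≠ 0 := by
    intro h0; rw [h0] at he2'; norm_num at he2'
  have hc0 : (c : ℚ_[p]) ≠ 0 := by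
    have : c ≠ 0 := by rintro rfl; simp at hc
    exact_mod_cast this
  push_cast
  field_simp
  linear_combination (p : ℚ_[p]) * he2'

/-- the condition `M(z0) = 0`, for the comparison of `SS1` and `SS2`. -/
theorem M_z0 (h : p % 8 = 1 ∨ p % 8 = 3) (hp3 : p ≠ 3) {r : ℚ_[p]} (hr : r ^ 2 = -2) {w : ℚ_[p]}
    (hw : In p w) (hq : ((2 - 5 * r) / 4 / 27) ^ (p - 1) = 1 + p * w) :
    Cg p 1 (GG p ((2 - 5 * r) / 4) + w * HH p ((2 - 5 * r) / 4)) 0 := by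
  have hp : 5 ≤ p := (F2_five h hp3).le
  obtain ⟨ρ, hρ, hρ2⟩ := F2_r hp hr
  obtain ⟨r1, n1, r2, n2⟩ := F2_z hp hρ hρ2
  obtain ⟨ω, hω⟩ := hw.rd
  rw [← rd_zero_iff, ← F1_M hp hr hρ hρ2 hω hq]
  exact (GG_red hp r1).add (hω.mul (HH_red hp r1))

end SCong
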