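import Pool.Agent.Lib.MP_0a3b9a_nt.F1

/-!
Module F2: the values at x0 = 27/2 = 4 z0 (1 - z0), z0 = (2-5r)/4, 1 - 2z0 = 5r/2.
J at z0: z0^p = z0 z0^(p-1), z0^(p-1) = 27^(p-1)(1+pw) ≡ 1 + p(fq27 + w): (1-2z0^p)HH - 2p z0^p (GG - fq27 HH) ≡ (1-2z0)HH - 2p z0 (GG + w HH) ≡ (1-2z0) HH(z0) mod p² (M_z0).
p % 3 = 1: SS1 ≡ HH (A1_one), (1-2z0) SS2 ≡ (1-2z0) HH (J_one), cancel.  p % 3 = 2: HH ≡ (1-2z0) SS2 (A1_two), SS1 ≡ (1-2z0) HH (J_two); (1-2z0)² = -25/2.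
-/

namespace SCong
open Finset Polynomial
variable {p : ℕ} [Fact p.Prime]

/-- the value of the polynomial `K` at `z0`. -/
theorem F2_K (h : p % 8 = 1 ∨ p % 8 = 3) (hp3 : p ≠ 3) {r : ℚ_[p]} (hr : r ^ 2 = -2) :
    Cg p 2 ((1 - 2 * ((2 - 5 * r) / 4) ^ p) * HH p ((2 - 5 * r) / 4) -
      2 * p * ((2 - 5 * r) / 4) ^ p * (GG p ((2 - 5 * r) / 4) - fq p 27 * HH p ((2 - 5 * r) / 4)))
      (5 * r / 2 * HH p ((2 - 5 * r) / 4)) := by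
  have hp5 := F2_five h hp3
  have hp : 5 ≤ p := hp5.le
  obtain ⟨ρ, hρ, hρ2⟩ := F2_r hp hr
  obtain ⟨r1, n1, r2, n2⟩ := F2_z hp hρ hρ2
  obtain ⟨w, hw⟩ := r2.fermat n2
  rw [pow_one] at hw
  have hw' : ((2 - 5 * r) / 4 / 27) ^ (p - 1) = 1 + p * (w : ℚ_[p]) := by linear_combination hw
  obtain ⟨v, hv⟩ := M_z0 h hp3 hr (In.coe w) hw'
  rw [pow_one, sub_zero] at hv
  have hF := fq_spec hp (a := 27) (fun hd => by
    have h3 : p ∣ 3 ^ 3 := by simpa using hd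
    have := (Nat.prime_dvd_prime_iff_eq Fact.out Nat.prime_three).1 ((Fact.out : p.Prime).dvd_of_dvd_pow h3)
    omega)
  have hF' : (27 : ℚ_[p]) ^ (p - 1) = 1 + p * (fq p 27 : ℚ_[p]) := by exact_mod_cast hF
  set z : ℚ_[p] := (2 - 5 * r) / 4 with hz
  have hzp : z ^ p = z * ((1 + p * (fq p 27 : ℚ_[p])) * (1 + p * (w : ℚ_[p]))) := by
    have e1 : z ^ p = z * z ^ (p - 1) := by
      rw [← pow_succ', Nat.sub_add_cancel (by omega)]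
    have e2 : z ^ (p - 1) = (1 + p * (fq p 27 : ℚ_[p])) * (1 + p * (w : ℚ_[p])) := by
      rw [← hF', ← hw', ← mul_pow]; congr 1; field_simp
    rw [e1, e2]
  have iz : In p z := r1.in
  have iH : In p (HH p z) := (HH_red hp r1).in
  have iG : In p (GG p z) := (GG_red hp r1).in
  set H := HH p z
  set G := GG p z
  set F : ℚ_[p] := (fq p 27 : ℚ_[p]) with hFd
  have iF : In p F := In.nat _
  have iw : In p (w : ℚ_[p]) := In.coe w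
  have iv : In p (v : ℚ_[p]) := In.coe v
  have hin : In p (-2 * z * ((v : ℚ_[p]) + F * w * H + (F + w + p * F * w) * (G - F * H))) := by
    have i2 : In p (-2 : ℚ_[p]) := by exact_mod_cast In.int (-2)
    exact (i2.mul iz).mul ((iv.add ((iF.mul iw).mul iH)).add
      (((iF.add iw).add (((In.nat p).mul iF).mul iw)).mul (iG.sub (iF.mul iH))))
  obtain ⟨u, hu⟩ := hin
  refine ⟨u, ?_⟩
  rw [hu, hzp]
  have hr2 : 5 * r / 2 = 1 - 2 * z := by rw [hz]; ring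
  rw [hr2]
  linear_combination (-2 * z * (p : ℚ_[p])) * hv

theorem F2_x {r : ℚ_[p]} (hr : r ^ 2 = -2) : 4 * ((2 - 5 * r) / 4) * (1 - (2 - 5 * r) / 4) = 27 / 2 := by
  linear_combination (-25 / 4 : ℚ_[p]) * hr

theorem F2_w {r : ℚ_[p]} : 1 - 2 * ((2 - 5 * r) / 4) = 5 * r / 2 := by ring

theorem SS_one (h : p % 8 = 1 ∨ p % 8 = 3) (hp3 : p ≠ 3) (h3 : p % 3 = 1) {r : ℚ_[p]} (hr : r ^ 2 = -2) :
    Cg p 2 (SS1 p (27 / 2)) (HH p ((2 - 5 * r) / 4)) ∧ Cg p 2 (SS2 p (27 / 2)) (HH p ((2 - 5 * r) / 4)) := by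
  have hp5 := F2_five h hp3
  have hp : 5 ≤ p := hp5.le
  obtain ⟨ρ, hρ, hρ2⟩ := F2_r hp hr
  obtain ⟨r1, n1, r2, n2⟩ := F2_z hp hρ hρ2
  have hA := A1_one hp h3 r1.in
  have hJ := J_one hp h3 r1.in
  rw [F2_x hr] at hA hJ
  refine ⟨hA.symm, ?_⟩
  have hJ2 := hJ.trans (F2_K h hp3 hr)
  rw [F2_w] at hJ2
  obtain ⟨e2, e3⟩ := ne_of_five hp
  have e5 : (5 : ZMod p) ≠ 0 := by
    have := nat_ne_zero (p := p) (n := 5) (fun h => absurd (Nat.le_of_dvd (by norm_num) h) (by omega))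
    exact_mod_cast this
  have hρ0 : ρ ≠ 0 := by
    rintro rfl
    apply e2
    linear_combination hρ2
  have r5 : Rd p (5 * r / 2) (5 * ρ / 2) := by
    have := ((Rd.nat (p := p) 5).mul hρ).div (Rd.nat (p := p) 2) (by exact_mod_cast e2)
    exact_mod_cast this
  exact hJ2.cancel r5 (div_ne_zero (mul_ne_zero e5 hρ0) e2)

theorem SS_two (h : p % 8 = 1 ∨ p % 8 = 3) (hp3 : p ≠ 3) (h3 : p % 3 = 2) {r : ℚ_[p]} (hr : r ^ 2 = -2) :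
    Cg p 2 (SS1 p (27 / 2)) (5 * r / 2 * HH p ((2 - 5 * r) / 4)) ∧
      Cg p 2 (-25 / 2 * SS2 p (27 / 2)) (5 * r / 2 * HH p ((2 - 5 * r) / 4)) := by
  have hp5 := F2_five h hp3
  have hp : 5 ≤ p := hp5.le
  obtain ⟨ρ, hρ, hρ2⟩ := F2_r hp hr
  obtain ⟨r1, n1, r2, n2⟩ := F2_z hp hρ hρ2
  have hA := A1_two hp h3 r1.in
  have hJ := J_two hp h3 r1.in
  rw [F2_x hr] at hA hJ
  rw [F2_w] at hA
  refine ⟨hJ.trans (F2_K h hp3 hr), ?_⟩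
  have i1 : In p (5 * r / 2) := by
    have := ((Rd.nat (p := p) 5).mul hρ).div (Rd.nat (p := p) 2) (by exact_mod_cast (ne_of_five hp).1)
    exact_mod_cast this.in
  have h4 := (hA.symm).mul_left i1
  have e : 5 * r / 2 * (5 * r / 2 * SS2 p (27 / 2)) = -25 / 2 * SS2 p (27 / 2) := by
    linear_combination (25 / 4 * SS2 p (27 / 2)) * hr
  rwa [e] at h4

end SCong
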