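import Pool.Agent.Lib.MP_0a3b9a_nt.F2

/-!
Module F3: transfer to rational numbers, existence of the root of -2, final form.
-/

namespace SCong
open Finset Polynomial

/-- The binomial coefficient `a (a-1) ... (a-k+1) / k!` of a rational number `a`. -/
def qbinom (a : ℚ) (k : ℕ) : ℚ := (∏ i ∈ Finset.range k, (a - i)) / (k.factorial : ℚ)

/-- The sum `S_1(p)`. -/
def S1 (p : ℕ) : ℚ :=
  ∑ k ∈ Finset.range p, qbinom (-1/3) k * qbinom (-1/6) k * (27/2 : ℚ) ^ k

/-- The sum `S_2(p)`. -/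
def S2 (p : ℕ) : ℚ :=
  ∑ k ∈ Finset.range p, qbinom (-2/3) k * qbinom (-5/6) k * (27/2 : ℚ) ^ k

/-- Congruence modulo `m` in the ring of rationals whose denominator is prime to the prime `p`
(used with `m` a power of `p`): `x - y = m z` with the denominator of `z` prime to `p`. -/
def CongMod (p m : ℕ) (x y : ℚ) : Prop := ∃ z : ℚ, ¬ p ∣ z.den ∧ x - y = m * z

/-- The Legendre symbol at `p` of (the residue modulo `p` of) a rational number. -/
def leg (p : ℕ) [Fact p.Prime] (r : ℚ) : ℤ := quadraticChar (ZMod p) (r : ZMod p)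

/-- `ε_p`. -/
def eps (p : ℕ) : ℚ := if p % 3 = 1 then 1 else -25 / 2

/-- The right-hand side `R(p)` of the problem, for a chosen representation `p = c^2 + 2 d^2`. -/
def R (p : ℕ) [Fact p.Prime] (c d : ℤ) : ℚ :=
  if p % 24 = 1 ∨ p % 24 = 19 then
    (-1 : ℚ) ^ (p / 8) * (leg p (-2 - (c : ℚ) / d) : ℚ) * (2 * c - (p : ℚ) / (2 * c))
  else
    (-1 : ℚ) ^ (p / 8) * (leg p (2 + (c : ℚ) / d) : ℚ) * (10 * d - 5 * (p : ℚ) / (4 * d))

/-- The corrected right-hand side: the symbol of `-2 - c/d` in all classes. -/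
def Rc (p : ℕ) [Fact p.Prime] (c d : ℤ) : ℚ :=
  (-1 : ℚ) ^ (p / 8) * (leg p (-2 - (c : ℚ) / d) : ℚ) *
    (if p % 3 = 1 then 2 * c - (p : ℚ) / (2 * c) else 10 * d - 5 * (p : ℚ) / (4 * d))

variable {p : ℕ} [Fact p.Prime]

theorem F3_den {z : ℚ} (h : In p (z : ℚ_[p])) : ¬ p ∣ z.den := by
  intro hd
  have h1 := in_iff.1 h
  have hz : (z : ℚ_[p]) = (z.num : ℚ_[p]) / (z.den : ℚ_[p]) := by
    have := congrArg (fun t : ℚ => (t : ℚ_[p])) (Rat.num_div_den z)
    push_cast at this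
    exact this.symm
  have hden : ‖(z.den : ℚ_[p])‖ < 1 := by
    have := (Padic.norm_intCast_lt_one_iff (p := p) (k := (z.den : ℤ))).2 (by exact_mod_cast hd)
    exact_mod_cast this
  have hnum : ‖(z.num : ℚ_[p])‖ = 1 := by
    by_contra hne
    have h2 : ‖(z.num : ℚ_[p])‖ < 1 := lt_of_le_of_ne (Padic.norm_int_le_one _) hne
    have h3 : (p : ℤ) ∣ z.num := Padic.norm_intCast_lt_one_iff.1 h2
    have h4 : p ∣ z.num.natAbs := Int.natCast_dvd.1 h3
    have h5 := Nat.dvd_gcd h4 hd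
    rw [z.reduced] at h5
    exact (Fact.out : p.Prime).one_lt.ne' (Nat.dvd_one.1 h5)
  have hpos : 0 < ‖(z.den : ℚ_[p])‖ := norm_pos_iff.2 (by exact_mod_cast z.den_ne_zero)
  rw [hz, norm_div, hnum, div_le_one hpos] at h1
  linarith

theorem F3_cong {x y : ℚ} (n : ℕ) (h : Cg p n (x : ℚ_[p]) (y : ℚ_[p])) : CongMod p (p ^ n) x y := by
  obtain ⟨w, hw⟩ := h
  have hp0 : (p : ℚ) ≠ 0 := by exact_mod_cast (Fact.out : p.Prime).ne_zero
  refine ⟨(x - y) / p ^ n, F3_den ⟨w, ?_⟩, ?_⟩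
  · have : (p : ℚ_[p]) ^ n ≠ 0 := pow_ne_zero _ pne
    push_cast
    rw [hw]; field_simp
  · push_cast; field_simp

theorem F3_cong_iff {x y : ℚ} (n : ℕ) : CongMod p (p ^ n) x y ↔ Cg p n (x : ℚ_[p]) (y : ℚ_[p]) := by
  constructor
  · rintro ⟨z, hz, h⟩
    obtain ⟨w, hw⟩ := in_iff.2 (Padic.norm_rat_le_one hz)
    refine ⟨w, ?_⟩
    rw [hw]
    have := congrArg (fun t : ℚ => (t : ℚ_[p])) h
    push_cast at this
    exact this
  · exact F3_cong n

theorem F3_qb1 (k : ℕ) : qbinom (-1/3) k * qbinom (-1/6) k = s1 ℚ k := by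
  unfold qbinom s1
  induction k with
  | zero => simp
  | succ k ih =>
    rw [prod_range_succ _ k, prod_range_succ _ k, prod_range_succ _ k, ← ih, Nat.factorial_succ]
    have h1 : (k.factorial : ℚ) ≠ 0 := by exact_mod_cast k.factorial_ne_zero
    have h2 : (k : ℚ) + 1 ≠ 0 := by positivity
    push_cast
    field_simp
    ring

theorem F3_qb2 (k : ℕ) : qbinom (-2/3) k * qbinom (-5/6) k = s2 ℚ k := by
  unfold qbinom s2
  induction k with
  | zero => simp
  | succ k ih =>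
    rw [prod_range_succ _ k, prod_range_succ _ k, prod_range_succ _ k, ← ih, Nat.factorial_succ]
    have h1 : (k.factorial : ℚ) ≠ 0 := by exact_mod_cast k.factorial_ne_zero
    have h2 : (k : ℚ) + 1 ≠ 0 := by positivity
    push_cast
    field_simp
    ring

theorem F3_S1 : ((S1 p : ℚ) : ℚ_[p]) = SS1 p (27 / 2) := by
  unfold S1 SS1
  push_cast
  refine sum_congr rfl fun k _ => ?_
  rw [← Rat.cast_mul, F3_qb1]
  unfold s1
  push_cast
  rfl

theorem F3_S2 : ((S2 p : ℚ) : ℚ_[p]) = SS2 p (27 / 2) := by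
  unfold S2 SS2
  push_cast
  refine sum_congr rfl fun k _ => ?_
  rw [← Rat.cast_mul, F3_qb2]
  unfold s2
  push_cast
  rfl

/-- a root of `-2` with given residue. -/
theorem F3_root (h2 : p ≠ 2) {ρ : ZMod p} (hρ : ρ ^ 2 = -2) : ∃ r : ℚ_[p], r ^ 2 = -2 ∧ Rd p r ρ := by
  have hp2 : (2 : ZMod p) ≠ 0 := by
    intro h
    have : (p : ℕ) ∣ 2 := by
      rw [← ZMod.natCast_eq_zero_iff]; exact_mod_cast h
    exact h2 ((Nat.prime_dvd_prime_iff_eq Fact.out Nat.prime_two).1 this)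
  have hρ0 : ρ ≠ 0 := by
    rintro rfl
    apply hp2
    have : (2 : ZMod p) = -(0 ^ 2) := by rw [hρ]; ring
    simpa using this
  obtain ⟨a, ha⟩ := ZMod.ringHom_surjective (PadicInt.toZMod (p := p)) ρ
  have hF : ‖(X ^ 2 + 2 : ℤ_[p][X]).eval a‖ < 1 := by
    have h0 : PadicInt.toZMod ((X ^ 2 + 2 : ℤ_[p][X]).eval a) = 0 := by
      have : PadicInt.toZMod (2 : ℤ_[p]) = 2 := map_ofNat _ 2
      simp [ha, hρ, this]
    have h1 := (toZMod_eq_zero _).1 h0
    obtain ⟨v, hv⟩ := h1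
    rw [hv]
    exact (PadicInt.norm_lt_one_iff_dvd _).2 (Dvd.intro _ rfl)
  have hF' : ‖(X ^ 2 + 2 : ℤ_[p][X]).derivative.eval a‖ = 1 := by
    have h0 : PadicInt.toZMod ((X ^ 2 + 2 : ℤ_[p][X]).derivative.eval a) ≠ 0 := by
      have e1 : (X ^ 2 + 2 : ℤ_[p][X]).derivative.eval a = 2 * a := by
        have : (X ^ 2 + 2 : ℤ_[p][X]) = X ^ 2 + C 2 := by rw [map_ofNat]
        rw [this, derivative_add, derivative_C, derivative_X_sq]
        simp
      rw [e1, map_mul, ha, map_ofNat]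
      exact mul_ne_zero hp2 hρ0
    exact (Rd.coe (p := p) ((X ^ 2 + 2 : ℤ_[p][X]).derivative.eval a)).norm h0
  have hn : ‖(X ^ 2 + 2 : ℤ_[p][X]).aeval a‖ < ‖(X ^ 2 + 2 : ℤ_[p][X]).derivative.aeval a‖ ^ 2 := by
    rw [Polynomial.coe_aeval_eq_eval, hF', one_pow]; exact hF
  obtain ⟨z, hz1, hz2, -⟩ := hensels_lemma hn
  rw [Polynomial.coe_aeval_eq_eval, hF'] at hz2
  have hz3 : z ^ 2 = -2 := by
    rw [Polynomial.coe_aeval_eq_eval] at hz1
    have : z ^ 2 + 2 = 0 := by simpa using hz1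
    linear_combination this
  refine ⟨(z : ℚ_[p]), ?_, ?_⟩
  · have := congrArg (fun t : ℤ_[p] => (t : ℚ_[p])) hz3
    push_cast at this
    exact this
  · have h5 : PadicInt.toZMod z = ρ := by
      have h6 : PadicInt.toZMod (z - a) = 0 := by
        rw [toZMod_eq_zero]
        obtain ⟨v, hv⟩ := (PadicInt.norm_lt_one_iff_dvd _).1 hz2
        exact ⟨v, hv⟩
      rw [map_sub, ha] at h6
      exact sub_eq_zero.1 h6
    rw [← h5]; exact Rd.coe z

theorem F3_units {c d : ℤ} (hcd : (p : ℤ) = c ^ 2 + 2 * d ^ 2) (h2 : p ≠ 2) :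
    (c : ZMod p) ≠ 0 ∧ (d : ZMod p) ≠ 0 := by
  have hp : Nat.Prime p := Fact.out
  have hpp : Prime (p : ℤ) := Nat.prime_iff_prime_int.1 hp
  have hp0 : (0 : ℤ) < p := by exact_mod_cast hp.pos
  have hp1 : (1 : ℤ) < p := by exact_mod_cast hp.one_lt
  have key : ¬ ((p : ℤ) ∣ c ∧ (p : ℤ) ∣ d) := by
    rintro ⟨⟨a, ha⟩, ⟨b, hb⟩⟩
    rw [ha, hb] at hcd
    have h1 : (p : ℤ) * (p * (a ^ 2 + 2 * b ^ 2)) = p * 1 := by linear_combination -hcd
    have h3 := mul_left_cancel₀ hp0.ne' h1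
    have h4 : (p : ℤ) ∣ 1 := ⟨_, h3.symm⟩
    have := Int.le_of_dvd one_pos h4
    omega
  constructor
  · intro h
    have h1 : (p : ℤ) ∣ c := (ZMod.intCast_zmod_eq_zero_iff_dvd c p).1 h
    have h3 : (p : ℤ) ∣ 2 * d ^ 2 := by
      have : (2 * d ^ 2 : ℤ) = p - c ^ 2 := by linear_combination -hcd
      rw [this]
      exact dvd_sub_self_left.2 (dvd_pow h1 two_ne_zero)
    rcases hpp.dvd_or_dvd h3 with h4 | h4
    · have : (p : ℤ) ≤ 2 := Int.le_of_dvd (by norm_num) h4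
      have : p ≤ 2 := by exact_mod_cast this
      have := hp.two_le
      omega
    · exact key ⟨h1, hpp.dvd_of_dvd_pow h4⟩
  · intro h
    have h1 : (p : ℤ) ∣ d := (ZMod.intCast_zmod_eq_zero_iff_dvd d p).1 h
    have h3 : (p : ℤ) ∣ c ^ 2 := by
      have : (c ^ 2 : ℤ) = p - 2 * d ^ 2 := by linear_combination -hcd
      rw [this]
      exact dvd_sub_self_left.2 ((dvd_pow h1 two_ne_zero).mul_left _)
    exact key ⟨hpp.dvd_of_dvd_pow h3, h1⟩

theorem F3_alg {c d : ℤ} (hcd : (p : ℤ) = c ^ 2 + 2 * d ^ 2) (hp5 : 5 ≤ p) {r : ℚ_[p]}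
    (hr : r ^ 2 = -2) (hρ : Rd p r (-(c : ZMod p) / d)) :
    Cg p 2 (5 * r / 2 * (2 * c - p / (2 * c))) (10 * d - 5 * p / (4 * d)) := by
  obtain ⟨hc0, hd0⟩ := F3_units hcd (by omega)
  have h2z := (ne_of_five hp5).1
  have hC : Rd p (c : ℚ_[p]) c := Rd.int c
  have hD : Rd p (d : ℚ_[p]) d := Rd.int d
  have hC0 := hC.ne_zero hc0
  have hD0 := hD.ne_zero hd0
  have h1 : Rd p (r * d + c) 0 := by
    have := (hρ.mul hD).add hC
    have e : -(c : ZMod p) / d * d + c = 0 := by field_simp; ring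
    rwa [e] at this
  obtain ⟨u, hu⟩ := rd_zero_iff.1 h1
  rw [pow_one, sub_zero] at hu
  have hpc : (p : ℚ_[p]) = (c : ℚ_[p]) ^ 2 + 2 * (d : ℚ_[p]) ^ 2 := by exact_mod_cast hcd
  have e2 : 2 * (c : ℚ_[p]) * u = 1 + p * (u : ℚ_[p]) ^ 2 := by
    have e3 : (r * d) ^ 2 = (p * (u : ℚ_[p]) - c) ^ 2 := by rw [← hu]; ring
    have e4 : (p : ℚ_[p]) * (2 * c * u) = p * (1 + p * (u : ℚ_[p]) ^ 2) := by
      have : (r * d) ^ 2 = -2 * (d : ℚ_[p]) ^ 2 := by rw [mul_pow, hr]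
      linear_combination e3 - this - hpc
    exact mul_left_cancel₀ pne e4
  have hin : In p (5 / (2 * (d : ℚ_[p])) * ((u : ℚ_[p]) ^ 2 - u / (2 * c))) := by
    have i1 : In p (5 / (2 * (d : ℚ_[p]))) := by
      have := (Rd.nat (p := p) 5).div ((Rd.nat (p := p) 2).mul hD) (mul_ne_zero (by exact_mod_cast h2z) hd0)
      exact_mod_cast this.in
    have i2 : In p ((u : ℚ_[p]) / (2 * c)) := by
      have := (Rd.coe u).div ((Rd.nat (p := p) 2).mul hC) (mul_ne_zero (by exact_mod_cast h2z) hc0)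
      exact_mod_cast this.in
    exact i1.mul (((In.coe u).pow 2).sub i2)
  obtain ⟨v, hv⟩ := hin
  refine ⟨v, ?_⟩
  rw [hv]
  have hr' : r = (p * (u : ℚ_[p]) - c) / d := by rw [← hu]; field_simp; ring
  rw [hr']
  field_simp
  linear_combination (40 * (c : ℚ_[p]) * (p : ℚ_[p])) * e2 + 80 * (c : ℚ_[p]) * hpc

theorem F3_leg {c d : ℤ} (hd : (d : ZMod p) ≠ 0) :
    leg p (-2 - (c : ℚ) / d) = quadraticChar (ZMod p) (-(c : ZMod p) / d - 2) ∧
    leg p (2 + (c : ℚ) / d) = quadraticChar (ZMod p) (-1) *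
      quadraticChar (ZMod p) (-(c : ZMod p) / d - 2) := by
  have hd' : d ≠ 0 := by rintro rfl; simp at hd
  have hden : ((((c : ℚ) / d)).den : ZMod p) ≠ 0 := by
    intro h
    have h1 : p ∣ ((c : ℚ) / d).den := (ZMod.natCast_eq_zero_iff _ _).1 h
    have h2 : (((c : ℚ) / d).den : ℤ) ∣ d := by
      have := Rat.den_dvd c d
      rwa [Rat.divInt_eq_div] at this
    apply hd
    rw [ZMod.intCast_zmod_eq_zero_iff_dvd]
    exact (Int.natCast_dvd_natCast.2 h1).trans h2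
  have hcast : ((((c : ℚ) / d : ℚ)) : ZMod p) = (c : ZMod p) / d := by
    rw [Rat.cast_div_of_ne_zero]
    · simp
    · simp
    · simpa using hd
  have h2 : (((2 : ℚ)).den : ZMod p) ≠ 0 := by simp
  have hm2 : (((-2 : ℚ)).den : ZMod p) ≠ 0 := by simp
  have c2 : ((2 : ℚ) : ZMod p) = 2 := by norm_num
  have cm2 : ((-2 : ℚ) : ZMod p) = -2 := by
    rw [Rat.cast_neg]; rw [c2]
  constructor
  · unfold leg
    rw [Rat.cast_sub_of_ne_zero hm2 hden, hcast, cm2]
    congr 1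
    ring
  · unfold leg
    rw [Rat.cast_add_of_ne_zero h2 hden, hcast, c2, ← map_mul]
    congr 1
    ring

theorem F3_eleven (h8 : p % 8 = 1 ∨ p % 8 = 3) (hp3 : p ≠ 3) : 11 ≤ p := by
  have hp : Nat.Prime p := Fact.out
  by_contra hlt
  push Not at hlt
  interval_cases p <;> first | omega | (exact absurd hp (by norm_num))

theorem F3_Rc_unit {c d : ℤ} (hcd : (p : ℤ) = c ^ 2 + 2 * d ^ 2) (hp5 : 5 < p) (h3 : p % 3 = 2)
    (hn : (-(c : ZMod p) / d - 2) ≠ 0) :
    ∃ a : ZMod p, a ≠ 0 ∧ Rd p (((Rc p c d : ℚ)) : ℚ_[p]) a := by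
  obtain ⟨hc0, hd0⟩ := F3_units hcd (by omega)
  have h5 : (5 : ZMod p) ≠ 0 := by
    have := nat_ne_zero (p := p) (n := 5) (fun h => absurd (Nat.le_of_dvd (by norm_num) h) (by omega))
    exact_mod_cast this
  have h2 := (ne_of_five (p := p) (by omega)).1
  have hD : Rd p (d : ℚ_[p]) d := Rd.int d
  have r1 : Rd p (10 * (d : ℚ_[p]) - 5 * p / (4 * d)) (10 * d - 5 * 0 / (4 * d)) := by
    have e1 : Rd p (10 * (d : ℚ_[p])) (10 * d) := by exact_mod_cast (Rd.nat (p := p) 10).mul hD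
    have e2 : Rd p (4 * (d : ℚ_[p])) (4 * d) := by exact_mod_cast (Rd.nat (p := p) 4).mul hD
    have e3 : Rd p (5 * (p : ℚ_[p])) (5 * 0) := by
      have := (Rd.nat (p := p) 5).mul (Rd.nat (p := p) p)
      rw [ZMod.natCast_self] at this
      exact_mod_cast this
    have h4 : (4 * (d : ZMod p)) ≠ 0 := by
      have : (4 : ZMod p) = 2 * 2 := by norm_num
      rw [this]; exact mul_ne_zero (mul_ne_zero h2 h2) hd0
    exact e1.sub (e3.div e2 h4)
  rw [mul_zero, zero_div, sub_zero] at r1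
  have r2 : Rd p ((-1 : ℚ_[p]) ^ (p / 8)) ((-1) ^ (p / 8)) := by
    have := (Rd.int (p := p) (-1)).pow (p / 8)
    exact_mod_cast this
  have r3 : Rd p ((leg p (-2 - (c : ℚ) / d) : ℤ) : ℚ_[p]) ((leg p (-2 - (c : ℚ) / d) : ℤ) : ZMod p) :=
    Rd.int _
  refine ⟨(-1) ^ (p / 8) * ((leg p (-2 - (c : ℚ) / d) : ℤ) : ZMod p) * (10 * d), ?_, ?_⟩
  rotate_left
  · unfold Rc
    rw [if_neg (by omega)]
    push_cast
    exact (r2.mul r3).mul r1
  · have h10 : (10 : ZMod p) = 2 * 5 := by norm_num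
    refine mul_ne_zero (mul_ne_zero (pow_ne_zero _ (by simp)) ?_) (by rw [h10]; exact mul_ne_zero (mul_ne_zero h2 h5) hd0)
    rw [(F3_leg hd0).1]
    rcases quadraticChar_dichotomy hn with h | h <;> rw [h] <;> simp

theorem final (h8 : p % 8 = 1 ∨ p % 8 = 3) (hp3 : p ≠ 3) {c d : ℤ}
    (hcd : (p : ℤ) = c ^ 2 + 2 * d ^ 2) (hc : c % 4 = 1) :
    CongMod p (p ^ 2) (S1 p) (eps p * S2 p) ∧ CongMod p (p ^ 2) (S1 p) (Rc p c d) ∧
      (CongMod p (p ^ 2) (S1 p) (R p c d) ↔ p % 24 ≠ 11) := by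
  have hp : Nat.Prime p := Fact.out
  have hp11 := F3_eleven h8 hp3
  have hp5 : 5 ≤ p := by omega
  have h3 : p % 3 = 1 ∨ p % 3 = 2 := by
    have : p % 3 ≠ 0 := by
      intro h
      exact hp3 ((Nat.prime_dvd_prime_iff_eq Nat.prime_three hp).1 (Nat.dvd_of_mod_eq_zero h)).symm
    omega
  obtain ⟨hc0, hd0⟩ := F3_units hcd (by omega)
  have hρ : (-(c : ZMod p) / d) ^ 2 = -2 := by
    have h0 : ((c : ZMod p)) ^ 2 + 2 * (d : ZMod p) ^ 2 = 0 := by
      have := congrArg (fun t : ℤ => (t : ZMod p)) hcd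
      push_cast at this
      rw [← this]; simp
    field_simp
    linear_combination h0
  obtain ⟨r, hr, hrρ⟩ := F3_root (by omega) hρ
  have hH := HH_z0 h8 hp3 hcd hc hr hrρ
  have hn : (-(c : ZMod p) / d - 2) ≠ 0 := by
    intro h
    have h1 : (-(c : ZMod p) / d) = 2 := by linear_combination h
    rw [h1] at hρ
    have h6 : (2 : ZMod p) * 3 = 0 := by linear_combination hρ
    rcases mul_eq_zero.1 h6 with h | h
    · exact (ne_of_five hp5).1 h
    · exact (ne_of_five hp5).2 h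
  have hleg := F3_leg (p := p) (c := c) hd0
  have hsg : In p ((-1 : ℚ_[p]) ^ (p / 8) * (quadraticChar (ZMod p) (-(c : ZMod p) / d - 2) : ℚ_[p])) :=
    ((In.one.neg).pow _).mul (In.int _)
  -- first two parts
  have main : Cg p 2 ((S1 p : ℚ) : ℚ_[p]) ((eps p * S2 p : ℚ) : ℚ_[p]) ∧
      Cg p 2 ((S1 p : ℚ) : ℚ_[p]) ((Rc p c d : ℚ) : ℚ_[p]) := by
    rcases h3 with h3 | h3
    · obtain ⟨h1, h2⟩ := SS_one h8 hp3 h3 hr
      rw [← F3_S1] at h1
      rw [← F3_S2] at h2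
      constructor
      · have : (eps p * S2 p : ℚ) = S2 p := by unfold eps; rw [if_pos h3, one_mul]
        rw [this]
        exact h1.trans h2.symm
      · refine (h1.trans hH).trans (Cg.of_eq ?_)
        unfold Rc
        rw [if_pos h3, hleg.1]
        push_cast
        ring
    · obtain ⟨h1, h2⟩ := SS_two h8 hp3 h3 hr
      rw [← F3_S1] at h1
      rw [← F3_S2] at h2
      constructor
      · have : ((eps p * S2 p : ℚ) : ℚ_[p]) = -25 / 2 * ((S2 p : ℚ) : ℚ_[p]) := by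
          unfold eps; rw [if_neg (by omega)]; push_cast; ring
        rw [this]
        exact h1.trans h2.symm
      · have i1 : In p (5 * r / 2) := by
          have := ((Rd.nat (p := p) 5).mul hrρ).div (Rd.nat (p := p) 2)
            (by exact_mod_cast (ne_of_five hp5).1)
          exact_mod_cast this.in
        have h4 := hH.mul_left i1
        have h5 := (F3_alg hcd hp5 hr hrρ).mul_left hsg
        refine (h1.trans h4).trans ?_
        have e1 : 5 * r / 2 * ((-1 : ℚ_[p]) ^ (p / 8) *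
            (quadraticChar (ZMod p) (-(c : ZMod p) / d - 2) : ℚ_[p]) * (2 * c - p / (2 * c))) =
            (-1 : ℚ_[p]) ^ (p / 8) * (quadraticChar (ZMod p) (-(c : ZMod p) / d - 2) : ℚ_[p]) *
              (5 * r / 2 * (2 * c - p / (2 * c))) := by ring
        rw [e1]
        refine h5.trans (Cg.of_eq ?_)
        unfold Rc
        rw [if_neg (by omega), hleg.1]
        push_cast
        ring
  refine ⟨F3_cong 2 main.1, F3_cong 2 main.2, ?_⟩
  have hodd : p % 2 = 1 := by omega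
  have hm1 : p % 4 = 1 → quadraticChar (ZMod p) (-1) = 1 := by
    intro h
    rw [quadraticChar_neg_one (by rw [ZMod.ringChar_zmod_n]; omega), ZMod.card,
      ZMod.χ₄_nat_one_mod_four h]
  have hm3 : p % 4 = 3 → quadraticChar (ZMod p) (-1) = -1 := by
    intro h
    rw [quadraticChar_neg_one (by rw [ZMod.ringChar_zmod_n]; omega), ZMod.card,
      ZMod.χ₄_nat_three_mod_four h]
  by_cases h11 : p % 24 = 11
  · refine ⟨fun h => ?_, fun h => absurd h11 h⟩
    exfalso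
    have hRR : (R p c d : ℚ) = -Rc p c d := by
      unfold R Rc
      rw [if_neg (by omega), if_neg (by omega), hleg.1, hleg.2, hm3 (by omega)]
      push_cast
      ring
    rw [hRR] at h
    have h1 := (F3_cong_iff 2).1 h
    have h2 := (main.2.symm.trans h1).mono (show 1 ≤ 2 by norm_num)
    obtain ⟨a, ha, hRa⟩ := F3_Rc_unit hcd (by omega) (by omega) hn
    have h3 : Rd p ((-Rc p c d : ℚ) : ℚ_[p]) (-a) := by
      push_cast; exact hRa.neg
    have h4 := (hRa.cg_iff h3).1 h2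
    have h5 : (2 : ZMod p) * a = 0 := by linear_combination h4
    rcases mul_eq_zero.1 h5 with h | h
    · exact (ne_of_five hp5).1 h
    · exact ha h
  · refine ⟨fun _ => h11, fun _ => ?_⟩
    have hRR : (R p c d : ℚ) = Rc p c d := by
      unfold R Rc
      by_cases h1 : p % 24 = 1 ∨ p % 24 = 19
      · rw [if_pos h1, if_pos (by omega)]
      · rw [if_neg h1, if_neg (by omega), hleg.1, hleg.2, hm1 (by omega)]
        push_cast
        ring
    rw [hRR]
    exact F3_cong 2 main.2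

end SCong
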