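import Pool.Agent.Lib.MP_0a3b9a_nt.X3

/-!
Module M2.  Evaluate XX = 0 at b (b^p = b).  vv(b) = H(b³), Gb(b) = G(b³), and α(b) = Q(b)/L(b)³ = b³ (hrel reduced), so G0(b) = L^(2p-1) G(b³) = L G(b³), L = 1+2b (L^(2p-2) = 1):
 0 = [3(1+b+b²)(1+2b) - (1-b)²] G(b³) + E(b) H(b³).
E(b): write q(x) for the residue of (x^(p-1)-1)/p; with the lift y: Cz(y) = ((1+y+y²)^p - 1 - y^p - y^(2p))/p, so
 Cz(b) = (1+b+b²) q(1+y+y²) - (b+2b²) q(y), Bz(b) = (1+2b) q(1+2y) - 2b q(y), fq27 = 3 fq3, and from hrel (z = y³, q multiplicative -> additive)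
 q(z) = 3q(y) = 2 fq3 + q(y) + q(1+y+y²) - 3 q(1+2y), ω = q(z) - fq27.  Result: E(b) = [3(1+b+b²)(1+2b) - (1-b)²] ω.
Suggestion: put A = 1+y+y², L = 1+2y, existence of α1, α2, α3 integral with y^(p-1) = 1+pα1, A^(p-1) = 1+pα2, L^(p-1) = 1+pα3; the relation between them mod p comes from (hrel)^(p-1) mod p².
-/

namespace SCong
open Finset Polynomial
variable {p : ℕ} [Fact p.Prime]

theorem M2_aeval {y : ℚ_[p]} {b : ZMod p} (hy : Rd p y b) (P : ℤ[X]) :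
    Rd p (aeval y P) ((P.map (Int.castRingHom (ZMod p))).eval b) := by
  induction P using Polynomial.induction_on' with
  | add f g hf hg =>
    simp only [map_add, Polynomial.map_add, eval_add]
    exact hf.add hg
  | monomial n a =>
    simp only [aeval_monomial, Polynomial.map_monomial, eval_monomial, eq_intCast]
    exact (Rd.int a).mul (hy.pow n)

/-- the value of `Cz`. -/
theorem M2_Cz (hp : 5 ≤ p) {Cz Bz : ℤ[X]} (h : CB p Cz Bz) {y a1 a2 : ℚ_[p]} {b s1 s2 : ZMod p}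
    (hy : Rd p y b) (h1 : Rd p a1 s1) (h2 : Rd p a2 s2) (e1 : y ^ (p - 1) = 1 + p * a1)
    (e2 : (1 + y + y ^ 2) ^ (p - 1) = 1 + p * a2) :
    (Cz.map (Int.castRingHom (ZMod p))).eval b = (1 + b + b ^ 2) * s2 - (b + 2 * b ^ 2) * s1 := by
  have e := congrArg (aeval y) h.1
  simp only [map_mul, map_sub, map_pow, map_add, map_one, aeval_X, eq_intCast,
    Int.cast_natCast, map_natCast] at e
  have k1 : y ^ p = y * (1 + p * a1) := by
    rw [← e1, ← pow_succ', Nat.sub_add_cancel (by omega)]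
  have k2 : y ^ (2 * p) = (y * (1 + p * a1)) ^ 2 := by
    rw [← k1, ← pow_mul, mul_comm]
  have k3 : (1 + y + y ^ 2) ^ p = (1 + y + y ^ 2) * (1 + p * a2) := by
    rw [← e2, ← pow_succ', Nat.sub_add_cancel (by omega)]
  rw [k1, k2, k3] at e
  have e' : aeval y Cz = (1 + y + y ^ 2) * a2 - (y + 2 * y ^ 2) * a1 - p * (y ^ 2 * a1 ^ 2) := by
    apply mul_left_cancel₀ (pne (p := p))
    rw [e]; ring
  have h3 := M2_aeval hy Cz
  rw [e'] at h3
  have h4 := ((((Rd.one.add hy).add (hy.pow 2)).mul h2).sub ((hy.add ((Rd.nat 2).mul (hy.pow 2))).mul h1)).sub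
    ((Rd.nat p).mul ((hy.pow 2).mul (h1.pow 2)))
  have h5 := h3.unique (by exact_mod_cast h4)
  rw [h5]
  simp

/-- the value of `Bz`. -/
theorem M2_Bz (hp : 5 ≤ p) {Cz Bz : ℤ[X]} (h : CB p Cz Bz) {y a1 a3 : ℚ_[p]} {b s1 s3 : ZMod p}
    (hy : Rd p y b) (h1 : Rd p a1 s1) (h3 : Rd p a3 s3) (e1 : y ^ (p - 1) = 1 + p * a1)
    (e3 : (1 + 2 * y) ^ (p - 1) = 1 + p * a3) :
    (Bz.map (Int.castRingHom (ZMod p))).eval b = (1 + 2 * b) * s3 - 2 * b * s1 := by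
  have e := congrArg (aeval y) h.2
  simp only [map_mul, map_sub, map_pow, map_add, map_one, aeval_X, eq_intCast,
    Int.cast_natCast, map_natCast, map_ofNat] at e
  have k1 : y ^ p = y * (1 + p * a1) := by
    rw [← e1, ← pow_succ', Nat.sub_add_cancel (by omega)]
  have k3 : (1 + 2 * y) ^ p = (1 + 2 * y) * (1 + p * a3) := by
    rw [← e3, ← pow_succ', Nat.sub_add_cancel (by omega)]
  rw [k1, k3] at e
  have e' : aeval y Bz = (1 + 2 * y) * a3 - 2 * y * a1 := by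
    apply mul_left_cancel₀ (pne (p := p))
    rw [e]; ring
  have h4 := M2_aeval hy Bz
  rw [e'] at h4
  have h5 := ((Rd.one.add ((Rd.nat 2).mul hy)).mul h3).sub (((Rd.nat 2).mul hy).mul h1)
  exact h4.unique (by exact_mod_cast h5)

/-- `x = 1 + p u` with residue `a` of `u`. -/
def Lg (p : ℕ) [Fact p.Prime] (x : ℚ_[p]) (a : ZMod p) : Prop := ∃ u, Rd p u a ∧ x = 1 + p * u

theorem Lg.mul {x y : ℚ_[p]} {a b : ZMod p} (hx : Lg p x a) (hy : Lg p y b) : Lg p (x * y) (a + b) := by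
  obtain ⟨u, hu, rfl⟩ := hx
  obtain ⟨v, hv, rfl⟩ := hy
  refine ⟨u + v + p * (u * v), ?_, by ring⟩
  have := (hu.add hv).add ((Rd.nat p).mul (hu.mul hv))
  simpa using this

theorem Lg.unique {x : ℚ_[p]} {a b : ZMod p} (hx : Lg p x a) (hy : Lg p x b) : a = b := by
  obtain ⟨u, hu, rfl⟩ := hx
  obtain ⟨v, hv, h⟩ := hy
  have : u = v := by
    apply mul_left_cancel₀ (pne (p := p)); linear_combination h
  rw [this] at hu
  exact hu.unique hv

/-- `G0` at `b`. -/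
theorem M2_G0 (hp : 5 ≤ p) {b : ZMod p} (hL : 1 + 2 * b ≠ 0)
    (hrel : b ^ 3 * (1 + 2 * b) ^ 3 = 9 * b * (1 + b + b ^ 2)) :
    (G0 p).eval b = (1 + 2 * b) * (Gp p).eval (b ^ 3) := by
  have e1 : (Gp p).eval (b ^ 3) = ∑ k ∈ range (2 * p / 3 + 1), gg (ZMod p) k * (b ^ 3) ^ k := by
    unfold Gp
    rw [eval_finsetSum]
    simp only [eval_mul, eval_C, eval_pow, eval_X]
    symm
    apply sum_subset (range_subset_range.2 (by omega))
    intro k hk1 hk2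
    rw [mem_range] at hk1 hk2
    rw [gg_zero hp (by omega) hk1, zero_mul]
  rw [e1, mul_sum]
  unfold G0 QQ LL
  rw [eval_finsetSum]
  refine sum_congr rfl fun k hk => ?_
  rw [mem_range] at hk
  simp only [eval_mul, eval_C, eval_pow, eval_X, eval_add, eval_one, eval_ofNat]
  rw [← hrel, mul_pow, ← pow_mul (1 + 2 * b) 3 k, mul_assoc, mul_assoc, ← pow_add]
  have h3 : ¬ 3 ∣ p := fun hd => by
    have := (Nat.prime_dvd_prime_iff_eq Nat.prime_three (Fact.out : p.Prime)).1 hd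
    omega
  have e2 : 3 * k + (2 * p - 1 - 3 * k) = (p - 1) * 2 + 1 := by omega
  rw [e2, pow_succ (1 + 2 * b), pow_mul (1 + 2 * b), ZMod.pow_card_sub_one_eq_one hL]
  ring

theorem M_zero (hp : 5 ≤ p) {y z w : ℚ_[p]} {b ω : ZMod p} (hy : Rd p y b) (hz : z = y ^ 3)
    (hrel : z * (1 + 2 * y) ^ 3 = 9 * y * (1 + y + y ^ 2)) (hb : b ≠ 0) (hL : 1 + 2 * b ≠ 0)
    (hQ : 1 + b + b ^ 2 ≠ 0) (hD : 3 * (1 + b + b ^ 2) * (1 + 2 * b) - (1 - b) ^ 2 ≠ 0)
    (hw : Rd p w ω) (hq : (z / 27) ^ (p - 1) = 1 + p * w) :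
    (Gp p).eval (b ^ 3) + ω * (Hp p).eval (b ^ 3) = 0 := by
  obtain ⟨Cz, Bz, h⟩ := CB_exists (p := p) hp
  have hX := congrArg (Polynomial.eval b) (XX_eq_zero hp h)
  have rQ : Rd p (1 + y + y ^ 2) (1 + b + b ^ 2) := (Rd.one.add hy).add (hy.pow 2)
  have rL : Rd p (1 + 2 * y) (1 + 2 * b) := by
    have := (Rd.one (p := p)).add ((Rd.nat 2).mul hy)
    exact_mod_cast this
  obtain ⟨w1, hw1⟩ := hy.fermat hb
  obtain ⟨w2, hw2⟩ := rQ.fermat hQ
  obtain ⟨w3, hw3⟩ := rL.fermat hL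
  rw [pow_one] at hw1 hw2 hw3
  have e1 : y ^ (p - 1) = 1 + p * (w1 : ℚ_[p]) := by linear_combination hw1
  have e2 : (1 + y + y ^ 2) ^ (p - 1) = 1 + p * (w2 : ℚ_[p]) := by linear_combination hw2
  have e3 : (1 + 2 * y) ^ (p - 1) = 1 + p * (w3 : ℚ_[p]) := by linear_combination hw3
  obtain ⟨s1, hs1⟩ := (In.coe w1).rd
  obtain ⟨s2, hs2⟩ := (In.coe w2).rd
  obtain ⟨s3, hs3⟩ := (In.coe w3).rd
  have hC := M2_Cz hp h hy hs1 hs2 e1 e2
  have hB := M2_Bz hp h hy hs1 hs3 e1 e3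
  have h3d : ¬ p ∣ 3 := fun hd => absurd (Nat.le_of_dvd (by norm_num) hd) (by omega)
  have h27d : ¬ p ∣ 27 := fun hd => by
    have h3 : p ∣ 3 ^ 3 := by simpa using hd
    exact h3d ((Fact.out : p.Prime).dvd_of_dvd_pow h3)
  have hF3 := fq_spec hp h3d
  have hF27 := fq_spec hp h27d
  have hF3' : (3 : ℚ_[p]) ^ (p - 1) = 1 + p * (fq p 3 : ℚ_[p]) := by exact_mod_cast hF3
  have hF27' : (27 : ℚ_[p]) ^ (p - 1) = 1 + p * (fq p 27 : ℚ_[p]) := by exact_mod_cast hF27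
  have f27 := fq27 (p := p) hp
  -- the relation for `ω`
  have l1 : Lg p (y ^ (p - 1)) s1 := ⟨_, hs1, e1⟩
  have l2 : Lg p ((1 + y + y ^ 2) ^ (p - 1)) s2 := ⟨_, hs2, e2⟩
  have l3 : Lg p ((1 + 2 * y) ^ (p - 1)) s3 := ⟨_, hs3, e3⟩
  have l4 : Lg p ((3 : ℚ_[p]) ^ (p - 1)) (fq p 3 : ZMod p) := ⟨_, Rd.nat _, hF3'⟩
  have l5 : Lg p ((27 : ℚ_[p]) ^ (p - 1)) (fq p 27 : ZMod p) := ⟨_, Rd.nat _, hF27'⟩
  have l6 : Lg p ((z / 27) ^ (p - 1)) ω := ⟨_, hw, hq⟩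
  have k1 : 3 * s1 = (fq p 27 : ZMod p) + ω := by
    have h5 := (l1.mul l1).mul l1
    have h6 := l5.mul l6
    rw [← mul_pow, ← mul_pow] at h5
    rw [← mul_pow] at h6
    have e : y * y * y = 27 * (z / 27) := by rw [hz]; ring
    rw [e] at h5
    have := h5.unique h6
    linear_combination this
  -- the relation from `hrel`
  have k2 : 2 * s1 + 3 * s3 = 2 * (fq p 3 : ZMod p) + s2 := by
    have h5 := ((l1.mul l1).mul l1).mul ((l3.mul l3).mul l3)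
    have h6 := ((l4.mul l4).mul l1).mul l2
    rw [← mul_pow, ← mul_pow, ← mul_pow, ← mul_pow, ← mul_pow] at h5
    rw [← mul_pow, ← mul_pow, ← mul_pow] at h6
    have e : y * y * y * ((1 + 2 * y) * (1 + 2 * y) * (1 + 2 * y)) = 3 * 3 * y * (1 + y + y ^ 2) := by
      rw [hz] at hrel
      linear_combination hrel
    rw [e] at h5
    have := h5.unique h6
    linear_combination this
  have hrelb : b ^ 3 * (1 + 2 * b) ^ 3 = 9 * b * (1 + b + b ^ 2) := by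
    rw [hz] at hrel
    have h5 := (hy.pow 3).mul (rL.pow 3)
    have h6 := ((Rd.nat 9).mul hy).mul rQ
    rw [hrel] at h5
    exact h5.unique (by exact_mod_cast h6)
  have hG := M2_G0 hp hL hrelb
  simp only [XX, EE, vv, Gb, eval_add, eval_sub, eval_mul, eval_pow, eval_X, eval_one, eval_ofNat, eval_C,
    eval_zero, eval_comp, pow_mul', ZMod.pow_card, hG, hC, hB, f27] at hX
  rw [f27] at k1
  have hfin : (3 * (1 + b + b ^ 2) * (1 + 2 * b) - (1 - b) ^ 2) *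
      ((Gp p).eval (b ^ 3) + ω * (Hp p).eval (b ^ 3)) = 0 := by
    linear_combination hX - (3 * (1 + b + b ^ 2) * (1 + 2 * b) - (1 - b) ^ 2) * (Hp p).eval (b ^ 3) * k1 +
      3 * (1 + 2 * b) * (1 + b + b ^ 2) * (Hp p).eval (b ^ 3) * k2
  exact (mul_eq_zero.1 hfin).resolve_left hD

end SCong
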