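import Pool.Agent.Lib.MP_0a3b9a_nt.Basic

/-!
Module N1: Teichmüller representatives modulo p^2.  τ(u) = (u.val)^p; τ(uv) ≡ τ(u)τ(v), τ(u)^(p-1) ≡ 1 mod p^2 (Cg.frob2).
Sum over u ≠ 0 of τ(u)^e: if p-1 | e every term is ≡ 1 and there are p-1 of them; otherwise with a primitive root g, τ(g)^e Σ ≡ Σ (u -> gu) and τ(g)^e - 1 is a unit.
-/

namespace SCong
open Finset Polynomial
variable {p : ℕ} [Fact p.Prime]

theorem N1_rd (u : ZMod p) : Rd p (u.val : ℚ_[p]) u := by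
  have h := Rd.nat (p := p) u.val
  rwa [ZMod.natCast_zmod_val] at h

theorem N1_in (u : ZMod p) : In p ((u.val : ℚ_[p]) ^ p) := (N1_rd u).in.pow p

theorem N1_rd_tau (u : ZMod p) : Rd p ((u.val : ℚ_[p]) ^ p) u := by
  have h := (N1_rd u).pow p
  rwa [ZMod.pow_card] at h

theorem tau_one (hp : 5 ≤ p) {u : ZMod p} (hu : u ≠ 0) : Cg p 2 (((u.val : ℚ_[p]) ^ p) ^ (p - 1)) 1 := by
  have h := ((N1_rd u).fermat hu).frob2 In.one
  rw [one_pow] at h
  have e : ((u.val : ℚ_[p]) ^ p) ^ (p - 1) = ((u.val : ℚ_[p]) ^ (p - 1)) ^ p := by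
    rw [← pow_mul, ← pow_mul, mul_comm]
  rw [e]; exact h

theorem tau_mul (hp : 5 ≤ p) (u v : ZMod p) :
    Cg p 2 (((u * v).val : ℚ_[p]) ^ p) ((u.val : ℚ_[p]) ^ p * (v.val : ℚ_[p]) ^ p) := by
  rw [← mul_pow]
  exact ((N1_rd (u * v)).cg ((N1_rd u).mul (N1_rd v))).frob2 ((N1_rd u).mul (N1_rd v)).in

theorem N1_card : ((FF p).card : ℚ_[p]) = (p : ℚ_[p]) - 1 := by
  have h1 : (FF p).card = p - 1 := by
    unfold FF
    rw [Finset.filter_ne', Finset.card_erase_of_mem (Finset.mem_univ _), Finset.card_univ, ZMod.card]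
  rw [h1, Nat.cast_sub (Fact.out : p.Prime).one_le, Nat.cast_one]

theorem tau_sum (hp : 5 ≤ p) (e : ℕ) : Cg p 2 (∑ u ∈ FF p, ((u.val : ℚ_[p]) ^ p) ^ e)
    (if (p - 1) ∣ e then ((p : ℚ_[p]) - 1) else 0) := by
  split_ifs with h
  · obtain ⟨k, rfl⟩ := h
    rw [← N1_card, ← mul_one ((FF p).card : ℚ_[p]), ← nsmul_eq_mul, ← Finset.sum_const]
    refine Cg.sum fun u hu => ?_
    have hu0 : u ≠ 0 := by
      unfold FF at hu; exact (Finset.mem_filter.1 hu).2
    rw [pow_mul]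
    have := (tau_one hp hu0).pow (((N1_in u)).pow _) k
    rwa [one_pow] at this
  · obtain ⟨g, hg⟩ := IsCyclic.exists_generator (α := (ZMod p)ˣ)
    have hord : orderOf g = p - 1 := by
      rw [orderOf_eq_card_of_forall_mem_zpowers hg, Nat.card_eq_fintype_card, ZMod.card_units]
    have hge : g ^ e ≠ 1 := by
      intro h1
      apply h
      rw [← hord]
      exact orderOf_dvd_of_pow_eq_one h1
    have hg0 : ((g : ZMod p)) ≠ 0 := g.ne_zero
    set S := ∑ u ∈ FF p, ((u.val : ℚ_[p]) ^ p) ^ e with hS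
    have hSin : In p S := In.sum fun u _ => (N1_in u).pow e
    have h1 : S = ∑ u ∈ FF p, ((((g : ZMod p) * u).val : ℚ_[p]) ^ p) ^ e := by
      rw [hS]
      symm
      refine Finset.sum_bij (fun u _ => (g : ZMod p) * u) ?_ ?_ ?_ ?_
      · intro u hu
        unfold FF at hu ⊢
        rw [Finset.mem_filter] at hu ⊢
        exact ⟨Finset.mem_univ _, mul_ne_zero hg0 hu.2⟩
      · intro u _ v _ huv
        exact mul_left_cancel₀ hg0 huv
      · intro v hv
        unfold FF at hv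
        rw [Finset.mem_filter] at hv
        refine ⟨(g : ZMod p)⁻¹ * v, ?_, ?_⟩
        · unfold FF
          rw [Finset.mem_filter]
          exact ⟨Finset.mem_univ _, mul_ne_zero (inv_ne_zero hg0) hv.2⟩
        · rw [mul_inv_cancel_left₀ hg0]
      · intro u _
        rfl
    have h2 : Cg p 2 S ((((g : ZMod p).val : ℚ_[p]) ^ p) ^ e * S) := by
      have h3 : Cg p 2 (∑ u ∈ FF p, ((((g : ZMod p) * u).val : ℚ_[p]) ^ p) ^ e)
          (∑ u ∈ FF p, (((g : ZMod p).val : ℚ_[p]) ^ p) ^ e * ((u.val : ℚ_[p]) ^ p) ^ e) := by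
        refine Cg.sum fun u _ => ?_
        rw [← mul_pow]
        exact (tau_mul hp _ _).pow (N1_in _) e
      rw [← Finset.mul_sum, ← hS, ← h1] at h3
      exact h3
    have h4 : Cg p 2 (((((g : ZMod p).val : ℚ_[p]) ^ p) ^ e - 1) * S)
        (((((g : ZMod p).val : ℚ_[p]) ^ p) ^ e - 1) * 0) := by
      obtain ⟨w, hw⟩ := h2
      exact ⟨-w, by push_cast; linear_combination -hw⟩
    have h5 : Rd p ((((g : ZMod p).val : ℚ_[p]) ^ p) ^ e - 1) ((g : ZMod p) ^ e - 1) :=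
      ((N1_rd_tau _).pow e).sub Rd.one
    refine h4.cancel h5 ?_
    intro h6
    apply hge
    apply Units.ext
    rw [Units.val_pow_eq_pow_val, Units.val_one]
    exact sub_eq_zero.1 h6

end SCong
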