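import Pool.Agent.Lib.MP_0a3b9a_nt.N1

/-!
Module N2.  For y integral with residue c: (1 - y^(p-1))^2 ≡ 1 mod p^2 if c = 0 (y = p y', p-1 >= 2), ≡ 0 if c ≠ 0 (y^(p-1) ≡ 1 mod p).
The residue of yy α u v is u + v + a (uv)^(p-2) - 1 = u + v + a/(uv) - 1.  Sum over u, v.
-/

namespace SCong
open Finset Polynomial
variable {p : ℕ} [Fact p.Prime]

theorem N2_key (hp : 5 ≤ p) {y : ℚ_[p]} {c : ZMod p} (hy : Rd p y c) :
    Cg p 2 (if c = 0 then (1 : ℚ_[p]) else 0) (1 - 2 * y ^ (p - 1) + y ^ (2 * (p - 1))) := by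
  split_ifs with hc
  · subst hc
    obtain ⟨w, hw⟩ := rd_zero_iff.1 hy
    have hy' : y = (p : ℚ_[p]) * w := by linear_combination hw
    have h1 : Cg p 2 (y ^ (p - 1)) 0 := by
      have h2 : y ^ (p - 1) = (p : ℚ_[p]) ^ 2 * ((p : ℚ_[p]) ^ (p - 1 - 2) * (w : ℚ_[p]) ^ (p - 1)) := by
        rw [hy', mul_pow, ← mul_assoc, ← pow_add, Nat.add_sub_cancel' (by omega : 2 ≤ p - 1)]
      rw [h2]
      exact Cg.pow_mul_zero (((In.nat p).pow _).mul ((In.coe w).pow _)) 2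
    have h3 : Cg p 2 (y ^ (2 * (p - 1))) 0 := by
      rw [two_mul, pow_add]
      have := h1.mul_left (hy.in.pow (p - 1))
      rwa [mul_zero] at this
    have h4 : In p (2 : ℚ_[p]) := by exact_mod_cast In.nat (p := p) 2
    have h5 := ((Cg.refl (p := p) 2 1).sub (h1.mul_left h4)).add h3
    have e : (1 : ℚ_[p]) - 2 * 0 + 0 = 1 := by ring
    rw [e] at h5
    exact h5.symm
  · obtain ⟨t, ht⟩ := hy.fermat hc
    refine ⟨-t ^ 2, ?_⟩
    have hz : y ^ (p - 1) = 1 + (p : ℚ_[p]) * t := by linear_combination ht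
    rw [show 2 * (p - 1) = (p - 1) * 2 from mul_comm _ _, pow_mul, hz]
    push_cast
    ring

theorem N2_res (hp : 5 ≤ p) {a : ZMod p} {α : ℚ_[p]} (hα : Rd p α a) (u v : ZMod p)
    (hu : u ≠ 0) (hv : v ≠ 0) : Rd p (yy p α u v) (u + v + a / (u * v) - 1) := by
  have hinv : ∀ w : ZMod p, w ≠ 0 → w ^ (p - 2) = w⁻¹ := by
    intro w hw
    have h1 := ZMod.pow_card_sub_one_eq_one hw
    have h2 : p - 1 = (p - 2) + 1 := by omega
    rw [h2, pow_succ] at h1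
    exact eq_inv_of_mul_eq_one_left h1
  have h := (((N1_rd_tau u).add (N1_rd_tau v)).add ((hα.mul ((N1_rd_tau u).pow (p - 2))).mul
    ((N1_rd_tau v).pow (p - 2)))).sub Rd.one
  rw [hinv u hu, hinv v hv] at h
  have e : u + v + a / (u * v) - 1 = u + v + a * u⁻¹ * v⁻¹ - 1 := by
    rw [div_eq_mul_inv, mul_inv, mul_assoc]
  rw [e]
  exact h

theorem count1 (hp : 5 ≤ p) {a : ZMod p} (ha : a ≠ 0) {α : ℚ_[p]} (hα : Rd p α a) :
    Cg p 2 (NN p a) (∑ u ∈ FF p, ∑ v ∈ FF p, (1 - 2 * yy p α u v ^ (p - 1) + yy p α u v ^ (2 * (p - 1)))) := by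
  have hN : (NN p a : ℚ_[p]) =
      ∑ u ∈ FF p, ∑ v ∈ FF p, (if u + v + a / (u * v) - 1 = 0 then (1 : ℚ_[p]) else 0) := by
    rw [← Finset.sum_product' (f := fun u v => (if u + v + a / (u * v) - 1 = 0 then (1 : ℚ_[p]) else 0))]
    rw [Finset.sum_ite, Finset.sum_const_zero, add_zero, Finset.sum_const, nsmul_eq_mul, mul_one]
    unfold NN FF
    congr 2
    ext ⟨u, v⟩
    simp only [Finset.mem_filter, Finset.mem_univ, true_and, Finset.mem_product, sub_eq_zero]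
    tauto
  rw [hN]
  refine Cg.sum fun u hu => Cg.sum fun v hv => ?_
  unfold FF at hu hv
  exact N2_key hp (N2_res hp hα u v (Finset.mem_filter.1 hu).2 (Finset.mem_filter.1 hv).2)

end SCong
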