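import Pool.Agent.Lib.MP_0a3b9a_nt.Basic

/-!
Module S1: the sequences `cc`, `gg` modulo `p`.
-/

namespace SCong
open Finset Polynomial
variable {p : ℕ} [Fact p.Prime]

theorem s1_third (hp : 5 ≤ p) : Rd p (1 / 3 : ℚ_[p]) (1 / 3 : ZMod p) := by
  have h3 := (ne_of_five hp).2
  have h : Rd p (3 : ℚ_[p]) (3 : ZMod p) := by simpa using Rd.nat (p := p) 3
  exact Rd.one.div h h3

theorem s1_two_third (hp : 5 ≤ p) : Rd p (2 / 3 : ℚ_[p]) (2 / 3 : ZMod p) := by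
  have h3 := (ne_of_five hp).2
  have h : Rd p (3 : ℚ_[p]) (3 : ZMod p) := by simpa using Rd.nat (p := p) 3
  have h2 : Rd p (2 : ℚ_[p]) (2 : ZMod p) := by simpa using Rd.nat (p := p) 2
  exact h2.div h h3

theorem s1_fac (hp : 5 ≤ p) {i : ℕ} (hi : i + 1 < p) :
    Rd p (((i : ℚ_[p]) + 1 / 3) * ((i : ℚ_[p]) + 2 / 3) / ((i : ℚ_[p]) + 1) ^ 2)
      (((i : ZMod p) + 1 / 3) * ((i : ZMod p) + 2 / 3) / ((i : ZMod p) + 1) ^ 2) :=
  (((Rd.nat i).add (s1_third hp)).mul ((Rd.nat i).add (s1_two_third hp))).div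
    ((Rd.succ i).pow 2) (pow_ne_zero _ (succ_ne hi))

theorem cc_red (hp : 5 ≤ p) {k : ℕ} (hk : k < p) : Rd p (cc ℚ_[p] k) (cc (ZMod p) k) := by
  unfold cc
  refine Rd.prod fun i hi => s1_fac hp ?_
  have := mem_range.1 hi
  omega

theorem gg_red (hp : 5 ≤ p) {k : ℕ} (hk : k < p) : Rd p (gg ℚ_[p] k) (gg (ZMod p) k) := by
  induction k with
  | zero => exact Rd.zero
  | succ k ih =>
    have hk' : k < p := by omega
    have h1 := ih hk'
    have h2 := cc_red hp hk'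
    have h3 := s1_fac hp hk
    have hne := succ_ne hk
    have htwo : Rd p (2 : ℚ_[p]) (2 : ZMod p) := by simpa using Rd.nat (p := p) 2
    have h4 : Rd p ((2 * (k : ℚ_[p]) + 1) / ((k : ℚ_[p]) + 1) ^ 2)
        ((2 * (k : ZMod p) + 1) / ((k : ZMod p) + 1) ^ 2) :=
      ((htwo.mul (Rd.nat k)).add Rd.one).div ((Rd.succ k).pow 2) (pow_ne_zero _ hne)
    have h5 : Rd p (2 * (((k : ℚ_[p]) + 1 / 3) * ((k : ℚ_[p]) + 2 / 3)) / ((k : ℚ_[p]) + 1) ^ 3)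
        (2 * (((k : ZMod p) + 1 / 3) * ((k : ZMod p) + 2 / 3)) / ((k : ZMod p) + 1) ^ 3) :=
      (htwo.mul (((Rd.nat k).add (s1_third hp)).mul ((Rd.nat k).add (s1_two_third hp)))).div
        ((Rd.succ k).pow 3) (pow_ne_zero _ hne)
    exact (h1.mul h3).add (h2.mul (h4.sub h5))

theorem s1_z1 (hp : 5 ≤ p) {i a : ℕ} (h : 3 * i + 1 = a * p) : (i : ZMod p) + 1 / 3 = 0 := by
  have h3 := (ne_of_five hp).2
  have h1 : (3 : ZMod p) * i + 1 = 0 := by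
    have := congrArg (fun t : ℕ => (t : ZMod p)) h
    push_cast at this
    rw [this]; simp
  field_simp
  linear_combination h1

theorem s1_z2 (hp : 5 ≤ p) {i a : ℕ} (h : 3 * i + 2 = a * p) : (i : ZMod p) + 2 / 3 = 0 := by
  have h3 := (ne_of_five hp).2
  have h1 : (3 : ZMod p) * i + 2 = 0 := by
    have := congrArg (fun t : ℕ => (t : ZMod p)) h
    push_cast at this
    rw [this]; simp
  field_simp
  linear_combination h1

theorem s1_mod3 (hp : 5 ≤ p) : p % 3 = 1 ∨ p % 3 = 2 := by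
  have h : ¬ 3 ∣ p := by
    intro h
    have := (Nat.prime_dvd_prime_iff_eq Nat.prime_three (Fact.out : p.Prime)).1 h
    omega
  omega

/-- the factor with index `p/3` vanishes modulo `p`. -/
theorem s1_fac1 (hp : 5 ≤ p) :
    (((p / 3 : ℕ) : ZMod p) + 1 / 3) * (((p / 3 : ℕ) : ZMod p) + 2 / 3) = 0 := by
  rcases s1_mod3 hp with h | h
  · rw [s1_z1 hp (a := 1) (by omega), zero_mul]
  · rw [s1_z2 hp (a := 1) (by omega), mul_zero]

/-- the factor with index `2p/3` vanishes modulo `p`. -/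
theorem s1_fac2 (hp : 5 ≤ p) :
    (((2 * p / 3 : ℕ) : ZMod p) + 1 / 3) * (((2 * p / 3 : ℕ) : ZMod p) + 2 / 3) = 0 := by
  rcases s1_mod3 hp with h | h
  · rw [s1_z2 hp (a := 2) (by omega), mul_zero]
  · rw [s1_z1 hp (a := 2) (by omega), zero_mul]

theorem cc_zero (hp : 5 ≤ p) {k : ℕ} (h1 : p / 3 < k) (h2 : k < p) : cc (ZMod p) k = 0 := by
  unfold cc
  refine prod_eq_zero (mem_range.2 h1) ?_
  rw [s1_fac1 hp, zero_div]

theorem gg_zero (hp : 5 ≤ p) {k : ℕ} (h1 : 2 * p / 3 < k) (h2 : k < p) : gg (ZMod p) k = 0 := by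
  induction k with
  | zero => omega
  | succ k ih =>
    have hcc : cc (ZMod p) k = 0 := cc_zero hp (by omega) (by omega)
    have hg : gg (ZMod p) (k + 1) = gg (ZMod p) k * (((k : ZMod p) + 1 / 3) *
        ((k : ZMod p) + 2 / 3) / ((k : ZMod p) + 1) ^ 2) + cc (ZMod p) k *
        ((2 * (k : ZMod p) + 1) / ((k : ZMod p) + 1) ^ 2 -
        2 * (((k : ZMod p) + 1 / 3) * ((k : ZMod p) + 2 / 3)) / ((k : ZMod p) + 1) ^ 3) := rfl
    rw [hg, hcc, zero_mul, add_zero]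
    rcases Nat.lt_or_ge (2 * p / 3) k with h | h
    · rw [ih h (by omega), zero_mul]
    · have hk : k = 2 * p / 3 := by omega
      rw [hk, s1_fac2 hp, zero_div, mul_zero]

theorem cc_two (hp : 5 ≤ p) {k : ℕ} (h1 : 2 * p / 3 < k) (h2 : k < p) : Cg p 2 (cc ℚ_[p] k) 0 := by
  have hlt : p / 3 < 2 * p / 3 := by omega
  have hm1 : p / 3 ∈ range k := mem_range.2 (by omega)
  have hm2 : 2 * p / 3 ∈ (range k).erase (p / 3) :=
    mem_erase.2 ⟨by omega, mem_range.2 h1⟩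
  unfold cc
  rw [← mul_prod_erase _ _ hm1, ← mul_prod_erase _ _ hm2]
  have hA : Cg p 1 ((((p / 3 : ℕ) : ℚ_[p]) + 1 / 3) * (((p / 3 : ℕ) : ℚ_[p]) + 2 / 3) /
      (((p / 3 : ℕ) : ℚ_[p]) + 1) ^ 2) 0 := by
    rw [← rd_zero_iff]
    have h := s1_fac hp (i := p / 3) (by omega)
    rwa [s1_fac1 hp, zero_div] at h
  have hB : Cg p 1 ((((2 * p / 3 : ℕ) : ℚ_[p]) + 1 / 3) * (((2 * p / 3 : ℕ) : ℚ_[p]) + 2 / 3) /
      (((2 * p / 3 : ℕ) : ℚ_[p]) + 1) ^ 2) 0 := by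
    rw [← rd_zero_iff]
    have h := s1_fac hp (i := 2 * p / 3) (by omega)
    rwa [s1_fac2 hp, zero_div] at h
  have hC : In p (∏ x ∈ ((range k).erase (p / 3)).erase (2 * p / 3),
      (((x : ℚ_[p]) + 1 / 3) * ((x : ℚ_[p]) + 2 / 3) / ((x : ℚ_[p]) + 1) ^ 2)) := by
    refine In.prod fun i hi => (s1_fac hp ?_).in
    have := mem_range.1 (mem_of_mem_erase (mem_of_mem_erase hi))
    omega
  obtain ⟨u, hu⟩ := hA
  obtain ⟨v, hv⟩ := hB
  obtain ⟨w, hw⟩ := hC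
  refine ⟨u * v * w, ?_⟩
  rw [sub_zero] at hu hv ⊢
  rw [hu, hv, ← hw]
  push_cast
  ring

end SCong
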