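import Pool.Agent.Lib.MP_0a3b9a_nt.S1

/-!
Module S1B: reduction of the sums `HH`, `GG`, `TH`, `TG` (polynomial evaluation, Rd.sum, cc_red, gg_red) and
the explicit formulas for `cc`, `gg` in characteristic zero (induction on k; har (3k+3) = har (3k) + three terms).
-/

namespace SCong
open Finset Polynomial
variable {p : ℕ} [Fact p.Prime]

theorem s1b_eval {R : Type*} [CommRing R] (n : ℕ) (f : ℕ → R) (a : R) :
    (∑ k ∈ range n, C (f k) * X ^ k : R[X]).eval a = ∑ k ∈ range n, f k * a ^ k := by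
  simp [Polynomial.eval_finset_sum]

theorem s1b_deriv {R : Type*} [CommRing R] (n : ℕ) (f : ℕ → R) (a : R) :
    (X * derivative (∑ k ∈ range n, C (f k) * X ^ k : R[X])).eval a =
      ∑ k ∈ range n, (k : R) * f k * a ^ k := by
  rw [Polynomial.eval_mul, Polynomial.eval_X, Polynomial.derivative_sum,
    Polynomial.eval_finset_sum, Finset.mul_sum]
  apply Finset.sum_congr rfl
  intro k _
  rw [Polynomial.derivative_C_mul_X_pow, Polynomial.eval_mul, Polynomial.eval_C,
    Polynomial.eval_pow, Polynomial.eval_X]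
  cases k with
  | zero => simp
  | succ k =>
    rw [Nat.add_sub_cancel, pow_succ]
    ring

theorem HH_red (hp : 5 ≤ p) {z : ℚ_[p]} {a : ZMod p} (h : Rd p z a) : Rd p (HH p z) ((Hp p).eval a) := by
  unfold HH Hp
  rw [s1b_eval]
  exact Rd.sum fun k hk => (cc_red hp (mem_range.1 hk)).mul (h.pow k)

theorem GG_red (hp : 5 ≤ p) {z : ℚ_[p]} {a : ZMod p} (h : Rd p z a) : Rd p (GG p z) ((Gp p).eval a) := by
  unfold GG Gp
  rw [s1b_eval]
  exact Rd.sum fun k hk => (gg_red hp (mem_range.1 hk)).mul (h.pow k)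

theorem TH_red (hp : 5 ≤ p) {z : ℚ_[p]} {a : ZMod p} (h : Rd p z a) :
    Rd p (TH p z) ((X * derivative (Hp p)).eval a) := by
  unfold TH Hp
  rw [s1b_deriv]
  exact Rd.sum fun k hk => ((Rd.nat k).mul (cc_red hp (mem_range.1 hk))).mul (h.pow k)

theorem TG_red (hp : 5 ≤ p) {z : ℚ_[p]} {a : ZMod p} (h : Rd p z a) :
    Rd p (TG p z) ((X * derivative (Gp p)).eval a) := by
  unfold TG Gp
  rw [s1b_deriv]
  exact Rd.sum fun k hk => ((Rd.nat k).mul (gg_red hp (mem_range.1 hk))).mul (h.pow k)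

theorem s1b_cc_succ (K : Type*) [Field K] (k : ℕ) :
    cc K (k + 1) = cc K k * (((k : K) + 1 / 3) * ((k : K) + 2 / 3) / ((k : K) + 1) ^ 2) := by
  unfold cc
  rw [prod_range_succ]

theorem cc_fact (K : Type*) [Field K] [CharZero K] (k : ℕ) :
    cc K k * 27 ^ k * (k.factorial : K) ^ 3 = ((3 * k).factorial : K) := by
  induction k with
  | zero => simp [cc]
  | succ k ih =>
    have h1 : (k : K) + 1 ≠ 0 := by exact_mod_cast Nat.succ_ne_zero k
    have h2 : 3 * (k + 1) = 3 * k + 1 + 1 + 1 := by ring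
    rw [s1b_cc_succ, h2, Nat.factorial_succ, Nat.factorial_succ, Nat.factorial_succ,
      Nat.factorial_succ]
    push_cast
    rw [← ih]
    field_simp
    ring

theorem gg_har (K : Type*) [Field K] [CharZero K] (k : ℕ) :
    gg K k = cc K k * (3 * (har K (3 * k) - har K k)) := by
  induction k with
  | zero => simp [gg, har]
  | succ k ih =>
    have h1 : (k : K) + 1 ≠ 0 := by exact_mod_cast Nat.succ_ne_zero k
    have h3 : (3 : K) * k + 1 ≠ 0 := by exact_mod_cast Nat.succ_ne_zero (3 * k)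
    have h4 : (3 : K) * k + 1 + 1 ≠ 0 := by exact_mod_cast Nat.succ_ne_zero (3 * k + 1)
    have h5 : (3 : K) * k + 1 + 1 + 1 ≠ 0 := by exact_mod_cast Nat.succ_ne_zero (3 * k + 1 + 1)
    have h2 : 3 * (k + 1) = 3 * k + 1 + 1 + 1 := by ring
    have h6 : har K (3 * (k + 1)) = har K (3 * k) + ((3 : K) * k + 1)⁻¹ + ((3 : K) * k + 1 + 1)⁻¹ +
        ((3 : K) * k + 1 + 1 + 1)⁻¹ := by
      unfold har
      rw [h2, sum_range_succ, sum_range_succ, sum_range_succ]
      push_cast
      ring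
    have h7 : har K (k + 1) = har K k + ((k : K) + 1)⁻¹ := by
      unfold har
      rw [sum_range_succ]
    have h8 : (3 : K) * k + 1 + 1 + 1 = 3 * (k + 1) := by ring
    rw [h6, h7, s1b_cc_succ, gg, ih, h8]
    field_simp
    ring

end SCong
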