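import Pool.Agent.Lib.MP_0a3b9a_nt.Basic

/-!
Module S2: functions of `s` which are affine modulo `p^2` on the class of `s0` modulo `p`.
LN.mul: f s g s ≡ (f0 + (s-s0) d)(g0 + (s-s0) e) ≡ f0 g0 + (s-s0)(d g0 + f0 e), as (s-s0)^2 ≡ 0 mod p^2.
LN.interp: l1 f(s1) + l2 f(s2) ≡ (l1+l2) f0 + (l1(s1-s0) + l2(s2-s0)) d.
LN_aa: each factor (i(i+1) - s)/(i+1)^2, i < k < p, is affine in s with integral coefficients.
-/

namespace SCong
open Finset Polynomial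
variable {p : ℕ} [Fact p.Prime]

/-- affine modulo `p^2` on the class of `s0` modulo `p`. -/
def LN (p : ℕ) [Fact p.Prime] (s0 : ℚ_[p]) (f : ℚ_[p] → ℚ_[p]) : Prop :=
  In p (f s0) ∧ ∃ d, In p d ∧ ∀ s, Cg p 1 s s0 → Cg p 2 (f s) (f s0 + (s - s0) * d)

variable {s0 : ℚ_[p]} {f g : ℚ_[p] → ℚ_[p]}

theorem S2_in_sub {s s0 : ℚ_[p]} (h : Cg p 1 s s0) : In p (s - s0) := by
  obtain ⟨w, hw⟩ := h
  rw [hw]
  exact ((In.nat p).pow 1).mul (In.coe w)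

theorem LN.const {c : ℚ_[p]} (hc : In p c) : LN p s0 (fun _ => c) :=
  ⟨hc, 0, In.zero, fun s _ => Cg.of_eq (by ring)⟩

theorem LN.add (hf : LN p s0 f) (hg : LN p s0 g) : LN p s0 (fun s => f s + g s) := by
  obtain ⟨hf0, d, hd, h1⟩ := hf
  obtain ⟨hg0, e, he, h2⟩ := hg
  refine ⟨hf0.add hg0, d + e, hd.add he, fun s hs => ?_⟩
  refine ((h1 s hs).add (h2 s hs)).trans (Cg.of_eq ?_)
  ring

theorem LN.mul (hf : LN p s0 f) (hg : LN p s0 g) : LN p s0 (fun s => f s * g s) := by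
  obtain ⟨hf0, d, hd, h1⟩ := hf
  obtain ⟨hg0, e, he, h2⟩ := hg
  refine ⟨hf0.mul hg0, d * g s0 + f s0 * e, (hd.mul hg0).add (hf0.mul he), fun s hs => ?_⟩
  have hi := S2_in_sub hs
  have i1 : In p (f s0 + (s - s0) * d) := hf0.add (hi.mul hd)
  have i2 : In p (g s0 + (s - s0) * e) := hg0.add (hi.mul he)
  refine ((h1 s hs).mul (h2 s hs) ((h2 s hs).in i2) i1).trans ?_
  obtain ⟨w, hw⟩ := hs
  obtain ⟨d', rfl⟩ := hd
  obtain ⟨e', rfl⟩ := he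
  refine ⟨w ^ 2 * d' * e', ?_⟩
  push_cast
  rw [hw]
  ring

theorem LN.sub (hf : LN p s0 f) (hg : LN p s0 g) : LN p s0 (fun s => f s - g s) := by
  obtain ⟨hf0, d, hd, h1⟩ := hf
  obtain ⟨hg0, e, he, h2⟩ := hg
  refine ⟨hf0.sub hg0, d - e, hd.sub he, fun s hs => ?_⟩
  refine ((h1 s hs).sub (h2 s hs)).trans (Cg.of_eq ?_)
  ring

theorem LN.sum {ι : Type*} {t : Finset ι} {F : ι → ℚ_[p] → ℚ_[p]} (h : ∀ i ∈ t, LN p s0 (F i)) :
    LN p s0 (fun s => ∑ i ∈ t, F i s) := by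
  classical
  induction t using Finset.induction_on with
  | empty => simpa using LN.const (s0 := s0) (In.zero (p := p))
  | insert i t hi ih =>
    have h1 := (h i (mem_insert_self _ _)).add (ih fun j hj => h j (mem_insert_of_mem hj))
    have : (fun s => ∑ j ∈ insert i t, F j s) = fun s => F i s + ∑ j ∈ t, F j s := by
      funext s; rw [sum_insert hi]
    rw [this]; exact h1

theorem LN.prod {ι : Type*} {t : Finset ι} {F : ι → ℚ_[p] → ℚ_[p]} (h : ∀ i ∈ t, LN p s0 (F i)) :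
    LN p s0 (fun s => ∏ i ∈ t, F i s) := by
  classical
  induction t using Finset.induction_on with
  | empty => simpa using LN.const (s0 := s0) (In.one (p := p))
  | insert i t hi ih =>
    have h1 := (h i (mem_insert_self _ _)).mul (ih fun j hj => h j (mem_insert_of_mem hj))
    have : (fun s => ∏ j ∈ insert i t, F j s) = fun s => F i s * ∏ j ∈ t, F j s := by
      funext s; rw [prod_insert hi]
    rw [this]; exact h1

theorem LN.interp {s1 s2 l1 l2 : ℚ_[p]} (hf : LN p s0 f) (h1 : Cg p 1 s1 s0) (h2 : Cg p 1 s2 s0)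
    (hl1 : In p l1) (hl2 : In p l2) (hl : l1 + l2 = 1)
    (h : Cg p 2 (l1 * (s1 - s0) + l2 * (s2 - s0)) 0) : Cg p 2 (l1 * f s1 + l2 * f s2) (f s0) := by
  obtain ⟨hf0, d, hd, hh⟩ := hf
  have e1 := (hh s1 h1).mul_left hl1
  have e2 := (hh s2 h2).mul_left hl2
  refine (e1.add e2).trans ?_
  have e3 := h.mul_right hd
  have e4 := (Cg.refl 2 (f s0)).add e3
  refine (Cg.of_eq ?_).trans (e4.trans (Cg.of_eq ?_))
  · linear_combination (f s0) * hl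
  · ring

/-- an affine function with integral coefficients. -/
theorem S2_affine {u v : ℚ_[p]} (hs : In p s0) (hu : In p u) (hv : In p v) :
    LN p s0 (fun s => u + s * v) :=
  ⟨hu.add (hs.mul hv), v, hv, fun s _ => Cg.of_eq (by ring)⟩

theorem S2_inv {i k : ℕ} (hi : i < k) (hk : k < p) : In p ((((i : ℚ_[p]) + 1) ^ 2)⁻¹) := by
  have h : ¬ p ∣ i + 1 := small_not_dvd (by omega)
  have h1 : In p ((((i + 1 : ℕ) : ℚ_[p]))⁻¹) := In.inv_nat h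
  have h2 := h1.pow 2
  rw [inv_pow] at h2
  push_cast at h2
  exact h2

theorem S2_inv2 (hp : 5 ≤ p) : In p ((2 : ℚ_[p])⁻¹) := by
  have h : ¬ p ∣ 2 := fun h => absurd (Nat.le_of_dvd (by norm_num) h) (by omega)
  simpa using In.inv_nat (p := p) h

theorem LN_aa (hp : 5 ≤ p) {k : ℕ} (hk : k < p) (hs : In p s0) : LN p s0 (fun s => aa s k) := by
  have _ := hp
  unfold aa
  refine LN.prod fun i hi => ?_
  have h1 := S2_inv (mem_range.1 hi) hk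
  have e : (fun s : ℚ_[p] => ((i : ℚ_[p]) * ((i : ℚ_[p]) + 1) - s) / ((i : ℚ_[p]) + 1) ^ 2) =
      fun s => (i : ℚ_[p]) * ((i : ℚ_[p]) + 1) * (((i : ℚ_[p]) + 1) ^ 2)⁻¹ +
        s * (-(((i : ℚ_[p]) + 1) ^ 2)⁻¹) := by
    funext s; rw [div_eq_mul_inv]; ring
  rw [e]
  exact S2_affine hs (((In.nat i).mul ((In.nat i).add In.one)).mul h1) h1.neg

theorem LN_bb (hp : 5 ≤ p) {k : ℕ} (hk : k < p) (hs : In p s0) : LN p s0 (fun s => bb s k) := by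
  unfold bb
  refine LN.prod fun i hi => ?_
  have h1 := S2_inv (mem_range.1 hi) hk
  have h2 := S2_inv2 hp
  have e : (fun s : ℚ_[p] => ((i : ℚ_[p]) ^ 2 + (i : ℚ_[p]) / 2 - s / 4) / ((i : ℚ_[p]) + 1) ^ 2) =
      fun s => ((i : ℚ_[p]) ^ 2 + (i : ℚ_[p]) * 2⁻¹) * (((i : ℚ_[p]) + 1) ^ 2)⁻¹ +
        s * (-((2⁻¹) ^ 2 * (((i : ℚ_[p]) + 1) ^ 2)⁻¹)) := by
    funext s; rw [div_eq_mul_inv]; ring
  rw [e]
  exact S2_affine hs ((((In.nat i).pow 2).add ((In.nat i).mul h2)).mul h1) ((h2.pow 2).mul h1).neg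

theorem LN_ee (hp : 5 ≤ p) {k : ℕ} (hk : k < p) (hs : In p s0) : LN p s0 (fun s => ee s k) := by
  unfold ee
  refine LN.prod fun i hi => ?_
  have h1 := S2_inv (mem_range.1 hi) hk
  have h2 := S2_inv2 hp
  have e : (fun s : ℚ_[p] => ((i : ℚ_[p]) ^ 2 + 3 * (i : ℚ_[p]) / 2 + (2 - s) / 4) /
      ((i : ℚ_[p]) + 1) ^ 2) =
      fun s => ((i : ℚ_[p]) ^ 2 + (3 : ℕ) * (i : ℚ_[p]) * 2⁻¹ + 2⁻¹) * (((i : ℚ_[p]) + 1) ^ 2)⁻¹ +
        s * (-((2⁻¹) ^ 2 * (((i : ℚ_[p]) + 1) ^ 2)⁻¹)) := by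
    funext s; rw [div_eq_mul_inv]; push_cast; ring
  rw [e]
  exact S2_affine hs (((((In.nat i).pow 2).add (((In.nat 3).mul (In.nat i)).mul h2)).add h2).mul h1)
    ((h2.pow 2).mul h1).neg

end SCong
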