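import Pool.Agent.Lib.MP_0a3b9a_nt.Defs

/-!
Module S3: quadratic transformation of the Legendre polynomials, n = 2m (even), n = 2m+1 (odd), s = n(n+1).
Let y(z) be the right side as a polynomial in z (K char 0).  With f = sum bb_k x^k: (k+1)^2 bb_{k+1} = (k^2+k/2-s/4) bb_k, so
x(1-x) f'' + (1 - 3x/2) f' + (s/4) f = 0 (all k: bb_k = 0 for k > m, since k^2+k/2-s/4 = (k-m)(k+m+1/2)); hence for y = f(4z(1-z)) (Polynomial.derivative_comp):
z(1-z) y'' + (1-2z) y' + s y = 0.  Comparing coefficients: (k+1)^2 y_{k+1} = (k(k+1) - s) y_k, y_0 = 1, so y_k = aa s k (and aa s k = 0 for k > 2m).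
Odd case: g = sum ee_k x^k: (k+1)^2 ee_{k+1} = (k^2+3k/2+(2-s)/4) ee_k = (k-m)(k+m+3/2) ee_k, x(1-x) g'' + (1 - 5x/2) g' - ((2-s)/4) g = 0, and y = (1-2z) g(4z(1-z)) satisfies the same equation
z(1-z) y'' + (1-2z) y' + s y = 0.  (Any other proof is fine, for example the equation for formal sums.)
-/

namespace SCong
open Finset Polynomial

section S3aux

variable {K : Type*} [Field K] [CharZero K]

/-- coefficients of the hypergeometric operator. -/
private lemma hyp_coeff (P : K[X]) (a b : K) (k : ℕ) :
    (X * (1 - X) * derivative (derivative P) + (1 - C (1 + a) * X) * derivative P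
      - C b * P).coeff k =
      ((k : K) + 1) ^ 2 * P.coeff (k + 1) - ((k : K) ^ 2 + a * k + b) * P.coeff k := by
  have e : X * (1 - X) * derivative (derivative P) + (1 - C (1 + a) * X) * derivative P
      - C b * P = X * derivative (derivative P) - X * (X * derivative (derivative P))
        + derivative P - C (1 + a) * (X * derivative P) - C b * P := by ring
  rw [e]
  rcases k with _ | _ | k
  · simp only [coeff_sub, coeff_add, coeff_C_mul, coeff_X_mul_zero, coeff_derivative]
    push_cast
    ring
  · simp only [coeff_sub, coeff_add, coeff_C_mul, coeff_X_mul, coeff_X_mul_zero, coeff_derivative]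
    push_cast
    ring
  · simp only [coeff_sub, coeff_add, coeff_C_mul, coeff_X_mul, coeff_derivative]
    push_cast
    ring

private lemma hyp_zero (P : K[X]) (a b : K)
    (h : ∀ k : ℕ, ((k : K) + 1) ^ 2 * P.coeff (k + 1) = ((k : K) ^ 2 + a * k + b) * P.coeff k) :
    X * (1 - X) * derivative (derivative P) + (1 - C (1 + a) * X) * derivative P
      - C b * P = 0 := by
  ext k
  rw [hyp_coeff, h, sub_self, coeff_zero]

private lemma coeff_sum_range (c : ℕ → K) (M : ℕ) (hc : ∀ k, M ≤ k → c k = 0) (n : ℕ) :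
    (∑ k ∈ range M, C (c k) * X ^ k : K[X]).coeff n = c n := by
  rw [finsetSum_coeff]
  simp only [coeff_C_mul, coeff_X_pow, mul_ite, mul_one, mul_zero]
  rw [Finset.sum_ite_eq]
  split_ifs with h
  · rfl
  · rw [Finset.mem_range, not_lt] at h
    exact (hc n h).symm

/-- a product vanishing at one factor. -/
private lemma prod_zero_of (c : ℕ → K) (m k : ℕ) (hm : c m = 0) (h : m < k) :
    ∏ i ∈ range k, c i = 0 :=
  Finset.prod_eq_zero (Finset.mem_range.mpr h) hm

private lemma eval_of_ode (Y : K[X]) (s : K) (n N : ℕ) (hs : s = (n : K) * ((n : K) + 1))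
    (hN : n < N) (h0 : Y.coeff 0 = 1)
    (hY : X * (1 - X) * derivative (derivative Y) + (1 - C (1 + 1) * X) * derivative Y
      - C (-s) * Y = 0) (z : K) :
    ∑ k ∈ range N, aa s k * z ^ k = Y.eval z := by
  have hrec : ∀ k : ℕ, ((k : K) + 1) ^ 2 * Y.coeff (k + 1) =
      ((k : K) ^ 2 + 1 * k + -s) * Y.coeff k := by
    intro k
    have := congrArg (fun P : K[X] => P.coeff k) hY
    simp only [coeff_zero] at this
    rw [hyp_coeff] at this
    exact sub_eq_zero.mp this
  have hco : ∀ k, Y.coeff k = aa s k := by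
    intro k
    induction k with
    | zero => rw [h0]; simp [aa]
    | succ k ih =>
      have h1 : ((k : K) + 1) ^ 2 ≠ 0 := by
        have : ((k : K) + 1) ≠ 0 := Nat.cast_add_one_ne_zero k
        positivity
      have h2 : aa s (k + 1) = aa s k * (((k : K) * ((k : K) + 1) - s) / ((k : K) + 1) ^ 2) := by
        simp only [aa]
        rw [Finset.prod_range_succ]
      rw [h2, ← ih]
      have h3 := hrec k
      field_simp
      linear_combination h3
  have hzero : ∀ k, n < k → aa s k = 0 := by
    intro k hk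
    apply prod_zero_of (fun i : ℕ => ((i : K) * ((i : K) + 1) - s) / ((i : K) + 1) ^ 2) n k _ hk
    simp [hs]
  have hdeg : Y.degree < (N : WithBot ℕ) := by
    rw [degree_lt_iff_coeff_zero]
    intro k hk
    rw [hco]
    exact hzero k (by omega)
  by_cases hY0 : Y = 0
  · rw [hY0] at h0
    simp at h0
  have hnat : Y.natDegree < N := (natDegree_lt_iff_degree_lt hY0).mpr hdeg
  rw [eval_eq_sum_range' hnat]
  exact Finset.sum_congr rfl fun k _ => by rw [hco]

end S3aux

theorem leg_even {K : Type*} [Field K] [CharZero K] (m N M : ℕ) (hN : 2 * m < N) (hM : m < M) (z : K) :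
    ∑ k ∈ range N, aa ((2 * (m : K)) * (2 * (m : K) + 1)) k * z ^ k =
      ∑ k ∈ range M, bb ((2 * (m : K)) * (2 * (m : K) + 1)) k * (4 * z * (1 - z)) ^ k := by
  set s : K := (2 * (m : K)) * (2 * (m : K) + 1) with hs
  set f : K[X] := ∑ k ∈ range M, C (bb s k) * X ^ k with hf
  have hb0 : ∀ k, M ≤ k → bb s k = 0 := by
    intro k hk
    apply prod_zero_of (fun i : ℕ => ((i : K) ^ 2 + (i : K) / 2 - s / 4) / ((i : K) + 1) ^ 2) m k _
      (by omega)
    have : (m : K) ^ 2 + (m : K) / 2 - s / 4 = 0 := by rw [hs]; ring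
    simp [this]
  have hfc : ∀ k, f.coeff k = bb s k := coeff_sum_range _ M hb0
  have hode := hyp_zero f (1 / 2) (-(s / 4)) (by
    intro k
    rw [hfc, hfc]
    have h1 : ((k : K) + 1) ≠ 0 := Nat.cast_add_one_ne_zero k
    have h2 : bb s (k + 1) = bb s k *
        (((k : K) ^ 2 + (k : K) / 2 - s / 4) / ((k : K) + 1) ^ 2) := by
      simp only [bb]
      rw [Finset.prod_range_succ]
    rw [h2]
    field_simp
    ring)
  set q : K[X] := 4 * X * (1 - X) with hq
  set Y : K[X] := f.comp q with hY
  have hdq : derivative q = 4 - 8 * X := by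
    rw [hq]
    have : (4 * X * (1 - X) : K[X]) = C 4 * X - C 4 * X ^ 2 := by
      rw [show (C 4 : K[X]) = 4 from rfl]; ring
    rw [this]
    simp only [derivative_sub, derivative_C_mul_X, derivative_C_mul, derivative_X_sq]
    rw [derivative_X, show (C 4 : K[X]) = 4 from rfl, show (C 2 : K[X]) = 2 from rfl]
    ring
  have hd1 : derivative Y = (derivative f).comp q * (4 - 8 * X) := by
    rw [hY, derivative_comp, hdq, mul_comm]
  have hd8 : derivative (4 - 8 * X : K[X]) = -8 := by
    have : (4 - 8 * X : K[X]) = C 4 - C 8 * X := rfl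
    rw [this]
    simp only [derivative_sub, derivative_C, derivative_C_mul_X]
    rw [show (C 8 : K[X]) = 8 from rfl]
    ring
  have hd2 : derivative (derivative Y) =
      (derivative (derivative f)).comp q * (4 - 8 * X) ^ 2 - 8 * (derivative f).comp q := by
    rw [hd1, derivative_mul, derivative_comp, hdq, hd8]
    ring
  have hode2 := congrArg (fun P : K[X] => P.comp q) hode
  simp only [sub_comp, add_comp, mul_comp, X_comp, one_comp, C_comp, zero_comp] at hode2
  have key : X * (1 - X) * derivative (derivative Y) + (1 - C (1 + 1) * X) * derivative Y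
      - C (-s) * Y = 0 := by
    rw [hd2, hd1, hY]
    have hC1 : (C (1 + 1 / 2 : K) : K[X]) * 2 = 3 := by
      rw [show (2 : K[X]) = C 2 from rfl, ← C_mul, show ((1 + 1 / 2 : K) * 2) = 3 by ring]
      rfl
    have hC2 : (C (1 + 1 : K) : K[X]) = 2 := by
      rw [show (1 + 1 : K) = 2 by ring]
      rfl
    have hC3 : (C (-s) : K[X]) = 4 * C (-(s / 4)) := by
      rw [show (4 : K[X]) = C 4 from rfl, ← C_mul]
      congr 1
      ring
    rw [hC2, hC3]
    have hqq : q = 4 * X * (1 - X) := hq
    generalize hA : (derivative (derivative f)).comp q = A at *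
    generalize hB : (derivative f).comp q = B at *
    generalize hD : f.comp q = D at *
    rw [hqq] at hode2
    linear_combination 4 * hode2 + 8 * X * (1 - X) * B * hC1
  have h0 : Y.coeff 0 = 1 := by
    rw [coeff_zero_eq_eval_zero, hY, eval_comp, hq]
    have : eval 0 (4 * X * (1 - X) : K[X]) = 0 := by simp
    rw [this, ← coeff_zero_eq_eval_zero f, hfc]
    simp [bb]
  have hmain := eval_of_ode Y s (2 * m) N (by rw [hs]; push_cast; ring) hN h0 key z
  rw [hmain, hY, eval_comp]
  have hqe : eval z q = 4 * z * (1 - z) := by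
    rw [hq]
    simp
  rw [hqe, hf, eval_finsetSum]
  simp

theorem leg_odd {K : Type*} [Field K] [CharZero K] (m N M : ℕ) (hN : 2 * m + 1 < N) (hM : m < M) (z : K) :
    ∑ k ∈ range N, aa ((2 * (m : K) + 1) * (2 * (m : K) + 2)) k * z ^ k =
      (1 - 2 * z) * ∑ k ∈ range M, ee ((2 * (m : K) + 1) * (2 * (m : K) + 2)) k * (4 * z * (1 - z)) ^ k := by
  set s : K := (2 * (m : K) + 1) * (2 * (m : K) + 2) with hs
  set f : K[X] := ∑ k ∈ range M, C (ee s k) * X ^ k with hf
  have hb0 : ∀ k, M ≤ k → ee s k = 0 := by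
    intro k hk
    apply prod_zero_of (fun i : ℕ => ((i : K) ^ 2 + 3 * (i : K) / 2 + (2 - s) / 4) /
      ((i : K) + 1) ^ 2) m k _ (by omega)
    have : (m : K) ^ 2 + 3 * (m : K) / 2 + (2 - s) / 4 = 0 := by rw [hs]; ring
    simp [this]
  have hfc : ∀ k, f.coeff k = ee s k := coeff_sum_range _ M hb0
  have hode := hyp_zero f (3 / 2) ((2 - s) / 4) (by
    intro k
    rw [hfc, hfc]
    have h1 : ((k : K) + 1) ≠ 0 := Nat.cast_add_one_ne_zero k
    have h2 : ee s (k + 1) = ee s k *
        (((k : K) ^ 2 + 3 * (k : K) / 2 + (2 - s) / 4) / ((k : K) + 1) ^ 2) := by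
      simp only [ee]
      rw [Finset.prod_range_succ]
    rw [h2]
    field_simp)
  set q : K[X] := 4 * X * (1 - X) with hq
  set Y : K[X] := (1 - 2 * X) * f.comp q with hY
  have hdq : derivative q = 4 - 8 * X := by
    rw [hq]
    have : (4 * X * (1 - X) : K[X]) = C 4 * X - C 4 * X ^ 2 := by
      rw [show (C 4 : K[X]) = 4 from rfl]; ring
    rw [this]
    simp only [derivative_sub, derivative_C_mul_X, derivative_C_mul, derivative_X_sq]
    rw [derivative_X, show (C 4 : K[X]) = 4 from rfl, show (C 2 : K[X]) = 2 from rfl]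
    ring
  have hd2X : derivative (1 - 2 * X : K[X]) = -2 := by
    have : (1 - 2 * X : K[X]) = 1 - C 2 * X := rfl
    rw [this]
    simp only [derivative_sub, derivative_one, derivative_C_mul_X]
    rw [show (C 2 : K[X]) = 2 from rfl]
    ring
  have hdD : derivative (f.comp q) = (derivative f).comp q * (4 - 8 * X) := by
    rw [derivative_comp, hdq, mul_comm]
  have hdB : derivative ((derivative f).comp q) = (derivative (derivative f)).comp q *
      (4 - 8 * X) := by
    rw [derivative_comp, hdq, mul_comm]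
  have hd1 : derivative Y = -2 * f.comp q + 4 * (1 - q) * (derivative f).comp q := by
    rw [hY, derivative_mul, hdD, hd2X, hq]
    ring
  have hd1q : derivative (1 - q : K[X]) = -(4 - 8 * X) := by
    rw [derivative_sub, derivative_one, hdq]
    ring
  have hd2 : derivative (derivative Y) =
      (4 - 8 * X) * (-6 * (derivative f).comp q +
        4 * (1 - q) * (derivative (derivative f)).comp q) := by
    have e1 : derivative Y = C (-2) * f.comp q + C 4 * ((1 - q) * (derivative f).comp q) := by
      rw [hd1]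
      rw [show (C (-2) : K[X]) = -2 by rw [C_neg]; rfl, show (C 4 : K[X]) = 4 from rfl]
      ring
    rw [e1, derivative_add, derivative_C_mul, derivative_C_mul, derivative_mul, hdD, hdB, hd1q,
      show (C (-2) : K[X]) = -2 by rw [C_neg]; rfl, show (C 4 : K[X]) = 4 from rfl]
    ring
  have hode2 := congrArg (fun P : K[X] => P.comp q) hode
  simp only [sub_comp, add_comp, mul_comp, X_comp, one_comp, C_comp, zero_comp] at hode2
  have key : X * (1 - X) * derivative (derivative Y) + (1 - C (1 + 1) * X) * derivative Y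
      - C (-s) * Y = 0 := by
    rw [hd2, hd1, hY]
    have hC1 : (C (1 + 3 / 2 : K) : K[X]) * 2 = 5 := by
      rw [show (2 : K[X]) = C 2 from rfl, ← C_mul, show ((1 + 3 / 2 : K) * 2) = 5 by ring]
      rfl
    have hC2 : (C (1 + 1 : K) : K[X]) = 2 := by
      rw [show (1 + 1 : K) = 2 by ring]
      rfl
    have hC3 : (C (-s) : K[X]) = 4 * C ((2 - s) / 4) - 2 := by
      rw [show (4 : K[X]) = C 4 from rfl, ← C_mul, show (2 : K[X]) = C 2 from rfl, ← C_sub]
      congr 1
      ring
    rw [hC2, hC3]
    have hqq : q = 4 * X * (1 - X) := hq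
    generalize hA : (derivative (derivative f)).comp q = A at *
    generalize hB : (derivative f).comp q = B at *
    generalize hD : f.comp q = D at *
    rw [hqq] at hode2 ⊢
    linear_combination 4 * (1 - 2 * X) * hode2 + 8 * (1 - 2 * X) * X * (1 - X) * B * hC1
  have h0 : Y.coeff 0 = 1 := by
    rw [coeff_zero_eq_eval_zero, hY, eval_mul, eval_comp, hq]
    have : eval 0 (4 * X * (1 - X) : K[X]) = 0 := by simp
    rw [this, ← coeff_zero_eq_eval_zero f, hfc]
    simp [ee]
  have hmain := eval_of_ode Y s (2 * m + 1) N (by rw [hs]; push_cast; ring) hN h0 key z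
  rw [hmain, hY, eval_mul, eval_comp]
  have hqe : eval z q = 4 * z * (1 - z) := by
    rw [hq]
    simp
  rw [hqe, hf, eval_finsetSum]
  simp

end SCong
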