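import Pool.Agent.Lib.MP_0a3b9a_nt.S2
import Pool.Agent.Lib.MP_0a3b9a_nt.S3

/-!
Module S4: interpolation.  cc k = aa (-2/9) k, s1 k = bb (-2/9) k, s2 k = ee (-2/9) k (factor by factor).
p % 3 = 1 (so p % 6 = 1): D(s) = sum_{k<p} aa s k z^k - sum_{k<p} bb s k (4z(1-z))^k is LN at s0 = -2/9; it vanishes at s = n(n+1), n = (p-1)/3 = 2m and n = (2p-2)/3 = 2m' (leg_even, N = M = p).
s1 - s0 = (p^2+p)/9, s2 - s0 = (4p^2-2p)/9, l1 = 2/3, l2 = 1/3, l1(s1-s0)+l2(s2-s0) = 2p^2/9.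
p % 3 = 2 (p % 6 = 5): the same with ee, (1-2z), n = (p-2)/3 = 2m+1, s1 - s0 = (p^2-p)/9, n = (2p-1)/3 = 2m'+1, s2 - s0 = (4p^2+2p)/9, leg_odd.
-/

namespace SCong
open Finset Polynomial
variable {p : ℕ} [Fact p.Prime]

theorem cc_eq_aa (K : Type*) [Field K] [CharZero K] (k : ℕ) : cc K k = aa (-2 / 9 : K) k := by
  unfold cc aa
  refine prod_congr rfl fun i _ => ?_
  congr 1; ring

theorem s1_eq_bb (K : Type*) [Field K] [CharZero K] (k : ℕ) : s1 K k = bb (-2 / 9 : K) k := by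
  unfold s1 bb
  refine prod_congr rfl fun i _ => ?_
  congr 1; ring

theorem s2_eq_ee (K : Type*) [Field K] [CharZero K] (k : ℕ) : s2 K k = ee (-2 / 9 : K) k := by
  unfold s2 ee
  refine prod_congr rfl fun i _ => ?_
  congr 1; ring

theorem S4_third (hp : 5 ≤ p) : In p ((3 : ℚ_[p])⁻¹) := by
  have h : ¬ p ∣ 3 := fun h => absurd (Nat.le_of_dvd (by norm_num) h) (by omega)
  simpa using In.inv_nat (p := p) h

theorem S4_odd (hp : 5 ≤ p) : p % 2 = 1 :=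
  ((Fact.out : p.Prime).eq_two_or_odd).resolve_left (by omega)

theorem S4_s0 (hp : 5 ≤ p) : In p (-2 / 9 : ℚ_[p]) := by
  have h := S4_third hp
  have : (-2 / 9 : ℚ_[p]) = -(((2 : ℕ) : ℚ_[p]) * (3⁻¹ * 3⁻¹)) := by push_cast; ring
  rw [this]
  exact ((In.nat 2).mul (h.mul h)).neg

/-- a multiple of `p / 9` is divisible by `p`. -/
theorem S4_cg1 (hp : 5 ≤ p) {s u : ℚ_[p]} (hu : In p u) (h : s - (-2 / 9) = p * u / 9) :
    Cg p 1 s (-2 / 9) := by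
  have h3 := S4_third hp
  obtain ⟨w, hw⟩ := hu.mul (h3.mul h3)
  refine ⟨w, ?_⟩
  rw [h, hw]; ring

theorem S4_cg2 (hp : 5 ≤ p) {t : ℚ_[p]} (h : t = 2 * (p : ℚ_[p]) ^ 2 / 9) : Cg p 2 t 0 := by
  have h3 := S4_third hp
  obtain ⟨w, hw⟩ := (In.nat (p := p) 2).mul (h3.mul h3)
  refine ⟨w, ?_⟩
  rw [h, hw]; push_cast; ring

theorem A1_one (hp : 5 ≤ p) (h3 : p % 3 = 1) {z : ℚ_[p]} (hz : In p z) :
    Cg p 2 (HH p z) (SS1 p (4 * z * (1 - z))) := by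
  have hodd := S4_odd hp
  obtain ⟨m, hm⟩ : ∃ m, p = 6 * m + 1 := ⟨p / 6, by omega⟩
  have hmq : (p : ℚ_[p]) = 6 * (m : ℚ_[p]) + 1 := by exact_mod_cast congrArg (fun t : ℕ => (t : ℚ_[p])) hm
  have hx : In p (4 * z * (1 - z)) := by
    have : (4 * z * (1 - z)) = ((4 : ℕ) : ℚ_[p]) * z * (1 - z) := by push_cast; ring
    rw [this]; exact ((In.nat 4).mul hz).mul (In.one.sub hz)
  have hs0 := S4_s0 hp
  have hD : LN p (-2 / 9) (fun s => ∑ k ∈ range p, aa s k * z ^ k -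
      ∑ k ∈ range p, bb s k * (4 * z * (1 - z)) ^ k) := by
    refine LN.sub (LN.sum fun k hk => ?_) (LN.sum fun k hk => ?_)
    · exact (LN_aa hp (mem_range.1 hk) hs0).mul (LN.const (hz.pow k))
    · exact (LN_bb hp (mem_range.1 hk) hs0).mul (LN.const (hx.pow k))
  have h3i := S4_third hp
  have key := hD.interp (s1 := (2 * (m : ℚ_[p])) * (2 * (m : ℚ_[p]) + 1))
    (s2 := (2 * ((2 * m : ℕ) : ℚ_[p])) * (2 * ((2 * m : ℕ) : ℚ_[p]) + 1))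
    (l1 := ((2 : ℕ) : ℚ_[p]) * 3⁻¹) (l2 := 3⁻¹)
    (S4_cg1 hp (u := (p : ℚ_[p]) + 1) ((In.nat p).add In.one) (by rw [hmq]; ring))
    (S4_cg1 hp (u := ((4 : ℕ) : ℚ_[p]) * p - ((2 : ℕ) : ℚ_[p]))
      (((In.nat 4).mul (In.nat p)).sub (In.nat 2)) (by push_cast; rw [hmq]; ring))
    ((In.nat 2).mul h3i) h3i (by push_cast; norm_num)
    (S4_cg2 hp (by push_cast; rw [hmq]; ring))
  have z1 := leg_even (K := ℚ_[p]) m p p (by omega) (by omega) z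
  have z2 := leg_even (K := ℚ_[p]) (2 * m) p p (by omega) (by omega) z
  rw [z1, z2, sub_self, sub_self, mul_zero, mul_zero, add_zero] at key
  have e1 : HH p z = ∑ k ∈ range p, aa (-2 / 9 : ℚ_[p]) k * z ^ k := by
    unfold HH; simp only [cc_eq_aa]
  have e2 : SS1 p (4 * z * (1 - z)) = ∑ k ∈ range p, bb (-2 / 9 : ℚ_[p]) k * (4 * z * (1 - z)) ^ k := by
    unfold SS1; simp only [s1_eq_bb]
  rw [cg_iff_sub, e1, e2]
  exact key.symm

theorem A1_two (hp : 5 ≤ p) (h3 : p % 3 = 2) {z : ℚ_[p]} (hz : In p z) :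
    Cg p 2 (HH p z) ((1 - 2 * z) * SS2 p (4 * z * (1 - z))) := by
  have hodd := S4_odd hp
  obtain ⟨m, hm⟩ : ∃ m, p = 6 * m + 5 := ⟨p / 6, by omega⟩
  have hmq : (p : ℚ_[p]) = 6 * (m : ℚ_[p]) + 5 := by exact_mod_cast congrArg (fun t : ℕ => (t : ℚ_[p])) hm
  have hx : In p (4 * z * (1 - z)) := by
    have : (4 * z * (1 - z)) = ((4 : ℕ) : ℚ_[p]) * z * (1 - z) := by push_cast; ring
    rw [this]; exact ((In.nat 4).mul hz).mul (In.one.sub hz)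
  have hl : In p (1 - 2 * z) := by
    have : (1 - 2 * z) = 1 - ((2 : ℕ) : ℚ_[p]) * z := by push_cast; ring
    rw [this]; exact In.one.sub ((In.nat 2).mul hz)
  have hs0 := S4_s0 hp
  have hD : LN p (-2 / 9) (fun s => ∑ k ∈ range p, aa s k * z ^ k -
      (1 - 2 * z) * ∑ k ∈ range p, ee s k * (4 * z * (1 - z)) ^ k) := by
    refine LN.sub (LN.sum fun k hk => ?_) ((LN.const hl).mul (LN.sum fun k hk => ?_))
    · exact (LN_aa hp (mem_range.1 hk) hs0).mul (LN.const (hz.pow k))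
    · exact (LN_ee hp (mem_range.1 hk) hs0).mul (LN.const (hx.pow k))
  have h3i := S4_third hp
  have key := hD.interp (s1 := (2 * (m : ℚ_[p]) + 1) * (2 * (m : ℚ_[p]) + 2))
    (s2 := (2 * ((2 * m + 1 : ℕ) : ℚ_[p]) + 1) * (2 * ((2 * m + 1 : ℕ) : ℚ_[p]) + 2))
    (l1 := ((2 : ℕ) : ℚ_[p]) * 3⁻¹) (l2 := 3⁻¹)
    (S4_cg1 hp (u := (p : ℚ_[p]) - 1) ((In.nat p).sub In.one) (by rw [hmq]; ring))
    (S4_cg1 hp (u := ((4 : ℕ) : ℚ_[p]) * p + ((2 : ℕ) : ℚ_[p]))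
      (((In.nat 4).mul (In.nat p)).add (In.nat 2)) (by push_cast; rw [hmq]; ring))
    ((In.nat 2).mul h3i) h3i (by push_cast; norm_num)
    (S4_cg2 hp (by push_cast; rw [hmq]; ring))
  have z1 := leg_odd (K := ℚ_[p]) m p p (by omega) (by omega) z
  have z2 := leg_odd (K := ℚ_[p]) (2 * m + 1) p p (by omega) (by omega) z
  rw [z1, z2, sub_self, sub_self, mul_zero, mul_zero, add_zero] at key
  have e1 : HH p z = ∑ k ∈ range p, aa (-2 / 9 : ℚ_[p]) k * z ^ k := by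
    unfold HH; simp only [cc_eq_aa]
  have e2 : SS2 p (4 * z * (1 - z)) = ∑ k ∈ range p, ee (-2 / 9 : ℚ_[p]) k * (4 * z * (1 - z)) ^ k := by
    unfold SS2; simp only [s2_eq_ee]
  rw [cg_iff_sub, e1, e2]
  exact key.symm

end SCong
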