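import Pool.Agent.Lib.MP_0a3b9a_nt.S1

/-!
Module S5.  Induction on j (j + 1 < p): the factor of index j at (s, shift p) is
  ((p+j)(p+j+1) - s)/(p+j+1)^2 ≡ f_j + p φ_j - (s+2/9)/(j+1)^2  mod p^2,
f_j = (j+1/3)(j+2/3)/(j+1)^2, φ_j = (2j+1)/(j+1)^2 - 2(j+1/3)(j+2/3)/(j+1)^3 (as in gg), because (s+2/9) p ≡ p^2 ≡ 0 and
1/(p+j+1)^2 ≡ 1/(j+1)^2 - 2p/(j+1)^3.  d_0 = 0, d_{j+1} = d_j f_j - cc j/(j+1)^2.
-/

namespace SCong
open Finset Polynomial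
variable {p : ℕ} [Fact p.Prime]

theorem S5_of_in {n : ℕ} {x y z : ℚ_[p]} (hy : In p y) (h : x - z = (p : ℚ_[p]) ^ n * y) : Cg p n x z := by
  obtain ⟨w, rfl⟩ := hy
  exact ⟨w, h⟩

/-- the coefficient of `s + 2/9`. -/
noncomputable def S5_d (p : ℕ) [Fact p.Prime] : ℕ → ℚ_[p]
  | 0 => 0
  | j + 1 => S5_d p j * (((j : ℚ_[p]) + 1 / 3) * ((j : ℚ_[p]) + 2 / 3) / ((j : ℚ_[p]) + 1) ^ 2) -
      cc ℚ_[p] j / ((j : ℚ_[p]) + 1) ^ 2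

theorem S5_third (hp : 5 ≤ p) : In p (1 / 3 : ℚ_[p]) ∧ In p (2 / 3 : ℚ_[p]) := by
  have h3 : ¬ p ∣ 3 := fun h => absurd (Nat.le_of_dvd (by norm_num) h) (by omega)
  have h := In.inv_nat (p := p) h3
  constructor
  · have := In.one.mul h
    rw [one_div]; push_cast at this; rwa [one_mul] at this
  · have := (In.nat 2).mul h
    push_cast at this
    rwa [← div_eq_mul_inv] at this

theorem S5_inv {j : ℕ} (hj : j + 1 < p) : In p (((j : ℚ_[p]) + 1)⁻¹) := by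
  have := In.inv_nat (p := p) (small_not_dvd hj)
  push_cast at this; exact this

theorem S5_rd (j : ℕ) : Rd p ((p : ℚ_[p]) + j + 1) ((j : ZMod p) + 1) := by
  have h1 : Rd p (p : ℚ_[p]) 0 := by have := Rd.nat (p := p) p; simpa using this
  have h2 := (h1.add (Rd.nat (p := p) j)).add Rd.one
  simpa using h2

theorem S5_f (hp : 5 ≤ p) {j : ℕ} (hj : j + 1 < p) :
    In p (((j : ℚ_[p]) + 1 / 3) * ((j : ℚ_[p]) + 2 / 3) / ((j : ℚ_[p]) + 1) ^ 2) := by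
  have h1 := ((In.nat (p := p) j).add (S5_third hp).1).mul ((In.nat (p := p) j).add (S5_third hp).2)
  have h2 := (S5_inv (p := p) hj).pow 2
  have h3 := h1.mul h2
  rwa [inv_pow, ← div_eq_mul_inv] at h3

theorem S5_d_in (hp : 5 ≤ p) : ∀ j, j < p → In p (S5_d p j) := by
  intro j
  induction j with
  | zero => intro _; exact In.zero
  | succ j ih =>
    intro hj
    have h1 := (ih (by omega)).mul (S5_f hp hj)
    have h2 := (cc_red hp (by omega : j < p)).in.mul ((S5_inv (p := p) hj).pow 2)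
    have h3 := h1.sub h2
    show In p (S5_d p j * (((j : ℚ_[p]) + 1 / 3) * ((j : ℚ_[p]) + 2 / 3) / ((j : ℚ_[p]) + 1) ^ 2) -
      cc ℚ_[p] j / ((j : ℚ_[p]) + 1) ^ 2)
    rwa [inv_pow, ← div_eq_mul_inv] at h3

/-- the factor. -/
theorem S5_factor (hp : 5 ≤ p) {j : ℕ} (hj : j + 1 < p) {s : ℚ_[p]} (hs : Cg p 1 s (-2 / 9)) :
    Cg p 2 ((((p : ℚ_[p]) + j) * ((p : ℚ_[p]) + j + 1) - s) / ((p : ℚ_[p]) + j + 1) ^ 2)
      (((j : ℚ_[p]) + 1 / 3) * ((j : ℚ_[p]) + 2 / 3) / ((j : ℚ_[p]) + 1) ^ 2 +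
        p * ((2 * (j : ℚ_[p]) + 1) / ((j : ℚ_[p]) + 1) ^ 2 -
          2 * (((j : ℚ_[p]) + 1 / 3) * ((j : ℚ_[p]) + 2 / 3)) / ((j : ℚ_[p]) + 1) ^ 3) -
        (s + 2 / 9) / ((j : ℚ_[p]) + 1) ^ 2) := by
  obtain ⟨τ, hτ⟩ := hs
  have hs' : s = -2 / 9 + p * τ := by rw [pow_one] at hτ; linear_combination hτ
  have hs'' : s + 2 / 9 = p * τ := by rw [hs']; ring
  have hjne : ((j : ZMod p) + 1) ≠ 0 := succ_ne hj
  have ha0 : ((j : ℚ_[p]) + 1) ≠ 0 := (Rd.succ (p := p) j).ne_zero hjne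
  have hb0 : ((p : ℚ_[p]) + j + 1) ≠ 0 := (S5_rd (p := p) j).ne_zero hjne
  have hIa : In p (((j : ℚ_[p]) + 1)⁻¹) := S5_inv hj
  have hIb : In p (((p : ℚ_[p]) + j + 1)⁻¹) := ((S5_rd (p := p) j).inv hjne).in
  have hnum : ((p : ℚ_[p]) + j) * ((p : ℚ_[p]) + j + 1) - s =
      p ^ 2 + p * (2 * j + 1) + ((j : ℚ_[p]) + 1 / 3) * ((j : ℚ_[p]) + 2 / 3) - p * τ := by
    rw [hs']; ring
  rw [hnum, hs'']
  have hg : In p (((j : ℚ_[p]) + 1 / 3) * ((j : ℚ_[p]) + 2 / 3)) :=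
    ((In.nat (p := p) j).add (S5_third hp).1).mul ((In.nat (p := p) j).add (S5_third hp).2)
  set g := ((j : ℚ_[p]) + 1 / 3) * ((j : ℚ_[p]) + 2 / 3) with hgdef
  have hJ : In p (j : ℚ_[p]) := In.nat j
  have hP : In p (p : ℚ_[p]) := In.nat p
  have h2 : In p (2 : ℚ_[p]) := by exact_mod_cast In.nat (p := p) 2
  have h3 : In p (3 : ℚ_[p]) := by exact_mod_cast In.nat (p := p) 3
  have hT : In p (τ : ℚ_[p]) := In.coe τ
  have hN : In p ((p : ℚ_[p]) ^ 2 + p * (2 * j + 1) + g - p * τ) :=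
    (((hP.pow 2).add (hP.mul ((h2.mul hJ).add In.one))).add hg).sub (hP.mul hT)
  have hw : In p ((3 * ((j : ℚ_[p]) + 1) + 2 * p) * (((j : ℚ_[p]) + 1)⁻¹ ^ 3 * ((p : ℚ_[p]) + j + 1)⁻¹ ^ 2)) :=
    ((h3.mul (hJ.add In.one)).add (h2.mul hP)).mul ((hIa.pow 3).mul (hIb.pow 2))
  refine S5_of_in ((((hN.mul hw).add (hIa.pow 2)).sub ((h2.mul hP).mul (hIa.pow 3))).sub
      ((h2.mul ((h2.mul hJ).add In.one)).mul (hIa.pow 3)) |>.add ((h2.mul hT).mul (hIa.pow 3))) ?_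
  clear_value g
  field_simp
  ring

theorem lin_prod (hp : 5 ≤ p) : ∃ d : ℕ → ℚ_[p], (∀ j, j < p → In p (d j)) ∧
    ∀ s : ℚ_[p], Cg p 1 s (-2 / 9) → ∀ j, j < p →
      Cg p 2 (∏ i ∈ range j, ((((p : ℚ_[p]) + i) * ((p : ℚ_[p]) + i + 1) - s) / ((p : ℚ_[p]) + i + 1) ^ 2))
        (cc ℚ_[p] j + p * gg ℚ_[p] j + (s + 2 / 9) * d j) := by
  refine ⟨S5_d p, S5_d_in hp, ?_⟩
  intro s hs j
  induction j with
  | zero => intro _; simp [cc, gg, S5_d, Cg.refl]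
  | succ j ih =>
    intro hj
    have hI := ih (by omega)
    have hF := S5_factor hp hj hs
    have hcc := (cc_red hp (by omega : j < p)).in
    have hgg := (gg_red hp (by omega : j < p)).in
    have hd := S5_d_in hp j (by omega)
    have hP : In p (p : ℚ_[p]) := In.nat p
    have hIa : In p (((j : ℚ_[p]) + 1)⁻¹) := S5_inv hj
    have hJ : In p (j : ℚ_[p]) := In.nat j
    have h2 : In p (2 : ℚ_[p]) := by exact_mod_cast In.nat (p := p) 2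
    obtain ⟨τ, hτ⟩ := hs
    have hs'' : s + 2 / 9 = p * τ := by rw [pow_one] at hτ; linear_combination hτ
    have hT : In p (τ : ℚ_[p]) := In.coe τ
    rw [prod_range_succ]
    have ef : cc ℚ_[p] (j + 1) = cc ℚ_[p] j * (((j : ℚ_[p]) + 1 / 3) * ((j : ℚ_[p]) + 2 / 3) / ((j : ℚ_[p]) + 1) ^ 2) := by
      unfold cc; rw [prod_range_succ]
    have eg : gg ℚ_[p] (j + 1) = gg ℚ_[p] j * (((j : ℚ_[p]) + 1 / 3) * ((j : ℚ_[p]) + 2 / 3) / ((j : ℚ_[p]) + 1) ^ 2) +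
      cc ℚ_[p] j * ((2 * (j : ℚ_[p]) + 1) / ((j : ℚ_[p]) + 1) ^ 2 -
        2 * (((j : ℚ_[p]) + 1 / 3) * ((j : ℚ_[p]) + 2 / 3)) / ((j : ℚ_[p]) + 1) ^ 3) := rfl
    have ed : S5_d p (j + 1) = S5_d p j * (((j : ℚ_[p]) + 1 / 3) * ((j : ℚ_[p]) + 2 / 3) / ((j : ℚ_[p]) + 1) ^ 2) -
      cc ℚ_[p] j / ((j : ℚ_[p]) + 1) ^ 2 := rfl
    have hf := S5_f hp hj
    have hg3 : In p (((j : ℚ_[p]) + 1 / 3) * ((j : ℚ_[p]) + 2 / 3)) :=
      ((In.nat (p := p) j).add (S5_third hp).1).mul ((In.nat (p := p) j).add (S5_third hp).2)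
    have hφ : In p ((2 * (j : ℚ_[p]) + 1) / ((j : ℚ_[p]) + 1) ^ 2 -
        2 * (((j : ℚ_[p]) + 1 / 3) * ((j : ℚ_[p]) + 2 / 3)) / ((j : ℚ_[p]) + 1) ^ 3) := by
      have h3 := (((h2.mul hJ).add In.one).mul (hIa.pow 2)).sub ((h2.mul hg3).mul (hIa.pow 3))
      simpa only [div_eq_mul_inv, inv_pow] using h3
    have ha2 : In p ((((j : ℚ_[p]) + 1) ^ 2)⁻¹) := by have := hIa.pow 2; rwa [inv_pow] at this
    rw [hs''] at hF hI
    rw [hs'']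
    rw [ef, eg, ed]
    rw [div_eq_mul_inv (p * (τ : ℚ_[p]))] at hF
    rw [div_eq_mul_inv (cc ℚ_[p] j)]
    generalize ((j : ℚ_[p]) + 1 / 3) * ((j : ℚ_[p]) + 2 / 3) / ((j : ℚ_[p]) + 1) ^ 2 = f at hF hf ⊢
    generalize ((2 * (j : ℚ_[p]) + 1) / ((j : ℚ_[p]) + 1) ^ 2 -
        2 * (((j : ℚ_[p]) + 1 / 3) * ((j : ℚ_[p]) + 2 / 3)) / ((j : ℚ_[p]) + 1) ^ 3) = φ at hF hφ ⊢
    generalize (((j : ℚ_[p]) + 1) ^ 2)⁻¹ = b at hF ha2 ⊢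
    have hB : In p (f + p * φ - p * τ * b) := (hf.add (hP.mul hφ)).sub ((hP.mul hT).mul ha2)
    have hA : In p (cc ℚ_[p] j + p * gg ℚ_[p] j + p * τ * S5_d p j) :=
      (hcc.add (hP.mul hgg)).add ((hP.mul hT).mul hd)
    refine (hI.mul hF (hF.in hB) hA).trans ?_
    refine S5_of_in ((((hgg.mul hφ).sub ((hT.mul hgg).mul ha2)).add ((hT.mul hd).mul hφ)).sub
        (((hT.mul hT).mul hd).mul ha2)) ?_
    ring

end SCong
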