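import Pool.Agent.Lib.MP_0a3b9a_nt.Basic

/-!
Module S6.  With n = a + p: aa (n(n+1)) p = prod_{i<p} (i-n)(i+n+1)/(i+1)^2 = (-1)^p C(a+p,p) C(a+2p,p) = - C(2p,p) prod_{i=1}^a (1 + 2p/i)
(p odd), and C(2p,p) ≡ 2 mod p^2 (C(2p,p) = sum C(p,i)^2), prod (1+2p/i) ≡ 1 + 2p har a mod p^2.
har_red: Rd.sum with Rd.succ, succ_ne.
-/

namespace SCong
open Finset Polynomial
variable {p : ℕ} [Fact p.Prime]

theorem har_red (hp : 5 ≤ p) {a : ℕ} (ha : a < p) : Rd p (har ℚ_[p] a) (har (ZMod p) a) := by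
  unfold har
  refine Rd.sum fun i hi => ?_
  have hi' : i + 1 < p := by have := mem_range.1 hi; omega
  exact (Rd.succ i).inv (succ_ne hi')

theorem S6_prod (hp : 5 ≤ p) {a : ℕ} (ha : a < p) :
    Cg p 2 (∏ i ∈ range a, (1 + 2 * (p : ℚ_[p]) * ((i : ℚ_[p]) + 1)⁻¹)) (1 + 2 * p * har ℚ_[p] a) := by
  induction a with
  | zero => simp [har]; exact Cg.refl _ _
  | succ a ih =>
    have h1 := ih (by omega)
    have h2 : In p (((a : ℚ_[p]) + 1)⁻¹) := ((Rd.succ a).inv (succ_ne (by omega))).in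
    have h3 : In p (har ℚ_[p] a) := (har_red hp (by omega)).in
    rw [prod_range_succ]
    have h4 : In p (1 + 2 * (p : ℚ_[p]) * ((a : ℚ_[p]) + 1)⁻¹) := by
      have := In.one.add (((In.nat (p := p) 2).mul (In.nat p)).mul h2)
      simpa using this
    refine (h1.mul_right h4).trans ?_
    have e : har ℚ_[p] (a + 1) = har ℚ_[p] a + ((a : ℚ_[p]) + 1)⁻¹ := by
      simp [har, sum_range_succ]
    rw [e]
    obtain ⟨u, hu⟩ := h2
    obtain ⟨v, hv⟩ := h3
    refine ⟨(v + v) * (u + u), ?_⟩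
    push_cast
    rw [hu, hv]
    ring

theorem S6_choose (hp : 5 ≤ p) : Cg p 2 (((2 * p).choose p : ℕ) : ℚ_[p]) 2 := by
  have hpp : p.Prime := Fact.out
  have h1 : (2 * p).choose p = ∑ i ∈ range (p + 1), (p.choose i) ^ 2 := by
    rw [← Nat.sum_range_choose_sq]
  have h1' : ∑ i ∈ range p, (p.choose i) ^ 2 = (∑ i ∈ range (p - 1), (p.choose (i + 1)) ^ 2) + (p.choose 0) ^ 2 := by
    rw [← sum_range_succ' (fun i => (p.choose i) ^ 2), Nat.sub_add_cancel (by omega)]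
  rw [h1, sum_range_succ, h1']
  simp only [Nat.choose_zero_right, Nat.choose_self]
  push_cast
  have h2 : Cg p 2 (∑ i ∈ range (p - 1), ((p.choose (i + 1) : ℕ) : ℚ_[p]) ^ 2) 0 := by
    have : Cg p 2 (∑ i ∈ range (p - 1), ((p.choose (i + 1) : ℕ) : ℚ_[p]) ^ 2)
        (∑ i ∈ range (p - 1), 0) := by
      refine Cg.sum fun i hi => ?_
      have hi' := mem_range.1 hi
      obtain ⟨c, hc⟩ := hpp.dvd_choose_self (k := i + 1) (by omega) (by omega)
      rw [hc]
      refine ⟨(c : ℤ_[p]) ^ 2, ?_⟩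
      push_cast
      ring
    simpa using this
  have h3 := (h2.add (Cg.refl 2 (1 : ℚ_[p]))).add (Cg.refl 2 (1 : ℚ_[p]))
  refine (Cg.of_eq ?_).trans (h3.trans (Cg.of_eq (by norm_num)))
  norm_num

theorem S6_id (hp : 5 ≤ p) {a : ℕ} (ha : a < p) :
    aa (((a : ℚ_[p]) + p) * ((a : ℚ_[p]) + p + 1)) p =
      -(((2 * p).choose p : ℕ) : ℚ_[p]) * ∏ i ∈ range a, (1 + 2 * (p : ℚ_[p]) * ((i : ℚ_[p]) + 1)⁻¹) := by
  have hpp : p.Prime := Fact.out
  have hodd : Odd p := hpp.odd_of_ne_two (by omega)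
  have hf : ∀ k : ℕ, (k.factorial : ℚ_[p]) = ∏ i ∈ range k, ((i : ℚ_[p]) + 1) := by
    intro k
    rw [← Finset.prod_range_add_one_eq_factorial]; push_cast; rfl
  have h0 : ∀ k : ℕ, (k.factorial : ℚ_[p]) ≠ 0 := fun k => by exact_mod_cast Nat.factorial_ne_zero k
  have hA : ∏ i ∈ range p, ((a : ℚ_[p]) + p - i) = ((a + p).factorial : ℚ_[p]) / (a.factorial : ℚ_[p]) := by
    rw [eq_div_iff (h0 a)]
    have := Nat.factorial_mul_descFactorial (n := a + p) (k := p) (by omega)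
    rw [Nat.add_sub_cancel, Nat.descFactorial_eq_prod_range] at this
    rw [← this, mul_comm]
    push_cast
    congr 1
    refine prod_congr rfl fun i hi => ?_
    rw [Nat.cast_sub (by have := mem_range.1 hi; omega)]
    push_cast; ring
  have hB : ∏ i ∈ range p, ((a : ℚ_[p]) + p + 1 + i) = ((a + p + p).factorial : ℚ_[p]) / ((a + p).factorial : ℚ_[p]) := by
    rw [eq_div_iff (h0 _)]
    have := Nat.factorial_mul_ascFactorial (a + p) p
    rw [Nat.ascFactorial_eq_prod_range] at this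
    rw [← this, mul_comm]
    push_cast
    rfl
  have hC : ∏ i ∈ range a, (1 + 2 * (p : ℚ_[p]) * ((i : ℚ_[p]) + 1)⁻¹) =
      ((a + p + p).factorial : ℚ_[p]) / ((2 * p).factorial : ℚ_[p]) / (a.factorial : ℚ_[p]) := by
    rw [eq_div_iff (h0 _), eq_div_iff (h0 _)]
    have := Nat.factorial_mul_ascFactorial (2 * p) a
    rw [Nat.ascFactorial_eq_prod_range] at this
    rw [show a + p + p = 2 * p + a from by ring, ← this, hf a, ← prod_mul_distrib, mul_comm]
    push_cast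
    congr 1
    refine prod_congr rfl fun i hi => ?_
    have : ((i : ℚ_[p]) + 1) ≠ 0 := by exact_mod_cast Nat.succ_ne_zero i
    field_simp
    ring
  have hD : (((2 * p).choose p : ℕ) : ℚ_[p]) = ((2 * p).factorial : ℚ_[p]) / (p.factorial : ℚ_[p]) ^ 2 := by
    rw [eq_div_iff (pow_ne_zero _ (h0 p))]
    have := Nat.choose_mul_factorial_mul_factorial (n := 2 * p) (k := p) (by omega)
    rw [show 2 * p - p = p from by omega] at this
    rw [← this]; push_cast; ring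
  unfold aa
  rw [prod_div_distrib, prod_pow, ← hf p, hC, hD]
  have hE : ∏ i ∈ range p, ((i : ℚ_[p]) * ((i : ℚ_[p]) + 1) - ((a : ℚ_[p]) + p) * ((a : ℚ_[p]) + p + 1)) =
      - ((∏ i ∈ range p, ((a : ℚ_[p]) + p - i)) * (∏ i ∈ range p, ((a : ℚ_[p]) + p + 1 + i))) := by
    rw [← prod_mul_distrib]
    have : (-1 : ℚ_[p]) = ∏ i ∈ range p, (-1 : ℚ_[p]) := by
      rw [prod_const, card_range, hodd.neg_one_pow]
    rw [neg_eq_neg_one_mul, this, ← prod_mul_distrib]
    refine prod_congr rfl fun i _ => ?_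
    ring
  rw [hE, hA, hB]
  have := h0 a
  have := h0 p
  have := h0 (a + p)
  have := h0 (2 * p)
  field_simp

theorem aa_p (hp : 5 ≤ p) {a : ℕ} (ha : a < p) :
    Cg p 2 (aa (((a : ℚ_[p]) + p) * ((a : ℚ_[p]) + p + 1)) p) (-2 * (1 + 2 * p * har ℚ_[p] a)) := by
  rw [S6_id hp ha]
  have h1 := (S6_choose (p := p) hp).neg
  have h2 := S6_prod hp ha
  refine (h1.mul h2 ?_ ?_).trans (Cg.of_eq (by ring))
  · refine h2.in ?_
    have h3 : In p (har ℚ_[p] a) := (har_red hp (by omega)).in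
    have := In.one.add (((In.nat (p := p) 2).mul (In.nat p)).mul h3)
    simpa using this
  · have := (In.nat (p := p) 2).neg
    simpa using this

end SCong
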