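import Pool.Agent.Lib.MP_0a3b9a_nt.Basic

/-!
Module S7: Lerch's congruence.  For 1 <= k <= p-1 write 3k = r_k + p [3k/p] (r_k = 3k mod p, a permutation of 1..p-1).
3^(p-1) (p-1)! = prod (3k) = prod (r_k + p [3k/p]) ≡ (p-1)! (1 + p sum [3k/p]/r_k) mod p^2 and r_k ≡ 3k mod p, so in ZMod p
  fq 3 = (1/3) sum_{k=1}^{p-1} [3k/p]/k, and sum [3k/p]/k = sum_{k>p/3} 1/k + sum_{k>2p/3} 1/k = - har(p/3) - har(2p/3) (sum_{k=1}^{p-1} 1/k = 0)
  and har(p-1-k) = har k in ZMod p; (p-1) - p/3 = 2p/3.  So fq 3 = -(2/3) har(p/3).  fq 27 = 3 fq 3: 27^(p-1) = (1+p fq3)^3.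
-/

namespace SCong
open Finset Polynomial
variable {p : ℕ} [Fact p.Prime]

theorem fq27 (hp : 5 ≤ p) : (fq p 27 : ZMod p) = 3 * (fq p 3 : ZMod p) := by
  have hpp : p.Prime := Fact.out
  have h3 : ¬ p ∣ 3 := fun h => absurd (Nat.le_of_dvd (by norm_num) h) (by omega)
  have h27 : ¬ p ∣ 27 := by
    intro h
    rw [show 27 = 3 ^ 3 from by norm_num] at h
    exact h3 (hpp.dvd_of_dvd_pow h)
  have e1 := fq_spec hp h3
  have e2 := fq_spec hp h27
  have e3 : 27 ^ (p - 1) = (3 ^ (p - 1)) ^ 3 := by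
    rw [← pow_mul, mul_comm, pow_mul]; norm_num
  rw [e1, e2] at e3
  have e4 : p * fq p 27 = p * (3 * fq p 3 + p * (3 * fq p 3 ^ 2 + p * fq p 3 ^ 3)) := by
    have : 1 + p * fq p 27 = 1 + p * (3 * fq p 3 + p * (3 * fq p 3 ^ 2 + p * fq p 3 ^ 3)) := by
      rw [e3]; ring
    omega
  have e5 := Nat.eq_of_mul_eq_mul_left hpp.pos e4
  rw [e5]
  push_cast
  simp

theorem S7_har_aux (a : ℕ) (ha : a ≤ p - 1) :
    har (ZMod p) a + har (ZMod p) (p - 1) - har (ZMod p) (p - 1 - a) = 0 := by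
  have hpp : p.Prime := Fact.out
  have h1 : 1 ≤ p := hpp.one_lt.le
  induction a with
  | zero => simp [har]
  | succ a ih =>
    have h2 := ih (by omega)
    have e1 : har (ZMod p) (a + 1) = har (ZMod p) a + ((a : ZMod p) + 1)⁻¹ := by
      simp [har, sum_range_succ]
    have e2 : har (ZMod p) (p - 1 - a) = har (ZMod p) (p - 1 - (a + 1)) +
        (((p - 1 - (a + 1) : ℕ) : ZMod p) + 1)⁻¹ := by
      rw [show p - 1 - a = (p - 1 - (a + 1)) + 1 from by omega]
      simp [har, sum_range_succ]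
    have e3 : (((p - 1 - (a + 1) : ℕ) : ZMod p) + 1) = -((a : ZMod p) + 1) := by
      have : (p - 1 - (a + 1)) + 1 + (a + 1) = p := by omega
      have h := congrArg (fun t : ℕ => (t : ZMod p)) this
      simp only [Nat.cast_add, Nat.cast_one, CharP.cast_eq_zero] at h
      linear_combination h
    rw [e3, inv_neg] at e2
    rw [e1]
    linear_combination h2 + e2

theorem S7_har_full (hp : 5 ≤ p) : har (ZMod p) (p - 1) = 0 := by
  have h := S7_har_aux (p := p) (p - 1) le_rfl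
  rw [Nat.sub_self] at h
  have h2 : (2 : ZMod p) ≠ 0 := (ne_of_five hp).1
  have h3 : har (ZMod p) 0 = 0 := by simp [har]
  have h4 : (2 : ZMod p) * har (ZMod p) (p - 1) = 0 := by linear_combination h + h3
  exact (mul_eq_zero.1 h4).resolve_left h2

theorem S7_refl (hp : 5 ≤ p) (a : ℕ) (ha : a ≤ p - 1) : har (ZMod p) (p - 1 - a) = har (ZMod p) a := by
  have h := S7_har_aux (p := p) a ha
  rw [S7_har_full hp] at h
  linear_combination -h

theorem S7_cut {K : Type*} [AddCommGroup K] (f : ℕ → K) (c n : ℕ) (h : c ≤ n) :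
    ∑ i ∈ range n, (if c ≤ i then f i else 0) = ∑ i ∈ range n, f i - ∑ i ∈ range c, f i := by
  induction n, h using Nat.le_induction with
  | base =>
    rw [sub_self]
    refine sum_eq_zero fun i hi => if_neg ?_
    have := mem_range.1 hi
    omega
  | succ n hn ih =>
    rw [sum_range_succ, sum_range_succ, ih, if_pos hn]
    abel

theorem S7_third (hp : 5 ≤ p) : har (ZMod p) (2 * p / 3) = har (ZMod p) (p / 3) := by
  have hpp : p.Prime := Fact.out
  have h3 : ¬ 3 ∣ p := by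
    intro h
    have := (Nat.prime_dvd_prime_iff_eq (by norm_num) hpp).1 h
    omega
  rw [show 2 * p / 3 = p - 1 - p / 3 from by omega]
  exact S7_refl hp _ (by omega)

theorem S7_sum (hp : 5 ≤ p) : ∑ i ∈ range (p - 1), ((3 * (i + 1) / p : ℕ) : ZMod p) * ((i : ZMod p) + 1)⁻¹ =
    - 2 * har (ZMod p) (p / 3) := by
  have hpp : p.Prime := Fact.out
  have h3 : ¬ 3 ∣ p := by
    intro h
    have := (Nat.prime_dvd_prime_iff_eq (by norm_num) hpp).1 h
    omega
  have hq : ∀ i ∈ range (p - 1), ((3 * (i + 1) / p : ℕ) : ZMod p) * ((i : ZMod p) + 1)⁻¹ =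
      (if p / 3 ≤ i then ((i : ZMod p) + 1)⁻¹ else 0) + (if 2 * p / 3 ≤ i then ((i : ZMod p) + 1)⁻¹ else 0) := by
    intro i hi
    have hi' := mem_range.1 hi
    by_cases h1 : p / 3 ≤ i
    · by_cases h2 : 2 * p / 3 ≤ i
      · have : 3 * (i + 1) / p = 2 := by
          apply Nat.div_eq_of_lt_le <;> omega
        rw [this, if_pos h1, if_pos h2]
        push_cast; ring
      · have : 3 * (i + 1) / p = 1 := by
          apply Nat.div_eq_of_lt_le <;> omega
        rw [this, if_pos h1, if_neg h2]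
        push_cast; ring
    · have h2 : ¬ 2 * p / 3 ≤ i := by omega
      have : 3 * (i + 1) / p = 0 := by
        apply Nat.div_eq_of_lt; omega
      rw [this, if_neg h1, if_neg h2]
      push_cast; ring
  rw [sum_congr rfl hq, sum_add_distrib, S7_cut _ _ _ (by omega), S7_cut _ _ _ (by omega)]
  have e := S7_har_full (p := p) hp
  have e2 := S7_third (p := p) hp
  unfold har at e e2 ⊢
  rw [e, e2]
  ring

theorem S7_prod (hp : 5 ≤ p) (n : ℕ) (hn : n ≤ p - 1) :
    Cg p 2 (∏ i ∈ range n, (((3 * (i + 1) % p : ℕ) : ℚ_[p]) + p * ((3 * (i + 1) / p : ℕ) : ℚ_[p])))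
      ((∏ i ∈ range n, ((3 * (i + 1) % p : ℕ) : ℚ_[p])) *
        (1 + p * ∑ i ∈ range n, ((3 * (i + 1) / p : ℕ) : ℚ_[p]) * (((3 * (i + 1) % p : ℕ) : ℚ_[p]))⁻¹)) := by
  have hpp : p.Prime := Fact.out
  have hnd : ∀ i, i < p - 1 → ¬ p ∣ 3 * (i + 1) % p := by
    intro i hi h
    have h1 : p ∣ 3 * (i + 1) := (Nat.dvd_mod_iff (dvd_refl p)).1 h
    rcases (hpp.dvd_mul).1 h1 with h2 | h2
    · exact absurd (Nat.le_of_dvd (by norm_num) h2) (by omega)
    · exact absurd (Nat.le_of_dvd (by omega) h2) (by omega)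
  induction n with
  | zero => simp; exact Cg.refl _ _
  | succ n ih =>
    have h1 := ih (by omega)
    have h2 := hnd n (by omega)
    have hne : ((3 * (n + 1) % p : ℕ) : ℚ_[p]) ≠ 0 := by
      intro h0
      apply h2
      have : 3 * (n + 1) % p = 0 := by exact_mod_cast h0
      rw [this]; exact dvd_zero p
    have hin : In p ((((3 * (n + 1) % p : ℕ) : ℚ_[p]))⁻¹) := In.inv_nat h2
    have hS : In p (∑ i ∈ range n, ((3 * (i + 1) / p : ℕ) : ℚ_[p]) * (((3 * (i + 1) % p : ℕ) : ℚ_[p]))⁻¹) := by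
      refine In.sum fun i hi => (In.nat _).mul (In.inv_nat (hnd i ?_))
      have := mem_range.1 hi; omega
    have hP : In p (∏ i ∈ range n, ((3 * (i + 1) % p : ℕ) : ℚ_[p])) := In.prod fun i _ => In.nat _
    rw [prod_range_succ, prod_range_succ, sum_range_succ]
    have hf : In p (((3 * (n + 1) % p : ℕ) : ℚ_[p]) + p * ((3 * (n + 1) / p : ℕ) : ℚ_[p])) :=
      (In.nat _).add ((In.nat _).mul (In.nat _))
    refine (h1.mul_right hf).trans ?_
    obtain ⟨u, hu⟩ := hS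
    obtain ⟨v, hv⟩ := hP
    refine ⟨v * u * ((3 * (n + 1) / p : ℕ) : ℤ_[p]), ?_⟩
    push_cast at hne hu hv ⊢
    rw [hu, hv]
    field_simp
    ring

theorem S7_perm (hp : 5 ≤ p) : ∏ i ∈ range (p - 1), (3 * (i + 1) % p) = ∏ i ∈ range (p - 1), (i + 1) := by
  have hpp : p.Prime := Fact.out
  have hnd : ∀ i, i < p - 1 → ¬ p ∣ 3 * (i + 1) := by
    intro i hi h1
    rcases (hpp.dvd_mul).1 h1 with h2 | h2
    · exact absurd (Nat.le_of_dvd (by norm_num) h2) (by omega)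
    · exact absurd (Nat.le_of_dvd (by omega) h2) (by omega)
  have hpos : ∀ i, i < p - 1 → 1 ≤ 3 * (i + 1) % p := by
    intro i hi
    rcases Nat.eq_zero_or_pos (3 * (i + 1) % p) with h | h
    · exact absurd (Nat.dvd_of_mod_eq_zero h) (hnd i hi)
    · exact h
  have hlt : ∀ i, 3 * (i + 1) % p < p := fun i => Nat.mod_lt _ hpp.pos
  have hmaps : ∀ i ∈ range (p - 1), 3 * (i + 1) % p - 1 ∈ range (p - 1) := by
    intro i hi
    have h1 := mem_range.1 hi
    have h2 := hpos i h1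
    have h3 := hlt i
    rw [mem_range]; omega
  have hinj : Set.InjOn (fun i => 3 * (i + 1) % p - 1) (range (p - 1) : Set ℕ) := by
    intro i hi j hj hij
    have hi' := mem_range.1 (mem_coe.1 hi)
    have hj' := mem_range.1 (mem_coe.1 hj)
    have h1 := hpos i hi'
    have h2 := hpos j hj'
    have h3 : 3 * (i + 1) % p = 3 * (j + 1) % p := by
      simp only at hij; omega
    have h4 : 3 * (i + 1) ≡ 3 * (j + 1) [MOD p] := h3
    have h5 : (i + 1) ≡ (j + 1) [MOD p] := by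
      refine Nat.ModEq.cancel_left_of_coprime ?_ h4
      have : Nat.Coprime p 3 := (Nat.coprime_primes hpp (by norm_num)).2 (by omega)
      exact this
    have h6 : (i + 1) % p = (j + 1) % p := h5
    rw [Nat.mod_eq_of_lt (by omega), Nat.mod_eq_of_lt (by omega)] at h6
    omega
  have hsurj : Set.SurjOn (fun i => 3 * (i + 1) % p - 1) (range (p - 1) : Set ℕ) (range (p - 1) : Set ℕ) :=
    Finset.surjOn_of_injOn_of_card_le _ (by intro i hi; exact hmaps i hi) hinj le_rfl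
  refine prod_nbij (fun i => 3 * (i + 1) % p - 1) hmaps hinj hsurj ?_
  intro i hi
  have := hpos i (mem_range.1 hi)
  omega

theorem lerch (hp : 5 ≤ p) : 2 * har (ZMod p) (p / 3) = -(fq p 27 : ZMod p) := by
  have hpp : p.Prime := Fact.out
  have h3 : ¬ p ∣ 3 := fun h => absurd (Nat.le_of_dvd (by norm_num) h) (by omega)
  have hnd : ∀ i, i < p - 1 → ¬ p ∣ 3 * (i + 1) % p := by
    intro i hi h
    have h1 : p ∣ 3 * (i + 1) := (Nat.dvd_mod_iff (dvd_refl p)).1 h
    rcases (hpp.dvd_mul).1 h1 with h2 | h2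
    · exact absurd (Nat.le_of_dvd (by norm_num) h2) (by omega)
    · exact absurd (Nat.le_of_dvd (by omega) h2) (by omega)
  have hA := S7_prod (p := p) hp (p - 1) le_rfl
  have e1 : ∏ i ∈ range (p - 1), (((3 * (i + 1) % p : ℕ) : ℚ_[p]) + p * ((3 * (i + 1) / p : ℕ) : ℚ_[p])) =
      (∏ i ∈ range (p - 1), ((i : ℚ_[p]) + 1)) * 3 ^ (p - 1) := by
    have hc : (3 : ℚ_[p]) ^ (p - 1) = ∏ i ∈ range (p - 1), (3 : ℚ_[p]) := by
      rw [prod_const, card_range]
    rw [hc, ← prod_mul_distrib]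
    refine prod_congr rfl fun i _ => ?_
    have := Nat.mod_add_div (3 * (i + 1)) p
    have h := congrArg (fun t : ℕ => (t : ℚ_[p])) this
    push_cast at h
    push_cast
    linear_combination h
  have e2 : ∏ i ∈ range (p - 1), ((3 * (i + 1) % p : ℕ) : ℚ_[p]) = ∏ i ∈ range (p - 1), ((i : ℚ_[p]) + 1) := by
    have := S7_perm (p := p) hp
    have h := congrArg (fun t : ℕ => (t : ℚ_[p])) this
    push_cast at h
    push_cast
    exact h
  rw [e1, e2] at hA
  have hfac : Rd p (∏ i ∈ range (p - 1), ((i : ℚ_[p]) + 1)) (∏ i ∈ range (p - 1), ((i : ZMod p) + 1)) :=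
    Rd.prod fun i _ => Rd.succ i
  have hfac0 : (∏ i ∈ range (p - 1), ((i : ZMod p) + 1)) ≠ 0 := by
    refine prod_ne_zero_iff.2 fun i hi => succ_ne ?_
    have := mem_range.1 hi; omega
  have hB := Cg.cancel hA hfac hfac0
  have e3 := fq_spec hp h3
  have e3' := congrArg (fun t : ℕ => (t : ℚ_[p])) e3
  push_cast at e3'
  rw [e3'] at hB
  have hC : Cg p 1 ((fq p 3 : ℕ) : ℚ_[p])
      (∑ i ∈ range (p - 1), ((3 * (i + 1) / p : ℕ) : ℚ_[p]) * (((3 * (i + 1) % p : ℕ) : ℚ_[p]))⁻¹) := by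
    apply Cg.of_pmul
    have := hB.sub (Cg.refl 2 (1 : ℚ_[p]))
    refine (Cg.of_eq ?_).trans (this.trans (Cg.of_eq ?_)) <;> ring
  have hD : Rd p (∑ i ∈ range (p - 1), ((3 * (i + 1) / p : ℕ) : ℚ_[p]) * (((3 * (i + 1) % p : ℕ) : ℚ_[p]))⁻¹)
      (∑ i ∈ range (p - 1), ((3 * (i + 1) / p : ℕ) : ZMod p) * (((3 * (i + 1) % p : ℕ) : ZMod p))⁻¹) := by
    refine Rd.sum fun i hi => (Rd.nat _).mul ((Rd.nat _).inv (nat_ne_zero (hnd i (mem_range.1 hi))))
  have hE := (Rd.cg_iff (Rd.nat (p := p) (fq p 3)) hD).1 hC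
  have h30 : (3 : ZMod p) ≠ 0 := (ne_of_five hp).2
  have hF : ∑ i ∈ range (p - 1), ((3 * (i + 1) / p : ℕ) : ZMod p) * (((3 * (i + 1) % p : ℕ) : ZMod p))⁻¹ =
      3⁻¹ * ∑ i ∈ range (p - 1), ((3 * (i + 1) / p : ℕ) : ZMod p) * ((i : ZMod p) + 1)⁻¹ := by
    rw [mul_sum]
    refine sum_congr rfl fun i _ => ?_
    rw [ZMod.natCast_mod]
    push_cast
    rw [mul_inv]
    ring
  rw [hF, S7_sum hp] at hE
  rw [fq27 hp, hE]
  field_simp
  try ring

theorem lerch2 (hp : 5 ≤ p) : 2 * har (ZMod p) (2 * p / 3) = -(fq p 27 : ZMod p) := by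
  rw [S7_third hp]; exact lerch hp

end SCong
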