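import Pool.Agent.Lib.MP_0a3b9a_nt.S4
import Pool.Agent.Lib.MP_0a3b9a_nt.S5
import Pool.Agent.Lib.MP_0a3b9a_nt.S6
import Pool.Agent.Lib.MP_0a3b9a_nt.S7

/-!
Module S8.  p % 3 = 1: D(s) = (1-2z) sum_{k<p} ee s k (4z(1-z))^k - sum_{k<p} aa s k z^k is LN at s0 = -2/9.
n1 = (4p-1)/3 = p + a1, a1 = p/3, n2 = (5p-2)/3 = p + a2, a2 = 2p/3 (both odd, n = 2m+1 with m < p); s1 - s0 = (16p^2+4p)/9, s2 - s0 = (25p^2-5p)/9, l1 = 5/9, l2 = 4/9.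
leg_odd (N = 2p, M = p): D(s_i) = sum_{k=p}^{2p-1} aa s_i k z^k = z^p aa s_i p sum_{j<p} (prod_{i<j} ((p+i)(p+i+1)-s)/(p+i+1)^2) z^j
 ≡ -2 (1 + 2p har a_i) z^p sum_j (cc j + p gg j + (s_i+2/9) d_j) z^j   (S5, S6), and 2 har a_i ≡ - fq 27 mod p (S7), so
 l1 D(s1) + l2 D(s2) ≡ -2(1 - p fq27) z^p (HH + p GG), the d_j terms cancel because l1(s1-s0)+l2(s2-s0) ≡ 0.
 So D(s0) = (1-2z) SS2 - HH ≡ -2 z^p (HH + p GG - p fq27 HH).
p % 3 = 2: D(s) = sum bb s k (4z(1-z))^k - sum aa s k z^k, n1 = (4p-2)/3 = p + a1, n2 = (5p-1)/3 = p + a2 (both even), s1 - s0 = (16p^2-4p)/9, s2 - s0 = (25p^2+5p)/9, same weights, leg_even.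
-/

namespace SCong
open Finset Polynomial
variable {p : ℕ} [Fact p.Prime]

theorem S8_HH (hp : 5 ≤ p) {z : ℚ_[p]} (hz : In p z) : In p (HH p z) :=
  In.sum fun k hk => ((cc_red hp (mem_range.1 hk)).in).mul (hz.pow k)

theorem S8_GG (hp : 5 ≤ p) {z : ℚ_[p]} (hz : In p z) : In p (GG p z) :=
  In.sum fun k hk => ((gg_red hp (mem_range.1 hk)).in).mul (hz.pow k)

/-- the tail for one value of `s`. -/
theorem S8_tail (hp : 5 ≤ p) {z s : ℚ_[p]} (hz : In p z) {a : ℕ} (ha : a < p)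
    (hs : s = ((a : ℚ_[p]) + p) * ((a : ℚ_[p]) + p + 1)) (hl : 2 * har (ZMod p) a = -(fq p 27 : ZMod p))
    {d : ℕ → ℚ_[p]} (hd : ∀ j, j < p → In p (d j))
    (hprod : ∀ j, j < p →
      Cg p 2 (∏ i ∈ range j, ((((p : ℚ_[p]) + i) * ((p : ℚ_[p]) + i + 1) - s) / ((p : ℚ_[p]) + i + 1) ^ 2))
        (cc ℚ_[p] j + p * gg ℚ_[p] j + (s + 2 / 9) * d j)) (hsi : In p (s + 2 / 9)) :
    Cg p 2 (∑ k ∈ Ico p (2 * p), aa s k * z ^ k)
      (-2 * (1 - p * (fq p 27 : ℚ_[p])) * z ^ p *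
        (HH p z + p * GG p z + (s + 2 / 9) * ∑ j ∈ range p, d j * z ^ j)) := by
  have e1 : ∑ k ∈ Ico p (2 * p), aa s k * z ^ k = aa s p * (z ^ p *
      ∑ j ∈ range p, (∏ i ∈ range j, ((((p : ℚ_[p]) + i) * ((p : ℚ_[p]) + i + 1) - s) /
        ((p : ℚ_[p]) + i + 1) ^ 2)) * z ^ j) := by
    rw [Finset.sum_Ico_eq_sum_range, show 2 * p - p = p by omega, mul_sum, mul_sum]
    refine sum_congr rfl fun j _ => ?_
    have : aa s (p + j) = aa s p * ∏ i ∈ range j, ((((p : ℚ_[p]) + i) * ((p : ℚ_[p]) + i + 1) - s) /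
        ((p : ℚ_[p]) + i + 1) ^ 2) := by
      unfold aa
      rw [prod_range_add]
      push_cast
      rfl
    rw [this, pow_add]
    ring
  rw [e1]
  have h1 : Cg p 1 (2 * har ℚ_[p] a) (-(fq p 27 : ℚ_[p])) := by
    have r1 : Rd p (2 * har ℚ_[p] a) (2 * har (ZMod p) a) := by
      have := (Rd.nat (p := p) 2).mul (har_red hp ha)
      push_cast at this
      exact this
    rw [hl] at r1
    exact r1.cg (Rd.nat _).neg
  have h2 : Cg p 2 (aa s p) (-2 * (1 - p * (fq p 27 : ℚ_[p]))) := by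
    rw [hs]
    refine (aa_p hp ha).trans ?_
    have h3 := (h1.pmul).mul_left (In.nat 2).neg
    have h4 := (Cg.refl 2 (-2 : ℚ_[p])).add h3
    refine (Cg.of_eq ?_).trans (h4.trans (Cg.of_eq ?_))
    · push_cast; ring
    · push_cast; ring
  have hS : Cg p 2 (∑ j ∈ range p, (∏ i ∈ range j, ((((p : ℚ_[p]) + i) * ((p : ℚ_[p]) + i + 1) - s) /
        ((p : ℚ_[p]) + i + 1) ^ 2)) * z ^ j)
      (HH p z + p * GG p z + (s + 2 / 9) * ∑ j ∈ range p, d j * z ^ j) := by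
    refine (Cg.sum fun j hj => (hprod j (mem_range.1 hj)).mul_right (hz.pow j)).trans (Cg.of_eq ?_)
    unfold HH GG
    rw [mul_sum, mul_sum, ← sum_add_distrib, ← sum_add_distrib]
    refine sum_congr rfl fun j _ => ?_
    ring
  have i1 : In p (HH p z + p * GG p z + (s + 2 / 9) * ∑ j ∈ range p, d j * z ^ j) :=
    ((S8_HH hp hz).add ((In.nat p).mul (S8_GG hp hz))).add
      (hsi.mul (In.sum fun j hj => (hd j (mem_range.1 hj)).mul (hz.pow j)))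
  have i2 : In p (-2 * (1 - p * (fq p 27 : ℚ_[p]))) := by
    have := (In.nat (p := p) 2).neg.mul (In.one.sub ((In.nat p).mul (In.nat (fq p 27))))
    push_cast at this
    exact this
  have h5 := h2.mul (hS.mul_left (hz.pow p)) ((hz.pow p).mul (hS.in i1)) i2
  exact h5.trans (Cg.of_eq (by ring))

theorem S8_third (hp : 5 ≤ p) : p % 3 = 1 ∨ p % 3 = 2 := by
  have hpp : p.Prime := Fact.out
  have h3 : ¬ 3 ∣ p := by
    intro h
    have := (Nat.prime_dvd_prime_iff_eq (by norm_num) hpp).1 h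
    omega
  omega

/-- the two values of `s`. -/
theorem S8_s (hp : 5 ≤ p) {s1 s2 : ℚ_[p]}
    (hs1 : s1 = ((p / 3 : ℕ) + (p : ℚ_[p])) * ((p / 3 : ℕ) + (p : ℚ_[p]) + 1))
    (hs2 : s2 = ((2 * p / 3 : ℕ) + (p : ℚ_[p])) * ((2 * p / 3 : ℕ) + (p : ℚ_[p]) + 1)) :
    Cg p 1 s1 (-2 / 9) ∧ Cg p 1 s2 (-2 / 9) ∧ Cg p 2 (5 / 9 * (s1 - -2 / 9) + 4 / 9 * (s2 - -2 / 9)) 0 := by
  have h3 := S4_third hp
  rcases S8_third hp with h | h
  · obtain ⟨t, ht⟩ : ∃ t, p = 3 * t + 1 := ⟨p / 3, by omega⟩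
    have e1 : p / 3 = t := by omega
    have e2 : 2 * p / 3 = 2 * t := by omega
    have hq : (t : ℚ_[p]) = ((p : ℚ_[p]) - 1) / 3 := by
      have : (p : ℚ_[p]) = 3 * (t : ℚ_[p]) + 1 := by exact_mod_cast congrArg (fun t : ℕ => (t : ℚ_[p])) ht
      rw [this]; ring
    have a1 : s1 - (-2 / 9) = p * (((16 : ℕ) : ℚ_[p]) * p + ((4 : ℕ) : ℚ_[p])) / 9 := by
      rw [hs1, e1, hq]; push_cast; ring
    have a2 : s2 - (-2 / 9) = p * (((25 : ℕ) : ℚ_[p]) * p - ((5 : ℕ) : ℚ_[p])) / 9 := by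
      rw [hs2, e2]; push_cast; rw [hq]; ring
    refine ⟨S4_cg1 hp (((In.nat _).mul (In.nat _)).add (In.nat _)) a1,
      S4_cg1 hp (((In.nat _).mul (In.nat _)).sub (In.nat _)) a2, ?_⟩
    have a3 : 5 / 9 * (s1 - -2 / 9) + 4 / 9 * (s2 - -2 / 9) =
        (p : ℚ_[p]) ^ 2 * (((20 : ℕ) : ℚ_[p]) * (3⁻¹ * 3⁻¹)) := by
      rw [a1, a2]; push_cast; ring
    rw [a3]
    exact Cg.pow_mul_zero ((In.nat _).mul (h3.mul h3)) 2
  · obtain ⟨t, ht⟩ : ∃ t, p = 3 * t + 2 := ⟨p / 3, by omega⟩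
    have e1 : p / 3 = t := by omega
    have e2 : 2 * p / 3 = 2 * t + 1 := by omega
    have hq : (t : ℚ_[p]) = ((p : ℚ_[p]) - 2) / 3 := by
      have : (p : ℚ_[p]) = 3 * (t : ℚ_[p]) + 2 := by exact_mod_cast congrArg (fun t : ℕ => (t : ℚ_[p])) ht
      rw [this]; ring
    have a1 : s1 - (-2 / 9) = p * (((16 : ℕ) : ℚ_[p]) * p - ((4 : ℕ) : ℚ_[p])) / 9 := by
      rw [hs1, e1, hq]; push_cast; ring
    have a2 : s2 - (-2 / 9) = p * (((25 : ℕ) : ℚ_[p]) * p + ((5 : ℕ) : ℚ_[p])) / 9 := by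
      rw [hs2, e2]; push_cast; rw [hq]; ring
    refine ⟨S4_cg1 hp (((In.nat _).mul (In.nat _)).sub (In.nat _)) a1,
      S4_cg1 hp (((In.nat _).mul (In.nat _)).add (In.nat _)) a2, ?_⟩
    have a3 : 5 / 9 * (s1 - -2 / 9) + 4 / 9 * (s2 - -2 / 9) =
        (p : ℚ_[p]) ^ 2 * (((20 : ℕ) : ℚ_[p]) * (3⁻¹ * 3⁻¹)) := by
      rw [a1, a2]; push_cast; ring
    rw [a3]
    exact Cg.pow_mul_zero ((In.nat _).mul (h3.mul h3)) 2

theorem S8_w (hp : 5 ≤ p) : In p (5 / 9 : ℚ_[p]) ∧ In p (4 / 9 : ℚ_[p]) := by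
  have h3 := S4_third hp
  constructor
  · have := (In.nat (p := p) 5).mul (h3.mul h3)
    have e : (5 / 9 : ℚ_[p]) = ((5 : ℕ) : ℚ_[p]) * (3⁻¹ * 3⁻¹) := by push_cast; ring
    rw [e]; exact this
  · have := (In.nat (p := p) 4).mul (h3.mul h3)
    have e : (4 / 9 : ℚ_[p]) = ((4 : ℕ) : ℚ_[p]) * (3⁻¹ * 3⁻¹) := by push_cast; ring
    rw [e]; exact this

/-- the tail of the Legendre polynomial of degree `p + a`, for the two values of `a` together. -/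
theorem tails (hp : 5 ≤ p) {z s1 s2 : ℚ_[p]} (hz : In p z)
    (hs1 : s1 = ((p / 3 : ℕ) + (p : ℚ_[p])) * ((p / 3 : ℕ) + (p : ℚ_[p]) + 1))
    (hs2 : s2 = ((2 * p / 3 : ℕ) + (p : ℚ_[p])) * ((2 * p / 3 : ℕ) + (p : ℚ_[p]) + 1)) :
    Cg p 2 (5 / 9 * ∑ k ∈ Ico p (2 * p), aa s1 k * z ^ k + 4 / 9 * ∑ k ∈ Ico p (2 * p), aa s2 k * z ^ k)
      (-2 * z ^ p * (HH p z + p * (GG p z - fq p 27 * HH p z))) := by
  obtain ⟨c1, c2, c3⟩ := S8_s hp hs1 hs2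
  obtain ⟨d, hd, hprod⟩ := lin_prod (p := p) hp
  have hi1 : In p (s1 + 2 / 9) := by
    have := S2_in_sub c1
    have e : s1 + 2 / 9 = s1 - -2 / 9 := by ring
    rw [e]; exact this
  have hi2 : In p (s2 + 2 / 9) := by
    have := S2_in_sub c2
    have e : s2 + 2 / 9 = s2 - -2 / 9 := by ring
    rw [e]; exact this
  have t1 := S8_tail hp hz (a := p / 3) (by omega) hs1 (lerch hp) hd (hprod s1 c1) hi1
  have t2 := S8_tail hp hz (a := 2 * p / 3) (by omega) hs2 (lerch2 hp) hd (hprod s2 c2) hi2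
  obtain ⟨w1, w2⟩ := S8_w (p := p) hp
  refine ((t1.mul_left w1).add (t2.mul_left w2)).trans ?_
  set D : ℚ_[p] := ∑ j ∈ range p, d j * z ^ j with hD
  have hDi : In p D := In.sum fun j hj => (hd j (mem_range.1 hj)).mul (hz.pow j)
  have i2 : In p (-2 * (1 - p * (fq p 27 : ℚ_[p]))) := by
    have := (In.nat (p := p) 2).neg.mul (In.one.sub ((In.nat p).mul (In.nat (fq p 27))))
    push_cast at this
    exact this
  have c4 := c3.mul_right ((i2.mul (hz.pow p)).mul hDi)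
  have c5 : Cg p 2 ((p : ℚ_[p]) ^ 2 * (((2 : ℕ) : ℚ_[p]) * (fq p 27 : ℚ_[p]) * z ^ p * GG p z)) 0 :=
    Cg.pow_mul_zero ((((In.nat _).mul (In.nat _)).mul (hz.pow p)).mul (S8_GG hp hz)) 2
  have c6 := ((Cg.refl (p := p) 2 (-2 * z ^ p * (HH p z + (p : ℚ_[p]) * (GG p z - (fq p 27 : ℚ_[p]) * HH p z)))).add c4).add c5
  refine (Cg.of_eq ?_).trans (c6.trans (Cg.of_eq ?_))
  · push_cast; ring
  · ring

theorem S8_x {z : ℚ_[p]} (hz : In p z) : In p (4 * z * (1 - z)) := by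
  have : (4 * z * (1 - z)) = ((4 : ℕ) : ℚ_[p]) * z * (1 - z) := by push_cast; ring
  rw [this]; exact ((In.nat 4).mul hz).mul (In.one.sub hz)

theorem S8_split (s z : ℚ_[p]) : ∑ k ∈ range (2 * p), aa s k * z ^ k =
    ∑ k ∈ range p, aa s k * z ^ k + ∑ k ∈ Ico p (2 * p), aa s k * z ^ k := by
  rw [Finset.sum_range_add_sum_Ico _ (by omega)]

theorem J_one (hp : 5 ≤ p) (h3 : p % 3 = 1) {z : ℚ_[p]} (hz : In p z) :
    Cg p 2 ((1 - 2 * z) * SS2 p (4 * z * (1 - z)))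
      ((1 - 2 * z ^ p) * HH p z - 2 * p * z ^ p * (GG p z - fq p 27 * HH p z)) := by
  have hodd := S4_odd hp
  obtain ⟨t, ht⟩ : ∃ t, p = 6 * t + 1 := ⟨p / 6, by omega⟩
  have htq : (p : ℚ_[p]) = 6 * (t : ℚ_[p]) + 1 := by exact_mod_cast congrArg (fun t : ℕ => (t : ℚ_[p])) ht
  have hx := S8_x hz
  have hl : In p (1 - 2 * z) := by
    have : (1 - 2 * z) = 1 - ((2 : ℕ) : ℚ_[p]) * z := by push_cast; ring
    rw [this]; exact In.one.sub ((In.nat 2).mul hz)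
  have hs0 := S4_s0 hp
  have hD : LN p (-2 / 9) (fun s => (1 - 2 * z) * ∑ k ∈ range p, ee s k * (4 * z * (1 - z)) ^ k -
      ∑ k ∈ range p, aa s k * z ^ k) := by
    refine LN.sub ((LN.const hl).mul (LN.sum fun k hk => ?_)) (LN.sum fun k hk => ?_)
    · exact (LN_ee hp (mem_range.1 hk) hs0).mul (LN.const (hx.pow k))
    · exact (LN_aa hp (mem_range.1 hk) hs0).mul (LN.const (hz.pow k))
  obtain ⟨s1, hs1⟩ : ∃ s1 : ℚ_[p], s1 = ((p / 3 : ℕ) + (p : ℚ_[p])) * ((p / 3 : ℕ) + (p : ℚ_[p]) + 1) := ⟨_, rfl⟩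
  obtain ⟨s2, hs2⟩ : ∃ s2 : ℚ_[p], s2 = ((2 * p / 3 : ℕ) + (p : ℚ_[p])) * ((2 * p / 3 : ℕ) + (p : ℚ_[p]) + 1) :=
    ⟨_, rfl⟩
  obtain ⟨c1, c2, c3⟩ := S8_s hp hs1 hs2
  obtain ⟨w1, w2⟩ := S8_w (p := p) hp
  have key := hD.interp c1 c2 w1 w2 (by norm_num) c3
  have f1 : s1 = (2 * ((4 * t : ℕ) : ℚ_[p]) + 1) * (2 * ((4 * t : ℕ) : ℚ_[p]) + 2) := by
    rw [hs1, show p / 3 = 2 * t by omega, htq]; push_cast; ring
  have f2 : s2 = (2 * ((5 * t : ℕ) : ℚ_[p]) + 1) * (2 * ((5 * t : ℕ) : ℚ_[p]) + 2) := by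
    rw [hs2, show 2 * p / 3 = 4 * t by omega, htq]; push_cast; ring
  have z1 := leg_odd (K := ℚ_[p]) (4 * t) (2 * p) p (by omega) (by omega) z
  have z2 := leg_odd (K := ℚ_[p]) (5 * t) (2 * p) p (by omega) (by omega) z
  rw [← f1, S8_split] at z1
  rw [← f2, S8_split] at z2
  rw [← z1, ← z2] at key
  have ht := tails hp hz hs1 hs2
  have e1 : HH p z = ∑ k ∈ range p, aa (-2 / 9 : ℚ_[p]) k * z ^ k := by
    unfold HH; simp only [cc_eq_aa]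
  have e2 : SS2 p (4 * z * (1 - z)) = ∑ k ∈ range p, ee (-2 / 9 : ℚ_[p]) k * (4 * z * (1 - z)) ^ k := by
    unfold SS2; simp only [s2_eq_ee]
  rw [← e1, ← e2] at key
  have h5 := (key.symm.trans ((Cg.of_eq (by ring)).trans ht)).add (Cg.refl 2 (HH p z))
  exact (Cg.of_eq (by ring)).trans (h5.trans (Cg.of_eq (by ring)))

theorem J_two (hp : 5 ≤ p) (h3 : p % 3 = 2) {z : ℚ_[p]} (hz : In p z) :
    Cg p 2 (SS1 p (4 * z * (1 - z)))
      ((1 - 2 * z ^ p) * HH p z - 2 * p * z ^ p * (GG p z - fq p 27 * HH p z)) := by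
  have hodd := S4_odd hp
  obtain ⟨t, ht⟩ : ∃ t, p = 6 * t + 5 := ⟨p / 6, by omega⟩
  have htq : (p : ℚ_[p]) = 6 * (t : ℚ_[p]) + 5 := by exact_mod_cast congrArg (fun t : ℕ => (t : ℚ_[p])) ht
  have hx := S8_x hz
  have hs0 := S4_s0 hp
  have hD : LN p (-2 / 9) (fun s => ∑ k ∈ range p, bb s k * (4 * z * (1 - z)) ^ k -
      ∑ k ∈ range p, aa s k * z ^ k) := by
    refine LN.sub (LN.sum fun k hk => ?_) (LN.sum fun k hk => ?_)
    · exact (LN_bb hp (mem_range.1 hk) hs0).mul (LN.const (hx.pow k))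
    · exact (LN_aa hp (mem_range.1 hk) hs0).mul (LN.const (hz.pow k))
  obtain ⟨s1, hs1⟩ : ∃ s1 : ℚ_[p], s1 = ((p / 3 : ℕ) + (p : ℚ_[p])) * ((p / 3 : ℕ) + (p : ℚ_[p]) + 1) := ⟨_, rfl⟩
  obtain ⟨s2, hs2⟩ : ∃ s2 : ℚ_[p], s2 = ((2 * p / 3 : ℕ) + (p : ℚ_[p])) * ((2 * p / 3 : ℕ) + (p : ℚ_[p]) + 1) :=
    ⟨_, rfl⟩
  obtain ⟨c1, c2, c3⟩ := S8_s hp hs1 hs2
  obtain ⟨w1, w2⟩ := S8_w (p := p) hp
  have key := hD.interp c1 c2 w1 w2 (by norm_num) c3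
  have f1 : s1 = (2 * ((4 * t + 3 : ℕ) : ℚ_[p])) * (2 * ((4 * t + 3 : ℕ) : ℚ_[p]) + 1) := by
    rw [hs1, show p / 3 = 2 * t + 1 by omega, htq]; push_cast; ring
  have f2 : s2 = (2 * ((5 * t + 4 : ℕ) : ℚ_[p])) * (2 * ((5 * t + 4 : ℕ) : ℚ_[p]) + 1) := by
    rw [hs2, show 2 * p / 3 = 4 * t + 3 by omega, htq]; push_cast; ring
  have z1 := leg_even (K := ℚ_[p]) (4 * t + 3) (2 * p) p (by omega) (by omega) z
  have z2 := leg_even (K := ℚ_[p]) (5 * t + 4) (2 * p) p (by omega) (by omega) z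
  rw [← f1, S8_split] at z1
  rw [← f2, S8_split] at z2
  rw [← z1, ← z2] at key
  have ht := tails hp hz hs1 hs2
  have e1 : HH p z = ∑ k ∈ range p, aa (-2 / 9 : ℚ_[p]) k * z ^ k := by
    unfold HH; simp only [cc_eq_aa]
  have e2 : SS1 p (4 * z * (1 - z)) = ∑ k ∈ range p, bb (-2 / 9 : ℚ_[p]) k * (4 * z * (1 - z)) ^ k := by
    unfold SS1; simp only [s1_eq_bb]
  rw [← e1, ← e2] at key
  have h5 := (key.symm.trans ((Cg.of_eq (by ring)).trans ht)).add (Cg.refl 2 (HH p z))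
  exact (Cg.of_eq (by ring)).trans (h5.trans (Cg.of_eq (by ring)))

end SCong
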