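import Pool.Agent.Lib.MP_0a3b9a_nt.S1B
import Pool.Agent.Lib.MP_0a3b9a_nt.S8

/-!
Module S9.  z = 1: 4z(1-z) = 0, SS1 0 = SS2 0 = 1.  A1: HH 1 ≡ 1 (p % 3 = 1), ≡ -1 (p % 3 = 2) mod p^2.
J: p % 3 = 1: -1 ≡ -HH 1 - 2p (GG 1 - fq27 HH 1) mod p^2; p % 3 = 2: 1 ≡ -HH 1 - 2p(..).  So GG 1 - fq27 HH 1 ≡ 0 mod p (2 is a unit).
-/

namespace SCong
open Finset Polynomial
variable {p : ℕ} [Fact p.Prime]

theorem S9_SS1_zero : SS1 p 0 = 1 := by
  have hp : 0 < p := (Fact.out : p.Prime).pos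
  unfold SS1
  rw [Finset.sum_eq_single_of_mem 0 (Finset.mem_range.2 hp)]
  · simp [s1]
  · intro b _ hb
    rw [zero_pow hb, mul_zero]

theorem S9_SS2_zero : SS2 p 0 = 1 := by
  have hp : 0 < p := (Fact.out : p.Prime).pos
  unfold SS2
  rw [Finset.sum_eq_single_of_mem 0 (Finset.mem_range.2 hp)]
  · simp [s2]
  · intro b _ hb
    rw [zero_pow hb, mul_zero]

theorem S9_HH_one (hp : 5 ≤ p) (h3 : p % 3 = 1) : Cg p 2 (HH p 1) 1 := by
  have h := A1_one hp h3 (In.one (p := p))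
  have e : (4 * 1 * (1 - 1) : ℚ_[p]) = 0 := by ring
  rw [e, S9_SS1_zero] at h
  exact h

theorem S9_HH_two (hp : 5 ≤ p) (h3 : p % 3 = 2) : Cg p 2 (HH p 1) (-1) := by
  have h := A1_two hp h3 (In.one (p := p))
  have e : (4 * 1 * (1 - 1) : ℚ_[p]) = 0 := by ring
  have e2 : ((1 - 2 * 1) * 1 : ℚ_[p]) = -1 := by ring
  rw [e, S9_SS2_zero, e2] at h
  exact h

theorem S9_mod3 (hp : 5 ≤ p) : p % 3 = 1 ∨ p % 3 = 2 := by
  have h0 : p % 3 ≠ 0 := by
    intro h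
    have hd : 3 ∣ p := Nat.dvd_of_mod_eq_zero h
    have := (Nat.prime_dvd_prime_iff_eq Nat.prime_three (Fact.out : p.Prime)).1 hd
    omega
  omega

theorem Hp_one (hp : 5 ≤ p) : (Hp p).eval 1 = if p % 3 = 1 then 1 else -1 := by
  have hr : Rd p (HH p 1) ((Hp p).eval 1) := HH_red hp Rd.one
  rcases S9_mod3 hp with h3 | h3
  · rw [if_pos h3]
    have h1 : Rd p (HH p 1) 1 := Rd.of_cg Rd.one ((S9_HH_one hp h3).mono (by norm_num))
    exact hr.unique h1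
  · rw [if_neg (by omega)]
    have h1 : Rd p (HH p 1) (-1) := Rd.of_cg (Rd.one.neg) ((S9_HH_two hp h3).mono (by norm_num))
    exact hr.unique h1

theorem S9_key (hp : 5 ≤ p) : Cg p 2 (p * (2 * (GG p 1 - fq p 27 * HH p 1))) (p * 0) := by
  have e : (4 * 1 * (1 - 1) : ℚ_[p]) = 0 := by ring
  rcases S9_mod3 hp with h3 | h3
  · have hJ := J_one hp h3 (In.one (p := p))
    rw [e, S9_SS2_zero, one_pow] at hJ
    have hH := S9_HH_one hp h3
    obtain ⟨w, hw⟩ := hJ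
    obtain ⟨v, hv⟩ := hH
    refine ⟨w - v, ?_⟩
    push_cast
    linear_combination hw - hv
  · have hJ := J_two hp h3 (In.one (p := p))
    rw [e, S9_SS1_zero, one_pow] at hJ
    have hH := S9_HH_two hp h3
    obtain ⟨w, hw⟩ := hJ
    obtain ⟨v, hv⟩ := hH
    refine ⟨w - v, ?_⟩
    push_cast
    linear_combination hw - hv

theorem M_one (hp : 5 ≤ p) : (Gp p).eval 1 = (fq p 27 : ZMod p) * (Hp p).eval 1 := by
  have hH : Rd p (HH p 1) ((Hp p).eval 1) := HH_red hp Rd.one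
  have hG : Rd p (GG p 1) ((Gp p).eval 1) := GG_red hp Rd.one
  have h1 : Cg p 1 (2 * (GG p 1 - fq p 27 * HH p 1)) 0 := Cg.of_pmul (S9_key hp)
  have h2 : Rd p (2 * (GG p 1 - fq p 27 * HH p 1))
      (2 * ((Gp p).eval 1 - (fq p 27 : ZMod p) * (Hp p).eval 1)) := by
    have ht : Rd p (2 : ℚ_[p]) 2 := by
      have := Rd.nat (p := p) 2
      exact_mod_cast this
    exact ht.mul (hG.sub ((Rd.nat (fq p 27)).mul hH))
  have h3 : (2 : ZMod p) * ((Gp p).eval 1 - (fq p 27 : ZMod p) * (Hp p).eval 1) = 0 :=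
    h2.unique (rd_zero_iff.2 h1)
  rcases mul_eq_zero.1 h3 with h4 | h4
  · exact absurd h4 (ne_of_five hp).1
  · exact sub_eq_zero.1 h4

end SCong
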