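import Pool.Agent.Lib.MP_0a3b9a_nt.Defs

/-!
Module T3.  φ = quadraticChar.
p ≡ 1 mod 8 (φ(-1) = φ(2) = 1): for x ≠ 0: φ(x(x⁴+1)) = φ(x) φ(x² + x^(-2)) = φ(x) φ(u²-2), u = x + 1/x, and φ(x) = φ(u+2) for x ≠ -1 ((x+1)²/x = u+2).  The number of x with x + 1/x = u is 1 + φ(u²-4).
 So Σ = Σ_u (1 + φ(u²-4)) φ(u+2) φ(u²-2) + φ(-1)φ(2) = Σφ((u+2)(u²-2)) + [Σφ((u-2)(u²-2)) - φ(-4)φ(2)] + φ(-1)φ(2), and u = x ± 2, (u+2)(u²-2) = X(X²-4X+2) (X = u+2), (u-2)(u²-2) = X(X²+4X+2); X -> -X: both sums are SW (φ(-1) = 1).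
p ≡ 3 mod 8 (φ(-1) = -1, φ(2) = -1, φ(-2) = 1): Σ_t f(t²) = Σ_s (1+φ(s)) f(s): Σ_t = Σ_s φ((s+1)(s²-6s+1)) + Σ_s φ(s(s+1)(s²-6s+1)); s = 2Y-1: (s+1)(s²-6s+1) = 8Y(Y²-4Y+2), Y -> -Y: first sum = φ(8)φ(-1) SW = SW;
 second: s -> 1/s: for s ≠ 0 φ(s(s+1)(s²-6s+1)) at 1/s equals φ((s+1)(s²-6s+1)), so the second sum is SW - φ(1) = SW - 1.  Total 2 SW - 1.
-/

namespace SCong
open Finset Polynomial
variable {p : ℕ} [Fact p.Prime]

section T3aux

private lemma ringChar_ne_two (h : p ≠ 2) : ringChar (ZMod p) ≠ 2 := by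
  rwa [ZMod.ringChar_zmod_n]

private lemma two_ne (h : p ≠ 2) : (2 : ZMod p) ≠ 0 :=
  Ring.two_ne_zero (ringChar_ne_two h)

private lemma card_fib (h : p ≠ 2) (u : ZMod p) :
    (((univ : Finset (ZMod p)).filter (fun x => x ≠ 0 ∧ x + x⁻¹ = u)).card : ℤ) =
      1 + quadraticChar (ZMod p) (u ^ 2 - 4) := by
  have h2 := two_ne h
  have h1 := quadraticChar_card_sqrts (ringChar_ne_two h) (u ^ 2 - 4)
  rw [add_comm, ← h1]
  norm_cast
  refine Finset.card_bij (fun x _ => 2 * x - u) ?_ ?_ ?_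
  · intro x hx
    rw [Finset.mem_filter] at hx
    obtain ⟨-, hx0, hxu⟩ := hx
    simp only [Set.mem_toFinset, Set.mem_setOf_eq]
    have : x * u = x ^ 2 + 1 := by
      rw [← hxu]
      field_simp
    linear_combination -4 * this
  · intro x _ y _ hxy
    have : 2 * x = 2 * y := by linear_combination hxy
    exact mul_left_cancel₀ h2 this
  · intro y hy
    simp only [Set.mem_toFinset, Set.mem_setOf_eq] at hy
    refine ⟨(y + u) / 2, ?_, ?_⟩
    · rw [Finset.mem_filter]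
      have hq : ((y + u) / 2) ^ 2 - u * ((y + u) / 2) + 1 = 0 := by
        field_simp
        linear_combination hy
      have hne : (y + u) / 2 ≠ 0 := by
        intro h0
        rw [h0] at hq
        simp at hq
      refine ⟨Finset.mem_univ _, hne, ?_⟩
      have : (y + u) / 2 * ((y + u) / 2 + ((y + u) / 2)⁻¹) = (y + u) / 2 * u := by
        rw [mul_add, mul_inv_cancel₀ hne]
        linear_combination hq
      exact mul_left_cancel₀ hne this
    · field_simp
      ring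

private lemma sum_fib (h : p ≠ 2) (G : ZMod p → ℤ) :
    ∑ x ∈ (univ : Finset (ZMod p)).filter (fun x => x ≠ 0), G (x + x⁻¹) =
      ∑ u : ZMod p, (1 + quadraticChar (ZMod p) (u ^ 2 - 4)) * G u := by
  rw [← Finset.sum_fiberwise_of_maps_to (s := (univ : Finset (ZMod p)).filter (fun x => x ≠ 0))
    (t := (univ : Finset (ZMod p))) (g := fun x => x + x⁻¹) (fun x _ => Finset.mem_univ _)]
  refine Finset.sum_congr rfl fun u _ => ?_
  rw [← card_fib h u, Finset.filter_filter]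
  rw [Finset.sum_congr rfl (g := fun _ => G u)]
  · rw [Finset.sum_const, nsmul_eq_mul]
  · intro x hx
    rw [Finset.mem_filter] at hx
    rw [hx.2.2]

private lemma sum_sq (h : p ≠ 2) (G : ZMod p → ℤ) :
    ∑ t : ZMod p, G (t ^ 2) = ∑ s : ZMod p, (1 + quadraticChar (ZMod p) s) * G s := by
  rw [← Finset.sum_fiberwise_of_maps_to (s := (univ : Finset (ZMod p)))
    (t := (univ : Finset (ZMod p))) (g := fun x => x ^ 2) (fun x _ => Finset.mem_univ _)]
  refine Finset.sum_congr rfl fun s _ => ?_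
  have h1 := quadraticChar_card_sqrts (ringChar_ne_two h) s
  rw [Finset.sum_congr rfl (g := fun _ => G s)]
  · rw [Finset.sum_const, nsmul_eq_mul, add_comm (1 : ℤ), ← h1]
    congr 2
    norm_cast
    congr 1
    ext x
    simp
  · intro x hx
    rw [Finset.mem_filter] at hx
    rw [hx.2]

private lemma phi_sq_mul (a b : ZMod p) (ha : a ≠ 0) :
    quadraticChar (ZMod p) (a ^ 2 * b) = quadraticChar (ZMod p) b := by
  rw [map_mul, quadraticChar_sq_one' ha, one_mul]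

private lemma SW_eq_neg : SW p = quadraticChar (ZMod p) (-1) *
    ∑ x : ZMod p, quadraticChar (ZMod p) (x * (x ^ 2 - 4 * x + 2)) := by
  rw [SW, Finset.mul_sum, ← Equiv.sum_comp (Equiv.neg (ZMod p))]
  refine Finset.sum_congr rfl fun x _ => ?_
  rw [← map_mul]
  congr 1
  simp only [Equiv.neg_apply]
  ring

end T3aux

theorem SW_one (h : p % 8 = 1) :
    2 * SW p = ∑ x : ZMod p, quadraticChar (ZMod p) (x * (x ^ 4 + 1)) := by
  have hp2 : p ≠ 2 := by
    rintro rfl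
    omega
  have h2 := two_ne hp2
  have hcast : ((p : ℕ) : ZMod 8) = 1 := by
    have : ((p % 8 : ℕ) : ZMod 8) = ((p : ℕ) : ZMod 8) := ZMod.natCast_mod p 8
    rw [← this, h]
    rfl
  have hcast4 : ((p : ℕ) : ZMod 4) = 1 := by
    have : ((p % 4 : ℕ) : ZMod 4) = ((p : ℕ) : ZMod 4) := ZMod.natCast_mod p 4
    rw [← this, show p % 4 = 1 by omega]
    rfl
  have c2 : quadraticChar (ZMod p) 2 = 1 := by
    rw [quadraticChar_two (ringChar_ne_two hp2), ZMod.card, hcast]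
    decide
  have c1 : quadraticChar (ZMod p) (-1) = 1 := by
    rw [quadraticChar_neg_one (ringChar_ne_two hp2), ZMod.card, hcast4]
    decide
  have hm1 : (-1 : ZMod p) ≠ 0 := neg_ne_zero.mpr one_ne_zero
  -- the sum over nonzero `x`
  have e1 : ∑ x : ZMod p, quadraticChar (ZMod p) (x * (x ^ 4 + 1)) =
      ∑ x ∈ (univ : Finset (ZMod p)).filter (fun x => x ≠ 0),
        quadraticChar (ZMod p) (x * (x ^ 4 + 1)) := by
    symm
    apply Finset.sum_subset (Finset.filter_subset _ _)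
    intro x _ hx
    rw [Finset.mem_filter, not_and_or] at hx
    rcases hx with hx | hx
    · exact absurd (Finset.mem_univ _) hx
    · rw [not_not.mp hx, zero_mul, MulChar.map_zero]
  have e2 : ∀ x ∈ (univ : Finset (ZMod p)).filter (fun x => x ≠ 0),
      quadraticChar (ZMod p) (x * (x ^ 4 + 1)) =
        quadraticChar (ZMod p) ((x + x⁻¹ + 2) * ((x + x⁻¹) ^ 2 - 2)) +
          if x = -1 then 1 else 0 := by
    intro x hx
    have hx0 : x ≠ 0 := (Finset.mem_filter.mp hx).2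
    split_ifs with hx1
    · subst hx1
      have ha : ((-1 : ZMod p) + (-1)⁻¹ + 2) = 0 := by
        rw [inv_neg, inv_one]
        ring
      rw [ha, zero_mul, MulChar.map_zero, zero_add,
        show ((-1 : ZMod p) * ((-1) ^ 4 + 1)) = (-1) * 2 by ring, map_mul, c1, c2, mul_one]
    · rw [add_zero]
      have hx1' : x + 1 ≠ 0 := fun h0 => hx1 (eq_neg_of_add_eq_zero_left h0)
      have hk : x * (x ^ 4 + 1) = (x ^ 2 / (x + 1)) ^ 2 *
          ((x + x⁻¹ + 2) * ((x + x⁻¹) ^ 2 - 2)) := by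
        field_simp
        ring
      rw [hk, phi_sq_mul]
      exact div_ne_zero (pow_ne_zero _ hx0) hx1'
  have e3 : ∑ u : ZMod p, (1 + quadraticChar (ZMod p) (u ^ 2 - 4)) *
      quadraticChar (ZMod p) ((u + 2) * (u ^ 2 - 2)) =
      ∑ u : ZMod p, quadraticChar (ZMod p) ((u + 2) * (u ^ 2 - 2)) +
      (∑ u : ZMod p, quadraticChar (ZMod p) ((u - 2) * (u ^ 2 - 2)) - 1) := by
    have : ∀ u : ZMod p, (1 + quadraticChar (ZMod p) (u ^ 2 - 4)) *
        quadraticChar (ZMod p) ((u + 2) * (u ^ 2 - 2)) =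
        quadraticChar (ZMod p) ((u + 2) * (u ^ 2 - 2)) +
        (quadraticChar (ZMod p) ((u - 2) * (u ^ 2 - 2)) - if u = -2 then 1 else 0) := by
      intro u
      rw [add_mul, one_mul, ← map_mul]
      congr 1
      split_ifs with hu
      · subst hu
        rw [show (((-2 : ZMod p)) ^ 2 - 4) * ((-2 + 2) * ((-2) ^ 2 - 2)) = 0 by ring,
          show ((-2 : ZMod p) - 2) * ((-2) ^ 2 - 2) = 2 ^ 2 * (-1 * 2) by ring, phi_sq_mul _ _ h2,
          map_mul, c1, c2, MulChar.map_zero]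
        norm_num
      · rw [sub_zero]
        have hu' : u + 2 ≠ 0 := fun h0 => hu (eq_neg_of_add_eq_zero_left h0)
        rw [show (u ^ 2 - 4) * ((u + 2) * (u ^ 2 - 2)) = (u + 2) ^ 2 * ((u - 2) * (u ^ 2 - 2)) by
          ring, phi_sq_mul _ _ hu']
    rw [Finset.sum_congr rfl fun u _ => this u, Finset.sum_add_distrib, Finset.sum_sub_distrib,
      Finset.sum_ite_eq']
    simp
  have e4 : ∑ u : ZMod p, quadraticChar (ZMod p) ((u + 2) * (u ^ 2 - 2)) = SW p := by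
    rw [SW_eq_neg, c1, one_mul, ← Equiv.sum_comp (Equiv.addRight (2 : ZMod p))
      (fun x => quadraticChar (ZMod p) (x * (x ^ 2 - 4 * x + 2)))]
    refine Finset.sum_congr rfl fun u _ => ?_
    congr 1
    simp only [Equiv.coe_addRight]
    ring
  have e5 : ∑ u : ZMod p, quadraticChar (ZMod p) ((u - 2) * (u ^ 2 - 2)) = SW p := by
    rw [SW, ← Equiv.sum_comp (Equiv.addRight (2 : ZMod p))
      (fun u => quadraticChar (ZMod p) ((u - 2) * (u ^ 2 - 2)))]
    refine Finset.sum_congr rfl fun u _ => ?_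
    congr 1
    simp only [Equiv.coe_addRight]
    ring
  rw [e1, Finset.sum_congr rfl e2, Finset.sum_add_distrib,
    sum_fib hp2 (fun u => quadraticChar (ZMod p) ((u + 2) * (u ^ 2 - 2))), e3, e4, e5,
    Finset.sum_ite_eq']
  rw [if_pos (by rw [Finset.mem_filter]; exact ⟨Finset.mem_univ _, hm1⟩)]
  ring

theorem SW_three (h : p % 8 = 3) :
    2 * SW p = 1 + ∑ t : ZMod p, quadraticChar (ZMod p) ((t ^ 2 + 1) * (t ^ 4 - 6 * t ^ 2 + 1)) := by
  have hp2 : p ≠ 2 := by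
    rintro rfl
    omega
  have h2 := two_ne hp2
  have hcast : ((p : ℕ) : ZMod 8) = 3 := by
    have : ((p % 8 : ℕ) : ZMod 8) = ((p : ℕ) : ZMod 8) := ZMod.natCast_mod p 8
    rw [← this, h]
    rfl
  have hcast4 : ((p : ℕ) : ZMod 4) = 3 := by
    have : ((p % 4 : ℕ) : ZMod 4) = ((p : ℕ) : ZMod 4) := ZMod.natCast_mod p 4
    rw [← this, show p % 4 = 3 by omega]
    rfl
  have c2 : quadraticChar (ZMod p) 2 = -1 := by
    rw [quadraticChar_two (ringChar_ne_two hp2), ZMod.card, hcast]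
    decide
  have c1 : quadraticChar (ZMod p) (-1) = -1 := by
    rw [quadraticChar_neg_one (ringChar_ne_two hp2), ZMod.card, hcast4]
    decide
  have e0 : ∑ t : ZMod p, quadraticChar (ZMod p) ((t ^ 2 + 1) * (t ^ 4 - 6 * t ^ 2 + 1)) =
      ∑ s : ZMod p, (1 + quadraticChar (ZMod p) s) *
        quadraticChar (ZMod p) ((s + 1) * (s ^ 2 - 6 * s + 1)) := by
    rw [← sum_sq hp2]
    refine Finset.sum_congr rfl fun t _ => ?_
    congr 1
    ring
  have e1 : ∑ s : ZMod p, quadraticChar (ZMod p) ((s + 1) * (s ^ 2 - 6 * s + 1)) = SW p := by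
    rw [SW_eq_neg]
    have hb : ∑ s : ZMod p, quadraticChar (ZMod p) ((s + 1) * (s ^ 2 - 6 * s + 1)) =
        ∑ Y : ZMod p, quadraticChar (ZMod p) ((2 * Y - 1 + 1) * ((2 * Y - 1) ^ 2 -
          6 * (2 * Y - 1) + 1)) := by
      rw [← Equiv.sum_comp (Equiv.subRight (1 : ZMod p))
        (fun s => quadraticChar (ZMod p) ((s + 1) * (s ^ 2 - 6 * s + 1)))]
      rw [← Equiv.sum_comp (Equiv.mulLeft₀ (2 : ZMod p) h2)]
      rfl
    rw [hb, Finset.mul_sum]
    refine Finset.sum_congr rfl fun Y _ => ?_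
    rw [show (2 * Y - 1 + 1) * ((2 * Y - 1) ^ 2 - 6 * (2 * Y - 1) + 1) =
      2 ^ 2 * (2 * (Y * (Y ^ 2 - 4 * Y + 2))) by ring, phi_sq_mul _ _ h2, map_mul, c2, c1]
  have e2 : ∑ s : ZMod p, quadraticChar (ZMod p) s *
      quadraticChar (ZMod p) ((s + 1) * (s ^ 2 - 6 * s + 1)) = SW p - 1 := by
    have hb : ∑ s : ZMod p, quadraticChar (ZMod p) s *
        quadraticChar (ZMod p) ((s + 1) * (s ^ 2 - 6 * s + 1)) =
        ∑ r : ZMod p, quadraticChar (ZMod p) r⁻¹ *
        quadraticChar (ZMod p) ((r⁻¹ + 1) * (r⁻¹ ^ 2 - 6 * r⁻¹ + 1)) := by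
      rw [← Equiv.sum_comp (Equiv.inv (ZMod p))]
      rfl
    rw [hb, ← e1]
    have : ∀ r : ZMod p, quadraticChar (ZMod p) r⁻¹ *
        quadraticChar (ZMod p) ((r⁻¹ + 1) * (r⁻¹ ^ 2 - 6 * r⁻¹ + 1)) =
        quadraticChar (ZMod p) ((r + 1) * (r ^ 2 - 6 * r + 1)) - if r = 0 then 1 else 0 := by
      intro r
      split_ifs with hr
      · subst hr
        simp
      · rw [sub_zero, ← map_mul]
        have : r⁻¹ * ((r⁻¹ + 1) * (r⁻¹ ^ 2 - 6 * r⁻¹ + 1)) =
            (r⁻¹ ^ 2) ^ 2 * ((r + 1) * (r ^ 2 - 6 * r + 1)) := by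
          field_simp
          ring
        rw [this, phi_sq_mul _ _ (pow_ne_zero _ (inv_ne_zero hr))]
    rw [Finset.sum_congr rfl fun r _ => this r, Finset.sum_sub_distrib, Finset.sum_ite_eq']
    simp
  have e3 : ∑ s : ZMod p, (1 + quadraticChar (ZMod p) s) *
        quadraticChar (ZMod p) ((s + 1) * (s ^ 2 - 6 * s + 1)) = SW p + (SW p - 1) := by
    rw [← e2]
    nth_rewrite 1 [← e1]
    rw [← Finset.sum_add_distrib]
    exact Finset.sum_congr rfl fun s _ => by rw [add_mul, one_mul]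
  rw [e0, e3]
  ring

end SCong
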