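import Pool.Agent.Lib.MP_0a3b9a_nt.Defs

/-!
Module T4.  f_k = #{x ∈ s : e x = k}.  σ gives bijections {e = k} -> {e = 3k}: f1 = f3, f5 = f7, f2 = f6.  ζ = ze 1, ζ² = i, ζ⁴ = -1, ζ + ζ³ = i√2.
Σ ze(e x) = Σ_k f_k ζ^k = (f0 - f4) + (f1 - f5)(ζ + ζ³) + (f2 - f6) i.  If σ has no fixed point in {e = 4} then f4 is even (Finset.card_involution-like, 4 = 3·4 in ZMod 8).
-/

namespace SCong
open Finset Polynomial

theorem T4_card {ι : Type*} [DecidableEq ι] (s : Finset ι) (e : ι → ZMod 8) (σ : ι → ι)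
    (h1 : ∀ x ∈ s, σ x ∈ s) (h2 : ∀ x ∈ s, σ (σ x) = x) (h3 : ∀ x ∈ s, e (σ x) = 3 * e x)
    (k : ZMod 8) :
    (s.filter (fun x => e x = k)).card = (s.filter (fun x => e x = 3 * k)).card := by
  refine Finset.card_bij' (fun x _ => σ x) (fun x _ => σ x) ?_ ?_ ?_ ?_
  · intro x hx
    rw [mem_filter] at hx ⊢
    exact ⟨h1 x hx.1, by rw [h3 x hx.1, hx.2]⟩
  · intro x hx
    rw [mem_filter] at hx ⊢
    refine ⟨h1 x hx.1, ?_⟩
    rw [h3 x hx.1, hx.2]
    have h9 : ∀ k : ZMod 8, 3 * (3 * k) = k := by decide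
    exact h9 k
  · intro x hx
    rw [mem_filter] at hx
    exact h2 x hx.1
  · intro x hx
    rw [mem_filter] at hx
    exact h2 x hx.1

theorem T4_ze (n : ℕ) (hn : n < 8) : ze (n : ZMod 8) =
    Complex.exp (Real.pi * Complex.I / 4) ^ n := by
  unfold ze
  rw [← Complex.exp_nat_mul]
  congr 1
  have : ((n : ZMod 8)).val = n := by
    rw [ZMod.val_natCast]; exact Nat.mod_eq_of_lt hn
  rw [this]; ring

theorem T4_z : Complex.exp (Real.pi * Complex.I / 4) =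
    ((Real.sqrt 2 / 2 : ℝ) : ℂ) * (1 + Complex.I) := by
  have h : (Real.pi * Complex.I / 4 : ℂ) = ((Real.pi / 4 : ℝ) : ℂ) * Complex.I := by
    push_cast; ring
  rw [h, Complex.exp_mul_I, ← Complex.ofReal_cos, ← Complex.ofReal_sin, Real.cos_pi_div_four,
    Real.sin_pi_div_four]
  ring

theorem zeta8 {ι : Type*} [DecidableEq ι] (s : Finset ι) (e : ι → ZMod 8) (σ : ι → ι)
    (h1 : ∀ x ∈ s, σ x ∈ s) (h2 : ∀ x ∈ s, σ (σ x) = x) (h3 : ∀ x ∈ s, e (σ x) = 3 * e x) :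
    Complex.normSq (∑ x ∈ s, ze (e x)) =
      (((s.filter (fun x => e x = 0)).card : ℝ) - (s.filter (fun x => e x = 4)).card) ^ 2 +
      2 * (((s.filter (fun x => e x = 1)).card : ℝ) - (s.filter (fun x => e x = 5)).card) ^ 2 := by
  have c13 := T4_card s e σ h1 h2 h3 1
  have c57 := T4_card s e σ h1 h2 h3 5
  have c26 := T4_card s e σ h1 h2 h3 2
  have e3 : (3 * 1 : ZMod 8) = 3 := by decide
  have e7 : (3 * 5 : ZMod 8) = 7 := by decide
  have e6 : (3 * 2 : ZMod 8) = 6 := by decide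
  rw [e3] at c13
  rw [e7] at c57
  rw [e6] at c26
  have hsum : ∑ x ∈ s, ze (e x) = ∑ k : ZMod 8, ((s.filter (fun x => e x = k)).card : ℂ) * ze k := by
    have := Finset.sum_fiberwise_of_maps_to (s := s) (t := (univ : Finset (ZMod 8))) (g := e)
      (fun x _ => mem_univ _) (fun x => ze (e x))
    rw [← this]
    refine Finset.sum_congr rfl fun k _ => ?_
    rw [Finset.sum_congr rfl (g := fun _ => ze k)]
    · rw [Finset.sum_const, nsmul_eq_mul]
    · intro x hx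
      rw [(mem_filter.1 hx).2]
  have h8 : ∀ f : ZMod 8 → ℂ, ∑ k : ZMod 8, f k = f 0 + f 1 + f 2 + f 3 + f 4 + f 5 + f 6 + f 7 := by
    intro f
    exact Fin.sum_univ_eight f
  rw [hsum, h8, ← c13, ← c57, ← c26]
  have z0 := T4_ze 0 (by norm_num)
  have z1 := T4_ze 1 (by norm_num)
  have z2 := T4_ze 2 (by norm_num)
  have z3 := T4_ze 3 (by norm_num)
  have z4 := T4_ze 4 (by norm_num)
  have z5 := T4_ze 5 (by norm_num)
  have z6 := T4_ze 6 (by norm_num)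
  have z7 := T4_ze 7 (by norm_num)
  push_cast at z0 z1 z2 z3 z4 z5 z6 z7
  rw [z0, z1, z2, z3, z4, z5, z6, z7, T4_z]
  generalize hf0 : (s.filter (fun x => e x = 0)).card = f0
  generalize hf1 : (s.filter (fun x => e x = 1)).card = f1
  generalize hf2 : (s.filter (fun x => e x = 2)).card = f2
  generalize hf4 : (s.filter (fun x => e x = 4)).card = f4
  generalize hf5 : (s.filter (fun x => e x = 5)).card = f5
  set q : ℝ := Real.sqrt 2 / 2 with hq
  have hq2 : q ^ 2 = 1 / 2 := by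
    rw [hq, div_pow, Real.sq_sqrt (by norm_num)]; norm_num
  have hqc : (q : ℂ) ^ 2 = 1 / 2 := by
    have := congrArg (fun t : ℝ => (t : ℂ)) hq2
    push_cast at this ⊢
    exact this
  have hI : Complex.I ^ 2 = -1 := Complex.I_sq
  have p2 : ((q : ℂ) * (1 + Complex.I)) ^ 2 = Complex.I := by
    linear_combination (1 + Complex.I) ^ 2 * hqc + (1 / 2) * hI
  have p3 : ((q : ℂ) * (1 + Complex.I)) ^ 3 = (q : ℂ) * (-1 + Complex.I) := by
    rw [pow_succ, p2]; linear_combination (q : ℂ) * hI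
  have p4 : ((q : ℂ) * (1 + Complex.I)) ^ 4 = -1 := by
    rw [show 4 = 2 * 2 by norm_num, pow_mul, p2, hI]
  have p5 : ((q : ℂ) * (1 + Complex.I)) ^ 5 = -((q : ℂ) * (1 + Complex.I)) := by
    rw [pow_succ, p4]; ring
  have p6 : ((q : ℂ) * (1 + Complex.I)) ^ 6 = -Complex.I := by
    rw [show 6 = 4 + 2 by norm_num, pow_add, p4, p2]; ring
  have p7 : ((q : ℂ) * (1 + Complex.I)) ^ 7 = -((q : ℂ) * (-1 + Complex.I)) := by
    rw [show 7 = 4 + 3 by norm_num, pow_add, p4, p3]; ring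
  rw [p2, p3, p4, p5, p6, p7]
  have hval : (f0 : ℂ) * ((q : ℂ) * (1 + Complex.I)) ^ 0 + (f1 : ℂ) * ((q : ℂ) * (1 + Complex.I)) ^ 1 +
      (f2 : ℂ) * Complex.I + (f1 : ℂ) * ((q : ℂ) * (-1 + Complex.I)) + (f4 : ℂ) * (-1) +
      (f5 : ℂ) * (-((q : ℂ) * (1 + Complex.I))) + (f2 : ℂ) * (-Complex.I) +
      (f5 : ℂ) * (-((q : ℂ) * (-1 + Complex.I))) =
      (((f0 : ℝ) - f4 : ℝ) : ℂ) + ((2 * q * ((f1 : ℝ) - f5) : ℝ) : ℂ) * Complex.I := by
    push_cast; ring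
  rw [hval, Complex.normSq_add_mul_I]
  have : (2 * q * ((f1 : ℝ) - f5)) ^ 2 = 2 * ((f1 : ℝ) - f5) ^ 2 := by
    linear_combination 4 * ((f1 : ℝ) - f5) ^ 2 * hq2
  rw [this]

theorem even_four {ι : Type*} [DecidableEq ι] (s : Finset ι) (e : ι → ZMod 8) (σ : ι → ι)
    (h1 : ∀ x ∈ s, σ x ∈ s) (h2 : ∀ x ∈ s, σ (σ x) = x) (h3 : ∀ x ∈ s, e (σ x) = 3 * e x)
    (h4 : ∀ x ∈ s, σ x = x → e x ≠ 4) : Even (s.filter (fun x => e x = 4)).card := by
  have hs : ∑ x ∈ s.filter (fun x => e x = 4), (1 : ZMod 2) = 0 := by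
    refine Finset.sum_involution (fun x _ => σ x) ?_ ?_ ?_ ?_
    · intro a _; decide
    · intro a ha _ h
      rw [mem_filter] at ha
      exact h4 a ha.1 h ha.2
    · intro a ha
      rw [mem_filter] at ha ⊢
      refine ⟨h1 a ha.1, ?_⟩
      rw [h3 a ha.1, ha.2]
      decide
    · intro a ha
      rw [mem_filter] at ha
      exact h2 a ha.1
  rw [Finset.sum_const, nsmul_eq_mul, mul_one, ZMod.natCast_eq_zero_iff] at hs
  exact even_iff_two_dvd.2 hs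

end SCong
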