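import Pool.Agent.Lib.MP_0a3b9a_nt.Defs

/-!
Module T5: indices.  Fˣ is cyclic (IsCyclic of a finite integral domain); 8 | |Fˣ| gives a surjection to ZMod 8 (send a generator to 1; zmodCyclicMulEquiv and ZMod.castHom).
Its kernel consists of the 8th powers (index 8 in a cyclic group); x = g^m, index = m mod 8 up to a unit of ZMod 8.
ind_sq: the index is even (2 * ind x * ... stated as 4 * ind = 0) iff x is a square.
-/

namespace SCong
open Finset Polynomial

variable {F : Type*} [Field F] [Fintype F]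

theorem exists_ind (h : 8 ∣ Fintype.card F - 1) :
    ∃ f : Fˣ →* Multiplicative (ZMod 8), Function.Surjective f := by
  classical
  have hc : Nat.card Fˣ = Fintype.card F - 1 := by
    rw [Nat.card_eq_fintype_card, Fintype.card_units]
  have h8 : 8 ∣ Nat.card Fˣ := hc ▸ h
  let e := zmodCyclicMulEquiv (G := Fˣ) inferInstance
  let g : ZMod (Nat.card Fˣ) →+ ZMod 8 := (ZMod.castHom h8 (ZMod 8)).toAddMonoidHom
  refine ⟨(AddMonoidHom.toMultiplicative g).comp e.symm.toMonoidHom, ?_⟩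
  have hg : Function.Surjective g := ZMod.castHom_surjective h8
  intro y
  obtain ⟨x, hx⟩ := hg (Multiplicative.toAdd y)
  refine ⟨e (Multiplicative.ofAdd x), ?_⟩
  simp [hx]

omit [Fintype F] in
theorem ind_units (f : Fˣ →* Multiplicative (ZMod 8)) (u : Fˣ) :
    ind f (u : F) = Multiplicative.toAdd (f u) := by
  unfold ind
  rw [dif_neg u.ne_zero]
  congr 2
  ext
  rfl

theorem ind_mul (f : Fˣ →* Multiplicative (ZMod 8)) {x y : F} (hx : x ≠ 0) (hy : y ≠ 0) :
    ind f (x * y) = ind f x + ind f y := by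
  have h := ind_units f (Units.mk0 x hx * Units.mk0 y hy)
  have h1 := ind_units f (Units.mk0 x hx)
  have h2 := ind_units f (Units.mk0 y hy)
  rw [map_mul, toAdd_mul, ← h1, ← h2] at h
  simpa using h

omit [Fintype F] in
theorem ind_one (f : Fˣ →* Multiplicative (ZMod 8)) : ind f (1 : F) = 0 := by
  have h := ind_units f (1 : Fˣ)
  simpa using h

theorem ind_pow (f : Fˣ →* Multiplicative (ZMod 8)) {x : F} (hx : x ≠ 0) (n : ℕ) :
    ind f (x ^ n) = n * ind f x := by
  induction n with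
  | zero => simp [ind_one]
  | succ n ih =>
    rw [pow_succ, ind_mul f (pow_ne_zero n hx) hx, ih]
    push_cast
    ring

/-- a generator, and its index is a unit. -/
theorem exists_gen (f : Fˣ →* Multiplicative (ZMod 8)) (hf : Function.Surjective f) :
    ∃ g : F, g ≠ 0 ∧ IsUnit (ind f g) ∧ ∀ x : F, x ≠ 0 → ∃ m : ℕ, x = g ^ m := by
  obtain ⟨g, hg⟩ := IsCyclic.exists_monoid_generator (α := Fˣ)
  have hgen : ∀ x : F, x ≠ 0 → ∃ m : ℕ, x = (g : F) ^ m := by
    intro x hx
    obtain ⟨m, hm⟩ := Submonoid.mem_powers_iff _ _ |>.1 (hg (Units.mk0 x hx))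
    refine ⟨m, ?_⟩
    have := congrArg (fun u : Fˣ => (u : F)) hm
    simpa using this.symm
  refine ⟨g, g.ne_zero, ?_, hgen⟩
  obtain ⟨u, hu⟩ := hf (Multiplicative.ofAdd 1)
  obtain ⟨m, hm⟩ := hgen u u.ne_zero
  have h1 := ind_units f u
  rw [hu, hm, ind_pow f g.ne_zero] at h1
  exact IsUnit.of_mul_eq_one_right _ h1

theorem zmod8_unit {c : ZMod 8} (hc : IsUnit c) : c * c = 1 := by
  obtain ⟨u, rfl⟩ := hc
  revert u
  decide

/-- `4 ind x = 0` iff `x` is a square. -/
theorem ind_square (f : Fˣ →* Multiplicative (ZMod 8)) (hf : Function.Surjective f) {x : F} (hx : x ≠ 0) :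
    4 * ind f x = 0 ↔ IsSquare x := by
  obtain ⟨g, hg0, hgu, hg⟩ := exists_gen f hf
  constructor
  · intro h
    obtain ⟨m, rfl⟩ := hg x hx
    rw [ind_pow f hg0] at h
    have h1 : (4 : ZMod 8) * (m : ZMod 8) = 0 := by
      have := zmod8_unit hgu
      linear_combination (ind f g) * h - 4 * (m : ZMod 8) * this
    have h2 : (8 : ℕ) ∣ 4 * m := by
      rw [← ZMod.natCast_eq_zero_iff]; push_cast; exact h1
    obtain ⟨k, hk⟩ : ∃ k, m = k + k := ⟨m / 2, by omega⟩
    exact ⟨g ^ k, by rw [hk, pow_add]⟩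
  · rintro ⟨y, rfl⟩
    have hy : y ≠ 0 := by rintro rfl; simp at hx
    rw [ind_mul f hy hy]
    have h8 : (8 : ZMod 8) = 0 := by decide
    linear_combination (ind f y) * h8

/-- `2 ind x = 0` (index 0 or 4) iff `x` is a fourth power. -/
theorem ind_fourth (f : Fˣ →* Multiplicative (ZMod 8)) (hf : Function.Surjective f) {x : F} (hx : x ≠ 0) :
    (ind f x = 0 ∨ ind f x = 4) ↔ ∃ y : F, x = y ^ 4 := by
  have key : ∀ a : ZMod 8, (a = 0 ∨ a = 4) ↔ 2 * a = 0 := by decide
  rw [key]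
  obtain ⟨g, hg0, hgu, hg⟩ := exists_gen f hf
  have h8 : (8 : ZMod 8) = 0 := by decide
  constructor
  · intro h
    obtain ⟨m, rfl⟩ := hg x hx
    rw [ind_pow f hg0] at h
    have h1 : (2 : ZMod 8) * (m : ZMod 8) = 0 := by
      have := zmod8_unit hgu
      linear_combination (ind f g) * h - 2 * (m : ZMod 8) * this
    have h2 : (8 : ℕ) ∣ 2 * m := by
      rw [← ZMod.natCast_eq_zero_iff]; push_cast; exact h1
    obtain ⟨k, hk⟩ : ∃ k, m = k * 4 := ⟨m / 4, by omega⟩
    exact ⟨g ^ k, by rw [hk, pow_mul]⟩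
  · rintro ⟨y, rfl⟩
    have hy : y ≠ 0 := by rintro rfl; simp at hx
    rw [ind_pow f hy]
    push_cast
    linear_combination (ind f y) * h8

theorem ze_add (a b : ZMod 8) : ze (a + b) = ze a * ze b := by
  unfold ze
  rw [← Complex.exp_add]
  rw [Complex.exp_eq_exp_iff_exists_int]
  have h1 : ((a + b).val : ℤ) = (a.val : ℤ) + b.val - 8 * (((a.val + b.val) / 8 : ℕ) : ℤ) := by
    rw [ZMod.val_add]
    omega
  refine ⟨-(((a.val + b.val) / 8 : ℕ) : ℤ), ?_⟩
  have h2 : (((a + b).val : ℤ) : ℂ) = (((a.val : ℤ) + b.val - 8 * (((a.val + b.val) / 8 : ℕ) : ℤ) : ℤ) : ℂ) := by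
    rw [h1]
  push_cast at h2 ⊢
  rw [h2]
  ring

end SCong
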