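import Pool.Agent.Lib.MP_0a3b9a_nt.T5

/-!
Module T7A (p ≡ 3 mod 8).  L has p² elements, i² = -1, i is not in ZMod p, every element of L is x + yi; χ(α) = ze(ind f α), χ is nontrivial on (ZMod p)ˣ:
 -1 = i², and a generator of (ZMod p)ˣ is g^(p+1) with p+1 ≡ 4 mod 8, so χ restricted to ZMod p is the quadratic character.
E = Σ_b χ(1+bi).  |E|² = Σ_{b,b'} χ((1+bi)/(1+b'i)) = p + Σ_{γ ∉ ZMod p} χ(γ) = p + 0 - Σ_{t ∈ (ZMod p)ˣ} χ(t) = p: (b,b') -> (1+bi)/(1+b'i), b ≠ b', is a bijection onto L minus ZMod p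
(p(p-1) = p²-p elements; injective: γ(1+b'i) = 1+bi and γ(1+b2'i) = 1+b2 i with b' ≠ b2' gives, by subtraction, γ = (b-b2)/(b'-b2') ∈ ZMod p).
Or use Gauss sums: G_L(χ) = G(χ|) E.
-/

namespace SCong
open Finset Polynomial
variable {p : ℕ} [Fact p.Prime]

theorem T7A_ringChar {L : Type*} [Field L] [Fintype L] [Algebra (ZMod p) L] (h : p % 8 = 3) :
    ringChar L ≠ 2 := by
  have hc : CharP L p := charP_of_injective_algebraMap (algebraMap (ZMod p) L).injective p
  rw [ringChar.eq L p]
  omega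

theorem T7A_ind_neg_one {L : Type*} [Field L] [Fintype L] [Algebra (ZMod p) L] (h : p % 8 = 3)
    (hL : Fintype.card L = p ^ 2) (f : Lˣ →* Multiplicative (ZMod 8)) (hf : Function.Surjective f) :
    ind f (-1 : L) = 4 := by
  obtain ⟨u, hu⟩ := hf (Multiplicative.ofAdd 1)
  have hu0 : (u : L) ≠ 0 := u.ne_zero
  have hiu : ind f (u : L) = 1 := by
    unfold ind
    rw [dif_neg hu0]
    have : Units.mk0 (u : L) hu0 = u := by ext; rfl
    rw [this, hu]
    rfl
  have hns : ¬ IsSquare (u : L) := by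
    rw [← ind_square f hf hu0, hiu]
    decide
  have h2 := T7A_ringChar (L := L) h
  have h3 : (u : L) ^ (Fintype.card L / 2) = -1 := by
    rcases FiniteField.pow_dichotomy h2 hu0 with h4 | h4
    · exact absurd ((FiniteField.isSquare_iff h2 hu0).2 h4) hns
    · exact h4
  rw [← h3, ind_pow f hu0, hiu, hL, mul_one]
  obtain ⟨m, hm⟩ : ∃ m, p = 8 * m + 3 := ⟨p / 8, by omega⟩
  have h5 : p ^ 2 / 2 = 8 * (4 * m ^ 2 + 3 * m) + 4 := by
    rw [hm]
    have : (8 * m + 3) ^ 2 = 2 * (8 * (4 * m ^ 2 + 3 * m) + 4) + 1 := by ring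
    omega
  rw [h5]
  push_cast
  have h8 : (8 : ZMod 8) = 0 := by decide
  rw [h8, zero_mul, zero_add]

/-- the index of an element of the prime field is `0` or `4`, and it is `0` iff the element is a square in the prime field. -/
theorem ind_prime {L : Type*} [Field L] [Fintype L] [Algebra (ZMod p) L] (h : p % 8 = 3)
    (hL : Fintype.card L = p ^ 2) (f : Lˣ →* Multiplicative (ZMod 8)) (hf : Function.Surjective f)
    {t : ZMod p} (ht : t ≠ 0) :
    ind f (algebraMap (ZMod p) L t) = if IsSquare t then 0 else 4 := by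
  have hinj := (algebraMap (ZMod p) L).injective
  have key : ∀ s : ZMod p, s ≠ 0 → 2 * ind f (algebraMap (ZMod p) L s) = 0 := by
    intro s hs
    have hs' : algebraMap (ZMod p) L s ≠ 0 := fun h0 => hs (hinj (by rw [h0, map_zero]))
    have h1 : (algebraMap (ZMod p) L s) ^ (p - 1) = 1 := by
      rw [← map_pow, ZMod.pow_card_sub_one_eq_one hs, map_one]
    have h2 := ind_pow f hs' (p - 1)
    rw [h1] at h2
    have h3 : ind f (1 : L) = 0 := by
      have := ind_mul f (one_ne_zero (α := L)) (one_ne_zero (α := L))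
      rw [mul_one] at this
      exact left_eq_add.mp this
    rw [h3] at h2
    obtain ⟨m, hm⟩ : ∃ m, p = 8 * m + 3 := ⟨p / 8, by omega⟩
    have h4 : p - 1 = 8 * m + 2 := by omega
    rw [h4] at h2
    push_cast at h2
    have h8 : (8 : ZMod 8) = 0 := by decide
    rw [h8, zero_mul, zero_add] at h2
    exact h2.symm
  have sq : ∀ s : ZMod p, s ≠ 0 → ind f (algebraMap (ZMod p) L (s * s)) = 0 := by
    intro s hs
    have hs' : algebraMap (ZMod p) L s ≠ 0 := fun h0 => hs (hinj (by rw [h0, map_zero]))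
    rw [map_mul, ind_mul f hs' hs', ← two_mul]
    exact key s hs
  split_ifs with hsq
  · obtain ⟨s, rfl⟩ := hsq
    exact sq s (fun h0 => ht (by rw [h0, mul_zero]))
  · have hm1 : ¬ IsSquare (-1 : ZMod p) := by
      rintro ⟨r, hr⟩
      have hr2 : r ^ 2 = -1 := by rw [pow_two]; exact hr.symm
      have := ZMod.mod_four_ne_three_of_sq_eq_neg_one (p := p) (y := r) hr2
      omega
    have h3 : IsSquare (-t) := by
      have hp2 : ringChar (ZMod p) ≠ 2 := by rw [ZMod.ringChar_zmod_n]; omega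
      have a1 : quadraticChar (ZMod p) t = -1 := quadraticChar_neg_one_iff_not_isSquare.2 hsq
      have a2 : quadraticChar (ZMod p) (-1) = -1 := quadraticChar_neg_one_iff_not_isSquare.2 hm1
      have a3 : quadraticChar (ZMod p) (-t) = 1 := by
        rw [← neg_one_mul, map_mul, a1, a2]; norm_num
      exact (quadraticChar_one_iff_isSquare (neg_ne_zero.2 ht)).1 a3
    obtain ⟨s, hs⟩ := h3
    have hs0 : s ≠ 0 := by
      rintro rfl
      apply ht
      rw [mul_zero] at hs
      exact neg_eq_zero.1 hs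
    have h4 : t = (-1) * (s * s) := by rw [← hs]; ring
    have hss : algebraMap (ZMod p) L (s * s) ≠ 0 := by
      intro h0
      have : s * s = 0 := hinj (by rw [h0, map_zero])
      exact hs0 (mul_self_eq_zero.1 this)
    rw [h4, map_mul, map_neg, map_one, ind_mul f (by simp) hss, sq s hs0, add_zero,
      T7A_ind_neg_one h hL f hf]

theorem T7A_no_root {L : Type*} [Field L] [Fintype L] [Algebra (ZMod p) L] (h : p % 8 = 3)
    {i : L} (hi : i ^ 2 = -1) (t : ZMod p) : algebraMap (ZMod p) L t ≠ i := by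
  intro h1
  have hinj := (algebraMap (ZMod p) L).injective
  have h2 : t ^ 2 = -1 := hinj (by rw [map_pow, h1, hi, map_neg, map_one])
  have := ZMod.mod_four_ne_three_of_sq_eq_neg_one (p := p) (y := t) h2
  omega

/-- coordinates -/
theorem T7A_inj {L : Type*} [Field L] [Fintype L] [Algebra (ZMod p) L] (h : p % 8 = 3)
    {i : L} (hi : i ^ 2 = -1) {x y x' y' : ZMod p}
    (he : algebraMap (ZMod p) L x + algebraMap (ZMod p) L y * i =
      algebraMap (ZMod p) L x' + algebraMap (ZMod p) L y' * i) : x = x' ∧ y = y' := by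
  have hinj := (algebraMap (ZMod p) L).injective
  have h1 : algebraMap (ZMod p) L (y - y') * i = algebraMap (ZMod p) L (x' - x) := by
    rw [map_sub, map_sub]; linear_combination he
  have hy : y = y' := by
    by_contra hne
    have h2 : y - y' ≠ 0 := sub_ne_zero.2 hne
    have h3 : algebraMap (ZMod p) L (y - y') ≠ 0 := fun h0 => h2 (hinj (by rw [h0, map_zero]))
    refine T7A_no_root h hi ((x' - x) / (y - y')) ?_
    rw [map_div₀, ← h1, mul_comm, mul_div_assoc, div_self h3, mul_one]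
  refine ⟨?_, hy⟩
  rw [hy, sub_self, map_zero, zero_mul] at h1
  have : x' - x = 0 := hinj (by rw [← h1, map_zero])
  exact (sub_eq_zero.1 this).symm

theorem T7A_bij {L : Type*} [Field L] [Fintype L] [Algebra (ZMod p) L] (h : p % 8 = 3)
    (hL : Fintype.card L = p ^ 2) {i : L} (hi : i ^ 2 = -1) :
    Function.Bijective (fun w : ZMod p × ZMod p =>
      algebraMap (ZMod p) L w.1 + algebraMap (ZMod p) L w.2 * i) := by
  rw [Fintype.bijective_iff_injective_and_card]
  refine ⟨?_, ?_⟩
  · rintro ⟨x, y⟩ ⟨x', y'⟩ he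
    obtain ⟨h1, h2⟩ := T7A_inj h hi he
    exact Prod.ext h1 h2
  · rw [Fintype.card_prod, ZMod.card, hL, sq]

theorem T7A_ne_zero {L : Type*} [Field L] [Fintype L] [Algebra (ZMod p) L] (h : p % 8 = 3)
    {i : L} (hi : i ^ 2 = -1) (b : ZMod p) : 1 + algebraMap (ZMod p) L b * i ≠ 0 := by
  intro h0
  have h1 : algebraMap (ZMod p) L 1 + algebraMap (ZMod p) L b * i =
      algebraMap (ZMod p) L 0 + algebraMap (ZMod p) L 0 * i := by
    rw [map_one, map_zero, h0]; ring
  exact one_ne_zero (T7A_inj h hi h1).1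

theorem T7A_den {p : ℕ} [Fact p.Prime] (h : p % 8 = 3) (b : ZMod p) : 1 + b ^ 2 ≠ 0 := by
  intro h0
  have h2 : b ^ 2 = -1 := by linear_combination h0
  have := ZMod.mod_four_ne_three_of_sq_eq_neg_one (p := p) (y := b) h2
  omega

theorem T7A_ze_zero : ze 0 = 1 := by
  unfold ze
  simp

theorem T7A_ze_norm (a : ZMod 8) : Complex.normSq (ze a) = 1 := by
  have : ‖ze a‖ = 1 := by
    unfold ze
    have : 2 * (Real.pi : ℂ) * Complex.I * (a.val : ℂ) / 8 =
        ((2 * Real.pi * a.val / 8 : ℝ) : ℂ) * Complex.I := by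
      push_cast; ring
    rw [this, Complex.norm_exp_ofReal_mul_I]
  rw [Complex.normSq_eq_norm_sq, this]; norm_num

theorem T7A_ze_conj (a : ZMod 8) : (starRingEnd ℂ) (ze a) = ze (-a) := by
  have h1 : ze a * (starRingEnd ℂ) (ze a) = 1 := by
    rw [Complex.mul_conj, T7A_ze_norm]; norm_num
  have h2 : ze a * ze (-a) = 1 := by
    rw [← ze_add, add_neg_cancel, T7A_ze_zero]
  have h3 : ze a ≠ 0 := by
    intro h0; rw [h0, zero_mul] at h2; exact zero_ne_one h2
  exact mul_left_cancel₀ h3 (h1.trans h2.symm)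

theorem T7A_ze_four : ze 4 = -1 := by
  unfold ze
  have : 2 * (Real.pi : ℂ) * Complex.I * (((4 : ZMod 8).val : ℕ) : ℂ) / 8 = Real.pi * Complex.I := by
    have : ((4 : ZMod 8).val) = 4 := by decide
    rw [this]; push_cast; ring
  rw [this, Complex.exp_pi_mul_I]

/-- the character -/
noncomputable def T7A_X {L : Type*} [Field L] (f : Lˣ →* Multiplicative (ZMod 8)) (x : L) : ℂ :=
  open Classical in if x = 0 then 0 else ze (ind f x)

theorem T7A_X_of {L : Type*} [Field L] (f : Lˣ →* Multiplicative (ZMod 8)) {x : L} (hx : x ≠ 0) :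
    T7A_X f x = ze (ind f x) := by
  unfold T7A_X; rw [if_neg hx]

theorem T7A_X_zero {L : Type*} [Field L] (f : Lˣ →* Multiplicative (ZMod 8)) :
    T7A_X f (0 : L) = 0 := by
  unfold T7A_X; rw [if_pos rfl]

theorem T7A_X_neg {L : Type*} [Field L] [Fintype L] [Algebra (ZMod p) L] (h : p % 8 = 3)
    (hL : Fintype.card L = p ^ 2) (f : Lˣ →* Multiplicative (ZMod 8)) (hf : Function.Surjective f)
    (x : L) : T7A_X f (-x) = - T7A_X f x := by
  by_cases hx : x = 0
  · rw [hx, neg_zero, T7A_X_zero, neg_zero]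
  · rw [T7A_X_of f hx, T7A_X_of f (neg_ne_zero.2 hx), ← neg_one_mul,
      ind_mul f (by simp) hx, T7A_ind_neg_one h hL f hf, ze_add, T7A_ze_four]
    ring

theorem T7A_X_div {L : Type*} [Field L] [Fintype L] (f : Lˣ →* Multiplicative (ZMod 8))
    {x y : L} (hx : x ≠ 0) (hy : y ≠ 0) :
    ze (ind f x) * (starRingEnd ℂ) (ze (ind f y)) = T7A_X f (x / y) := by
  rw [T7A_X_of f (div_ne_zero hx hy), T7A_ze_conj, ← ze_add]
  congr 1
  have h1 : ind f (x / y * y) = ind f (x / y) + ind f y := ind_mul f (div_ne_zero hx hy) hy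
  rw [div_mul_cancel₀ x hy] at h1
  rw [h1]; ring

theorem norm_three {L : Type*} [Field L] [Fintype L] [Algebra (ZMod p) L] (h : p % 8 = 3)
    (hL : Fintype.card L = p ^ 2) (f : Lˣ →* Multiplicative (ZMod 8)) (hf : Function.Surjective f)
    {i : L} (hi : i ^ 2 = -1) :
    Complex.normSq (∑ b : ZMod p, ze (ind f (1 + algebraMap (ZMod p) L b * i))) = p := by
  classical
  set A := algebraMap (ZMod p) L with hA
  have hinj := (algebraMap (ZMod p) L).injective
  have hX := T7A_X_neg h hL f hf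
  -- sum over L is zero
  have s1 : ∑ w : ZMod p × ZMod p, T7A_X f (A w.1 + A w.2 * i) = 0 := by
    have e1 : ∑ w : ZMod p × ZMod p, T7A_X f (A w.1 + A w.2 * i) =
        ∑ w : ZMod p × ZMod p, T7A_X f (A (-w).1 + A (-w).2 * i) :=
      (Equiv.sum_comp (Equiv.neg (ZMod p × ZMod p))
        (fun w => T7A_X f (A w.1 + A w.2 * i))).symm
    have e2 : ∑ w : ZMod p × ZMod p, T7A_X f (A (-w).1 + A (-w).2 * i) =
        - ∑ w : ZMod p × ZMod p, T7A_X f (A w.1 + A w.2 * i) := by
      rw [← Finset.sum_neg_distrib]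
      refine Finset.sum_congr rfl (fun w _ => ?_)
      rw [← hX]
      congr 1
      rw [Prod.fst_neg, Prod.snd_neg, map_neg, map_neg]; ring
    rw [e2] at e1
    have := add_self_eq_zero.1 (show _ + _ = (0 : ℂ) from by linear_combination e1)
    exact this
  have s2 : ∑ x : ZMod p, T7A_X f (A x) = 0 := by
    have e1 : ∑ x : ZMod p, T7A_X f (A x) = ∑ x : ZMod p, T7A_X f (A (-x)) :=
      (Equiv.sum_comp (Equiv.neg (ZMod p)) (fun x => T7A_X f (A x))).symm
    have e2 : ∑ x : ZMod p, T7A_X f (A (-x)) = - ∑ x : ZMod p, T7A_X f (A x) := by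
      rw [← Finset.sum_neg_distrib]
      refine Finset.sum_congr rfl (fun x _ => ?_)
      rw [← hX, map_neg]
    rw [e2] at e1
    have := add_self_eq_zero.1 (show _ + _ = (0 : ℂ) from by linear_combination e1)
    exact this
  have s3 : ∑ w ∈ (univ : Finset (ZMod p × ZMod p)).filter (fun w => w.2 ≠ 0),
      T7A_X f (A w.1 + A w.2 * i) = 0 := by
    have e1 := Finset.sum_filter_add_sum_filter_not (univ : Finset (ZMod p × ZMod p))
      (fun w => w.2 ≠ 0) (fun w => T7A_X f (A w.1 + A w.2 * i))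
    rw [s1] at e1
    have e2 : ∑ w ∈ (univ : Finset (ZMod p × ZMod p)).filter (fun w => ¬ w.2 ≠ 0),
        T7A_X f (A w.1 + A w.2 * i) = ∑ x : ZMod p, T7A_X f (A x) := by
      symm
      refine Finset.sum_bij' (fun x _ => ((x, 0) : ZMod p × ZMod p)) (fun w _ => w.1) ?_ ?_ ?_ ?_ ?_
      · intro x _; simp
      · intro w _; simp
      · intro x _; rfl
      · rintro ⟨x, y⟩ hw
        simp only [ne_eq, not_not, mem_filter, mem_univ, true_and] at hw
        simp only [hw]
      · intro x _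
        simp
    rw [e2, s2, add_zero] at e1
    exact e1
  -- the double sum
  have s4 : ((Complex.normSq (∑ b : ZMod p, ze (ind f (1 + A b * i))) : ℝ) : ℂ) =
      ∑ w : ZMod p × ZMod p, T7A_X f ((1 + A w.1 * i) / (1 + A w.2 * i)) := by
    rw [← Complex.mul_conj, map_sum, Finset.sum_mul_sum, ← Finset.univ_product_univ,
      Finset.sum_product]
    refine Finset.sum_congr rfl (fun b _ => Finset.sum_congr rfl (fun b' _ => ?_))
    exact T7A_X_div f (T7A_ne_zero h hi b) (T7A_ne_zero h hi b')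
  have s5 : ∑ w ∈ (univ : Finset (ZMod p × ZMod p)).filter (fun w => w.1 ≠ w.2),
      T7A_X f ((1 + A w.1 * i) / (1 + A w.2 * i)) = 0 := by
    rw [← s3]
    have hden : ∀ b : ZMod p, 1 + b ^ 2 ≠ 0 := T7A_den h
    have hsum : ∀ x y : ZMod p, y ≠ 0 → y ^ 2 + (x - 1) ^ 2 ≠ 0 := by
      intro x y hy h0
      apply hden ((x - 1) / y)
      field_simp
      rw [h0, mul_zero]
    refine Finset.sum_bij'
      (fun w _ => (((1 + w.1 * w.2) / (1 + w.2 ^ 2), (w.1 - w.2) / (1 + w.2 ^ 2)) : ZMod p × ZMod p))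
      (fun w _ => ((w.2 + w.1 * ((w.1 - 1) / w.2), (w.1 - 1) / w.2) : ZMod p × ZMod p)) ?_ ?_ ?_ ?_ ?_
    · rintro ⟨b, b'⟩ hw
      simp only [ne_eq, mem_filter, mem_univ, true_and] at hw ⊢
      exact div_ne_zero (sub_ne_zero.2 hw) (hden b')
    · rintro ⟨x, y⟩ hw
      simp only [ne_eq, mem_filter, mem_univ, true_and] at hw ⊢
      intro h0
      apply hsum x y hw
      field_simp at h0
      linear_combination h0
    · rintro ⟨b, b'⟩ hw
      simp only [ne_eq, mem_filter, mem_univ, true_and] at hw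
      have h1 := hden b'
      have h2 : b - b' ≠ 0 := sub_ne_zero.2 hw
      have h3 : ((1 + b * b') / (1 + b' ^ 2) - 1) / ((b - b') / (1 + b' ^ 2)) = b' := by
        rw [div_sub_one h1, div_div_div_cancel_right₀ h1, div_eq_iff h2]
        ring
      ext
      · show (b - b') / (1 + b' ^ 2) + (1 + b * b') / (1 + b' ^ 2) *
          (((1 + b * b') / (1 + b' ^ 2) - 1) / ((b - b') / (1 + b' ^ 2))) = b
        rw [h3]
        field_simp
        ring
      · exact h3
    · rintro ⟨x, y⟩ hw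
      simp only [ne_eq, mem_filter, mem_univ, true_and] at hw
      have h1 : 1 + ((x - 1) / y) ^ 2 ≠ 0 := hden _
      have h2 := hsum x y hw
      ext
      · show (1 + (y + x * ((x - 1) / y)) * ((x - 1) / y)) / (1 + ((x - 1) / y) ^ 2) = x
        rw [div_eq_iff h1]
        field_simp
        ring
      · show ((y + x * ((x - 1) / y)) - (x - 1) / y) / (1 + ((x - 1) / y) ^ 2) = y
        rw [div_eq_iff h1]
        field_simp
        ring
    · rintro ⟨b, b'⟩ hw
      have h1 := hden b'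
      have h2 : A (1 + b' ^ 2) ≠ 0 := fun h0 => h1 (hinj (by rw [← hA, h0, map_zero]))
      congr 1
      show (1 + A b * i) / (1 + A b' * i) =
        A ((1 + b * b') / (1 + b' ^ 2)) + A ((b - b') / (1 + b' ^ 2)) * i
      rw [div_eq_iff (T7A_ne_zero h hi b'), map_div₀, map_div₀]
      field_simp
      rw [map_add, map_add, map_sub, map_mul, map_pow, map_one]
      linear_combination (-(A b - A b') * A b') * hi
  have s6 : ∑ w ∈ (univ : Finset (ZMod p × ZMod p)).filter (fun w => ¬ w.1 ≠ w.2),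
      T7A_X f ((1 + A w.1 * i) / (1 + A w.2 * i)) = p := by
    have e1 : ∑ w ∈ (univ : Finset (ZMod p × ZMod p)).filter (fun w => ¬ w.1 ≠ w.2),
        T7A_X f ((1 + A w.1 * i) / (1 + A w.2 * i)) = ∑ x : ZMod p, (1 : ℂ) := by
      symm
      refine Finset.sum_bij' (fun x _ => ((x, x) : ZMod p × ZMod p)) (fun w _ => w.1) ?_ ?_ ?_ ?_ ?_
      · intro x _; simp
      · intro w _; simp
      · intro x _; rfl
      · rintro ⟨x, y⟩ hw
        simp only [ne_eq, not_not, mem_filter, mem_univ, true_and] at hw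
        simp only [hw]
      · intro x _
        show (1 : ℂ) = T7A_X f ((1 + A x * i) / (1 + A x * i))
        rw [div_self (T7A_ne_zero h hi x), T7A_X_of f one_ne_zero]
        have h3 : ind f (1 : L) = 0 := by
          have := ind_mul f (one_ne_zero (α := L)) (one_ne_zero (α := L))
          rw [mul_one] at this
          exact left_eq_add.mp this
        rw [h3, T7A_ze_zero]
    rw [e1]
    simp [ZMod.card]
  have s7 := Finset.sum_filter_add_sum_filter_not (univ : Finset (ZMod p × ZMod p))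
      (fun w => w.1 ≠ w.2) (fun w => T7A_X f ((1 + A w.1 * i) / (1 + A w.2 * i)))
  rw [s5, s6, zero_add, ← s4] at s7
  exact_mod_cast s7.symm

end SCong
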