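import Pool.Agent.Lib.MP_0a3b9a_nt.W1

/-!
Module V1: relations for H0, H1, G0, G1 (α = Q/L³, Q = 9y(1+y+y²), L = 1+2y; θα/α = (1-y)²/((1+y+y²)L); 1-α = (1-y)³/L³).
θ(Q^k L^(p-1-3k)) = Q^k L^(p-1-3k) [k θα/α - 2y/L] (p = 0), so
 (1) (1+y+y²) L θH0 = (1-y)² H1 - 2y(1+y+y²) H0, the same for θH1 with H2 = sum k² ..; 
 (3) (1-y)³ H2 = 9y(1+y+y²)(H1 + (2/9) H0) from (k+1)² cc(k+1) = (k+1/3)(k+2/3) cc k (top term k = p/3 has (k+1/3)(k+2/3) = 0): L³ H2 = Q (H2 + H1 + (2/9)H0).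
 Together: (2) (1-y) L θH1 = y(9 H1 + 2 H0) - 2y(1-y) H1 (multiply (1) for H1 by (1-y), insert (3), cancel 1+y+y²).
G_rel: θ(Q^k L^(2p-1-3k)) the same way (2p-1 = -1).
The exponents p-1-3k (k <= p/3) and 2p-1-3k (k <= 2p/3) are natural numbers without truncation.
-/

namespace SCong
open Finset Polynomial
variable {p : ℕ} [Fact p.Prime]

theorem V1_Q (k : ℕ) : (1 + X + X ^ 2) * (X * derivative (QQ p ^ k)) =
    (k : (ZMod p)[X]) * (1 + 2 * X + 3 * X ^ 2) * QQ p ^ k := by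
  have h : derivative (QQ p) = 9 * (1 + 2 * X + 3 * X ^ 2) := by
    have h9 : (9 : (ZMod p)[X]) = C 9 := (map_ofNat C 9).symm
    unfold QQ
    rw [h9, mul_assoc, derivative_C_mul, derivative_mul]
    simp only [derivative_X, derivative_add, derivative_one, derivative_X_pow]
    push_cast
    have h2 : (C 2 : (ZMod p)[X]) = 2 := map_ofNat C 2
    rw [h2]
    ring
  cases k with
  | zero => simp
  | succ m =>
    rw [derivative_pow, Nat.add_sub_cancel, h]
    have h3 : (C ((m + 1 : ℕ) : ZMod p) : (ZMod p)[X]) = ((m + 1 : ℕ) : (ZMod p)[X]) := by simp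
    rw [h3, pow_succ]
    unfold QQ
    ring

theorem V1_L (e : ℕ) : LL p * (X * derivative (LL p ^ e)) =
    (e : (ZMod p)[X]) * (2 * X) * LL p ^ e := by
  have h : derivative (LL p) = 2 := by
    have h2 : (2 : (ZMod p)[X]) = C 2 := (map_ofNat C 2).symm
    unfold LL
    rw [h2, derivative_add, derivative_one, derivative_C_mul, derivative_X]
    simp
  cases e with
  | zero => simp
  | succ m =>
    rw [derivative_pow, Nat.add_sub_cancel, h]
    have h3 : (C ((m + 1 : ℕ) : ZMod p) : (ZMod p)[X]) = ((m + 1 : ℕ) : (ZMod p)[X]) := by simp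
    rw [h3, pow_succ]
    ring

theorem V1_term (k e : ℕ) (he : (e : ZMod p) = -1 - 3 * (k : ZMod p)) :
    (1 + X + X ^ 2) * LL p * (X * derivative (QQ p ^ k * LL p ^ e)) =
      (1 - X) ^ 2 * ((k : (ZMod p)[X]) * (QQ p ^ k * LL p ^ e)) -
        2 * X * (1 + X + X ^ 2) * (QQ p ^ k * LL p ^ e) := by
  have he' : (e : (ZMod p)[X]) = -1 - 3 * (k : (ZMod p)[X]) := by
    have := congrArg (C : ZMod p → (ZMod p)[X]) he
    rw [map_sub, map_mul, map_neg, map_one, map_natCast, map_natCast, map_ofNat] at this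
    exact this
  rw [derivative_mul]
  have h1 := V1_Q (p := p) k
  have h2 := V1_L (p := p) e
  rw [he'] at h2
  have h3 : LL p = 1 + 2 * X := rfl
  linear_combination (LL p ^ e * LL p) * h1 + ((1 + X + X ^ 2) * QQ p ^ k) * h2 +
    ((k : (ZMod p)[X]) * (1 + 2 * X + 3 * X ^ 2) * QQ p ^ k * LL p ^ e) * h3

/-- general sums -/
noncomputable def V1_S (p : ℕ) [Fact p.Prime] (N E : ℕ) (f : ℕ → ZMod p) : (ZMod p)[X] :=
  ∑ k ∈ range N, C (f k) * QQ p ^ k * LL p ^ (E - 3 * k)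

theorem V1_rel (N E : ℕ) (f : ℕ → ZMod p) (hE : (E : ZMod p) = -1) (hN : ∀ k < N, 3 * k ≤ E) :
    (1 + X + X ^ 2) * LL p * (X * derivative (V1_S p N E f)) =
      (1 - X) ^ 2 * V1_S p N E (fun k => (k : ZMod p) * f k) -
        2 * X * (1 + X + X ^ 2) * V1_S p N E f := by
  unfold V1_S
  rw [derivative_sum, mul_sum, mul_sum, mul_sum, mul_sum, ← sum_sub_distrib]
  refine sum_congr rfl fun k hk => ?_
  have he : ((E - 3 * k : ℕ) : ZMod p) = -1 - 3 * (k : ZMod p) := by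
    rw [Nat.cast_sub (hN k (mem_range.1 hk)), hE]
    push_cast
    ring
  have h := V1_term k (E - 3 * k) he
  rw [mul_assoc (C (f k)), derivative_C_mul, C_mul, mul_assoc (C (k : ZMod p) * C (f k))]
  have hk' : (C (k : ZMod p) : (ZMod p)[X]) = (k : (ZMod p)[X]) := by simp
  rw [hk']
  linear_combination C (f k) * h

theorem V1_mod3 (hp : 5 ≤ p) : p % 3 = 1 ∨ p % 3 = 2 := by
  have hpr : p.Prime := Fact.out
  have h : p % 3 ≠ 0 := by
    intro h0
    have h1 : 3 ∣ p := Nat.dvd_of_mod_eq_zero h0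
    have := (Nat.prime_dvd_prime_iff_eq Nat.prime_three hpr).1 h1
    omega
  omega

theorem V1_top (hp : 5 ≤ p) :
    (((p / 3 : ℕ) : ZMod p) + 1 / 3) * (((p / 3 : ℕ) : ZMod p) + 2 / 3) = 0 := by
  have h3 := (ne_of_five (p := p) hp).2
  have hp0 : (p : ZMod p) = 0 := ZMod.natCast_self p
  rcases V1_mod3 hp with h | h
  · have h1 : 3 * (p / 3) + 1 = p := by omega
    have h2 : (3 : ZMod p) * ((p / 3 : ℕ) : ZMod p) + 1 = 0 := by
      have := congrArg (Nat.cast : ℕ → ZMod p) h1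
      push_cast at this
      rw [this]; exact hp0
    have h4 : ((p / 3 : ℕ) : ZMod p) + 1 / 3 = 0 := by
      field_simp
      linear_combination h2
    rw [h4, zero_mul]
  · have h1 : 3 * (p / 3) + 2 = p := by omega
    have h2 : (3 : ZMod p) * ((p / 3 : ℕ) : ZMod p) + 2 = 0 := by
      have := congrArg (Nat.cast : ℕ → ZMod p) h1
      push_cast at this
      rw [this]; exact hp0
    have h4 : ((p / 3 : ℕ) : ZMod p) + 2 / 3 = 0 := by
      field_simp
      linear_combination h2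
    rw [h4, mul_zero]

theorem V1_ccs {k : ℕ} (hk : k + 1 < p) :
    ((k : ZMod p) + 1) ^ 2 * cc (ZMod p) (k + 1) =
      ((k : ZMod p) + 1 / 3) * ((k : ZMod p) + 2 / 3) * cc (ZMod p) k := by
  unfold cc
  rw [prod_range_succ]
  have h := succ_ne (p := p) hk
  field_simp

theorem V1_H0 : H0 p = V1_S p (p / 3 + 1) (p - 1) (fun k => cc (ZMod p) k) := rfl
theorem V1_H1 : H1 p = V1_S p (p / 3 + 1) (p - 1) (fun k => (k : ZMod p) * cc (ZMod p) k) := rfl
theorem V1_G0 : G0 p = V1_S p (2 * p / 3 + 1) (2 * p - 1) (fun k => gg (ZMod p) k) := rfl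
theorem V1_G1 : G1 p = V1_S p (2 * p / 3 + 1) (2 * p - 1) (fun k => (k : ZMod p) * gg (ZMod p) k) := rfl

theorem V1_E1 : ((p - 1 : ℕ) : ZMod p) = -1 := by
  have hpr : p.Prime := Fact.out
  rw [Nat.cast_sub hpr.one_le, ZMod.natCast_self]
  simp

theorem V1_E2 : ((2 * p - 1 : ℕ) : ZMod p) = -1 := by
  have hpr : p.Prime := Fact.out
  have := hpr.one_le
  rw [Nat.cast_sub (by omega)]
  push_cast
  rw [ZMod.natCast_self]
  simp

theorem H_rel1 (hp : 5 ≤ p) : (1 + X + X ^ 2) * LL p * (X * derivative (H0 p)) =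
    (1 - X) ^ 2 * H1 p - 2 * X * (1 + X + X ^ 2) * H0 p := by
  rw [V1_H0, V1_H1]
  have hm := V1_mod3 (p := p) hp
  exact V1_rel _ _ _ V1_E1 (fun k hk => by omega)

/-- `H2` -/
noncomputable def V1_H2 (p : ℕ) [Fact p.Prime] : (ZMod p)[X] :=
  V1_S p (p / 3 + 1) (p - 1) (fun k => (k : ZMod p) * ((k : ZMod p) * cc (ZMod p) k))

theorem V1_rel1' (hp : 5 ≤ p) : (1 + X + X ^ 2) * LL p * (X * derivative (H1 p)) =
    (1 - X) ^ 2 * V1_H2 p - 2 * X * (1 + X + X ^ 2) * H1 p := by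
  rw [V1_H1, V1_H2]
  have hm := V1_mod3 (p := p) hp
  exact V1_rel _ _ _ V1_E1 (fun k hk => by omega)

theorem V1_L3 (hp : 5 ≤ p) : LL p ^ 3 * V1_H2 p =
    QQ p * (V1_H2 p + H1 p + C (2 / 9) * H0 p) := by
  have hm := V1_mod3 (p := p) hp
  have h3 := (ne_of_five (p := p) hp).2
  have h9 : (9 : ZMod p) ≠ 0 := by
    have : (9 : ZMod p) = 3 * 3 := by norm_num
    rw [this]; exact mul_ne_zero h3 h3
  -- left side
  have hl : LL p ^ 3 * V1_H2 p = ∑ k ∈ range (p / 3),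
      C ((((k : ZMod p) + 1 / 3) * ((k : ZMod p) + 2 / 3)) * cc (ZMod p) k) *
        (QQ p * (QQ p ^ k * LL p ^ (p - 1 - 3 * k))) := by
    unfold V1_H2 V1_S
    rw [mul_sum, sum_range_succ']
    simp only [Nat.cast_zero, zero_mul, C_0, mul_zero, add_zero]
    refine sum_congr rfl fun k hk => ?_
    have hk' := mem_range.1 hk
    have h1 := V1_ccs (p := p) (k := k) (by omega)
    have h2 : p - 1 - 3 * k = (p - 1 - 3 * (k + 1)) + 3 := by omega
    rw [← h1, h2, pow_add, pow_succ]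
    push_cast
    simp only [C_mul, C_pow, C_add]
    ring
  have hr : QQ p * (V1_H2 p + H1 p + C (2 / 9) * H0 p) = ∑ k ∈ range (p / 3 + 1),
      C ((((k : ZMod p) + 1 / 3) * ((k : ZMod p) + 2 / 3)) * cc (ZMod p) k) *
        (QQ p * (QQ p ^ k * LL p ^ (p - 1 - 3 * k))) := by
    rw [V1_H1, V1_H0]
    unfold V1_H2 V1_S
    rw [mul_sum, ← sum_add_distrib, ← sum_add_distrib, mul_sum]
    refine sum_congr rfl fun k _ => ?_
    have h1 : (((k : ZMod p) + 1 / 3) * ((k : ZMod p) + 2 / 3)) * cc (ZMod p) k =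
        (k : ZMod p) * ((k : ZMod p) * cc (ZMod p) k) + (k : ZMod p) * cc (ZMod p) k +
          (2 / 9) * cc (ZMod p) k := by
      field_simp
      ring
    rw [h1, C_add, C_add, C_mul (a := 2 / 9)]
    ring
  rw [hl, hr, sum_range_succ, V1_top hp]
  simp

theorem V1_poly_ne : (1 + X + X ^ 2 : (ZMod p)[X]) ≠ 0 := by
  intro h
  have := congrArg (fun f : (ZMod p)[X] => f.coeff 2) h
  have hpr : p.Prime := Fact.out
  rw [coeff_add, coeff_add, coeff_one, coeff_X, coeff_X_pow, coeff_zero] at this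
  norm_num at this

theorem H_rel2 (hp : 5 ≤ p) : (1 - X) * LL p * (X * derivative (H1 p)) =
    X * (9 * H1 p + 2 * H0 p) - 2 * X * (1 - X) * H1 p := by
  have h3 := (ne_of_five (p := p) hp).2
  have h9 : (9 : ZMod p) ≠ 0 := by
    have : (9 : ZMod p) = 3 * 3 := by norm_num
    rw [this]; exact mul_ne_zero h3 h3
  have h1 := V1_rel1' (p := p) hp
  have h2 := V1_L3 (p := p) hp
  have h4 : (9 : (ZMod p)[X]) * C (2 / 9) = 2 := by
    have e9 : (9 : (ZMod p)[X]) = C 9 := (map_ofNat C 9).symm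
    rw [e9, ← C_mul, mul_div_cancel₀ _ h9]
    exact map_ofNat C 2
  apply mul_left_cancel₀ (V1_poly_ne (p := p))
  have hQ : QQ p = 9 * X * (1 + X + X ^ 2) := rfl
  have hL : LL p ^ 3 = (1 - X) ^ 3 + QQ p := by
    unfold LL QQ; ring
  rw [hL] at h2
  have h5 : (1 - X) ^ 3 * V1_H2 p = QQ p * (H1 p + C (2 / 9) * H0 p) := by
    linear_combination h2
  rw [hQ] at h5
  linear_combination (1 - X) * h1 + h5 + (X * (1 + X + X ^ 2) * H0 p) * h4

theorem G_rel1 (hp : 5 ≤ p) : (1 + X + X ^ 2) * LL p * (X * derivative (G0 p)) =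
    (1 - X) ^ 2 * G1 p - 2 * X * (1 + X + X ^ 2) * G0 p := by
  rw [V1_G0, V1_G1]
  have hm := V1_mod3 (p := p) hp
  exact V1_rel _ _ _ V1_E2 (fun k hk => by omega)

end SCong
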