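import Pool.Agent.Lib.MP_0a3b9a_nt.V1

/-!
Module V2: H0 = vv.  Both satisfy θ((1-y³)θv) = 2y³ v, have natDegree <= p-1 and constant term 1; the equation says
m² v_m = (m-1)(m-2) v_{m-3} (m >= 3), v_1 = v_2 = 0, so the coefficients of index < p agree.
For vv: ode_H with X -> X³ ((1-z)θ²H = z(θH + (2/9)H), θ_y = 3 θ_z).  For H0: put Z = (1-y³)θH0;
 L Z = (1-y)³ H1 - 2y(1-y³) H0 (H_rel1 times (1-y));  applying θ and H_rel2 gives L² θZ = 2y³ L² H0; cancel L².
 Details: LθZ = -3y(1-y)²H1 + (1-y)³θH1 - 2y(1-y³)H0 + 6y⁴H0 - 4yZ; multiply by L and insert L(1-y)³θH1 = (1-y)²[y(9H1+2H0) - 2y(1-y)H1] and LZ.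
 The coefficient of H1 is y(1-y)²[-3L+9-2(1-y)-4(1-y)] = 0, that of H0 is 2y(1-y)² - 2yL(1-y³) + 6y⁴L + 8y²(1-y³) = 2y³L².
-/

namespace SCong
open Finset Polynomial
variable {p : ℕ} [Fact p.Prime]

theorem V2_num (n : ℕ) [n.AtLeastTwo] (f : (ZMod p)[X]) :
    derivative ((ofNat(n) : (ZMod p)[X]) * f) = (ofNat(n) : (ZMod p)[X]) * derivative f := by
  have h : (ofNat(n) : (ZMod p)[X]) = C (ofNat(n) : ZMod p) := (map_ofNat C n).symm
  rw [h, derivative_C_mul]

theorem V2_c1 : derivative ((1 - X) ^ 3 : (ZMod p)[X]) = -3 * (1 - X) ^ 2 := by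
  have h : ((1 - X) ^ 3 : (ZMod p)[X]) = 1 - 3 * X + 3 * X ^ 2 - X ^ 3 := by ring
  rw [h, derivative_sub, derivative_add, derivative_sub, V2_num, V2_num, derivative_X, derivative_X_pow,
    derivative_X_pow, derivative_one]
  have h2 : (C ((2 : ℕ) : ZMod p) : (ZMod p)[X]) = 2 := by rw [map_natCast]; norm_num
  have h3 : (C ((3 : ℕ) : ZMod p) : (ZMod p)[X]) = 3 := by rw [map_natCast]; norm_num
  rw [h2, h3]
  ring

theorem V2_c2 : derivative (2 * X * (1 - X ^ 3) : (ZMod p)[X]) = 2 - 8 * X ^ 3 := by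
  have h : (2 * X * (1 - X ^ 3) : (ZMod p)[X]) = 2 * X - 2 * X ^ 4 := by ring
  rw [h, derivative_sub, V2_num, V2_num, derivative_X, derivative_X_pow]
  have h2 : (C ((4 : ℕ) : ZMod p) : (ZMod p)[X]) = 4 := by rw [map_natCast]; norm_num
  rw [h2]
  ring

theorem V2_L : derivative (LL p) = 2 := by
  unfold LL
  rw [derivative_add, V2_num, derivative_one, derivative_X]
  ring

theorem V2_Lne : LL p ≠ 0 := by
  intro h
  have := congrArg (fun f : (ZMod p)[X] => f.coeff 0) h
  unfold LL at this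
  simp at this

theorem ode_H0 (hp : 5 ≤ p) :
    X * derivative ((1 - X ^ 3) * (X * derivative (H0 p))) = 2 * X ^ 3 * H0 p := by
  have h1 := H_rel1 (p := p) hp
  have h2 := H_rel2 (p := p) hp
  set Z := (1 - X ^ 3) * (X * derivative (H0 p)) with hZdef
  have hZ : LL p * Z = (1 - X) ^ 3 * H1 p - 2 * X * (1 - X ^ 3) * H0 p := by
    rw [hZdef]
    linear_combination (1 - X) * h1
  have hd := congrArg (fun f : (ZMod p)[X] => derivative f) hZ
  rw [derivative_sub, derivative_mul (f := LL p) (g := Z),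
    derivative_mul (f := (1 - X) ^ 3) (g := H1 p),
    derivative_mul (f := 2 * X * (1 - X ^ 3)) (g := H0 p), V2_L, V2_c1, V2_c2] at hd
  apply mul_left_cancel₀ (pow_ne_zero 2 (V2_Lne (p := p)))
  have hL : LL p = 1 + 2 * X := rfl
  rw [hL] at hd h2 hZ ⊢
  have hZ' : (1 - X ^ 3) * (X * derivative (H0 p)) = Z := rfl
  linear_combination (X * (1 + 2 * X)) * hd + (1 - X) ^ 2 * h2 - (4 * X) * hZ +
    (- 2 * X * (1 + 2 * X)) * hZ'

theorem V2_comp (f : (ZMod p)[X]) :
    X * derivative (f.comp (X ^ 3)) = 3 * (X * derivative f).comp (X ^ 3) := by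
  rw [derivative_comp, derivative_X_pow, mul_comp, X_comp]
  have h3 : (C ((3 : ℕ) : ZMod p) : (ZMod p)[X]) = 3 := by rw [map_natCast]; norm_num
  rw [h3]
  ring

theorem ode_vv (hp : 5 ≤ p) :
    X * derivative ((1 - X ^ 3) * (X * derivative (vv p))) = 2 * X ^ 3 * vv p := by
  have h := ode_H (p := p) hp
  have h9 : (9 : ZMod p) ≠ 0 := by
    have h3 := (ne_of_five (p := p) hp).2
    have : (9 : ZMod p) = 3 * 3 := by norm_num
    rw [this]; exact mul_ne_zero h3 h3
  have hc : (1 - X ^ 3) * (X * derivative (X * derivative (Hp p))).comp (X ^ 3) =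
      X ^ 3 * ((X * derivative (Hp p)).comp (X ^ 3) + C (2 / 9) * vv p) := by
    have := congrArg (fun f : (ZMod p)[X] => f.comp (X ^ 3)) h
    unfold vv
    simpa only [mul_comp, sub_comp, one_comp, X_comp, add_comp, C_comp] using this
  have h1 : X * derivative (vv p) = 3 * (X * derivative (Hp p)).comp (X ^ 3) := by
    unfold vv; exact V2_comp _
  have h2 : X * derivative ((X * derivative (Hp p)).comp (X ^ 3)) =
      3 * (X * derivative (X * derivative (Hp p))).comp (X ^ 3) := V2_comp _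
  have h5 : (9 : (ZMod p)[X]) * C (2 / 9) = 2 := by
    have e9 : (9 : (ZMod p)[X]) = C 9 := (map_ofNat C 9).symm
    rw [e9, ← C_mul, mul_div_cancel₀ _ h9]
    exact map_ofNat C 2
  have hX3 : derivative (1 - X ^ 3 : (ZMod p)[X]) = -3 * X ^ 2 := by
    rw [derivative_sub, derivative_one, derivative_X_pow]
    have e3 : (C ((3 : ℕ) : ZMod p) : (ZMod p)[X]) = 3 := by rw [map_natCast]; norm_num
    rw [e3]; ring
  rw [h1, mul_left_comm (1 - X ^ 3) 3, V2_num, derivative_mul, hX3]
  linear_combination 3 * (1 - X ^ 3) * h2 + 9 * hc + (X ^ 3 * vv p) * h5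

theorem natDegree_H0 (hp : 5 ≤ p) : (H0 p).natDegree ≤ p - 1 := by
  have hm := V1_mod3 (p := p) hp
  unfold H0
  refine natDegree_sum_le_of_forall_le _ _ (fun k hk => ?_)
  have hk' := mem_range.1 hk
  have hQ : (QQ p).natDegree ≤ 3 := by
    unfold QQ
    compute_degree
  have hL : (LL p).natDegree ≤ 1 := by
    unfold LL
    compute_degree
  have h1 : (QQ p ^ k).natDegree ≤ k * 3 := natDegree_pow_le_of_le k hQ
  have h2 : (LL p ^ (p - 1 - 3 * k)).natDegree ≤ (p - 1 - 3 * k) * 1 := natDegree_pow_le_of_le _ hL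
  have h3 := natDegree_mul_le (p := C (cc (ZMod p) k) * QQ p ^ k) (q := LL p ^ (p - 1 - 3 * k))
  have h4 := natDegree_mul_le (p := C (cc (ZMod p) k)) (q := QQ p ^ k)
  rw [natDegree_C] at h4
  omega

theorem V2_natDegree_vv (hp : 5 ≤ p) : (vv p).natDegree ≤ p - 1 := by
  have hm := V1_mod3 (p := p) hp
  have h1 := natDegree_Hp (p := p) hp
  unfold vv
  rw [natDegree_comp, natDegree_X_pow]
  omega

/-- coefficient form of the equation -/
theorem V2_coeff {v : (ZMod p)[X]}
    (h : X * derivative ((1 - X ^ 3) * (X * derivative v)) = 2 * X ^ 3 * v) (m : ℕ) :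
    ((m : ZMod p)) ^ 2 * v.coeff m =
      if 3 ≤ m then ((m : ZMod p) - 1) * ((m : ZMod p) - 2) * v.coeff (m - 3) else 0 := by
  have hth : ∀ (f : (ZMod p)[X]) (n : ℕ), (X * derivative f).coeff n = (n : ZMod p) * f.coeff n := by
    intro f n
    cases n with
    | zero => simp
    | succ n =>
      rw [coeff_X_mul, coeff_derivative]
      push_cast; ring
  have h1 := congrArg (fun f : (ZMod p)[X] => f.coeff m) h
  rw [hth] at h1
  have e1 : (1 - X ^ 3) * (X * derivative v) = X * derivative v - X ^ 3 * (X * derivative v) := by ring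
  have e2 : (2 * X ^ 3 * v : (ZMod p)[X]) = C 2 * (X ^ 3 * v) := by
    rw [show (C 2 : (ZMod p)[X]) = 2 from map_ofNat C 2]; ring
  rw [e1, e2, coeff_sub, hth, coeff_C_mul, coeff_X_pow_mul', coeff_X_pow_mul'] at h1
  split_ifs at h1 ⊢ with h3
  · rw [hth] at h1
    have e3 : ((m - 3 : ℕ) : ZMod p) = (m : ZMod p) - 3 := by
      rw [Nat.cast_sub h3]; push_cast; ring
    rw [e3] at h1
    linear_combination h1
  · linear_combination h1

theorem H0_eq (hp : 5 ≤ p) : H0 p = vv p := by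
  have hpr : p.Prime := Fact.out
  have hm := V1_mod3 (p := p) hp
  have h0 : (H0 p).coeff 0 = 1 := by
    unfold H0
    rw [coeff_zero_eq_eval_zero, eval_finsetSum, sum_eq_single 0]
    · unfold LL QQ cc
      simp
    · intro k _ hk
      unfold QQ
      simp [hk]
    · intro h; simp at h
  have h0' : (vv p).coeff 0 = 1 := by
    unfold vv Hp
    rw [coeff_zero_eq_eval_zero, eval_comp]
    simp only [eval_pow, eval_X]
    rw [eval_finsetSum, sum_eq_single 0]
    · unfold cc; simp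
    · intro k _ hk
      simp [hk]
    · intro h
      exact absurd (mem_range.2 hpr.pos) h
  have key : ∀ m : ℕ, m < p → (H0 p).coeff m = (vv p).coeff m := by
    intro m
    induction m using Nat.strong_induction_on with
    | _ m ih =>
      intro hmp
      rcases Nat.eq_zero_or_pos m with rfl | hpos
      · rw [h0, h0']
      · have e1 := V2_coeff (ode_H0 (p := p) hp) m
        have e2 := V2_coeff (ode_vv (p := p) hp) m
        have hne : ((m : ZMod p)) ^ 2 ≠ 0 :=
          pow_ne_zero 2 (nat_ne_zero (fun h => absurd (Nat.le_of_dvd hpos h) (by omega)))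
        apply mul_left_cancel₀ hne
        rw [e1, e2]
        split_ifs with h3
        · rw [ih (m - 3) (by omega) (by omega)]
        · rfl
  ext m
  rcases Nat.lt_or_ge m p with h | h
  · exact key m h
  · rw [coeff_eq_zero_of_natDegree_lt (lt_of_le_of_lt (natDegree_H0 hp) (by omega)),
      coeff_eq_zero_of_natDegree_lt (lt_of_le_of_lt (V2_natDegree_vv hp) (by omega))]

end SCong
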