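import Pool.Agent.Lib.MP_0a3b9a_nt.W1

/-!
Module W2: W = (1-X)(HθG - GθH + H²) satisfies θW = 0 (ODEs), so W' = 0 (X W' = 0), so W = expand p of something (Polynomial.expand_contract),
natDegree W <= 1 + p/3 + 2p/3 = p, W(0) = 1 (cc 0 = 1, gg 0 = 0), W(1) = 0, so W = 1 - X^p.
θW = -X(HθG-GθH+H²) + (1-X)(Hθ²G - Gθ²H + 2HθH); (1-X)(Hθ²G-Gθ²H) = X(HθG-GθH) + XH(2θH+H) - 2HθH.
-/

namespace SCong
open Finset Polynomial
variable {p : ℕ} [Fact p.Prime]

theorem W2_natDegree_theta (f : (ZMod p)[X]) : (X * derivative f).natDegree ≤ f.natDegree := by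
  by_cases h : derivative f = 0
  · simp [h]
  · have h0 : f.natDegree ≠ 0 := by
      intro h0
      exact h (derivative_of_natDegree_zero h0)
    have h1 := natDegree_derivative_lt h0
    calc (X * derivative f).natDegree ≤ (X : (ZMod p)[X]).natDegree + (derivative f).natDegree :=
          natDegree_mul_le
      _ ≤ 1 + (derivative f).natDegree := by
          gcongr
          exact natDegree_X_le
      _ ≤ f.natDegree := by omega

theorem W2_cc0 : cc (ZMod p) 0 = 1 := by simp [cc]

theorem W2_Hp0 (hp : 5 ≤ p) : (Hp p).eval 0 = 1 := by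
  rw [Hp, eval_finsetSum, Finset.sum_eq_single_of_mem 0]
  · simp [W2_cc0]
  · simp; omega
  · intro b _ hb
    simp [hb]

theorem W2_theta (hp : 5 ≤ p) :
    derivative ((1 - X) * (Hp p * (X * derivative (Gp p)) - Gp p * (X * derivative (Hp p)) + Hp p ^ 2)) = 0 := by
  have h1 := ode_H hp
  have h2 := ode_G hp
  have h3 : (X : (ZMod p)[X]) * derivative ((1 - X) * (Hp p * (X * derivative (Gp p)) - Gp p * (X * derivative (Hp p)) + Hp p ^ 2)) = 0 := by
    have e : (X : (ZMod p)[X]) * derivative ((1 - X) * (Hp p * (X * derivative (Gp p)) - Gp p * (X * derivative (Hp p)) + Hp p ^ 2)) =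
        - X * (Hp p * (X * derivative (Gp p)) - Gp p * (X * derivative (Hp p)) + Hp p ^ 2)
        + (1 - X) * (Hp p * (X * derivative (X * derivative (Gp p))) - Gp p * (X * derivative (X * derivative (Hp p)))
          + 2 * Hp p * (X * derivative (Hp p))) := by
      simp only [derivative_mul, derivative_sub, derivative_add, derivative_one, derivative_X, pow_two]
      ring
    rw [e]
    linear_combination (Hp p) * h2 - (Gp p) * h1
  exact (mul_eq_zero.1 h3).resolve_left X_ne_zero

theorem wronskian (hp : 5 ≤ p) :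
    (1 - X) * (Hp p * (X * derivative (Gp p)) - Gp p * (X * derivative (Hp p)) + Hp p ^ 2) = 1 - X ^ p := by
  set W : (ZMod p)[X] := (1 - X) * (Hp p * (X * derivative (Gp p)) - Gp p * (X * derivative (Hp p)) + Hp p ^ 2) with hW
  have hpp : p.Prime := Fact.out
  have h3p : p % 3 ≠ 0 := by
    intro h
    have : 3 ∣ p := Nat.dvd_of_mod_eq_zero h
    rcases (Nat.dvd_prime hpp).1 this with h | h <;> omega
  have hD : derivative W = 0 := W2_theta hp
  have hdeg : W.natDegree ≤ p := by
    have hH := natDegree_Hp hp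
    have hG := natDegree_Gp hp
    have hH' := (W2_natDegree_theta (Hp p)).trans hH
    have hG' := (W2_natDegree_theta (Gp p)).trans hG
    have e1 : (Hp p * (X * derivative (Gp p))).natDegree ≤ p - 1 :=
      natDegree_mul_le.trans (by omega)
    have e2 : (Gp p * (X * derivative (Hp p))).natDegree ≤ p - 1 :=
      natDegree_mul_le.trans (by omega)
    have e3 : (Hp p ^ 2).natDegree ≤ p - 1 := by
      refine natDegree_pow_le.trans ?_
      have : 2 * (Hp p).natDegree ≤ 2 * (p / 3) := by omega
      omega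
    have e4 : (Hp p * (X * derivative (Gp p)) - Gp p * (X * derivative (Hp p)) + Hp p ^ 2).natDegree ≤ p - 1 :=
      natDegree_add_le_of_degree_le ((natDegree_sub_le_of_le e1 e2).trans (by simp)) e3
    have e5 : (1 - X : (ZMod p)[X]).natDegree ≤ 1 := by
      exact (natDegree_sub_le_of_le (m := 0) (n := 1) (by simp) natDegree_X_le).trans (by simp)
    exact natDegree_mul_le.trans (by omega)
  have hE : expand (ZMod p) p (contract p W) = W := expand_contract p hD hpp.ne_zero
  have hq : (contract p W).natDegree ≤ 1 := by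
    have := congrArg natDegree hE
    rw [natDegree_expand] at this
    by_contra hcon
    have h2 : 2 ≤ (contract p W).natDegree := by omega
    have h3 : 2 * p ≤ (contract p W).natDegree * p := Nat.mul_le_mul_right p h2
    omega
  obtain ⟨a, b, hab⟩ := exists_eq_X_add_C_of_natDegree_le_one hq
  rw [hab] at hE
  simp only [map_add, map_mul, expand_C, expand_X] at hE
  have h0 : W.eval 0 = 1 := by
    rw [hW]
    simp [W2_Hp0 hp]
  have h1 : W.eval 1 = 0 := by
    rw [hW]
    simp
  have hb : b = 1 := by
    rw [← h0, ← hE]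
    simp [hpp.ne_zero]
  have ha : a = -1 := by
    have : W.eval 1 = a + b := by rw [← hE]; simp
    rw [h1, hb] at this
    linear_combination -this
  rw [← hE, ha, hb]
  simp
  ring

/-- the same for `H(y^3)`, `G(y^3)` (substitute `X^3`; θ_y f(y^3) = 3 (θf)(y^3)). -/
theorem wr_Gb (hp : 5 ≤ p) :
    (1 - X ^ 3) * (vv p * (X * derivative (Gb p)) - Gb p * (X * derivative (vv p)) + 3 * vv p ^ 2) =
      3 * (1 - X ^ (3 * p)) := by
  have h := congrArg (fun f : (ZMod p)[X] => f.comp (X ^ 3)) (wronskian hp)
  simp only [mul_comp, sub_comp, add_comp, one_comp, X_comp, pow_comp] at h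
  have hG : derivative (Gb p) = 3 * X ^ 2 * (derivative (Gp p)).comp (X ^ 3) := by
    rw [Gb, derivative_comp, derivative_X_pow]
    push_cast
    simp only [map_ofNat]
  have hv : derivative (vv p) = 3 * X ^ 2 * (derivative (Hp p)).comp (X ^ 3) := by
    rw [vv, derivative_comp, derivative_X_pow]
    push_cast
    simp only [map_ofNat]
  rw [hG, hv]
  rw [← vv, ← Gb] at h
  have e : (X : (ZMod p)[X]) ^ (3 * p) = (X ^ 3) ^ p := by rw [pow_mul]
  rw [e]
  linear_combination 3 * h

end SCong
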