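import Pool.Agent.Lib.MP_0a3b9a_nt.V2
import Pool.Agent.Lib.MP_0a3b9a_nt.W2

/-!
Module V3.  In the field of rational functions let α = Q/L³.  vv = H0 = L^(p-1) H(α), H1 = L^(p-1) (θH)(α), G0 = L^(2p-1) G(α), G1 = L^(2p-1) (θG)(α)
(cc k = 0 for p/3 < k < p, gg k = 0 for 2p/3 < k < p).  Evaluate `wronskian` at α and multiply by L^(3p):
 (1-y)³ [ (v G1 - G0 H1) + L^p v² ] = L (1-y^p)³   (L³ - Q = (1-y)³, L^(3p) - Q^p = (1-y^p)³).   (X2a)
With H_rel1, G_rel1: (1+y+y²) L (vθG0 - G0θv) = (1-y)² (vG1 - G0H1), so (1-y³)(vθG0 - G0θv) = (1-y^p)³ - (1-y)³ L^(p-1) v².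
-/

namespace SCong
open Finset Polynomial
variable {p : ℕ} [Fact p.Prime]

theorem V3_theta_mono (a : ZMod p) (k : ℕ) :
    (X : (ZMod p)[X]) * derivative (C a * X ^ k) = C ((k : ZMod p) * a) * X ^ k := by
  rcases k with _ | k
  · simp
  · rw [derivative_C_mul_X_pow]
    rw [show k + 1 - 1 = k from rfl, pow_succ, mul_comm a]
    ring

theorem V3_theta_sum (c : ℕ → ZMod p) (n : ℕ) :
    (X : (ZMod p)[X]) * derivative (∑ k ∈ range n, C (c k) * X ^ k) =
      ∑ k ∈ range n, C ((k : ZMod p) * c k) * X ^ k := by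
  rw [derivative_sum, mul_sum]
  exact sum_congr rfl fun k _ => V3_theta_mono (c k) k

theorem V3_LL_ne : (LL p) ≠ 0 := by
  intro h
  have := congrArg (eval 0) h
  simp [LL] at this

/-- homogenisation. -/
theorem V3_hom {K : Type*} [Field K] [Algebra (ZMod p)[X] K] [Algebra (ZMod p) K]
    [IsScalarTower (ZMod p) (ZMod p)[X] K]
    (hL : algebraMap (ZMod p)[X] K (LL p) ≠ 0) (c : ℕ → ZMod p) {n M : ℕ} (hn : n < p) (hM : 3 * n ≤ M)
    (hc : ∀ k, n < k → k < p → c k = 0) :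
    aeval (algebraMap (ZMod p)[X] K (QQ p) / algebraMap (ZMod p)[X] K (LL p) ^ 3)
        (∑ k ∈ range p, C (c k) * X ^ k) * algebraMap (ZMod p)[X] K (LL p) ^ M =
      algebraMap (ZMod p)[X] K (∑ k ∈ range (n + 1), C (c k) * QQ p ^ k * LL p ^ (M - 3 * k)) := by
  rw [map_sum, map_sum, sum_mul]
  rw [← sum_subset (range_mono (show n + 1 ≤ p by omega)) (fun k hk hk' => ?_)]
  · refine sum_congr rfl fun k hk => ?_
    have hk' : k ≤ n := by simpa [Nat.lt_succ_iff] using hk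
    have e : M = 3 * k + (M - 3 * k) := by omega
    have e2 : algebraMap (ZMod p)[X] K (C (c k)) = algebraMap (ZMod p) K (c k) :=
      (IsScalarTower.algebraMap_apply (ZMod p) (ZMod p)[X] K (c k)).symm
    rw [map_mul, aeval_C, map_pow, aeval_X, map_mul, map_mul, e2, map_pow, map_pow]
    conv_lhs => rw [e, pow_add, pow_mul (algebraMap (ZMod p)[X] K (LL p)) 3 k]
    rw [div_pow]
    have h3 : (algebraMap (ZMod p)[X] K (LL p) ^ 3) ^ k ≠ 0 := pow_ne_zero _ (pow_ne_zero _ hL)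
    field_simp
  · have h1 : k < p := by simpa using hk
    have h2 : n < k := by
      have : ¬ k < n + 1 := by simpa using hk'
      omega
    simp [hc k h2 h1]

theorem V3_char_cube : (1 - X ^ p : (ZMod p)[X]) ^ 3 = (LL p ^ 3) ^ p - QQ p ^ p := by
  have e : LL p ^ 3 - QQ p = (1 - X) ^ 3 := by
    rw [LL, QQ]; ring
  have e1 : (LL p ^ 3) ^ p - QQ p ^ p = (LL p ^ 3 - QQ p) ^ p := (sub_pow_char _ _).symm
  have e2 : (1 - X ^ p : (ZMod p)[X]) = (1 - X) ^ p := by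
    rw [sub_pow_char]; simp
  rw [e1, e, e2, ← pow_mul, ← pow_mul, mul_comm]

theorem X2a (hp : 5 ≤ p) :
    (1 - X) ^ 3 * ((vv p * G1 p - G0 p * H1 p) + LL p ^ p * vv p ^ 2) = LL p * (1 - X ^ p) ^ 3 := by
  have hpp : p.Prime := Fact.out
  have h3p : p % 3 ≠ 0 := by
    intro h
    have : 3 ∣ p := Nat.dvd_of_mod_eq_zero h
    rcases (Nat.dvd_prime hpp).1 this with h | h <;> omega
  let K := FractionRing (ZMod p)[X]
  have hinj : Function.Injective (algebraMap (ZMod p)[X] K) := IsFractionRing.injective _ _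
  have hL : algebraMap (ZMod p)[X] K (LL p) ≠ 0 := by
    intro h
    exact V3_LL_ne (hinj (by rw [h, map_zero]))
  have hb1 : 3 * (p / 3) ≤ p - 1 := by omega
  have hb2 : 3 * (2 * p / 3) ≤ 2 * p - 1 := by
    have h6 : 2 * p % 3 ≠ 0 := by omega
    omega
  have hb3 : 2 * p / 3 < p := by omega
  have hb4 : p / 3 < p := by omega
  have eH := V3_hom hL (cc (ZMod p)) (n := p / 3) (M := p - 1) (by omega) (by omega)
    (fun k h1 h2 => cc_zero hp h1 h2)
  have eH1 := V3_hom hL (fun k => (k : ZMod p) * cc (ZMod p) k) (n := p / 3) (M := p - 1) (by omega) (by omega)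
    (fun k h1 h2 => by simp [cc_zero hp h1 h2])
  have eG := V3_hom hL (gg (ZMod p)) (n := 2 * p / 3) (M := 2 * p - 1) (by omega) (by omega)
    (fun k h1 h2 => gg_zero hp h1 h2)
  have eG1 := V3_hom hL (fun k => (k : ZMod p) * gg (ZMod p) k) (n := 2 * p / 3) (M := 2 * p - 1) (by omega) (by omega)
    (fun k h1 h2 => by simp [gg_zero hp h1 h2])
  rw [← V3_theta_sum] at eH1 eG1
  rw [← Hp] at eH eH1
  rw [← Gp] at eG eG1
  rw [← H0, H0_eq hp] at eH
  rw [← H1] at eH1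
  rw [← G0] at eG
  rw [← G1] at eG1
  have hw := congrArg (aeval (algebraMap (ZMod p)[X] K (QQ p) / algebraMap (ZMod p)[X] K (LL p) ^ 3)) (wronskian hp)
  rw [map_mul, map_add, map_sub (aeval _), map_sub (aeval _), map_sub (aeval _), map_mul (aeval _) (Hp p),
    map_mul (aeval _) (Gp p), map_pow (aeval _) (Hp p), map_one, aeval_X, map_pow, aeval_X] at hw
  apply hinj
  rw [V3_char_cube]
  have ec : (1 - X : (ZMod p)[X]) ^ 3 = LL p ^ 3 - QQ p := by rw [LL, QQ]; ring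
  rw [ec]
  simp only [map_mul, map_add, map_sub, map_pow]
  rw [← eH, ← eH1, ← eG, ← eG1]
  generalize aeval (algebraMap (ZMod p)[X] K (QQ p) / algebraMap (ZMod p)[X] K (LL p) ^ 3) (X * derivative (Gp p)) = g1 at *
  generalize aeval (algebraMap (ZMod p)[X] K (QQ p) / algebraMap (ZMod p)[X] K (LL p) ^ 3) (X * derivative (Hp p)) = h1 at *
  generalize aeval (algebraMap (ZMod p)[X] K (QQ p) / algebraMap (ZMod p)[X] K (LL p) ^ 3) (Gp p) = g at *
  generalize aeval (algebraMap (ZMod p)[X] K (QQ p) / algebraMap (ZMod p)[X] K (LL p) ^ 3) (Hp p) = h at *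
  generalize algebraMap (ZMod p)[X] K (QQ p) = Q at *
  generalize algebraMap (ZMod p)[X] K (LL p) = L at *
  have hQ : Q = L ^ 3 * (Q / L ^ 3) := by
    rw [mul_comm, div_mul_cancel₀ _ (pow_ne_zero 3 hL)]
  have hQp : Q ^ p = (L ^ 3) ^ p * (Q / L ^ 3) ^ p := by rw [← mul_pow, ← hQ]
  rw [hQp]
  have e1 : L ^ (2 * p - 1) = L ^ (p - 1) * L ^ p := by rw [← pow_add]; congr 1; omega
  have e2 : L ^ p = L ^ (p - 1) * L := by rw [← pow_succ]; congr 1; omega
  have e3 : (L ^ 3) ^ p = (L ^ p) ^ 3 := by rw [← pow_mul, ← pow_mul, mul_comm]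
  rw [e3, e1, e2]
  have key : (L ^ 3 - Q) = L ^ 3 * (1 - Q / L ^ 3) := by rw [mul_sub, ← hQ, mul_one]
  rw [key]
  linear_combination (L ^ 3 * (L ^ (p - 1)) ^ 3 * L) * hw

theorem wr_G0 (hp : 5 ≤ p) :
    (1 - X ^ 3) * (vv p * (X * derivative (G0 p)) - G0 p * (X * derivative (vv p))) =
      (1 - X ^ p) ^ 3 - (1 - X) ^ 3 * LL p ^ (p - 1) * vv p ^ 2 := by
  have h1 := H_rel1 hp
  have h2 := G_rel1 hp
  have h3 := X2a hp
  rw [H0_eq hp] at h1
  apply mul_left_cancel₀ (V3_LL_ne (p := p))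
  have e2 : LL p ^ p = LL p ^ (p - 1) * LL p := by rw [← pow_succ]; congr 1; omega
  rw [e2] at h3
  linear_combination h3 + (1 - X) * (vv p * h2 - G0 p * h1)

end SCong
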