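import Pool.Agent.Lib.MP_0a3b9a_nt.S1

/-!
Module W1: θ f = X f'.  In (ZMod p)[X]: (k+1)^2 cc(k+1) = (k+1/3)(k+2/3) cc k and (k+1)^2 gg(k+1) + 2(k+1) cc(k+1) = (k+1/3)(k+2/3) gg k + (2k+1) cc k for k+1 < p,
and for k = p-1 the right sides vanish (cc_zero, gg_zero; p/3 < p-1, 2p/3 < p-1 for p >= 5: 2p/3 <= p-2).
So θ²H = X(θ²H + θH + (2/9)H), θ²G + 2θH = X(θ²G + θG + (2/9)G + 2θH + H).
-/

namespace SCong
open Finset Polynomial
variable {p : ℕ} [Fact p.Prime]

theorem W1_coeff_Hp (n : ℕ) : (Hp p).coeff n = if n < p then cc (ZMod p) n else 0 := by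
  unfold Hp
  rw [finsetSum_coeff]
  simp only [coeff_C_mul, coeff_X_pow, mul_ite, mul_one, mul_zero]
  rw [Finset.sum_ite_eq]
  simp

theorem W1_coeff_Gp (n : ℕ) : (Gp p).coeff n = if n < p then gg (ZMod p) n else 0 := by
  unfold Gp
  rw [finsetSum_coeff]
  simp only [coeff_C_mul, coeff_X_pow, mul_ite, mul_one, mul_zero]
  rw [Finset.sum_ite_eq]
  simp

theorem W1_theta (f : (ZMod p)[X]) (n : ℕ) : (X * derivative f).coeff n = (n : ZMod p) * f.coeff n := by
  cases n with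
  | zero => simp
  | succ n =>
    rw [coeff_X_mul, coeff_derivative]
    push_cast; ring

theorem W1_cc_succ (k : ℕ) (hk : (k : ZMod p) + 1 ≠ 0) :
    ((k : ZMod p) + 1) ^ 2 * cc (ZMod p) (k + 1) =
      ((k : ZMod p) + 1 / 3) * ((k : ZMod p) + 2 / 3) * cc (ZMod p) k := by
  unfold cc
  rw [prod_range_succ]
  field_simp

theorem W1_gg_succ (k : ℕ) (hk : (k : ZMod p) + 1 ≠ 0) :
    ((k : ZMod p) + 1) ^ 2 * gg (ZMod p) (k + 1) + 2 * ((k : ZMod p) + 1) * cc (ZMod p) (k + 1) =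
      ((k : ZMod p) + 1 / 3) * ((k : ZMod p) + 2 / 3) * gg (ZMod p) k +
        (2 * (k : ZMod p) + 1) * cc (ZMod p) k := by
  have h1 := W1_cc_succ k hk
  have h2 : gg (ZMod p) (k + 1) = gg (ZMod p) k * (((k : ZMod p) + 1 / 3) * ((k : ZMod p) + 2 / 3) / ((k : ZMod p) + 1) ^ 2) +
      cc (ZMod p) k * ((2 * (k : ZMod p) + 1) / ((k : ZMod p) + 1) ^ 2 -
        2 * (((k : ZMod p) + 1 / 3) * ((k : ZMod p) + 2 / 3)) / ((k : ZMod p) + 1) ^ 3) := rfl
  have h3 : cc (ZMod p) (k + 1) = ((k : ZMod p) + 1 / 3) * ((k : ZMod p) + 2 / 3) * cc (ZMod p) k / ((k : ZMod p) + 1) ^ 2 := by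
    rw [← h1]; field_simp
  rw [h2, h3]
  generalize (k : ZMod p) + 1 / 3 = u
  generalize (k : ZMod p) + 2 / 3 = v
  field_simp
  ring

theorem natDegree_Hp (hp : 5 ≤ p) : (Hp p).natDegree ≤ p / 3 := by
  rw [natDegree_le_iff_coeff_eq_zero]
  intro n hn
  rw [W1_coeff_Hp]
  split_ifs with h
  · exact cc_zero hp hn h
  · rfl

theorem natDegree_Gp (hp : 5 ≤ p) : (Gp p).natDegree ≤ 2 * p / 3 := by
  rw [natDegree_le_iff_coeff_eq_zero]
  intro n hn
  rw [W1_coeff_Gp]
  split_ifs with h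
  · exact gg_zero hp hn h
  · rfl

theorem W1_two_ninths (hp : 5 ≤ p) : (1 / 3 : ZMod p) + 2 / 3 = 1 ∧ (1 / 3 : ZMod p) * (2 / 3) = 2 / 9 := by
  have h3 : (3 : ZMod p) ≠ 0 := (ne_of_five hp).2
  have h9 : (9 : ZMod p) = 3 * 3 := by norm_num
  constructor
  · field_simp; norm_num
  · rw [h9]; field_simp

theorem W1_expand (hp : 5 ≤ p) (k : ZMod p) : (k + 1 / 3) * (k + 2 / 3) = k ^ 2 + k + 2 / 9 := by
  obtain ⟨h1, h2⟩ := W1_two_ninths hp
  linear_combination k * h1 + h2

theorem ode_H (hp : 5 ≤ p) :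
    (1 - X) * (X * derivative (X * derivative (Hp p))) =
      X * (X * derivative (Hp p) + C (2 / 9) * Hp p) := by
  ext n
  rw [sub_mul, one_mul, coeff_sub, W1_theta, W1_theta]
  cases n with
  | zero => simp
  | succ k =>
    rw [coeff_X_mul, coeff_X_mul, coeff_add, W1_theta, W1_theta, coeff_C_mul, W1_coeff_Hp, W1_coeff_Hp]
    have he := W1_expand hp (k : ZMod p)
    rcases lt_trichotomy (k + 1) p with h | h | h
    · rw [if_pos h, if_pos (by omega : k < p)]
      have h1 := W1_cc_succ (p := p) k (succ_ne h)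
      rw [he] at h1
      push_cast
      linear_combination h1
    · have hc : cc (ZMod p) k = 0 := cc_zero hp (by omega) (by omega)
      rw [if_neg (by omega : ¬ k + 1 < p), if_pos (by omega : k < p), hc]
      simp
    · rw [if_neg (by omega : ¬ k + 1 < p), if_neg (by omega : ¬ k < p)]
      simp

theorem ode_G (hp : 5 ≤ p) :
    (1 - X) * (X * derivative (X * derivative (Gp p))) =
      X * (X * derivative (Gp p) + C (2 / 9) * Gp p + 2 * (X * derivative (Hp p)) + Hp p)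
        - 2 * (X * derivative (Hp p)) := by
  have h2C : (2 : (ZMod p)[X]) = C 2 := (map_ofNat C 2).symm
  rw [h2C]
  ext n
  rw [sub_mul, one_mul, coeff_sub, coeff_sub, W1_theta, W1_theta, coeff_C_mul, W1_theta]
  cases n with
  | zero => simp
  | succ k =>
    rw [coeff_X_mul, coeff_X_mul, coeff_add, coeff_add, coeff_add, W1_theta, W1_theta, coeff_C_mul, coeff_C_mul,
      W1_theta, W1_coeff_Gp, W1_coeff_Gp, W1_coeff_Hp, W1_coeff_Hp]
    have he := W1_expand hp (k : ZMod p)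
    rcases lt_trichotomy (k + 1) p with h | h | h
    · rw [if_pos h, if_pos (by omega : k < p), if_pos h, if_pos (by omega : k < p)]
      have h1 := W1_gg_succ (p := p) k (succ_ne h)
      rw [he] at h1
      push_cast
      linear_combination h1
    · have hc : cc (ZMod p) k = 0 := cc_zero hp (by omega) (by omega)
      have hg : gg (ZMod p) k = 0 := gg_zero hp (by omega) (by omega)
      rw [if_neg (by omega : ¬ k + 1 < p), if_pos (by omega : k < p), if_neg (by omega : ¬ k + 1 < p),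
        if_pos (by omega : k < p), hc, hg]
      simp
    · rw [if_neg (by omega : ¬ k + 1 < p), if_neg (by omega : ¬ k < p), if_neg (by omega : ¬ k + 1 < p),
        if_neg (by omega : ¬ k < p)]
      simp

end SCong
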