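import Pool.Agent.Lib.MP_0a3b9a_nt.V3
import Pool.Agent.Lib.MP_0a3b9a_nt.S7

/-!
Module X1.  T = X^p (θT = 0, L^p = 1 + 2T).  From CB (derivative in ℤ[X], cancel p):
 θCz = (1+y+y²)^(p-1) y(1+2y) - T - 2T² mod p, θBz = 2y(1+2y)^(p-1) - 2T mod p, (1+y+y²)^p = 1+T+T².
vθXX - XXθv = 3(1+T+T²)(vθG0 - G0θv) + v²θE - (1-T)²(vθGb - Gbθv); multiply by (1-y³), insert wr_G0, wr_Gb:
 3(1+T+T²)(1-T)³ - 3(1-T)²(1-T³) = 0 and the coefficient of v² is
 (1-y³)[θE + 3(1-T)²] - 3(1+T+T²)(1-y)³L^(p-1) = 0.  (θE = 3L^p[(1+T+T²)yL/(1+y+y²) - T - 2T²] - 9(1+T+T²)[2yL^(p-1) - 2T]; use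
 yL² - 6y(1+y+y²) - (1-y)² = -L(1+y+y²), L^p = 1+2T and (1+2T)(1+2T+3T²) = 1+4T+7T²+6T³.)
-/

namespace SCong
open Finset Polynomial
variable {p : ℕ} [Fact p.Prime]

theorem X1_two : (2 : (ZMod p)[X]) ^ p = 2 := by
  have h : (2 : (ZMod p)[X]) = C (2 : ZMod p) := (map_ofNat C 2).symm
  rw [h, ← C_pow, ZMod.pow_card]

theorem X1_L : (1 + 2 * X : (ZMod p)[X]) ^ p = 1 + 2 * X ^ p := by
  rw [add_pow_char, one_pow, mul_pow, X1_two]

theorem X1_q : (1 + X + X ^ 2 : (ZMod p)[X]) ^ p = 1 + X ^ p + X ^ (2 * p) := by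
  rw [add_pow_char, add_pow_char, one_pow, ← pow_mul]

theorem X1_dT : derivative ((X : (ZMod p)[X]) ^ p) = 0 := by
  rw [derivative_X_pow]
  simp

theorem X1_dC {Cz Bz : ℤ[X]} (h : CB p Cz Bz) :
    X * derivative Cz = (1 + X + X ^ 2) ^ (p - 1) * (X * (1 + 2 * X)) - X ^ p - 2 * X ^ (2 * p) := by
  have hp0 : p ≠ 0 := (Fact.out : p.Prime).ne_zero
  have h1 : X * derivative (C (p : ℤ) * Cz) =
      X * derivative ((1 + X + X ^ 2) ^ p - 1 - X ^ p - X ^ (2 * p)) := by rw [h.1]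
  have hp1 : C (p : ℤ) ≠ (0 : ℤ[X]) := by
    rw [Ne, C_eq_zero]; exact_mod_cast hp0
  apply mul_left_cancel₀ hp1
  rw [derivative_mul, derivative_C, zero_mul, zero_add] at h1
  have e1 : C (p : ℤ) * (X * derivative Cz) = X * (C (p : ℤ) * derivative Cz) := by ring
  rw [e1, h1]
  have e2 : (X : ℤ[X]) ^ p = X ^ (p - 1) * X := by
    rw [← pow_succ, Nat.sub_add_cancel (Nat.pos_of_ne_zero hp0)]
  have e3 : (X : ℤ[X]) ^ (2 * p) = X ^ (2 * p - 1) * X := by
    rw [← pow_succ, Nat.sub_add_cancel (by omega)]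
  rw [derivative_sub, derivative_sub, derivative_sub, derivative_one, derivative_X_pow, derivative_X_pow, derivative_pow,
    derivative_add, derivative_add, derivative_X_pow, derivative_one, derivative_X, e2, e3]
  simp only [Nat.cast_mul, map_mul, Nat.cast_ofNat, map_ofNat, map_natCast, eq_intCast, Int.cast_natCast,
    Nat.succ_sub_one, pow_one, Nat.reduceSub, zero_add]
  ring

theorem X1_dB {Cz Bz : ℤ[X]} (h : CB p Cz Bz) :
    X * derivative Bz = 2 * X * (1 + 2 * X) ^ (p - 1) - 2 * X ^ p := by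
  have hp0 : p ≠ 0 := (Fact.out : p.Prime).ne_zero
  have h1 : X * derivative (C (p : ℤ) * Bz) =
      X * derivative ((1 + 2 * X) ^ p - 1 - 2 * X ^ p) := by rw [h.2]
  have hp1 : C (p : ℤ) ≠ (0 : ℤ[X]) := by
    rw [Ne, C_eq_zero]; exact_mod_cast hp0
  apply mul_left_cancel₀ hp1
  rw [derivative_mul, derivative_C, zero_mul, zero_add] at h1
  have e1 : C (p : ℤ) * (X * derivative Bz) = X * (C (p : ℤ) * derivative Bz) := by ring
  rw [e1, h1]
  have e2 : (X : ℤ[X]) ^ p = X ^ (p - 1) * X := by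
    rw [← pow_succ, Nat.sub_add_cancel (Nat.pos_of_ne_zero hp0)]
  have h2 : derivative (2 : ℤ[X]) = 0 := by
    rw [← map_ofNat C 2, derivative_C]
  rw [derivative_sub, derivative_sub, derivative_one, derivative_mul, derivative_X_pow, derivative_pow,
    derivative_add, derivative_one, derivative_mul, derivative_X, h2, e2]
  simp only [map_natCast, eq_intCast, Int.cast_natCast, zero_mul, zero_add, mul_one, sub_zero]
  ring

theorem th_Cz (hp : 5 ≤ p) {Cz Bz : ℤ[X]} (h : CB p Cz Bz) :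
    (1 + X + X ^ 2) * (X * derivative (Cz.map (Int.castRingHom (ZMod p)))) =
      (1 + X ^ p + X ^ (2 * p)) * X * (1 + 2 * X) - (1 + X + X ^ 2) * (X ^ p + 2 * X ^ (2 * p)) := by
  have h1 := congrArg (Polynomial.map (Int.castRingHom (ZMod p))) (X1_dC h)
  simp only [Polynomial.map_mul, Polynomial.map_sub, Polynomial.map_add, Polynomial.map_pow, Polynomial.map_one,
    Polynomial.map_ofNat, map_X] at h1
  rw [derivative_map, h1, ← X1_q]
  have e : (1 + X + X ^ 2 : (ZMod p)[X]) ^ p = (1 + X + X ^ 2) ^ (p - 1) * (1 + X + X ^ 2) := by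
    rw [← pow_succ, Nat.sub_add_cancel (by omega)]
  rw [e]
  ring

theorem th_Bz (hp : 5 ≤ p) {Cz Bz : ℤ[X]} (h : CB p Cz Bz) :
    X * derivative (Bz.map (Int.castRingHom (ZMod p))) = 2 * X * (1 + 2 * X) ^ (p - 1) - 2 * X ^ p := by
  have h1 := congrArg (Polynomial.map (Int.castRingHom (ZMod p))) (X1_dB h)
  simp only [Polynomial.map_mul, Polynomial.map_sub, Polynomial.map_add, Polynomial.map_pow, Polynomial.map_one,
    Polynomial.map_ofNat, map_X] at h1
  rw [derivative_map, h1]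

theorem X1_dE {Cz Bz : ℤ[X]} : X * derivative (EE p Cz Bz) =
    3 * (1 + 2 * X ^ p) * (X * derivative (Cz.map (Int.castRingHom (ZMod p)))) -
    9 * (1 + X ^ p + X ^ (2 * p)) * (X * derivative (Bz.map (Int.castRingHom (ZMod p)))) := by
  unfold EE
  have hT2 : (X : (ZMod p)[X]) ^ (2 * p) = (X ^ p) ^ 2 := by rw [← pow_mul, mul_comm]
  rw [hT2]
  obtain ⟨T, hT⟩ : ∃ T : (ZMod p)[X], T = X ^ p := ⟨_, rfl⟩
  have hd : derivative T = 0 := by rw [hT]; exact X1_dT
  rw [← hT]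
  have h2 : derivative (2 : (ZMod p)[X]) = 0 := by rw [← map_ofNat C 2, derivative_C]
  have h3 : derivative (3 : (ZMod p)[X]) = 0 := by rw [← map_ofNat C 3, derivative_C]
  have h9 : derivative (9 : (ZMod p)[X]) = 0 := by rw [← map_ofNat C 9, derivative_C]
  simp only [derivative_add, derivative_sub, derivative_mul, derivative_pow, derivative_C, derivative_one, hd, h2,
    h3, h9]
  ring

theorem X1_dX {Cz Bz : ℤ[X]} : X * derivative (XX p Cz Bz) =
    3 * (1 + X ^ p + X ^ (2 * p)) * (X * derivative (G0 p)) + X * derivative (EE p Cz Bz) * vv p +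
      EE p Cz Bz * (X * derivative (vv p)) - (1 - X ^ p) ^ 2 * (X * derivative (Gb p)) := by
  unfold XX
  have hT2 : (X : (ZMod p)[X]) ^ (2 * p) = (X ^ p) ^ 2 := by rw [← pow_mul, mul_comm]
  rw [hT2]
  obtain ⟨T, hT⟩ : ∃ T : (ZMod p)[X], T = X ^ p := ⟨_, rfl⟩
  have hd : derivative T = 0 := by rw [hT]; exact X1_dT
  rw [← hT]
  have h3 : derivative (3 : (ZMod p)[X]) = 0 := by rw [← map_ofNat C 3, derivative_C]
  simp only [derivative_add, derivative_sub, derivative_mul, derivative_pow, derivative_one, hd, h3]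
  ring

theorem vX (hp : 5 ≤ p) {Cz Bz : ℤ[X]} (h : CB p Cz Bz) :
    vv p * (X * derivative (XX p Cz Bz)) = XX p Cz Bz * (X * derivative (vv p)) := by
  have hC := th_Cz hp h
  have hB := th_Bz hp h
  have hE := X1_dE (p := p) (Cz := Cz) (Bz := Bz)
  have hX := X1_dX (p := p) (Cz := Cz) (Bz := Bz)
  have hG := wr_G0 (p := p) hp
  have hGb := wr_Gb (p := p) hp
  have hT2 : (X : (ZMod p)[X]) ^ (2 * p) = (X ^ p) ^ 2 := by rw [← pow_mul, mul_comm]
  have hT3 : (X : (ZMod p)[X]) ^ (3 * p) = (X ^ p) ^ 3 := by rw [← pow_mul, mul_comm]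
  have hL : (1 + 2 * X ^ p : (ZMod p)[X]) = (1 + 2 * X) ^ (p - 1) * (1 + 2 * X) := by
    rw [← pow_succ, Nat.sub_add_cancel (by omega), X1_L]
  unfold LL at hG
  have hXX : XX p Cz Bz = 3 * (1 + X ^ p + X ^ (2 * p)) * G0 p + EE p Cz Bz * vv p -
    (1 - X ^ p) ^ 2 * Gb p := rfl
  rw [hT2] at hC hE hX hXX
  rw [hT3] at hGb
  obtain ⟨T, hT⟩ : ∃ T : (ZMod p)[X], T = X ^ p := ⟨_, rfl⟩
  rw [← hT] at hC hB hE hX hG hGb hL hXX
  obtain ⟨M, hM⟩ : ∃ M : (ZMod p)[X], M = (1 + 2 * X) ^ (p - 1) := ⟨_, rfl⟩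
  rw [← hM] at hB hG hL
  rw [hX, hXX]
  generalize X * derivative (G0 p) = dG at *
  generalize X * derivative (Gb p) = dGb at *
  generalize X * derivative (vv p) = dv at *
  generalize X * derivative (EE p Cz Bz) = dE at *
  generalize X * derivative (Cz.map (Int.castRingHom (ZMod p))) = dC at *
  generalize X * derivative (Bz.map (Int.castRingHom (ZMod p))) = dB at *
  generalize vv p = v at *
  generalize G0 p = g at *
  generalize Gb p = gb at *
  generalize EE p Cz Bz = E at *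
  have hne : (1 - X ^ 3 : (ZMod p)[X]) ≠ 0 := by
    intro h0
    have := congrArg (fun f : (ZMod p)[X] => f.coeff 0) h0
    simp at this
  have hkey : (1 + X + X ^ 2) * (dE + 3 * (1 - T) ^ 2) = 3 * (1 + T + T ^ 2) * (1 - X) ^ 2 * M := by
    rw [hE, hB]
    linear_combination 3 * (1 + 2 * T) * hC + (3 * (1 + T + T ^ 2) * X * (1 + 2 * X)) * hL +
      3 * (1 + T + T ^ 2) * (1 + X + X ^ 2) * hL
  apply mul_left_cancel₀ hne
  linear_combination 3 * (1 + T + T ^ 2) * hG - (1 - T) ^ 2 * hGb + (1 - X) * v ^ 2 * hkey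

end SCong
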