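import Pool.Agent.Lib.MP_0a3b9a_nt.S9
import Pool.Agent.Lib.MP_0a3b9a_nt.V2

/-!
Module X2.
CB_exists: (f)^p - f(X^p) is divisible by p in ℤ[X] (reduce mod p: char p).
XX_zero: X = 0: T = 0; G0(0) = gg 0 = 0, Cz(0) = Bz(0) = 0 (from CB), Gb(0) = 0, so XX(0) = (-3 fq3 + fq27) v(0) = 0.
XX_dvd_a (at y = 1): G0(1) = 3^(2p-1) G(1) = 3 G(1) (Q(1) = 27, L(1) = 3, α = 1), Cz(1) = Bz(1) = 3 fq3 (p Cz(1) = 3^p - 3, 3^p = 3 + 3p fq3),
 XX(1) = 9 G0(1) + E(1) H(1), E(1) = 27 fq3 - 81 fq3 - 27 fq3 = -27 fq27, so XX(1) = 27 (G(1) - fq27 H(1)) = 0 (M_one).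
XX_dvd_b (mod 1+X+X²): 1+X^p+X^(2p) ≡ 0 (3 does not divide p; in ℤ[X]), so Cz ≡ 0 mod 1+X+X² in ℤ[X] (ℤ[X]/(1+X+X²) is torsion free: monic divisor), vv ≡ H(1), Gb ≡ G(1) mod X³-1.
 So XX ≡ C(fq27)(1-T)² H(1) - (1-T)² G(1) = 0.
-/

namespace SCong
open Finset Polynomial
variable {p : ℕ} [Fact p.Prime]

section X2aux

private lemma C_dvd_of_map_zero {f : ℤ[X]} (h : f.map (Int.castRingHom (ZMod p)) = 0) :
    ∃ g : ℤ[X], C (p : ℤ) * g = f := by
  have : C (p : ℤ) ∣ f := by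
    rw [C_dvd_iff_dvd_coeff]
    intro i
    have h1 := congrArg (fun P => P.coeff i) h
    simp only [coeff_map, coeff_zero, eq_intCast] at h1
    exact (ZMod.intCast_zmod_eq_zero_iff_dvd _ _).mp h1
  obtain ⟨g, hg⟩ := this
  exact ⟨g, hg.symm⟩

private lemma not_three_dvd (hp : 5 ≤ p) : ¬ 3 ∣ p := by
  intro h
  have := (Nat.prime_dvd_prime_iff_eq Nat.prime_three (Fact.out : p.Prime)).mp h
  omega

private lemma phi_dvd {R : Type*} [CommRing R] (hp : 5 ≤ p) :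
    (1 + X + X ^ 2 : R[X]) ∣ 1 + X ^ p + X ^ (2 * p) := by
  have h3 := not_three_dvd hp
  have hX : ∀ k : ℕ, (1 + X + X ^ 2 : R[X]) ∣ X ^ (3 * k) - 1 := by
    intro k
    have h1 : (1 + X + X ^ 2 : R[X]) ∣ X ^ 3 - 1 := ⟨X - 1, by ring⟩
    have h2 : (X ^ 3 - 1 : R[X]) ∣ (X ^ 3) ^ k - 1 ^ k := sub_dvd_pow_sub_pow _ _ _
    rw [one_pow, ← pow_mul] at h2
    exact h1.trans h2
  have hr : p % 3 = 1 ∨ p % 3 = 2 := by omega
  rcases hr with hr | hr
  · obtain ⟨k, hk⟩ : ∃ k, p = 3 * k + 1 := ⟨p / 3, by omega⟩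
    have e : (1 + X ^ p + X ^ (2 * p) : R[X]) =
        (1 + X + X ^ 2) + X * (X ^ (3 * k) - 1) + X ^ 2 * (X ^ (3 * (2 * k)) - 1) := by
      rw [hk]
      ring
    rw [e]
    exact dvd_add (dvd_add (dvd_refl _) (Dvd.dvd.mul_left (hX k) _)) (Dvd.dvd.mul_left (hX _) _)
  · obtain ⟨k, hk⟩ : ∃ k, p = 3 * k + 2 := ⟨p / 3, by omega⟩
    have e : (1 + X ^ p + X ^ (2 * p) : R[X]) =
        (1 + X + X ^ 2) + X ^ 2 * (X ^ (3 * k) - 1) + X * (X ^ (3 * (2 * k + 1)) - 1) := by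
      rw [hk]
      ring
    rw [e]
    exact dvd_add (dvd_add (dvd_refl _) (Dvd.dvd.mul_left (hX k) _)) (Dvd.dvd.mul_left (hX _) _)

private lemma pos_p : 0 < p := (Fact.out : p.Prime).pos

private lemma p_ne_zero_int : (p : ℤ) ≠ 0 := by
  exact_mod_cast (Fact.out : p.Prime).ne_zero

private lemma three_ne (hp : 5 ≤ p) : (3 : ZMod p) ≠ 0 := by
  intro h
  have : ((3 : ℕ) : ZMod p) = 0 := by exact_mod_cast h
  rw [ZMod.natCast_eq_zero_iff] at this
  have := Nat.le_of_dvd (by norm_num) this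
  omega

/-- `3^(p-1) = 1 + p fq3` in the integers. -/
private lemma fq3_int (hp : 5 ≤ p) : (3 : ℤ) ^ (p - 1) = 1 + p * (fq p 3 : ℤ) := by
  have hc : IsCoprime (3 : ℤ) p := by
    have := (Nat.coprime_primes Nat.prime_three (Fact.out : p.Prime)).mpr (by omega)
    exact_mod_cast Nat.isCoprime_iff_coprime.mpr this
  have h1 : (p : ℕ) ∣ 3 ^ (p - 1) - 1 := by
    have h2 : (3 : ℤ) ^ (p - 1) ≡ 1 [ZMOD p] := Int.ModEq.pow_card_sub_one_eq_one Fact.out hc
    have h3 : ((3 : ℕ) ^ (p - 1) : ℕ) ≡ 1 [MOD p] := by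
      rw [← Int.natCast_modEq_iff]
      exact_mod_cast h2
    exact (Nat.modEq_iff_dvd' (Nat.one_le_pow _ _ (by norm_num))).mp h3.symm
  have h4 : fq p 3 * p = 3 ^ (p - 1) - 1 := by
    unfold fq
    exact Nat.div_mul_cancel h1
  have h5 : 1 ≤ 3 ^ (p - 1) := Nat.one_le_pow _ _ (by norm_num)
  have h6 : 3 ^ (p - 1) = 1 + p * fq p 3 := by
    have : p * fq p 3 = 3 ^ (p - 1) - 1 := by rw [mul_comm]; exact h4
    omega
  exact_mod_cast h6

private lemma G0_eval (a : ZMod p) : (G0 p).eval a =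
    ∑ k ∈ range (2 * p / 3 + 1), gg (ZMod p) k * (9 * a * (1 + a + a ^ 2)) ^ k *
      (1 + 2 * a) ^ (2 * p - 1 - 3 * k) := by
  rw [G0, eval_finsetSum]
  refine Finset.sum_congr rfl fun k _ => ?_
  simp [QQ, LL]

private lemma Gp_eval (a : ZMod p) : (Gp p).eval a =
    ∑ k ∈ range p, gg (ZMod p) k * a ^ k := by
  rw [Gp, eval_finsetSum]
  refine Finset.sum_congr rfl fun k _ => ?_
  simp

private lemma dvd_comp_cube (P : (ZMod p)[X]) :
    (1 + X + X ^ 2 : (ZMod p)[X]) ∣ P.comp (X ^ 3) - C (P.eval 1) := by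
  obtain ⟨Q, hQ⟩ := X_sub_C_dvd_sub_C_eval (a := (1 : ZMod p)) (p := P)
  have h1 := congrArg (fun P : (ZMod p)[X] => P.comp (X ^ 3)) hQ
  simp only [sub_comp, mul_comp, X_comp, C_comp] at h1
  rw [h1]
  refine Dvd.dvd.mul_right ?_ _
  exact ⟨X - 1, by rw [C_1]; ring⟩

end X2aux

theorem CB_exists (hp : 5 ≤ p) : ∃ Cz Bz : ℤ[X], CB p Cz Bz := by
  have h1 : ((1 + X + X ^ 2 : ℤ[X]) ^ p - 1 - X ^ p - X ^ (2 * p)).map
      (Int.castRingHom (ZMod p)) = 0 := by
    simp only [Polynomial.map_sub, Polynomial.map_pow, Polynomial.map_add, Polynomial.map_one,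
      Polynomial.map_X]
    rw [add_pow_char, add_pow_char, one_pow, ← pow_mul]
    ring
  have h2 : ((1 + 2 * X : ℤ[X]) ^ p - 1 - 2 * X ^ p).map (Int.castRingHom (ZMod p)) = 0 := by
    simp only [Polynomial.map_sub, Polynomial.map_pow, Polynomial.map_add, Polynomial.map_one,
      Polynomial.map_X, Polynomial.map_mul, Polynomial.map_ofNat]
    rw [add_pow_char, one_pow, mul_pow]
    have : (2 : (ZMod p)[X]) ^ p = 2 := by
      rw [show (2 : (ZMod p)[X]) = C 2 from rfl, ← C_pow, ZMod.pow_card]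
    rw [this]
    ring
  obtain ⟨Cz, hCz⟩ := C_dvd_of_map_zero h1
  obtain ⟨Bz, hBz⟩ := C_dvd_of_map_zero h2
  exact ⟨Cz, Bz, hCz, hBz⟩

private lemma eval_map_int (f : ℤ[X]) (a : ℤ) :
    (f.map (Int.castRingHom (ZMod p))).eval (a : ZMod p) = ((f.eval a : ℤ) : ZMod p) := by
  have := eval_intCast_map (Int.castRingHom (ZMod p)) f a
  simpa using this

theorem XX_zero (hp : 5 ≤ p) {Cz Bz : ℤ[X]} (h : CB p Cz Bz) : (XX p Cz Bz).eval 0 = 0 := by
  obtain ⟨h1, h2⟩ := h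
  have hp0 : p ≠ 0 := (Fact.out : p.Prime).ne_zero
  have e1 : Cz.eval 0 = 0 := by
    have := congrArg (fun f => f.eval 0) h1
    simp only [eval_mul, eval_C, eval_sub, eval_pow, eval_add, eval_one, eval_X] at this
    rw [zero_pow (by norm_num : 2 ≠ 0), zero_pow hp0, zero_pow (by omega : 2 * p ≠ 0)] at this
    simp only [add_zero, one_pow, sub_self, mul_eq_zero] at this
    exact this.resolve_left p_ne_zero_int
  have e2 : Bz.eval 0 = 0 := by
    have := congrArg (fun f => f.eval 0) h2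
    simp only [eval_mul, eval_C, eval_sub, eval_pow, eval_add, eval_one, eval_X] at this
    rw [zero_pow hp0] at this
    simp only [mul_zero, add_zero, one_pow, sub_self, mul_eq_zero] at this
    exact this.resolve_left p_ne_zero_int
  have e1' : (Cz.map (Int.castRingHom (ZMod p))).eval 0 = 0 := by
    have := eval_map_int (p := p) Cz 0
    rw [e1] at this
    simpa using this
  have e2' : (Bz.map (Int.castRingHom (ZMod p))).eval 0 = 0 := by
    have := eval_map_int (p := p) Bz 0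
    rw [e2] at this
    simpa using this
  have e3 : (G0 p).eval 0 = 0 := by
    rw [G0_eval]
    apply Finset.sum_eq_zero
    intro k _
    rcases k with _ | k
    · simp [gg]
    · rw [mul_zero, zero_mul, zero_pow (Nat.succ_ne_zero k)]
      ring
  have e4 : (Gb p).eval 0 = 0 := by
    rw [Gb, eval_comp]
    have : eval 0 (X ^ 3 : (ZMod p)[X]) = 0 := by simp
    rw [this, Gp_eval]
    apply Finset.sum_eq_zero
    intro k _
    rcases k with _ | k
    · simp [gg]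
    · rw [zero_pow (Nat.succ_ne_zero k)]
      ring
  rw [XX, EE]
  simp only [eval_mul, eval_C, eval_sub, eval_pow, eval_add, eval_one, eval_X, e1', e2', e3, e4,
    eval_ofNat]
  rw [zero_pow hp0, zero_pow (by omega : 2 * p ≠ 0), fq27 hp]
  ring

theorem XX_dvd_a (hp : 5 ≤ p) {Cz Bz : ℤ[X]} (h : CB p Cz Bz) : (XX p Cz Bz).eval 1 = 0 := by
  obtain ⟨h1, h2⟩ := h
  have hp0 : 0 < p := (Fact.out : p.Prime).pos
  have h3 := three_ne hp
  have hpow : (3 : ℤ) ^ p = 3 + 3 * (p * (fq p 3 : ℤ)) := by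
    obtain ⟨q, rfl⟩ : ∃ q, p = q + 1 := ⟨p - 1, by omega⟩
    have := fq3_int hp
    rw [Nat.add_sub_cancel] at this
    rw [pow_succ, this]
    ring
  have e1 : Cz.eval 1 = 3 * (fq p 3 : ℤ) := by
    have := congrArg (fun f => f.eval 1) h1
    simp only [eval_mul, eval_C, eval_sub, eval_pow, eval_add, eval_one, eval_X, one_pow] at this
    rw [show (1 + 1 + 1 : ℤ) = 3 by norm_num, hpow] at this
    have h4 : (p : ℤ) * Cz.eval 1 = p * (3 * (fq p 3 : ℤ)) := by rw [this]; ring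
    exact mul_left_cancel₀ p_ne_zero_int h4
  have e2 : Bz.eval 1 = 3 * (fq p 3 : ℤ) := by
    have := congrArg (fun f => f.eval 1) h2
    simp only [eval_mul, eval_C, eval_sub, eval_pow, eval_add, eval_one, eval_X, one_pow,
      eval_ofNat] at this
    rw [show (1 + 2 * 1 : ℤ) = 3 by norm_num, hpow] at this
    have h4 : (p : ℤ) * Bz.eval 1 = p * (3 * (fq p 3 : ℤ)) := by rw [this]; ring
    exact mul_left_cancel₀ p_ne_zero_int h4
  have e1' : (Cz.map (Int.castRingHom (ZMod p))).eval 1 = 3 * (fq p 3 : ZMod p) := by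
    have := eval_map_int (p := p) Cz 1
    rw [e1] at this
    simpa using this
  have e2' : (Bz.map (Int.castRingHom (ZMod p))).eval 1 = 3 * (fq p 3 : ZMod p) := by
    have := eval_map_int (p := p) Bz 1
    rw [e2] at this
    simpa using this
  have hfer : (3 : ZMod p) ^ (p - 1) = 1 := ZMod.pow_card_sub_one_eq_one h3
  have e3 : (G0 p).eval 1 = 3 * (Gp p).eval 1 := by
    rw [G0_eval, Gp_eval, Finset.mul_sum]
    have hle : 2 * p / 3 + 1 ≤ p := by omega
    rw [← Finset.sum_subset (Finset.range_subset_range.mpr hle)]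
    · refine Finset.sum_congr rfl fun k hk => ?_
      rw [Finset.mem_range] at hk
      have hk3 : 3 * k ≤ 2 * p - 1 := by
        have := not_three_dvd hp
        have hr : p % 3 = 1 ∨ p % 3 = 2 := by omega
        rcases hr with hr | hr <;> omega
      have e : (3 : ZMod p) ^ (3 * k) * 3 ^ (2 * p - 1 - 3 * k) = 3 := by
        rw [← pow_add, Nat.add_sub_cancel' hk3, show 2 * p - 1 = (p - 1) * 2 + 1 by omega, pow_succ,
          pow_mul, hfer]
        ring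
      have e' : (9 * 1 * (1 + 1 + 1 ^ 2) : ZMod p) ^ k = 3 ^ (3 * k) := by
        rw [pow_mul]
        norm_num
      rw [e', show (1 + 2 * 1 : ZMod p) = 3 by norm_num]
      linear_combination (gg (ZMod p) k) * e
    · intro k hk1 hk2
      rw [Finset.mem_range] at hk1
      rw [Finset.mem_range, not_lt] at hk2
      rw [gg_zero hp (by omega) hk1]
      ring
  have e4 : (Gb p).eval 1 = (Gp p).eval 1 := by
    rw [Gb, eval_comp]
    simp
  have e5 : (vv p).eval 1 = (Hp p).eval 1 := by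
    rw [vv, eval_comp]
    simp
  rw [XX, EE]
  simp only [eval_mul, eval_C, eval_sub, eval_pow, eval_add, eval_one, eval_X, e1', e2', e3, e4,
    e5, eval_ofNat, one_pow, M_one hp, fq27 hp]
  ring

theorem XX_dvd_b (hp : 5 ≤ p) {Cz Bz : ℤ[X]} (h : CB p Cz Bz) : (1 + X + X ^ 2) ∣ XX p Cz Bz := by
  obtain ⟨h1, h2⟩ := h
  have hmonic : (1 + X + X ^ 2 : ℤ[X]).Monic := by monicity!
  have hC : (1 + X + X ^ 2 : ℤ[X]) ∣ Cz := by
    have hd : (1 + X + X ^ 2 : ℤ[X]) ∣ C (p : ℤ) * Cz := by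
      rw [h1]
      have e : ((1 + X + X ^ 2 : ℤ[X]) ^ p - 1 - X ^ p - X ^ (2 * p)) =
          (1 + X + X ^ 2 : ℤ[X]) ^ p - (1 + X ^ p + X ^ (2 * p)) := by ring
      rw [e]
      exact dvd_sub (dvd_pow_self _ (Fact.out : p.Prime).ne_zero) (phi_dvd hp)
    rw [← modByMonic_eq_zero_iff_dvd hmonic] at hd ⊢
    rw [← smul_eq_C_mul, smul_modByMonic, smul_eq_C_mul] at hd
    rcases mul_eq_zero.mp hd with h0 | h0
    · exact absurd (C_eq_zero.mp h0) p_ne_zero_int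
    · exact h0
  have hC' : (1 + X + X ^ 2 : (ZMod p)[X]) ∣ Cz.map (Int.castRingHom (ZMod p)) := by
    have := Polynomial.map_dvd (Int.castRingHom (ZMod p)) hC
    simpa using this
  obtain ⟨c, hc⟩ := hC'
  obtain ⟨t, ht⟩ := phi_dvd (R := ZMod p) hp
  obtain ⟨u, hu⟩ := dvd_comp_cube (Hp p)
  obtain ⟨w, hw⟩ := dvd_comp_cube (Gp p)
  have hvv : vv p = C ((Hp p).eval 1) + (1 + X + X ^ 2) * u := by
    rw [← hu, vv]; ring
  have hGb : Gb p = C ((Gp p).eval 1) + (1 + X + X ^ 2) * w := by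
    rw [← hw, Gb]; ring
  have hM : C ((Gp p).eval 1) = C (fq p 27 : ZMod p) * C ((Hp p).eval 1) := by
    rw [← C_mul, M_one hp]
  rw [XX, EE, hc, ht, hGb, hM, hvv]
  generalize C ((Hp p).eval 1) = a
  generalize C (fq p 27 : ZMod p) = b
  refine ⟨3 * t * G0 p + (3 * (1 + 2 * X ^ p) * c - 9 * t * Bz.map (Int.castRingHom (ZMod p))
    - 3 * C (fq p 3 : ZMod p) * t * (1 + 2 * X ^ p)) * (a + (1 + X + X ^ 2) * u) +
    b * (1 - X ^ p) ^ 2 * u - (1 - X ^ p) ^ 2 * w, ?_⟩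
  ring

end SCong
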