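import Pool.Agent.Lib.MP_0a3b9a_nt.X1
import Pool.Agent.Lib.MP_0a3b9a_nt.X2

/-!
Module X3.  (a) vv and X·vv' are coprime: wr_Gb: vv·(θGb + 3vv) - Gb·θvv times (1-X³) equals 3(1-X³)^p, cancel: = 3(1-X³)^(p-1); and vv ≡ H(1) = ±1 mod (X³-1), so vv is coprime to 1-X³.
(b) vX: vv | XX·θvv, so vv | XX, XX = U vv; vv² θU = 0, so U' = 0, U = expand p ψ (expand_contract).
(c) natDegree XX <= 4p-1 (3(1+T+T²)G0: 2p+2p-1; E: natDegree <= 3p (Cz <= 2p, Bz <= p from CB), vv <= p-1; (1-T)²Gb: 2p + 3(2p/3) <= 4p-1 as 3 does not divide p), so natDegree ψ <= 3.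
(d) U(0) = 0 (vv(0) = 1, XX(0) = 0), so ψ(0) = 0; X³-1 | XX (X2; 1-X and 1+X+X² coprime since 3 ≠ 0), so X³-1 | U, and U = a1 X^p + a2 X^(2p) + a3 X^(3p) ≡ a combination of X, X², 1 mod X³-1
 (p % 3 = 1: a1 X + a2 X² + a3; p % 3 = 2: a1 X² + a2 X + a3), so a1 = a2 = a3 = 0.
-/

namespace SCong
open Finset Polynomial
variable {p : ℕ} [Fact p.Prime]

section X3aux

private lemma not_three_dvd' (hp : 5 ≤ p) : ¬ 3 ∣ p := by
  intro h
  have := (Nat.prime_dvd_prime_iff_eq Nat.prime_three (Fact.out : p.Prime)).mp h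
  omega

private lemma three_ne' (hp : 5 ≤ p) : (3 : ZMod p) ≠ 0 := by
  intro h
  have : ((3 : ℕ) : ZMod p) = 0 := by exact_mod_cast h
  rw [ZMod.natCast_eq_zero_iff] at this
  have := Nat.le_of_dvd (by norm_num) this
  omega

private lemma dvd_comp_cube' (P : (ZMod p)[X]) :
    (1 - X ^ 3 : (ZMod p)[X]) ∣ P.comp (X ^ 3) - C (P.eval 1) := by
  obtain ⟨Q, hQ⟩ := X_sub_C_dvd_sub_C_eval (a := (1 : ZMod p)) (p := P)
  have h1 := congrArg (fun P : (ZMod p)[X] => P.comp (X ^ 3)) hQ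
  simp only [sub_comp, mul_comp, X_comp, C_comp] at h1
  rw [h1]
  refine Dvd.dvd.mul_right ?_ _
  exact ⟨-1, by rw [C_1]; ring⟩

private lemma vv_coprime_cube (hp : 5 ≤ p) : IsCoprime (vv p) (1 - X ^ 3) := by
  obtain ⟨u, hu⟩ := dvd_comp_cube' (Hp p)
  have hvv : vv p = C ((Hp p).eval 1) + (1 - X ^ 3) * u := by
    rw [← hu, vv]; ring
  have h2 : (Hp p).eval 1 * (Hp p).eval 1 = 1 := by
    rw [Hp_one hp]
    split_ifs <;> norm_num
  refine ⟨C ((Hp p).eval 1), -(C ((Hp p).eval 1) * u), ?_⟩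
  rw [hvv]
  have h3 : C ((Hp p).eval 1) * C ((Hp p).eval 1) = (1 : (ZMod p)[X]) := by
    rw [← C_mul, h2, C_1]
  linear_combination h3

private lemma ndsub {R : Type*} [Ring R] {f g : R[X]} {n : ℕ} (hf : f.natDegree ≤ n)
    (hg : g.natDegree ≤ n) : (f - g).natDegree ≤ n :=
  (natDegree_sub_le f g).trans (max_le hf hg)

private lemma cube_ne_zero : (1 - X ^ 3 : (ZMod p)[X]) ≠ 0 := by
  intro h
  have := congrArg (fun P : (ZMod p)[X] => P.eval 0) h
  simp at this

end X3aux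

theorem vv_coprime (hp : 5 ≤ p) : IsCoprime (vv p) (X * derivative (vv p)) := by
  have h1 := wr_Gb hp
  have hpow : (1 - X ^ (3 * p) : (ZMod p)[X]) = (1 - X ^ 3) * (1 - X ^ 3) ^ (p - 1) := by
    rw [← pow_succ', Nat.sub_add_cancel (by omega), sub_pow_char, one_pow, ← pow_mul]
  rw [hpow] at h1
  have h2 : vv p * (X * derivative (Gb p)) - Gb p * (X * derivative (vv p)) + 3 * vv p ^ 2 =
      3 * (1 - X ^ 3) ^ (p - 1) := by
    apply mul_left_cancel₀ cube_ne_zero
    rw [h1]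
    ring
  obtain ⟨a, b, hab⟩ := (vv_coprime_cube hp).pow_right (n := p - 1)
  have h3 : (C (3⁻¹ : ZMod p) : (ZMod p)[X]) * 3 = 1 := by
    rw [show (3 : (ZMod p)[X]) = C 3 from rfl, ← C_mul, inv_mul_cancel₀ (three_ne' hp), C_1]
  refine ⟨a + b * C (3⁻¹ : ZMod p) * (X * derivative (Gb p) + 3 * vv p),
    -(b * C (3⁻¹ : ZMod p) * Gb p), ?_⟩
  linear_combination hab + b * C (3⁻¹ : ZMod p) * h2 + b * (1 - X ^ 3) ^ (p - 1) * h3

private lemma nd_pow (m : ℕ) : (X ^ m : (ZMod p)[X]).natDegree ≤ m := natDegree_X_pow_le m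

theorem natDegree_XX (hp : 5 ≤ p) {Cz Bz : ℤ[X]} (h : CB p Cz Bz) : (XX p Cz Bz).natDegree ≤ 4 * p - 1 := by
  obtain ⟨h1, h2⟩ := h
  have h3 := not_three_dvd' hp
  have hp0 : (p : ℤ) ≠ 0 := by exact_mod_cast (Fact.out : p.Prime).ne_zero
  have hCz : Cz.natDegree ≤ 2 * p := by
    rw [← natDegree_C_mul hp0, h1]
    have e : (1 + X + X ^ 2 : ℤ[X]).natDegree ≤ 2 := by compute_degree
    have e' : ((1 + X + X ^ 2 : ℤ[X]) ^ p).natDegree ≤ 2 * p := by
      refine natDegree_pow_le.trans ?_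
      rw [mul_comm]
      exact Nat.mul_le_mul_right _ e
    refine ndsub (ndsub (ndsub e' ?_) ?_) ?_
    · simp
    · exact (natDegree_X_pow_le _).trans (by omega)
    · exact natDegree_X_pow_le _
  have hBz : Bz.natDegree ≤ p := by
    rw [← natDegree_C_mul hp0, h2]
    have e : (1 + 2 * X : ℤ[X]).natDegree ≤ 1 := by compute_degree
    have e' : ((1 + 2 * X : ℤ[X]) ^ p).natDegree ≤ p := by
      refine natDegree_pow_le.trans ?_
      calc p * (1 + 2 * X : ℤ[X]).natDegree ≤ p * 1 := Nat.mul_le_mul_left _ e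
        _ = p := mul_one p
    refine ndsub (ndsub e' ?_) ?_
    · simp
    · refine natDegree_mul_le_of_le (m := 0) (n := p) ?_ (natDegree_X_pow_le _) |>.trans (by omega)
      exact (natDegree_ofNat 2).le
  have hCz' : (Cz.map (Int.castRingHom (ZMod p))).natDegree ≤ 2 * p :=
    natDegree_map_le.trans hCz
  have hBz' : (Bz.map (Int.castRingHom (ZMod p))).natDegree ≤ p :=
    natDegree_map_le.trans hBz
  have hT2 : (1 + X ^ p + X ^ (2 * p) : (ZMod p)[X]).natDegree ≤ 2 * p := by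
    refine natDegree_add_le_of_degree_le (natDegree_add_le_of_degree_le ?_ ?_) ?_
    · simp
    · exact (nd_pow p).trans (by omega)
    · exact nd_pow _
  have hT1 : (1 + 2 * X ^ p : (ZMod p)[X]).natDegree ≤ p := by
    refine natDegree_add_le_of_degree_le ?_ ?_
    · simp
    · refine natDegree_mul_le_of_le (m := 0) (n := p) ?_ (nd_pow p) |>.trans (by omega)
      exact (natDegree_ofNat 2).le
  have hT1m : ((1 - X ^ p : (ZMod p)[X]) ^ 2).natDegree ≤ 2 * p := by
    refine natDegree_pow_le.trans (Nat.mul_le_mul_left 2 ?_)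
    refine ndsub ?_ (nd_pow p)
    simp
  have hQQ : (QQ p).natDegree ≤ 3 := by
    rw [QQ]
    compute_degree
  have hLL : (LL p).natDegree ≤ 1 := by
    rw [LL]
    compute_degree
  have hG0 : (G0 p).natDegree ≤ 2 * p - 1 := by
    rw [G0]
    apply natDegree_sum_le_of_forall_le
    intro k hk
    rw [Finset.mem_range] at hk
    have hr : p % 3 = 1 ∨ p % 3 = 2 := by omega
    have hk3 : 3 * k ≤ 2 * p - 1 := by rcases hr with hr | hr <;> omega
    have e1 : (C (gg (ZMod p) k) * QQ p ^ k).natDegree ≤ 3 * k := by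
      refine (natDegree_C_mul_le _ _).trans (natDegree_pow_le.trans ?_)
      rw [mul_comm 3 k]
      exact Nat.mul_le_mul_left k hQQ
    have e2 : (LL p ^ (2 * p - 1 - 3 * k)).natDegree ≤ 2 * p - 1 - 3 * k := by
      refine natDegree_pow_le.trans ?_
      calc _ ≤ (2 * p - 1 - 3 * k) * 1 := Nat.mul_le_mul_left _ hLL
        _ = _ := mul_one _
    exact (natDegree_mul_le_of_le e1 e2).trans (by omega)
  have hvv : (vv p).natDegree ≤ p - 1 := by
    rw [vv]
    refine natDegree_comp_le.trans ?_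
    have e1 := natDegree_Hp hp
    calc (Hp p).natDegree * (X ^ 3 : (ZMod p)[X]).natDegree ≤ (p / 3) * 3 :=
          Nat.mul_le_mul e1 (nd_pow 3)
      _ ≤ p - 1 := by
          have hr : p % 3 = 1 ∨ p % 3 = 2 := by omega
          rcases hr with hr | hr <;> omega
  have hGb : (Gb p).natDegree ≤ 2 * p - 1 := by
    rw [Gb]
    refine natDegree_comp_le.trans ?_
    have e1 := natDegree_Gp hp
    calc (Gp p).natDegree * (X ^ 3 : (ZMod p)[X]).natDegree ≤ (2 * p / 3) * 3 :=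
          Nat.mul_le_mul e1 (nd_pow 3)
      _ ≤ 2 * p - 1 := by
          have hr : p % 3 = 1 ∨ p % 3 = 2 := by omega
          rcases hr with hr | hr <;> omega
  have hn : ∀ n : ℕ, ((OfNat.ofNat (n + 2) : (ZMod p)[X])).natDegree ≤ 0 := fun n =>
    (natDegree_ofNat (n + 2)).le
  have hEE : (EE p Cz Bz).natDegree ≤ 3 * p := by
    rw [EE]
    refine natDegree_add_le_of_degree_le (ndsub (ndsub ?_ ?_) ?_) ?_
    · refine (natDegree_mul_le_of_le (natDegree_mul_le_of_le (natDegree_ofNat 3).le hT1)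
        hCz').trans (by omega)
    · refine (natDegree_mul_le_of_le (natDegree_mul_le_of_le (natDegree_ofNat 9).le hT2)
        hBz').trans (by omega)
    · refine (natDegree_mul_le_of_le (natDegree_mul_le_of_le
        (natDegree_mul_le_of_le (natDegree_ofNat 3).le (natDegree_C _).le) hT2)
        hT1).trans (by omega)
    · refine (natDegree_mul_le_of_le (natDegree_C _).le hT1m).trans (by omega)
  rw [XX]
  refine ndsub (natDegree_add_le_of_degree_le ?_ ?_) ?_
  · refine (natDegree_mul_le_of_le (natDegree_mul_le_of_le (natDegree_ofNat 3).le hT2)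
      hG0).trans (by omega)
  · exact (natDegree_mul_le_of_le hEE hvv).trans (by omega)
  · exact (natDegree_mul_le_of_le hT1m hGb).trans (by omega)

private lemma comb_zero (hp : 5 ≤ p) (i j : ℕ) (hij : (i = 1 ∧ j = 2) ∨ (i = 2 ∧ j = 1))
    (a b c : ZMod p) (h : (1 - X ^ 3 : (ZMod p)[X]) ∣ C a * X ^ i + C b * X ^ j + C c) :
    a = 0 ∧ b = 0 ∧ c = 0 := by
  have hd : (1 - X ^ 3 : (ZMod p)[X]).natDegree = 3 := by
    compute_degree!
  have h0 : C a * X ^ i + C b * X ^ j + C c = (0 : (ZMod p)[X]) := by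
    apply eq_zero_of_dvd_of_natDegree_lt h
    rw [hd]
    have : (C a * X ^ i + C b * X ^ j + C c : (ZMod p)[X]).natDegree ≤ 2 := by
      refine natDegree_add_le_of_degree_le (natDegree_add_le_of_degree_le ?_ ?_) ?_
      · exact (natDegree_C_mul_X_pow_le _ _).trans (by omega)
      · exact (natDegree_C_mul_X_pow_le _ _).trans (by omega)
      · simp
    omega
  have hco : ∀ n, (C a * X ^ i + C b * X ^ j + C c : (ZMod p)[X]).coeff n = 0 := by
    intro n
    rw [h0, coeff_zero]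
  rcases hij with ⟨rfl, rfl⟩ | ⟨rfl, rfl⟩
  · have c0 := hco 0
    have c1 := hco 1
    have c2 := hco 2
    simp [coeff_X, coeff_X_pow, coeff_C] at c0 c1 c2
    exact ⟨c1, c2, c0⟩
  · have c0 := hco 0
    have c1 := hco 1
    have c2 := hco 2
    simp [coeff_X, coeff_X_pow, coeff_C] at c0 c1 c2
    exact ⟨c2, c1, c0⟩

theorem XX_eq_zero (hp : 5 ≤ p) {Cz Bz : ℤ[X]} (h : CB p Cz Bz) : XX p Cz Bz = 0 := by
  have hpr : p.Prime := Fact.out
  have h3 := not_three_dvd' hp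
  -- `vv` divides `XX`
  have hvX := vX hp h
  have hco := vv_coprime hp
  have hdvd : vv p ∣ XX p Cz Bz := by
    have : vv p ∣ XX p Cz Bz * (X * derivative (vv p)) := ⟨_, hvX.symm⟩
    exact hco.dvd_of_dvd_mul_right this
  obtain ⟨U, hU⟩ := hdvd
  have hv0 : (vv p).eval 0 = 1 := by
    rw [vv, eval_comp]
    have : eval 0 (X ^ 3 : (ZMod p)[X]) = 0 := by simp
    rw [this, Hp, eval_finsetSum, Finset.sum_eq_single 0]
    · simp [cc]
    · intro k _ hk
      simp [zero_pow hk]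
    · intro h0
      exact absurd (Finset.mem_range.mpr hpr.pos) h0
  have hvne : vv p ≠ 0 := by
    intro h0
    rw [h0] at hv0
    simp at hv0
  -- `U' = 0`
  have hdU : derivative U = 0 := by
    rw [hU, derivative_mul] at hvX
    have h1 : vv p ^ 2 * X * derivative U = 0 := by linear_combination hvX
    rcases mul_eq_zero.mp h1 with h2 | h2
    · rcases mul_eq_zero.mp h2 with h3' | h3'
      · exact absurd (pow_eq_zero_iff (two_ne_zero)|>.mp h3') hvne
      · exact absurd h3' X_ne_zero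
    · exact h2
  have hexp : expand (ZMod p) p (contract p U) = U := expand_contract p hdU hpr.ne_zero
  set ψ := contract p U with hψ
  by_cases hU0 : U = 0
  · rw [hU, hU0, mul_zero]
  exfalso
  -- degree
  have hdeg : U.natDegree ≤ 4 * p - 1 := by
    have h1 := natDegree_XX hp h
    rw [hU, natDegree_mul hvne hU0] at h1
    omega
  have hψdeg : ψ.natDegree ≤ 3 := by
    rw [← hexp, natDegree_expand] at hdeg
    by_contra hc
    have : 4 ≤ ψ.natDegree := by omega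
    have : 4 * p ≤ ψ.natDegree * p := Nat.mul_le_mul_right p this
    omega
  have hU0' : U.eval 0 = 0 := by
    have h1 := XX_zero hp h
    rw [hU, eval_mul, hv0, one_mul] at h1
    exact h1
  have hψ0 : ψ.coeff 0 = 0 := by
    rw [← hexp, expand_eval, zero_pow hpr.ne_zero, ← coeff_zero_eq_eval_zero] at hU0'
    exact hU0'
  have hψe : ψ = C (ψ.coeff 1) * X + C (ψ.coeff 2) * X ^ 2 + C (ψ.coeff 3) * X ^ 3 := by
    conv_lhs => rw [as_sum_range' ψ 4 (by omega)]
    simp only [Finset.sum_range_succ, Finset.sum_range_zero, ← C_mul_X_pow_eq_monomial, hψ0,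
      C_0, zero_mul, zero_add, pow_one]
  have hUe : U = C (ψ.coeff 1) * X ^ p + C (ψ.coeff 2) * X ^ (2 * p) +
      C (ψ.coeff 3) * X ^ (3 * p) := by
    rw [← hexp]
    conv_lhs => rw [hψe]
    simp only [map_add, map_mul, map_pow, expand_C, expand_X]
    rw [← pow_mul, ← pow_mul, mul_comm p 2, mul_comm p 3]
  -- `1 - X^3` divides `U`
  have hdvdX : (1 - X ^ 3 : (ZMod p)[X]) ∣ XX p Cz Bz := by
    have ha : (1 - X : (ZMod p)[X]) ∣ XX p Cz Bz := by
      have := (dvd_iff_isRoot (p := XX p Cz Bz) (a := 1)).mpr (XX_dvd_a hp h)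
      rw [C_1] at this
      obtain ⟨q, hq⟩ := this
      exact ⟨-q, by rw [hq]; ring⟩
    have hb := XX_dvd_b hp h
    have hcop : IsCoprime (1 - X : (ZMod p)[X]) (1 + X + X ^ 2) := by
      have h3' : (C (3⁻¹ : ZMod p) : (ZMod p)[X]) * 3 = 1 := by
        rw [show (3 : (ZMod p)[X]) = C 3 from rfl, ← C_mul, inv_mul_cancel₀ (three_ne' hp), C_1]
      refine ⟨C (3⁻¹ : ZMod p) * (X + 2), C (3⁻¹ : ZMod p), ?_⟩
      linear_combination h3'
    have := hcop.mul_dvd ha hb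
    rwa [show (1 - X : (ZMod p)[X]) * (1 + X + X ^ 2) = 1 - X ^ 3 by ring] at this
  have hdvdU : (1 - X ^ 3 : (ZMod p)[X]) ∣ U := by
    rw [hU] at hdvdX
    exact (vv_coprime_cube hp).symm.dvd_of_dvd_mul_left hdvdX
  have hXk : ∀ k : ℕ, (1 - X ^ 3 : (ZMod p)[X]) ∣ X ^ (3 * k) - 1 := by
    intro k
    have h2 : (X ^ 3 - 1 : (ZMod p)[X]) ∣ (X ^ 3) ^ k - 1 ^ k := sub_dvd_pow_sub_pow _ _ _
    rw [one_pow, ← pow_mul] at h2
    have h1 : (1 - X ^ 3 : (ZMod p)[X]) ∣ X ^ 3 - 1 := ⟨-1, by ring⟩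
    exact h1.trans h2
  have hzero : ψ.coeff 1 = 0 ∧ ψ.coeff 2 = 0 ∧ ψ.coeff 3 = 0 := by
    have hr : p % 3 = 1 ∨ p % 3 = 2 := by omega
    rcases hr with hr | hr
    · obtain ⟨k, hk⟩ : ∃ k, p = 3 * k + 1 := ⟨p / 3, by omega⟩
      apply comb_zero hp 1 2 (Or.inl ⟨rfl, rfl⟩)
      have e : C (ψ.coeff 1) * X ^ 1 + C (ψ.coeff 2) * X ^ 2 + C (ψ.coeff 3) =
          U - (C (ψ.coeff 1) * X * (X ^ (3 * k) - 1) + C (ψ.coeff 2) * X ^ 2 *
            (X ^ (3 * (2 * k)) - 1) + C (ψ.coeff 3) * (X ^ (3 * p) - 1)) := by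
        conv_rhs => rw [hUe]
        have e1 : (X ^ p : (ZMod p)[X]) = X * X ^ (3 * k) := by
          rw [← pow_succ']; congr 1
        have e2 : (X ^ (2 * p) : (ZMod p)[X]) = X ^ 2 * X ^ (3 * (2 * k)) := by
          rw [← pow_add]; congr 1; omega
        rw [e1, e2]
        ring
      rw [e]
      exact dvd_sub hdvdU (dvd_add (dvd_add (Dvd.dvd.mul_left (hXk _) _)
        (Dvd.dvd.mul_left (hXk _) _)) (Dvd.dvd.mul_left (hXk _) _))
    · obtain ⟨k, hk⟩ : ∃ k, p = 3 * k + 2 := ⟨p / 3, by omega⟩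
      apply comb_zero hp 2 1 (Or.inr ⟨rfl, rfl⟩)
      have e : C (ψ.coeff 1) * X ^ 2 + C (ψ.coeff 2) * X ^ 1 + C (ψ.coeff 3) =
          U - (C (ψ.coeff 1) * X ^ 2 * (X ^ (3 * k) - 1) + C (ψ.coeff 2) * X *
            (X ^ (3 * (2 * k + 1)) - 1) + C (ψ.coeff 3) * (X ^ (3 * p) - 1)) := by
        conv_rhs => rw [hUe]
        have e1 : (X ^ p : (ZMod p)[X]) = X ^ 2 * X ^ (3 * k) := by
          rw [← pow_add]; congr 1; omega
        have e2 : (X ^ (2 * p) : (ZMod p)[X]) = X * X ^ (3 * (2 * k + 1)) := by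
          rw [← pow_succ']; congr 1; omega
        rw [e1, e2]
        ring
      rw [e]
      exact dvd_sub hdvdU (dvd_add (dvd_add (Dvd.dvd.mul_left (hXk _) _)
        (Dvd.dvd.mul_left (hXk _) _)) (Dvd.dvd.mul_left (hXk _) _))
  apply hU0
  rw [hUe, hzero.1, hzero.2.1, hzero.2.2]
  simp

end SCong
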